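import Pool.Agent.LibB35.Fam
import Pool.Agent.LibGWa.U8

/-! The moments of the statistics over the blocks. -/

open MeasureTheory Set Filter Topology
open scoped ContDiff unitInterval

namespace B35

open BGS BR Mes

/-- The moments of the statistics of the amplitudes `A j` over the blocks. -/
def BK (lev : ℕ → ℝ) (A : ℕ → ℝ → ℂ) : Prop :=
  ∀ (j r K : ℕ) (u v : ℚ), 0 < u → u < v → ∀ ε : ℝ, 0 < ε → ∃ (Λ : ℝ) (k0 : ℕ), ∀ k ≥ k0,
    ∀ i : ℕ, Λ ≤ 2 ^ i → (2 : ℝ) ^ i ≤ K * k →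
      |1 / (((v : ℝ) - u) * 2 ^ k) * (∫ τ in ((u : ℝ) * 2 ^ k)..((v : ℝ) * 2 ^ k),
        GWin.st lev (A j) (2 ^ i) τ ^ r) - gaussMom (GWin.vg (A j)) r| ≤ ε

end B35
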