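import Pool.Agent.LibBE88.Defs
import Pool.Agent.LibBE73.Defs
import Pool.Agent.LibBGM20.R0
import Pool.Agent.LibGD33.Asm1

/-! Windows beyond the Ehrenfest time (stage 2): definitions (architect helper35). -/

open MeasureTheory Set Filter Topology
open scoped ContDiff unitInterval

namespace B35

open BGS BR

/-! ### The geometric side of the trace formula -/

/-- The term of `γ` in the trace of the parametrix of order `N`. -/
noncomputable def IKN {Γ : Type} [Group Γ] [MulAction Γ Pl] (D : Set Pl) (m : Pl → Co) (N : ℕ)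
    (q : ℝ → ℝ) (γ : Γ) : ℝ :=
  ∫ x in D, KK (Gx m x) N q (Vx m x (γ • x)) * √(dt (m x))

/-- The geometric side. -/
noncomputable def Sg {Γ : Type} [Group Γ] [MulAction Γ Pl] (D : Set Pl) (m : Pl → Co) (N : ℕ)
    (b : ℝ → ℂ) (τ : ℝ) : ℝ :=
  ∑ᶠ γ ∈ {γ : Γ | γ ≠ 1}, IKN D m N (osc b τ) γ

/-- The symbol of the Abel transform `A_j` of `osc b τ`:
`Ab j (osc b τ) (r ^ 2) = Re (exp (-i τ r) al j b τ r)` for `r > 0`. -/
noncomputable def al (j : ℕ) (b : ℝ → ℂ) (τ r : ℝ) : ℂ :=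
  -((1 / (√Real.pi * Real.Gamma ((j : ℝ) + 1 / 2)) : ℝ) : ℂ) *
    ∫ u in Ioi (0 : ℝ), (-(Complex.I * τ) * b (r + u) + deriv b (r + u)) *
      (((u * (2 * r + u)) ^ ((j : ℝ) - 1 / 2) : ℝ) : ℂ) * Complex.exp (-(Complex.I * τ * u))

/-- The complex kernel: `KK .. (osc b τ) .. = Re (exp (-i τ d) KC)`. -/
noncomputable def KC (m : Pl → Co) (N : ℕ) (b : ℝ → ℂ) (τ : ℝ) (x y : Pl) : ℂ :=
  ∑ j ∈ Finset.range (N + 1), ((UU (Gx m x) j (Vx m x y) : ℝ) : ℂ) * al j b τ (BR.ds m x y)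

/-- The integrand. -/
noncomputable def KE {Γ : Type} [Group Γ] [MulAction Γ Pl] (m : Pl → Co) (N : ℕ) (b : ℝ → ℂ)
    (τ : ℝ) (g : Γ) (x : Pl) : ℂ :=
  Complex.exp (-(Complex.I * τ * BR.ds m x (g • x))) * KC m N b τ x (g • x)

/-- The cut-off on the line: one on `[-1, 1]`, zero outside `[-2, 2]`. -/
noncomputable def cut : ContDiffBump (0 : ℝ) := ⟨1, 2, by norm_num, by norm_num⟩

/-- The contribution of the class of `g` for the metric `m1`, localised to the distance `2 δ` of the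
axis `(x0, v0)` of the metric `m0`. -/
noncomputable def ZL {Γ : Type} [Group Γ] [MulAction Γ Pl] (m0 m1 : Pl → Co) (δ : ℝ) (N : ℕ)
    (b : ℝ → ℂ) (τ : ℝ) (g : Γ) (x0 v0 : Pl) (l0 : ℝ) : ℂ :=
  ∫ s in (0 : ℝ)..l0, ∫ y : ℝ, ((cut (y / δ) : ℝ) : ℂ) * KE m1 N b τ g (Fm m0 x0 v0 (s, y)) *
    ((√(dt (m1 (Fm m0 x0 v0 (s, y)))) * |(fderiv ℝ (Fm m0 x0 v0) (s, y)).det| : ℝ) : ℂ)

/-- `z` or its conjugate. -/
noncomputable def cj (e : Bool) (z : ℂ) : ℂ := if e then z else (starRingEnd ℂ) z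

/-- The sign. -/
def sgn (e : Bool) : ℝ := if e then 1 else -1

/-! ### The closed geodesics -/

/-- The oriented closed geodesics: `(p, n, o)` is the `(n + 1)`-fold repetition of the primitive
unoriented class `p` with the orientation `o`. -/
abbrev Cg (Γ : Type) [Group Γ] : Type := GH.PG Γ × ℕ × Bool

/-- The primitive element. -/
noncomputable def gpr {Γ : Type} [Group Γ] (q : Cg Γ) : Γ :=
  if q.2.2 then GH.rep q.1 else (GH.rep q.1)⁻¹

/-- The element. -/
noncomputable def gel {Γ : Type} [Group Γ] (q : Cg Γ) : Γ := gpr q ^ (q.2.1 + 1)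

variable {Γ : Type} [Group Γ] [MulAction Γ Pl] {D : Set Pl}

/-- The primitive length. -/
noncomputable def lp (m : Pl → Co) (p : GH.PG Γ) : ℝ := BGM.tl m (GH.rep p)

/-- The length. -/
noncomputable def ln (m : Pl → Co) (q : Cg Γ) : ℝ := (q.2.1 + 1) * lp m q.1

/-- The weight: primitive length over the root of `tr - 2`. -/
noncomputable def wg (m : Pl → Co) (q : Cg Γ) : ℝ := lp m q.1 / √(GD.trg m (gel q) - 2)

open Classical in
/-- A tangent vector of the axis of `g`. -/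
noncomputable def ax (m : Pl → Co) (g : Γ) : Pl × Pl :=
  if h : ∃ x : Pl × Pl, Axis m g x.1 x.2 (BGM.tl m g) then h.choose else 0

/-- The localised contribution of `q`. -/
noncomputable def zl (m0 m1 : Pl → Co) (δ : ℝ) (N : ℕ) (b : ℝ → ℂ) (τ : ℝ) (q : Cg Γ) : ℂ :=
  ZL m0 m1 δ N b τ (gel q) (ax m0 (gpr q)).1 (ax m0 (gpr q)).2 (lp m0 q.1)

/-- The leading term without the phase, and with the phase. -/
noncomputable def mt (m : Pl → Co) (b : ℝ → ℂ) (q : Cg Γ) : ℂ := ((wg m q : ℝ) : ℂ) * b (ln m q)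

noncomputable def mz (m : Pl → Co) (b : ℝ → ℂ) (τ : ℝ) (q : Cg Γ) : ℂ :=
  mt m b q * Complex.exp (-(Complex.I * τ * ln m q))

open Classical in
/-- The finite set of the closed geodesics of length at most `t`. -/
noncomputable def Cs (m : Pl → Co) (t : ℝ) : Finset (Cg Γ) :=
  if h : {q : Cg Γ | ln m q ≤ t}.Finite then h.toFinset else ∅

/-- The time spent by the primitive closed geodesic `p` in the cell `c` of the mesh `1 / R`. -/
noncomputable def vis (m : Pl → Co) (R : ℕ) (c : ℤ × ℤ) (p : GH.PG Γ) : ℝ :=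
  ∫ t in (0 : ℝ)..lp m p, per Γ (BGM.bmq R c)
    (gfl m t (ax m (GH.rep p))).1

/-! ### The random metrics -/

/-- The fixed data: a metric, the deterministic exponent, the size of the grid, the sizes of the
coefficients. -/
structure Dt where
  m : Pl → Co
  ψ : Pl → ℝ
  L : ℕ
  c : ℕ → ℝ

/-- The exponent normalised to area one. -/
noncomputable def nx (D : Set Pl) (m : Pl → Co) (h : Pl → ℝ) (z : Pl) : ℝ :=
  h z - Real.log (∫ w in D, Real.exp (h w) * √(dt (m w)))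

/-- The exponent of the random metric of area one. -/
noncomputable def Dt.h (P : Dt) (Γ : Type) [Group Γ] [MulAction Γ Pl] (D : Set Pl) (ξ : Dir → I)
    (z : Pl) : ℝ := nx D P.m (BGM.ex Γ P.ψ P.L P.c ξ) z

/-- The random metric of area one. -/
noncomputable def Dt.X (P : Dt) (Γ : Type) [Group Γ] [MulAction Γ Pl] (D : Set Pl) (ξ : Dir → I)
    (z : Pl) : Co := Real.exp (P.h Γ D ξ z) • P.m z

/-- The size of the coefficients of the scale `R`. -/
noncomputable def cn (R : ℕ) : ℝ := Real.exp (-(Real.log (R + 1)) ^ (5 / 4 : ℝ))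

/-- The hypotheses on the data. -/
structure OkD (Γ : Type) [Group Γ] [MulAction Γ Pl] (D : Set Pl) (P : Dt) : Prop where
  cx : BGM.Cx Γ D P.m P.ψ P.L P.c
  ori : Ori Γ
  hm : HM Γ P.m
  c : ∃ s : ℝ, 0 < s ∧ s ≤ 1 ∧ ∀ R, P.c R = s * cn R

/-- The scale of the block `T = 2 ^ k`; its mesh is `1 / (bk k + 1)`. -/
noncomputable def bk (k : ℕ) : ℕ := ⌈Real.exp ((k : ℝ) ^ (2 / 3 : ℝ))⌉₊

/-- The width of the localisation in the block `T = 2 ^ k`. -/
noncomputable def dl (k : ℕ) : ℝ := Real.exp (-(k : ℝ) ^ (3 / 4 : ℝ))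

/-- Replace the coefficients of the scale `n`. -/
def mix (n : ℕ) (ξ η : Dir → I) : Dir → I := fun d => if d.1 = n then η d else ξ d

/-- Put the coefficients of the scale `n` equal to zero. -/
def zer (n : ℕ) (ξ : Dir → I) : Dir → I := fun d => if d.1 = n then 0 else ξ d

/-- The base metric of the block `k`. -/
noncomputable def Dt.X0 (P : Dt) (Γ : Type) [Group Γ] [MulAction Γ Pl] (D : Set Pl) (k : ℕ)
    (ξ : Dir → I) : Pl → Co := P.X Γ D (zer (bk k) ξ)

/-- The base metric of the block `k` has curvature at most `-κ²`. -/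
def Dt.B (P : Dt) (Γ : Type) [Group Γ] [MulAction Γ Pl] (D : Set Pl) (κ : ℝ) (k : ℕ) :
    Set (Dir → I) := {ξ | ∀ z, curv (P.X0 Γ D k ξ) z ≤ -κ ^ 2}

/-- The law of one coefficient: a smooth density on the line that vanishes outside `[0, 1]`. -/
structure Den (ν : Measure I) (ρ : ℝ → ℝ) : Prop where
  prob : IsProbabilityMeasure ν
  smooth : ContDiff ℝ ∞ ρ
  nonneg : ∀ t, 0 ≤ ρ t
  supp : ∀ t, t ∉ Icc (0 : ℝ) 1 → ρ t = 0
  int : ∀ f : ℝ → ℂ, Continuous f → ∫ t : I, f t ∂ν = ∫ t in (0 : ℝ)..1, (ρ t : ℂ) * f t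

/-- The law of all coefficients. -/
noncomputable def Pm (ν : Measure I) : Measure (Dir → I) := Measure.infinitePi fun _ : Dir => ν

open Classical in
/-- The `r`-th moment of the geometric side over the window `[u T, v T]`, `T = 2 ^ k`. -/
noncomputable def Dt.M (P : Dt) (Γ : Type) [Group Γ] [MulAction Γ Pl] (D : Set Pl) (N : ℕ)
    (a : ℝ → ℂ) (r : ℕ) (u v : ℝ) (k : ℕ) (L : ℝ) (ξ : Dir → I) : ℝ :=
  if ∀ z, curv (P.X Γ D ξ) z < 0 then
    1 / ((v - u) * 2 ^ k) * ∫ τ in (u * 2 ^ k)..(v * 2 ^ k),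
      Sg (Γ := Γ) D (P.X Γ D ξ) N (GWin.sc a L) τ ^ r
  else 0

end B35
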