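import Pool.Agent.LibB35.BK

/-! Diagonalisation: the block theorem for all `K` gives the block theorem for a slowly growing `κ`
(architect helper99). -/

open MeasureTheory Set Filter Topology
open scoped ContDiff unitInterval

namespace B35

open BGS BR Mes

/-- The level: increases by at most one at each step, and only if the next bound allows it. -/
def kap (N : ℕ → ℕ) : ℕ → ℕ
  | 0 => 1
  | k + 1 => if N (kap N k + 1) ≤ k + 1 then kap N k + 1 else kap N k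

theorem kap_step (N : ℕ → ℕ) (k : ℕ) : kap N k ≤ kap N (k + 1) ∧ kap N (k + 1) ≤ kap N k + 1 := by
  show kap N k ≤ (if N (kap N k + 1) ≤ k + 1 then kap N k + 1 else kap N k) ∧
    (if N (kap N k + 1) ≤ k + 1 then kap N k + 1 else kap N k) ≤ kap N k + 1
  split_ifs <;> omega

theorem kap_mono (N : ℕ → ℕ) : Monotone (kap N) := monotone_nat_of_le_succ fun k => (kap_step N k).1

theorem kap_pos (N : ℕ → ℕ) (k : ℕ) : 1 ≤ kap N k := kap_mono N (Nat.zero_le k)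

theorem kap_inv (N : ℕ → ℕ) (k : ℕ) : kap N k = 1 ∨ N (kap N k) ≤ k := by
  induction k with
  | zero => exact Or.inl rfl
  | succ k ih =>
    by_cases h : N (kap N k + 1) ≤ k + 1
    · have e : kap N (k + 1) = kap N k + 1 := if_pos h
      right
      rw [e]
      exact h
    · have e : kap N (k + 1) = kap N k := if_neg h
      rw [e]
      rcases ih with ih | ih
      · exact Or.inl ih
      · exact Or.inr (ih.trans (Nat.le_succ k))

theorem kap_unb (N : ℕ → ℕ) (K : ℕ) : ∃ k, K ≤ kap N k := by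
  induction K with
  | zero => exact ⟨0, Nat.zero_le _⟩
  | succ K ih =>
    obtain ⟨k, hk⟩ := ih
    set k' := max k (N (K + 1)) with hk'
    have h1 : K ≤ kap N k' := hk.trans (kap_mono N (le_max_left _ _))
    rcases Nat.lt_or_ge K (kap N k') with h2 | h2
    · exact ⟨k', h2⟩
    · have h3 : kap N k' = K := le_antisymm h2 h1
      refine ⟨k' + 1, ?_⟩
      have h4 : N (kap N k' + 1) ≤ k' + 1 := by
        rw [h3]
        exact (le_max_right _ _).trans (Nat.le_succ _)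
      have e : kap N (k' + 1) = kap N k' + 1 := if_pos h4
      rw [e, h3]

theorem kap_tendsto (N : ℕ → ℕ) : Tendsto (kap N) atTop atTop :=
  tendsto_atTop_atTop_of_monotone (kap_mono N) (kap_unb N)

/-- The abstract diagonalisation. -/
theorem diag_abs {X : Type} [Encodable X] (S : X → ℕ → ℕ → Prop)
    (h : ∀ (x : X) (K : ℕ), ∃ (Λ : ℝ) (k0 : ℕ), ∀ k ≥ k0, ∀ i : ℕ, Λ ≤ 2 ^ i →
      (2 : ℝ) ^ i ≤ K * k → S x k i) :
    ∃ κ : ℕ → ℝ, Monotone κ ∧ Tendsto κ atTop atTop ∧ (∀ k, κ (k + 1) ≤ 2 * κ k) ∧ 1 ≤ κ 0 ∧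
      ∀ x : X, ∃ (Λ : ℝ) (k0 : ℕ), ∀ k ≥ k0, ∀ i : ℕ, Λ ≤ 2 ^ i →
        (2 : ℝ) ^ i ≤ κ k * k → S x k i := by
  choose Λ k0 hS using h
  let B : ℕ → ℕ → ℕ := fun c K => match Encodable.decode (α := X) c with
    | some x => k0 x K + ⌈Λ x K⌉₊
    | none => 0
  have hB : ∀ (x : X) (K : ℕ), B (Encodable.encode x) K = k0 x K + ⌈Λ x K⌉₊ := by
    intro x K
    show (match Encodable.decode (α := X) (Encodable.encode x) with
      | some x => k0 x K + ⌈Λ x K⌉₊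
      | none => 0) = _
    rw [Encodable.encodek]
  let N : ℕ → ℕ := fun K => ∑ c ∈ Finset.range (K + 1), ∑ K' ∈ Finset.range (K + 1), B c K'
  have hN : ∀ (x : X) (K K' : ℕ), Encodable.encode x ≤ K → K' ≤ K →
      k0 x K' ≤ N K ∧ Λ x K' ≤ N K := by
    intro x K K' h1 h2
    have e1 : B (Encodable.encode x) K' ≤ N K := by
      have e2 : B (Encodable.encode x) K' ≤
          ∑ K'' ∈ Finset.range (K + 1), B (Encodable.encode x) K'' :=
        Finset.single_le_sum (f := fun K'' => B (Encodable.encode x) K'')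
          (fun _ _ => Nat.zero_le _) (Finset.mem_range.2 (by omega))
      refine e2.trans ?_
      exact Finset.single_le_sum (f := fun c => ∑ K'' ∈ Finset.range (K + 1), B c K'')
        (fun _ _ => Nat.zero_le _) (Finset.mem_range.2 (by omega))
    rw [hB] at e1
    refine ⟨by omega, ?_⟩
    calc Λ x K' ≤ (⌈Λ x K'⌉₊ : ℝ) := Nat.le_ceil _
      _ ≤ (N K : ℝ) := by exact_mod_cast (by omega : ⌈Λ x K'⌉₊ ≤ N K)
  refine ⟨fun k => (kap N k : ℝ), ?_, ?_, ?_, ?_, ?_⟩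
  · intro a b hab
    show (kap N a : ℝ) ≤ (kap N b : ℝ)
    exact_mod_cast kap_mono N hab
  · exact tendsto_natCast_atTop_atTop.comp (kap_tendsto N)
  · intro k
    have h1 := (kap_step N k).2
    have h2 := kap_pos N k
    show (kap N (k + 1) : ℝ) ≤ 2 * (kap N k : ℝ)
    exact_mod_cast (by omega : kap N (k + 1) ≤ 2 * kap N k)
  · show (1 : ℝ) ≤ (kap N 0 : ℝ)
    exact_mod_cast kap_pos N 0
  · intro x
    obtain ⟨k1, hk1⟩ := kap_unb N (Encodable.encode x)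
    set K0 : ℕ := kap N (max k1 (N 1)) with hK0
    refine ⟨Λ x K0, max (max k1 (N 1)) (N K0), fun k hk i hi1 hi2 => ?_⟩
    have hk2 : max k1 (N 1) ≤ k := (le_max_left _ _).trans hk
    have hk3 : N K0 ≤ k := (le_max_right _ _).trans hk
    have hc0 : Encodable.encode x ≤ K0 := hk1.trans (kap_mono N (le_max_left _ _))
    have hKK : K0 ≤ kap N k := kap_mono N hk2
    have hNk : N (kap N k) ≤ k := by
      rcases kap_inv N k with h1 | h1
      · rw [h1]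
        exact (le_max_right _ _).trans hk2
      · exact h1
    change (2 : ℝ) ^ i ≤ (kap N k : ℝ) * k at hi2
    rcases le_or_gt ((2 : ℝ) ^ i) (K0 * k) with h1 | h1
    · exact hS x K0 k (((hN x K0 K0 hc0 le_rfl).1).trans hk3) i hi1 h1
    · have hcK : Encodable.encode x ≤ kap N k := hc0.trans hKK
      obtain ⟨e1, e2⟩ := hN x (kap N k) (kap N k) hcK le_rfl
      refine hS x (kap N k) k (e1.trans hNk) i ?_ hi2
      have h3 : (1 : ℝ) ≤ K0 := by exact_mod_cast kap_pos N _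
      have h4 : (k : ℝ) ≤ K0 * k := le_mul_of_one_le_left (Nat.cast_nonneg k) h3
      have h5 : (N (kap N k) : ℝ) ≤ k := by exact_mod_cast hNk
      linarith

/-- The moments over the blocks for windows up to `κ k * k`. -/
def BKk (lev : ℕ → ℝ) (A : ℕ → ℝ → ℂ) (κ : ℕ → ℝ) : Prop :=
  ∀ (j r : ℕ) (u v : ℚ), 0 < u → u < v → ∀ ε : ℝ, 0 < ε → ∃ (Λ : ℝ) (k0 : ℕ), ∀ k ≥ k0,
    ∀ i : ℕ, Λ ≤ 2 ^ i → (2 : ℝ) ^ i ≤ κ k * k →
      |1 / (((v : ℝ) - u) * 2 ^ k) * (∫ τ in ((u : ℝ) * 2 ^ k)..((v : ℝ) * 2 ^ k),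
        GWin.st lev (A j) (2 ^ i) τ ^ r) - gaussMom (GWin.vg (A j)) r| ≤ ε

theorem diag {lev : ℕ → ℝ} {A : ℕ → ℝ → ℂ} (h : BK lev A) : ∃ κ : ℕ → ℝ, Monotone κ ∧
    Tendsto κ atTop atTop ∧ (∀ k, κ (k + 1) ≤ 2 * κ k) ∧ 1 ≤ κ 0 ∧ BKk lev A κ := by
  obtain ⟨κ, h1, h2, h3, h4, h5⟩ := diag_abs (X := ℕ × ℕ × ℚ × ℚ × ℕ)
    (fun x k i => 0 < x.2.2.1 → x.2.2.1 < x.2.2.2.1 →
      |1 / (((x.2.2.2.1 : ℝ) - x.2.2.1) * 2 ^ k) *
        (∫ τ in ((x.2.2.1 : ℝ) * 2 ^ k)..((x.2.2.2.1 : ℝ) * 2 ^ k),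
        GWin.st lev (A x.1) (2 ^ i) τ ^ x.2.1) - gaussMom (GWin.vg (A x.1)) x.2.1| ≤
        1 / ((x.2.2.2.2 : ℝ) + 1)) (by
      rintro ⟨j, r, u, v, n⟩ K
      by_cases huv : 0 < u ∧ u < v
      · obtain ⟨Λ, k0, hk⟩ := h j r K u v huv.1 huv.2 (1 / ((n : ℝ) + 1)) (by positivity)
        exact ⟨Λ, k0, fun k hk0 i hi1 hi2 _ _ => hk k hk0 i hi1 hi2⟩
      · exact ⟨0, 0, fun k _ i _ _ hu hv => absurd ⟨hu, hv⟩ huv⟩)
  refine ⟨κ, h1, h2, h3, h4, ?_⟩
  intro j r u v hu huv ε hε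
  obtain ⟨n, hn⟩ := exists_nat_one_div_lt hε
  obtain ⟨Λ, k0, hk⟩ := h5 (j, r, u, v, n)
  exact ⟨Λ, k0, fun k hk0 i hi1 hi2 => (hk k hk0 i hi1 hi2 hu huv).trans hn.le⟩

end B35
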