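import Pool.Agent.LibB35.Fin1
import Pool.Agent.LibB35.Dg
import Pool.Agent.LibFB23.Defs
import Pool.Agent.LibFB23.R18
import Pool.Agent.LibFB23.Fin

/-! The final theorem with one function `Lam`, `Lam / log → ∞`, for all windows (architect helper99);
`FBK` is the result of LibFB23 (helper23). -/

open MeasureTheory ProbabilityTheory Set Filter Topology
open scoped ContDiff unitInterval

namespace B35

open BGS BR Mes
open Pool.BGR (PM)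
open BE33 (um)

theorem BA_of_BK {lev : ℕ → ℝ} {A : ℕ → ℝ → ℂ} (h : BK lev A) (K : ℕ) (j : ℕ) :
    FB23.BA lev (fun k => (K : ℝ) * k) (A j) :=
  fun r u v hu huv ε hε => h j r K u v hu huv ε hε

theorem BA_of_BKk {lev : ℕ → ℝ} {A : ℕ → ℝ → ℂ} {κ : ℕ → ℝ} (h : BKk lev A κ) (j : ℕ) :
    FB23.BA lev (fun k => κ k * k) (A j) :=
  fun r u v hu huv ε hε => h j r u v hu huv ε hε

/-- The diagonalisation in the form of LibFB23. -/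
theorem diag_BA {lev : ℕ → ℝ} {A : ℕ → ℝ → ℂ} (h : BK lev A) : ∃ κ : ℕ → ℝ, Monotone κ ∧
    Tendsto κ atTop atTop ∧ (∀ k, κ (k + 1) ≤ 2 * κ k) ∧ 1 ≤ κ 0 ∧
      ∀ j, FB23.BA lev (fun k => κ k * k) (A j) := by
  obtain ⟨κ, h1, h2, h3, h4, h5⟩ := diag h
  exact ⟨κ, h1, h2, h3, h4, BA_of_BKk h5⟩

/-- Part F2 with an arbitrary bound for the windows. -/
def FBK (A : ℕ → ℝ → ℂ) : Prop :=
  (∀ j, FG33.IsAmp (A j)) ∧ ∀ (lev : ℕ → ℝ), GWin.Lev lev → ∀ κ : ℕ → ℝ,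
    (∀ j, FB23.BA lev κ (A j)) → ∀ L : ℝ → ℝ, Tendsto L atTop atTop →
    (∀ᶠ T in atTop, L T ≤ κ (FB23.dk T)) → ∀ a : ℝ → ℂ, FG33.IsAmp a →
    ∀ r : ℕ, Tendsto (fun T => (1 / T) * ∫ τ in T..2 * T, GWin.st lev a (L T) τ ^ r) atTop
      (𝓝 (gaussMom (GWin.vg a) r))

variable {Γ : Type} [Group Γ] [MulAction Γ Pl] {D : Set Pl}

/-- One metric. -/
theorem exists_Lam {A : ℕ → ℝ → ℂ} (hF : FBK A) {m' : Mt Γ D}
    (hl : GWin.Lev (FG33.lam m')) (hB : BK (FG33.lam m') A) :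
    ∃ Lam : ℝ → ℝ, Tendsto (fun T => Lam T / Real.log T) atTop atTop ∧
      ∀ L : ℝ → ℝ, Tendsto L atTop atTop → (∀ᶠ T in atTop, L T ≤ Lam T) →
        FG33.GOEWindows m' L := by
  obtain ⟨κ, h1, h2, h3, h4, h5⟩ := diag_BA hB
  refine ⟨fun T => κ (FB23.dk T) * (FB23.dk T : ℝ), ?_, ?_⟩
  · have e1 : Tendsto (fun T : ℝ => κ (FB23.dk T)) atTop atTop := h2.comp FB23.dk_tendsto
    refine tendsto_atTop_mono' _ ?_ e1
    filter_upwards [eventually_gt_atTop (1 : ℝ), FB23.log_le_dk] with T hT hT2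
    have h6 : 0 < Real.log T := Real.log_pos hT
    rw [le_div_iff₀ h6]
    have h7 : 0 ≤ κ (FB23.dk T) := by
      have := h1 (Nat.zero_le (FB23.dk T))
      linarith
    exact mul_le_mul_of_nonneg_left hT2 h7
  · intro L hL hLe
    exact goe_of_mom hl hL fun a ha r => hF.2 _ hl _ h5 L hL hLe a ha r

/-- **Windows beyond the Ehrenfest time**, with one bound for all windows. -/
theorem ae_Lam {A : ℕ → ℝ → ℂ} (hF : FBK A) (hX : Surface Γ D) (hO : Ori Γ) {L₀ : ℕ}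
    (hL₀ : ∀ z ∈ closure D, |z.1| ≤ (L₀ : ℝ) - 1 ∧ |z.2| ≤ (L₀ : ℝ) - 1) {u : I → I}
    (hu : BE33.Qt u) (m : Mt Γ D) {ψ : Pl → ℝ} (hψ : ψ ∈ Test Γ) {s : ℝ} (hs : 0 < s)
    (hs1 : s ≤ 1) :
    ∀ᵐ ξ ∂(PM Dir), ∀ m' : Mt Γ D,
      (∃ q : ℝ, 0 < q ∧ ∀ z, m'.1.1 z =
        (q * Real.exp (ψ z + s * BGM.ps Γ L₀ BE33.cn (um u ξ) z)) • m.1.1 z) →
      ∃ Lam : ℝ → ℝ, Tendsto (fun T => Lam T / Real.log T) atTop atTop ∧
        ∀ L : ℝ → ℝ, Tendsto L atTop atTop → (∀ᶠ T in atTop, L T ≤ Lam T) →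
          FG33.GOEWindows m' L := by
  have hP := okD_of hX hO hL₀ m hψ hs hs1
  have h1 := ae_blocks' hP (den_of_Qt hu) hF.1
  rw [← Pm_map hu] at h1
  have h2 := ae_of_ae_map (meas_um hu).aemeasurable h1
  filter_upwards [h2] with ξ hξ m' hm'
  obtain ⟨q, hq, hm'⟩ := hm'
  have heq := X_of hq hm'
  have hneg : ∀ z, curv (Dt.X ⟨m.1.1, ψ, L₀, fun R => s * BE33.cn R⟩ Γ D (um u ξ)) z < 0 := by
    intro z
    rw [← heq]
    exact m'.2.neg z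
  exact exists_Lam hF (GD.lev hX m') (hξ hneg m' heq)

/-- The statement for all windows up to `K log T` follows. -/
theorem of_Lam {m' : Mt Γ D} {Lam : ℝ → ℝ}
    (h1 : Tendsto (fun T => Lam T / Real.log T) atTop atTop)
    (h2 : ∀ L : ℝ → ℝ, Tendsto L atTop atTop → (∀ᶠ T in atTop, L T ≤ Lam T) →
      FG33.GOEWindows m' L) (L : ℝ → ℝ) (hL : Tendsto L atTop atTop)
    (hK : ∃ K : ℝ, ∀ᶠ T in atTop, L T ≤ K * Real.log T) : FG33.GOEWindows m' L := by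
  obtain ⟨K, hK⟩ := hK
  refine h2 L hL ?_
  filter_upwards [hK, h1.eventually_ge_atTop K, eventually_gt_atTop (1 : ℝ)] with T e1 e2 e3
  have e4 : 0 < Real.log T := Real.log_pos e3
  rw [le_div_iff₀ e4] at e2
  exact e1.trans e2

theorem exists_FBK : ∃ A : ℕ → ℝ → ℂ, FBK A := by
  obtain ⟨A, hA, h⟩ := FB23.from_blocks_f
  exact ⟨A, hA, fun lev hl κ hB L hL hLκ a ha r => h lev κ hl hB L hL hLκ a ha r⟩

/-- **Windows beyond the Ehrenfest time.** -/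
theorem beyond (hX : Surface Γ D) (hO : Ori Γ) :
    ∃ φ : (ℕ × (ℤ × ℤ) → I) → Pl → ℝ,
      (∀ ξ, φ ξ ∈ Test Γ) ∧ (∀ z, Measurable fun ξ => φ ξ z) ∧
      (∀ m : Mt Γ D, ∀ U ∈ 𝓝 m, ∃ s₀ : ℝ, 0 < s₀ ∧ ∀ s : ℝ, 0 < s → s ≤ s₀ → ∀ ξ,
        ∃ m' ∈ U, ∃ q : ℝ, 0 < q ∧ ∀ z, m'.1.1 z = (q * Real.exp (s * φ ξ z)) • m.1.1 z) ∧
      ∀ m : Mt Γ D, ∀ ψ ∈ Test Γ, ∀ s : ℝ, 0 < s → s ≤ 1 →
        ∀ᵐ ξ ∂(Measure.infinitePi fun _ : ℕ × (ℤ × ℤ) => (volume : Measure I)), ∀ m' : Mt Γ D,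
          (∃ q : ℝ, 0 < q ∧ ∀ z, m'.1.1 z = (q * Real.exp (ψ z + s * φ ξ z)) • m.1.1 z) →
          ∃ Lam : ℝ → ℝ, Tendsto (fun T => Lam T / Real.log T) atTop atTop ∧
            ∀ L : ℝ → ℝ, Tendsto L atTop atTop → (∀ᶠ T in atTop, L T ≤ Lam T) →
              FG33.GOEWindows m' L := by
  obtain ⟨L₀, hL₀⟩ := BGM.GM_dom hX
  obtain ⟨u, hu⟩ := BE33.exists_Qt
  obtain ⟨A, hA⟩ := exists_FBK
  have hcs : BGS.Cs BE33.cn := by
    have h := BE33.cn_Cs (s := 1) one_pos le_rfl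
    have h1 : (fun R => 1 * BE33.cn R) = BE33.cn := by
      funext R
      rw [one_mul]
    rwa [h1] at h
  refine ⟨fun ξ => BGM.ps Γ L₀ BE33.cn (um u ξ), fun ξ => BGM.ps_mem hX L₀ hcs (um u ξ),
    fun z => (BGM.QML_meas hX L₀ hcs z).comp (meas_um hu), fun m U hU => ?_,
    fun m ψ hψ s hs hs1 => ae_Lam hA hX hO hL₀ hu m hψ hs hs1⟩
  obtain ⟨s₀, hs₀, h⟩ := BGM.QML_near hX L₀ hcs m hU
  exact ⟨s₀, hs₀, fun s hs hs' ξ => h s hs hs' (um u ξ)⟩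

end B35
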