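import Pool.Agent.LibB35.Fam
import Pool.Agent.LibBE88.C4
import Pool.Agent.LibBE33.G2

/-! Common part of the rows FA1 and FA2: a criterion for families of class `CF` (helper62).
The first part (curvature of a conformal metric) is copied from LibBE33/G2. -/

open MeasureTheory Set Filter Topology
open scoped ContDiff unitInterval

namespace B35

open BGS BR BE
open Pool.BGR (upI)

variable {Γ : Type} [Group Γ] [MulAction Γ Pl] {D : Set Pl} {m : Pl → Co}

/-! ### derivatives of `exp f * g` (as in LibBGM20/E2l) -/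

/-- The derivative in the direction `v`. -/
private noncomputable def F0_d (v : Pl) (g : Pl → ℝ) (z : Pl) : ℝ := fderiv ℝ g z v

private theorem F0_smooth (v : Pl) {g : Pl → ℝ} (hg : ContDiff ℝ ∞ g) :
    ContDiff ℝ ∞ (F0_d v g) := Egr_smooth_v hg v

private theorem F0_df {g : Pl → ℝ} (hg : ContDiff ℝ ∞ g) (z : Pl) : DifferentiableAt ℝ g z :=
  (hg.differentiable (by simp)) z

private theorem F0_mul (v : Pl) {f g : Pl → ℝ} (hf : ContDiff ℝ ∞ f) (hg : ContDiff ℝ ∞ g)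
    (z : Pl) : F0_d v (fun z => f z * g z) z = f z * F0_d v g z + F0_d v f z * g z := by
  unfold F0_d
  rw [fderiv_fun_mul (F0_df hf z) (F0_df hg z)]
  simp only [add_apply, smul_apply, smul_eq_mul]
  ring

private theorem F0_add (v : Pl) {f g : Pl → ℝ} (hf : ContDiff ℝ ∞ f) (hg : ContDiff ℝ ∞ g)
    (z : Pl) : F0_d v (fun z => f z + g z) z = F0_d v f z + F0_d v g z := by
  unfold F0_d
  rw [fderiv_fun_add (F0_df hf z) (F0_df hg z)]
  rfl

private theorem F0_exp (v : Pl) {f : Pl → ℝ} (hf : ContDiff ℝ ∞ f) (z : Pl) :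
    F0_d v (fun z => Real.exp (f z)) z = Real.exp (f z) * F0_d v f z := by
  unfold F0_d
  rw [((F0_df hf z).hasFDerivAt.exp).fderiv]
  simp only [smul_apply, smul_eq_mul]

private theorem F0_one (v : Pl) {f g : Pl → ℝ} (hf : ContDiff ℝ ∞ f) (hg : ContDiff ℝ ∞ g) :
    F0_d v (fun z => Real.exp (f z) * g z) =
      fun z => Real.exp (f z) * (F0_d v f z * g z + F0_d v g z) := by
  funext z
  have he : ContDiff ℝ ∞ fun z => Real.exp (f z) := Real.contDiff_exp.comp hf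
  rw [F0_mul v he hg, F0_exp v hf]
  ring

private theorem F0_two (v w : Pl) {f g : Pl → ℝ} (hf : ContDiff ℝ ∞ f) (hg : ContDiff ℝ ∞ g)
    (z : Pl) : F0_d w (F0_d v (fun z => Real.exp (f z) * g z)) z =
      Real.exp (f z) * (F0_d w f z * (F0_d v f z * g z + F0_d v g z) +
        (F0_d v f z * F0_d w g z + F0_d w (F0_d v f) z * g z + F0_d w (F0_d v g) z)) := by
  rw [F0_one v hf hg]
  have h1 : ContDiff ℝ ∞ (fun z => F0_d v f z * g z) := (F0_smooth v hf).mul hg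
  rw [F0_one w hf (h1.add (F0_smooth v hg))]
  show Real.exp (f z) * (F0_d w f z * (F0_d v f z * g z + F0_d v g z) +
    F0_d w (fun z => F0_d v f z * g z + F0_d v g z) z) = _
  rw [F0_add w h1 (F0_smooth v hg), F0_mul w (F0_smooth v hf) hg]

private theorem F0_b1 {v : Pl} (hv : ‖v‖ ≤ 1) (g : Pl → ℝ) (z : Pl) :
    |F0_d v g z| ≤ ‖iteratedFDeriv ℝ 1 g z‖ := by
  have h1 : F0_d v g z = iteratedFDeriv ℝ 1 g z (fun _ => v) := by
    rw [iteratedFDeriv_one_apply]
    rfl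
  rw [h1, ← Real.norm_eq_abs]
  refine ((iteratedFDeriv ℝ 1 g z).le_opNorm _).trans ?_
  rw [Fin.prod_univ_one]
  exact mul_le_of_le_one_right (norm_nonneg _) hv

private theorem F0_b2 {v w : Pl} (hv : ‖v‖ ≤ 1) (hw : ‖w‖ ≤ 1) {g : Pl → ℝ}
    (hg : ContDiff ℝ ∞ g) (z : Pl) :
    |F0_d w (F0_d v g) z| ≤ ‖iteratedFDeriv ℝ 2 g z‖ := by
  have h1 : F0_d w (F0_d v g) z = iteratedFDeriv ℝ 2 g z ![w, v] := by
    rw [iteratedFDeriv_two_apply]
    have h2 : DifferentiableAt ℝ (fderiv ℝ g) z :=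
      (((contDiff_infty_iff_fderiv.1 hg).2).differentiable (by simp)) z
    show fderiv ℝ (fun z => fderiv ℝ g z v) z w = _
    rw [fderiv_clm_apply h2 (differentiableAt_const v)]
    simp
  rw [h1, ← Real.norm_eq_abs]
  refine ((iteratedFDeriv ℝ 2 g z).le_opNorm _).trans ?_
  rw [Fin.prod_univ_two]
  simp only [Matrix.cons_val_zero, Matrix.cons_val_one]
  exact mul_le_of_le_one_right (norm_nonneg _) (mul_le_one₀ hw (norm_nonneg _) hv)

/-! ### the curvature of `exp f * m` -/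

/-- The derivatives of the determinant. -/
private noncomputable def F0_W (w : (Pl → ℝ) → Pl → ℝ) (m : Pl → Co) (z : Pl) : ℝ :=
  w (fun w => (m w).1) z * (m z).2.2 + (m z).1 * w (fun w => (m w).2.2) z -
    2 * (m z).2.1 * w (fun w => (m w).2.1) z

/-- The coefficients of the linear operator `f ↦ -Δf / 2`. -/
private noncomputable def F0_c (m : Pl → Co) (i : Fin 5) (z : Pl) : ℝ :=
  match i with
  | 0 => -(1 / 2) * (dt (m z) * (dx (fun w => (m w).2.2) z - dy (fun w => (m w).2.1) z) -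
      1 / 2 * ((m z).2.2 * F0_W dx m z - (m z).2.1 * F0_W dy m z)) / dt (m z) ^ 2
  | 1 => -(1 / 2) * (dt (m z) * (dy (fun w => (m w).1) z - dx (fun w => (m w).2.1) z) -
      1 / 2 * ((m z).1 * F0_W dy m z - (m z).2.1 * F0_W dx m z)) / dt (m z) ^ 2
  | 2 => -(1 / 2) * (dt (m z) * (m z).2.2) / dt (m z) ^ 2
  | 3 => dt (m z) * (m z).2.1 / dt (m z) ^ 2
  | 4 => -(1 / 2) * (dt (m z) * (m z).1) / dt (m z) ^ 2

/-- The derivatives of order one and two. -/
private noncomputable def F0_j (i : Fin 5) (f : Pl → ℝ) (z : Pl) : ℝ :=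
  match i with
  | 0 => dx f z
  | 1 => dy f z
  | 2 => dx (dx f) z
  | 3 => dy (dx f) z
  | 4 => dy (dy f) z

private theorem F0_alg {E F G Ex Ey Eyy Fx Fy Fxy Gx Gy Gxx fx fy fxx fxy fyy e W N0 c1 c2 : ℝ}
    (he : e ≠ 0) (hW : W ≠ 0) (hWd : W = E * G - F ^ 2)
    (h0 : N0 = (-Eyy / 2 + Fxy - Gxx / 2) * (E * G - F * F) +
        (-(Ex / 2)) * ((Fy - Gx / 2) * G - F * (Gy / 2)) +
        (Fx - Ey / 2) * ((Fy - Gx / 2) * F - E * (Gy / 2)) +
        Ey / 2 * (Ey / 2 * G - F * (Gx / 2)) +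
        (-(Gx / 2)) * (Ey / 2 * F - E * (Gx / 2)))
    (h1 : c1 = -(1 / 2) * (W * (Gx - Fy) - 1 / 2 * (G * (Ex * G + E * Gx - 2 * F * Fx) -
          F * (Ey * G + E * Gy - 2 * F * Fy))))
    (h2 : c2 = -(1 / 2) * (W * (Ey - Fx) - 1 / 2 * (E * (Ey * G + E * Gy - 2 * F * Fy) -
          F * (Ex * G + E * Gx - 2 * F * Fx)))) :
    ((-(e * (fy * (fy * E + Ey) + (fy * Ey + fyy * E + Eyy))) / 2 +
        e * (fy * (fx * F + Fx) + (fx * Fy + fxy * F + Fxy)) -
        e * (fx * (fx * G + Gx) + (fx * Gx + fxx * G + Gxx)) / 2) *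
        (e * E * (e * G) - e * F * (e * F)) +
      (-(e * (fx * E + Ex) / 2)) * ((e * (fy * F + Fy) - e * (fx * G + Gx) / 2) * (e * G) -
        e * F * (e * (fy * G + Gy) / 2)) +
      (e * (fx * F + Fx) - e * (fy * E + Ey) / 2) *
        ((e * (fy * F + Fy) - e * (fx * G + Gx) / 2) * (e * F) -
        e * E * (e * (fy * G + Gy) / 2)) +
      e * (fy * E + Ey) / 2 * (e * (fy * E + Ey) / 2 * (e * G) -
        e * F * (e * (fx * G + Gx) / 2)) +
      (-(e * (fx * G + Gx) / 2)) * (e * (fy * E + Ey) / 2 * (e * F) -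
        e * E * (e * (fx * G + Gx) / 2))) / (e ^ 2 * W) ^ 2 =
    e⁻¹ * (N0 / W ^ 2 + (c1 / W ^ 2 * fx + c2 / W ^ 2 * fy +
        -(1 / 2) * (W * G) / W ^ 2 * fxx + W * F / W ^ 2 * fxy +
        -(1 / 2) * (W * E) / W ^ 2 * fyy)) := by
  have key : ((-(e * (fy * (fy * E + Ey) + (fy * Ey + fyy * E + Eyy))) / 2 +
        e * (fy * (fx * F + Fx) + (fx * Fy + fxy * F + Fxy)) -
        e * (fx * (fx * G + Gx) + (fx * Gx + fxx * G + Gxx)) / 2) *
        (e * E * (e * G) - e * F * (e * F)) +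
      (-(e * (fx * E + Ex) / 2)) * ((e * (fy * F + Fy) - e * (fx * G + Gx) / 2) * (e * G) -
        e * F * (e * (fy * G + Gy) / 2)) +
      (e * (fx * F + Fx) - e * (fy * E + Ey) / 2) *
        ((e * (fy * F + Fy) - e * (fx * G + Gx) / 2) * (e * F) -
        e * E * (e * (fy * G + Gy) / 2)) +
      e * (fy * E + Ey) / 2 * (e * (fy * E + Ey) / 2 * (e * G) -
        e * F * (e * (fx * G + Gx) / 2)) +
      (-(e * (fx * G + Gx) / 2)) * (e * (fy * E + Ey) / 2 * (e * F) -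
        e * E * (e * (fx * G + Gx) / 2))) =
      e ^ 3 * (N0 + (c1 * fx + c2 * fy + -(1 / 2) * (W * G) * fxx + W * F * fxy +
        -(1 / 2) * (W * E) * fyy)) := by
    rw [h0, h1, h2, hWd]
    ring
  rw [key]
  field_simp

/-- The curvature of a conformal metric. -/
private theorem F0_conf {f : Pl → ℝ} (hf : ContDiff ℝ ∞ f) (hm : ContDiff ℝ ∞ m) (z : Pl)
    (hd : dt (m z) ≠ 0) : curv (BGM.cf f m) z =
      (Real.exp (f z))⁻¹ * (curv m z + ∑ i, F0_c m i z * F0_j i f z) := by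
  have hE : ContDiff ℝ ∞ fun w => (m w).1 := hm.fst
  have hF : ContDiff ℝ ∞ fun w => (m w).2.1 := hm.snd.fst
  have hG : ContDiff ℝ ∞ fun w => (m w).2.2 := hm.snd.snd
  have hdt : dt (BGM.cf f m z) = Real.exp (f z) ^ 2 * dt (m z) := by
    unfold BGM.cf dt
    simp only [Prod.smul_fst, Prod.smul_snd, smul_eq_mul]
    ring
  have x1 : ∀ {g : Pl → ℝ}, ContDiff ℝ ∞ g → dx (fun w => Real.exp (f w) * g w) z =
      Real.exp (f z) * (dx f z * g z + dx g z) := fun hg => congrFun (F0_one (1, 0) hf hg) z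
  have y1 : ∀ {g : Pl → ℝ}, ContDiff ℝ ∞ g → dy (fun w => Real.exp (f w) * g w) z =
      Real.exp (f z) * (dy f z * g z + dy g z) := fun hg => congrFun (F0_one (0, 1) hf hg) z
  have yy : ∀ {g : Pl → ℝ}, ContDiff ℝ ∞ g → dy (dy (fun w => Real.exp (f w) * g w)) z =
      Real.exp (f z) * (dy f z * (dy f z * g z + dy g z) +
        (dy f z * dy g z + dy (dy f) z * g z + dy (dy g) z)) :=
    fun hg => F0_two (0, 1) (0, 1) hf hg z
  have yx : ∀ {g : Pl → ℝ}, ContDiff ℝ ∞ g → dy (dx (fun w => Real.exp (f w) * g w)) z =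
      Real.exp (f z) * (dy f z * (dx f z * g z + dx g z) +
        (dx f z * dy g z + dy (dx f) z * g z + dy (dx g) z)) :=
    fun hg => F0_two (1, 0) (0, 1) hf hg z
  have xx : ∀ {g : Pl → ℝ}, ContDiff ℝ ∞ g → dx (dx (fun w => Real.exp (f w) * g w)) z =
      Real.exp (f z) * (dx f z * (dx f z * g z + dx g z) +
        (dx f z * dx g z + dx (dx f) z * g z + dx (dx g) z)) :=
    fun hg => F0_two (1, 0) (1, 0) hf hg z
  rw [BGM.E2_form, BGM.E2_form, hdt]
  show BGM.E2_N (fun w => Real.exp (f w) * (m w).1) (fun w => Real.exp (f w) * (m w).2.1)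
    (fun w => Real.exp (f w) * (m w).2.2) z / _ = _
  unfold BGM.E2_N
  simp only [x1 hE, y1 hE, yy hE, x1 hF, y1 hF, yx hF, x1 hG, y1 hG, xx hG]
  rw [F0_alg (Real.exp_pos (f z)).ne' hd rfl rfl rfl rfl]
  simp only [Fin.sum_univ_five, F0_c, F0_j, F0_W]

/-- Bounds of a function and its derivatives of order at most two. -/
private def F0_B (δ : ℝ) (g : Pl → ℝ) (z : Pl) : Prop := |g z| ≤ δ ∧ ∀ i, |F0_j i g z| ≤ δ

private theorem F0_B_mono {M M' : ℝ} (h : M ≤ M') {g : Pl → ℝ} {z : Pl} (hB : F0_B M g z) :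
    F0_B M' g z :=
  ⟨hB.1.trans h, fun i => (hB.2 i).trans h⟩

private theorem F0_B_of {M : ℝ} {g : Pl → ℝ} (hg : ContDiff ℝ ∞ g) {z : Pl}
    (h : ∀ j ≤ 2, ‖iteratedFDeriv ℝ j g z‖ ≤ M) : F0_B M g z := by
  have hnx : ‖((1, 0) : Pl)‖ ≤ 1 := by simp [Prod.norm_def]
  have hny : ‖((0, 1) : Pl)‖ ≤ 1 := by simp [Prod.norm_def]
  refine ⟨?_, fun i => ?_⟩
  · have := h 0 (by norm_num)
    rwa [norm_iteratedFDeriv_zero, Real.norm_eq_abs] at this
  · match i with
    | 0 => exact (F0_b1 hnx g z).trans (h 1 (by norm_num))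
    | 1 => exact (F0_b1 hny g z).trans (h 1 (by norm_num))
    | 2 => exact (F0_b2 hnx hnx hg z).trans (h 2 le_rfl)
    | 3 => exact (F0_b2 hnx hny hg z).trans (h 2 le_rfl)
    | 4 => exact (F0_b2 hny hny hg z).trans (h 2 le_rfl)

private theorem F0_B_cpt {g : Pl → ℝ} (hg : ContDiff ℝ ∞ g) {K : Set Pl} (hK : IsCompact K) :
    ∃ M : ℝ, ∀ z ∈ K, F0_B M g z := by
  have h1 : ∀ j : ℕ, ∃ C : ℝ, ∀ z ∈ K, ‖iteratedFDeriv ℝ j g z‖ ≤ C := fun j =>
    hK.exists_bound_of_continuousOn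
      ((hg.continuous_iteratedFDeriv (m := j) (by exact_mod_cast le_top)).continuousOn)
  obtain ⟨C0, h0⟩ := h1 0
  obtain ⟨C1, h1'⟩ := h1 1
  obtain ⟨C2, h2⟩ := h1 2
  refine ⟨max C0 (max C1 C2), fun z hz => F0_B_of hg fun j hj => ?_⟩
  interval_cases j
  · exact (h0 z hz).trans (le_max_left _ _)
  · exact (h1' z hz).trans ((le_max_left _ _).trans (le_max_right _ _))
  · exact (h2 z hz).trans ((le_max_right _ _).trans (le_max_right _ _))

private theorem F0_j_add {f g : Pl → ℝ} (hf : ContDiff ℝ ∞ f) (hg : ContDiff ℝ ∞ g) (i : Fin 5)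
    (z : Pl) : F0_j i (fun w => f w + g w) z = F0_j i f z + F0_j i g z := by
  have e : ∀ v : Pl, F0_d v (fun w => f w + g w) = fun z => F0_d v f z + F0_d v g z := fun v =>
    funext fun z => F0_add v hf hg z
  have two : ∀ v w : Pl, F0_d w (F0_d v (fun w => f w + g w)) z =
      F0_d w (F0_d v f) z + F0_d w (F0_d v g) z := by
    intro v w
    rw [e v, F0_add w (F0_smooth v hf) (F0_smooth v hg)]
  match i with
  | 0 => exact F0_add (1, 0) hf hg z
  | 1 => exact F0_add (0, 1) hf hg z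
  | 2 => exact two (1, 0) (1, 0)
  | 3 => exact two (1, 0) (0, 1)
  | 4 => exact two (0, 1) (0, 1)

private theorem F0_B_add {M M' : ℝ} {f g : Pl → ℝ} (hf : ContDiff ℝ ∞ f) (hg : ContDiff ℝ ∞ g)
    {z : Pl} (h1 : F0_B M f z) (h2 : F0_B M' g z) : F0_B (M + M') (fun z => f z + g z) z := by
  refine ⟨(abs_add_le _ _).trans (add_le_add h1.1 h2.1), fun i => ?_⟩
  rw [F0_j_add hf hg]
  exact (abs_add_le _ _).trans (add_le_add (h1.2 i) (h2.2 i))

private theorem F0_ex1 (x : ℝ) : |Real.exp x - 1| ≤ |x| * Real.exp |x| := by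
  have h1 : 1 ≤ Real.exp |x| := Real.one_le_exp (abs_nonneg x)
  have h2 := Real.add_one_le_exp x
  have h3 := Real.add_one_le_exp (-x)
  have h4 := le_abs_self x
  have h5 := neg_abs_le x
  have h6 : Real.exp x ≤ Real.exp |x| := Real.exp_le_exp.2 h4
  have h7 : |x| ≤ |x| * Real.exp |x| := le_mul_of_one_le_right (abs_nonneg x) h1
  rw [abs_le]
  constructor
  · linarith
  · have h8 : Real.exp x * (-x + 1) ≤ 1 := by
      calc Real.exp x * (-x + 1) ≤ Real.exp x * Real.exp (-x) :=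
            mul_le_mul_of_nonneg_left h3 (Real.exp_pos x).le
        _ = 1 := by rw [← Real.exp_add, add_neg_cancel, Real.exp_zero]
    have h9 : Real.exp x - 1 ≤ x * Real.exp x := by linarith
    refine h9.trans ((le_abs_self _).trans ?_)
    rw [abs_mul, Real.abs_exp]
    exact mul_le_mul_of_nonneg_left h6 (abs_nonneg x)

/-- The change of the curvature. -/
private theorem F0_diff {f g : Pl → ℝ} (hf : ContDiff ℝ ∞ f) (hg : ContDiff ℝ ∞ g)
    (hm : ContDiff ℝ ∞ m) {z : Pl} (hd : dt (m z) ≠ 0) {M B δ : ℝ} (hM : 0 ≤ M) (hB : 0 ≤ B)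
    (hδ : 0 ≤ δ) (hδM : δ ≤ M) (bf : F0_B M f z) (bg : F0_B δ g z) (hκ : |curv m z| ≤ B)
    (hc : ∀ i, |F0_c m i z| ≤ B) :
    |curv (BGM.cf (fun w => f w + g w) m) z - curv (BGM.cf f m) z| ≤
      Real.exp M * (Real.exp M * (B + 10 * B * M) + 5 * B) * δ := by
  rw [F0_conf (hf.add hg) hm z hd, F0_conf hf hm z hd]
  obtain ⟨S, hS⟩ : ∃ S, S = ∑ i, F0_c m i z * F0_j i f z := ⟨_, rfl⟩
  obtain ⟨T, hT⟩ : ∃ T, T = ∑ i, F0_c m i z * F0_j i g z := ⟨_, rfl⟩
  have hST : ∑ i, F0_c m i z * F0_j i (fun w => f w + g w) z = S + T := by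
    rw [hS, hT, ← Finset.sum_add_distrib]
    refine Finset.sum_congr rfl fun i _ => ?_
    rw [F0_j_add hf hg]
    ring
  have hsum : ∀ (h : Pl → ℝ) (N : ℝ), F0_B N h z → |∑ i, F0_c m i z * F0_j i h z| ≤ 5 * B * N := by
    intro h N hN
    have hN0 : 0 ≤ N := (abs_nonneg _).trans hN.1
    calc |∑ i, F0_c m i z * F0_j i h z| ≤ ∑ i : Fin 5, |F0_c m i z * F0_j i h z| :=
          Finset.abs_sum_le_sum_abs _ _
      _ ≤ ∑ _i : Fin 5, B * N := by
          refine Finset.sum_le_sum fun i _ => ?_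
          rw [abs_mul]
          exact mul_le_mul (hc i) (hN.2 i) (abs_nonneg _) hB
      _ = 5 * B * N := by
          rw [Finset.sum_const, Finset.card_univ, Fintype.card_fin, nsmul_eq_mul]
          push_cast
          ring
  have hS1 : |S| ≤ 5 * B * M := by rw [hS]; exact hsum f M bf
  have hT1 : |T| ≤ 5 * B * δ := by rw [hT]; exact hsum g δ bg
  rw [hST, ← hS]
  have e1 : (Real.exp (f z + g z))⁻¹ * (curv m z + (S + T)) - (Real.exp (f z))⁻¹ * (curv m z + S) =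
      Real.exp (-(f z)) * ((Real.exp (-(g z)) - 1) * (curv m z + S + T) + T) := by
    rw [← Real.exp_neg, ← Real.exp_neg, neg_add, Real.exp_add]
    ring
  rw [e1, abs_mul, Real.abs_exp]
  have e2 : Real.exp (-(f z)) ≤ Real.exp M := by
    apply Real.exp_le_exp.2
    have := (abs_le.1 bf.1).1
    linarith
  have e3 : |Real.exp (-(g z)) - 1| ≤ δ * Real.exp M := by
    refine (F0_ex1 _).trans ?_
    rw [abs_neg]
    exact mul_le_mul bg.1 (Real.exp_le_exp.2 (bg.1.trans hδM)) (Real.exp_pos _).le hδ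
  have e4 : |curv m z + S + T| ≤ B + 10 * B * M := by
    refine (abs_add_le _ _).trans ?_
    have h1 := abs_add_le (curv m z) S
    have h2 : 5 * B * δ ≤ 5 * B * M := mul_le_mul_of_nonneg_left hδM (by positivity)
    linarith
  have e5 : |(Real.exp (-(g z)) - 1) * (curv m z + S + T) + T| ≤
      δ * Real.exp M * (B + 10 * B * M) + 5 * B * δ := by
    refine (abs_add_le _ _).trans (add_le_add ?_ hT1)
    rw [abs_mul]
    exact mul_le_mul e3 e4 (abs_nonneg _) (by positivity)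
  calc Real.exp (-(f z)) * |(Real.exp (-(g z)) - 1) * (curv m z + S + T) + T| ≤
        Real.exp M * (δ * Real.exp M * (B + 10 * B * M) + 5 * B * δ) :=
        mul_le_mul e2 e5 (abs_nonneg _) (Real.exp_pos _).le
    _ = Real.exp M * (Real.exp M * (B + 10 * B * M) + 5 * B) * δ := by ring

private theorem F0_c_cont (hm : BGM.Rp m) (i : Fin 5) : Continuous (F0_c m i) := by
  have hE : ContDiff ℝ ∞ fun w => (m w).1 := hm.smooth.fst
  have hF : ContDiff ℝ ∞ fun w => (m w).2.1 := hm.smooth.snd.fst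
  have hG : ContDiff ℝ ∞ fun w => (m w).2.2 := hm.smooth.snd.snd
  have e0 := hE.continuous
  have e1 := (Egr_smooth_dx hE).continuous
  have e2 := (Egr_smooth_dy hE).continuous
  have f0 := hF.continuous
  have f1 := (Egr_smooth_dx hF).continuous
  have f2 := (Egr_smooth_dy hF).continuous
  have g0 := hG.continuous
  have g1 := (Egr_smooth_dx hG).continuous
  have g2 := (Egr_smooth_dy hG).continuous
  have hd : Continuous fun z => dt (m z) := by
    unfold dt
    exact (e0.mul g0).sub (f0.pow 2)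
  have hd0 : ∀ z, dt (m z) ^ 2 ≠ 0 := fun z => pow_ne_zero 2 (hm.pos z).2.ne'
  have wx : Continuous (F0_W dx m) := by
    unfold F0_W
    fun_prop
  have wy : Continuous (F0_W dy m) := by
    unfold F0_W
    fun_prop
  match i with
  | 0 =>
    show Continuous fun z => -(1 / 2) * (dt (m z) * (dx (fun w => (m w).2.2) z -
      dy (fun w => (m w).2.1) z) - 1 / 2 * ((m z).2.2 * F0_W dx m z -
      (m z).2.1 * F0_W dy m z)) / dt (m z) ^ 2
    exact Continuous.div (by fun_prop) (hd.pow 2) hd0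
  | 1 =>
    show Continuous fun z => -(1 / 2) * (dt (m z) * (dy (fun w => (m w).1) z -
      dx (fun w => (m w).2.1) z) - 1 / 2 * ((m z).1 * F0_W dy m z -
      (m z).2.1 * F0_W dx m z)) / dt (m z) ^ 2
    exact Continuous.div (by fun_prop) (hd.pow 2) hd0
  | 2 =>
    show Continuous fun z => -(1 / 2) * (dt (m z) * (m z).2.2) / dt (m z) ^ 2
    exact Continuous.div (by fun_prop) (hd.pow 2) hd0
  | 3 =>
    show Continuous fun z => dt (m z) * (m z).2.1 / dt (m z) ^ 2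
    exact Continuous.div (by fun_prop) (hd.pow 2) hd0
  | 4 =>
    show Continuous fun z => -(1 / 2) * (dt (m z) * (m z).1) / dt (m z) ^ 2
    exact Continuous.div (by fun_prop) (hd.pow 2) hd0

/-! ### the area -/

theorem F0_vol (hX : Surface Γ D) : 0 < volume D := by
  rw [pos_iff_ne_zero]
  intro h
  have := Cover_countable hX
  have hsub : (univ : Set Pl) ⊆ ⋃ γ : Γ, (fun w : Pl => γ • w) '' D := by
    intro z _
    obtain ⟨γ, hγ, -⟩ := hX.orbit z
    exact mem_iUnion.2 ⟨γ⁻¹, γ • z, hγ, by simp⟩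
  have hN : volume (univ : Set Pl) = 0 := by
    refine measure_mono_null hsub ?_
    rw [measure_iUnion_null_iff]
    intro γ
    exact addHaar_image_eq_zero_of_differentiableOn_of_addHaar_eq_zero volume
      ((hX.smooth γ).differentiable (by simp)).differentiableOn h
  exact (isOpen_univ.measure_pos volume univ_nonempty).ne' hN

/-- The area of the metric `exp h m`. -/
noncomputable def AR (D : Set Pl) (m : Pl → Co) (h : Pl → ℝ) : ℝ :=
  ∫ w in D, Real.exp (h w) * √(dt (m w))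

theorem F0_dt (hm : BGM.Rp m) : Continuous fun z => √(dt (m z)) :=
  Real.continuous_sqrt.comp (Cmp_dt_cont.comp hm.smooth.continuous)

theorem F0_pos (hX : Surface Γ D) (hm : BGM.Rp m) {f : Pl → ℝ} (hf : Continuous f)
    (h0 : ∀ z, 0 < f z) : 0 < ∫ w in D, f w * √(dt (m w)) := by
  have hc : Continuous fun z => f z * √(dt (m z)) := hf.mul (F0_dt hm)
  have hp : ∀ z, 0 < f z * √(dt (m z)) := fun z =>
    mul_pos (h0 z) (Real.sqrt_pos.2 (hm.pos z).2)
  rw [setIntegral_pos_iff_support_of_nonneg_ae (Filter.Eventually.of_forall fun z => (hp z).le)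
    (Cmp_int hX hc)]
  have hs : Function.support (fun z => f z * √(dt (m z))) = univ := by
    rw [eq_univ_iff_forall]
    intro z
    exact (hp z).ne'
  rw [hs, univ_inter]
  exact F0_vol hX

theorem AR_pos (hX : Surface Γ D) (hm : BGM.Rp m) {h : Pl → ℝ} (hh : Continuous h) :
    0 < AR D m h :=
  F0_pos hX hm (Real.continuous_exp.comp hh) fun z => Real.exp_pos _

/-- The area of the metric itself. -/
theorem AR_zero_pos (hX : Surface Γ D) (hm : BGM.Rp m) : 0 < AR D m fun _ => 0 :=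
  AR_pos hX hm continuous_const

theorem AR_mono (hX : Surface Γ D) (hm : BGM.Rp m) {f g : Pl → ℝ} (hf : Continuous f)
    (hg : Continuous g) {ε : ℝ} (h : ∀ z ∈ D, g z ≤ f z + ε) :
    AR D m g ≤ Real.exp ε * AR D m f := by
  unfold AR
  rw [← integral_const_mul]
  have h1 : Continuous fun z => Real.exp (g z) * √(dt (m z)) :=
    (Real.continuous_exp.comp hg).mul (F0_dt hm)
  have h2 : Continuous fun z => Real.exp (f z) * √(dt (m z)) :=
    (Real.continuous_exp.comp hf).mul (F0_dt hm)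
  refine setIntegral_mono_on (Cmp_int hX h1) ((Cmp_int hX h2).const_mul _) hX.meas
    fun z hz => ?_
  rw [← mul_assoc, ← Real.exp_add]
  refine mul_le_mul_of_nonneg_right (Real.exp_le_exp.2 ?_) (Real.sqrt_nonneg _)
  have := h z hz
  linarith

theorem nx_eq (h : Pl → ℝ) (z : Pl) : nx D m h z = h z - Real.log (AR D m h) := rfl

/-- The curvature of the normalised metric. -/
theorem curv_nx (hX : Surface Γ D) (hm : BGM.Rp m) {h : Pl → ℝ} (hh : ContDiff ℝ ∞ h) (z : Pl) :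
    curv (fun w => Real.exp (nx D m h w) • m w) z = AR D m h * curv (BGM.cf h m) z := by
  have hA := AR_pos hX hm hh.continuous
  have e : (fun w => Real.exp (nx D m h w) • m w) = fun w => (AR D m h)⁻¹ • BGM.cf h m w := by
    funext w
    rw [nx_eq, sub_eq_add_neg, Real.exp_add, Real.exp_neg, Real.exp_log hA]
    unfold BGM.cf
    rw [smul_smul, mul_comm]
  rw [e, BGM.E2_scale (BGM.D1_rp hm hh) (inv_pos.2 hA)]
  rw [div_inv_eq_mul, mul_comm]

theorem F0_all (hX : Surface Γ D) {P : Pl → Prop} (hP : ∀ z ∈ closure D, P z)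
    (hi : ∀ (γ : Γ) z, P (γ • z) → P z) (z : Pl) : P z := by
  obtain ⟨γ, hγ, -⟩ := hX.orbit z
  exact hi γ z (hP _ (subset_closure hγ))

/-- Stability of negative curvature: a change of the exponent which is small in `C²`. -/
theorem FA0_neg (hX : Surface Γ D) (hm : HM Γ m) {κ M : ℝ} (hκ : 0 < κ) (hM : 0 ≤ M) :
    ∃ ε b : ℝ, 0 < ε ∧ ∀ f g : Pl → ℝ, f ∈ Test Γ → g ∈ Test Γ →
      (∀ j ≤ 2, ∀ z ∈ closure D, ‖iteratedFDeriv ℝ j f z‖ ≤ M) →
      (∀ j ≤ 2, ∀ z ∈ closure D, ‖iteratedFDeriv ℝ j g z‖ ≤ ε) →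
      (∀ z, curv (fun w => Real.exp (nx D m f w) • m w) z ≤ -κ ^ 2) →
      ∀ z, -b ^ 2 ≤ curv (fun w => Real.exp (nx D m (fun w => f w + g w) w) • m w) z ∧
        curv (fun w => Real.exp (nx D m (fun w => f w + g w) w) • m w) z ≤ -(κ / 2) ^ 2 := by
  have hrp : BGM.Rp m := ⟨hm.smooth, hm.pos⟩
  have hiv : BGM.Iv Γ m := hm.inv
  have hK : IsCompact (closure D) := Cmp_compact hX
  obtain ⟨B0, hB0⟩ := hK.exists_bound_of_continuousOn (BGM.E2_cont hrp).continuousOn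
  have hci : ∀ i : Fin 5, ∃ B : ℝ, ∀ z ∈ closure D, ‖F0_c m i z‖ ≤ B := fun i =>
    hK.exists_bound_of_continuousOn (F0_c_cont hrp i).continuousOn
  choose B hB using hci
  obtain ⟨B', hB'⟩ : ∃ B', B' = |B0| + ∑ i, |B i| := ⟨_, rfl⟩
  have hs0 : 0 ≤ ∑ i, |B i| := Finset.sum_nonneg fun i _ => abs_nonneg _
  have hB'0 : 0 ≤ B' := by
    rw [hB']
    have := abs_nonneg B0
    linarith
  have hcurv : ∀ z ∈ closure D, |curv m z| ≤ B' := by
    intro z hz
    have h1 := hB0 z hz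
    rw [Real.norm_eq_abs] at h1
    have h2 := le_abs_self B0
    rw [hB']
    linarith
  have hc : ∀ z ∈ closure D, ∀ i, |F0_c m i z| ≤ B' := by
    intro z hz i
    have h1 := hB i z hz
    rw [Real.norm_eq_abs] at h1
    have h2 := le_abs_self (B i)
    have h3 : |B i| ≤ ∑ i, |B i| :=
      Finset.single_le_sum (f := fun i => |B i|) (fun i _ => abs_nonneg _) (Finset.mem_univ i)
    have h4 := abs_nonneg B0
    rw [hB']
    linarith
  obtain ⟨M1, hM1⟩ : ∃ M1, M1 = M + 1 := ⟨_, rfl⟩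
  have hM10 : 0 ≤ M1 := by linarith
  obtain ⟨V, hV⟩ : ∃ V, V = AR D m fun _ => 0 := ⟨_, rfl⟩
  have hV0 : 0 < V := by
    rw [hV]
    exact AR_zero_pos hX hrp
  obtain ⟨W, hW⟩ : ∃ W, W = Real.exp M1 * V := ⟨_, rfl⟩
  have hW0 : 0 < W := by
    rw [hW]
    positivity
  obtain ⟨K, hKd⟩ : ∃ K, K = Real.exp M1 * (Real.exp M1 * (B' + 10 * B' * M1) + 5 * B') :=
    ⟨_, rfl⟩
  have hK0 : 0 ≤ K := by
    rw [hKd]
    have := Real.exp_pos M1
    positivity
  obtain ⟨N, hN⟩ : ∃ N, N = Real.exp M1 * (B' + 5 * B' * M1) := ⟨_, rfl⟩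
  have hN0 : 0 ≤ N := by
    rw [hN]
    have := Real.exp_pos M1
    positivity
  obtain ⟨ε, hε⟩ : ∃ ε, ε = min 1 (κ ^ 2 / (12 * (W * K + 1))) := ⟨_, rfl⟩
  have hε0 : 0 < ε := by
    rw [hε]
    exact lt_min one_pos (by positivity)
  have hε1 : ε ≤ 1 := by
    rw [hε]
    exact min_le_left _ _
  have hε2 : W * K * ε ≤ κ ^ 2 / 12 := by
    have h1 : ε ≤ κ ^ 2 / (12 * (W * K + 1)) := by
      rw [hε]
      exact min_le_right _ _
    have h2 : 0 < 12 * (W * K + 1) := by positivity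
    rw [le_div_iff₀ h2] at h1
    nlinarith [hε0.le, mul_nonneg hW0.le hK0]
  refine ⟨ε, √(W * N), hε0, ?_⟩
  intro f g hf hg bf bg hneg
  have hfg : (fun w => f w + g w) ∈ Test Γ := ⟨hf.1.add hg.1, fun γ z => by
    show f (γ • z) + g (γ • z) = f z + g z
    rw [hf.2 γ z, hg.2 γ z]⟩
  have hA0 := AR_pos hX hrp hf.1.continuous
  have hA1 := AR_pos hX hrp hfg.1.continuous
  have Bf : ∀ z ∈ closure D, F0_B M f z := fun z hz => F0_B_of hf.1 fun j hj => bf j hj z hz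
  have Bg : ∀ z ∈ closure D, F0_B ε g z := fun z hz => F0_B_of hg.1 fun j hj => bg j hj z hz
  have hAW : AR D m (fun w => f w + g w) ≤ W := by
    have h1 := AR_mono hX hrp (f := fun _ => 0) (g := fun w => f w + g w) (ε := M1)
      continuous_const hfg.1.continuous (fun z hz => by
        have h2 := (abs_le.1 (Bf z (subset_closure hz)).1).2
        have h3 := (abs_le.1 (Bg z (subset_closure hz)).1).2
        show f z + g z ≤ 0 + M1
        linarith)
    rw [hW, hV]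
    exact h1
  have hAA : AR D m f ≤ 3 * AR D m (fun w => f w + g w) := by
    have h1 := AR_mono hX hrp (f := fun w => f w + g w) (g := f) (ε := ε)
      hfg.1.continuous hf.1.continuous (fun z hz => by
        have h3 := (abs_le.1 (Bg z (subset_closure hz)).1).1
        show f z ≤ f z + g z + ε
        linarith)
    have h2 : Real.exp ε ≤ 3 := by
      have h3 := Real.exp_one_lt_d9
      have h4 : Real.exp ε ≤ Real.exp 1 := Real.exp_le_exp.2 hε1
      linarith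
    exact h1.trans (mul_le_mul_of_nonneg_right h2 hA1.le)
  have key : ∀ z, |curv (BGM.cf (fun w => f w + g w) m) z| ≤ N ∧
      |curv (BGM.cf (fun w => f w + g w) m) z - curv (BGM.cf f m) z| ≤ K * ε := by
    refine F0_all hX (fun z hz => ?_) (fun γ z h => ?_)
    · have hd : dt (m z) ≠ 0 := (hm.pos z).2.ne'
      constructor
      · rw [F0_conf hfg.1 hm.smooth z hd]
        have b1 : F0_B M1 (fun w => f w + g w) z :=
          F0_B_mono (by linarith) (F0_B_add hf.1 hg.1 (Bf z hz) (Bg z hz))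
        have h1 : |∑ i, F0_c m i z * F0_j i (fun w => f w + g w) z| ≤ 5 * B' * M1 := by
          calc |∑ i, F0_c m i z * F0_j i (fun w => f w + g w) z|
              ≤ ∑ i : Fin 5, |F0_c m i z * F0_j i (fun w => f w + g w) z| :=
                Finset.abs_sum_le_sum_abs _ _
            _ ≤ ∑ _i : Fin 5, B' * M1 := by
                refine Finset.sum_le_sum fun i _ => ?_
                rw [abs_mul]
                exact mul_le_mul (hc z hz i) (b1.2 i) (abs_nonneg _) hB'0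
            _ = 5 * B' * M1 := by
                rw [Finset.sum_const, Finset.card_univ, Fintype.card_fin, nsmul_eq_mul]
                push_cast
                ring
        rw [abs_mul, ← Real.exp_neg, Real.abs_exp, hN]
        have h2 : Real.exp (-(f z + g z)) ≤ Real.exp M1 := by
          apply Real.exp_le_exp.2
          have := (abs_le.1 b1.1).1
          linarith
        have h3 : |curv m z + ∑ i, F0_c m i z * F0_j i (fun w => f w + g w) z| ≤
            B' + 5 * B' * M1 := (abs_add_le _ _).trans (add_le_add (hcurv z hz) h1)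
        exact mul_le_mul h2 h3 (abs_nonneg _) (Real.exp_pos _).le
      · rw [hKd]
        exact F0_diff hf.1 hg.1 hm.smooth hd hM10 hB'0 hε0.le (by linarith)
          (F0_B_mono (by linarith) (Bf z hz)) (Bg z hz) (hcurv z hz) (hc z hz)
    · rw [BGM.E2_inv hX (BGM.D1_rp hrp hfg.1) (BGM.D1_iv hiv hfg.2) γ z,
        BGM.E2_inv hX (BGM.D1_rp hrp hf.1) (BGM.D1_iv hiv hf.2) γ z] at h
      exact h
  intro z
  obtain ⟨k1, k2⟩ := key z
  have hn := hneg z
  rw [curv_nx hX hrp hf.1] at hn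
  rw [curv_nx hX hrp hfg.1]
  generalize curv (BGM.cf (fun w => f w + g w) m) z = c1 at *
  generalize curv (BGM.cf f m) z = c0 at *
  generalize AR D m (fun w => f w + g w) = A1 at *
  generalize AR D m f = A0 at *
  have k3 := abs_le.1 k1
  have k4 := (abs_le.1 k2).2
  constructor
  · rw [Real.sq_sqrt (by positivity)]
    have h1 : A1 * (-c1) ≤ W * N := by
      rcases le_total 0 (-c1) with h2 | h2
      · exact mul_le_mul hAW (by linarith) h2 hW0.le
      · have h3 : A1 * (-c1) ≤ 0 := mul_nonpos_of_nonneg_of_nonpos hA1.le h2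
        have h4 : 0 ≤ W * N := by positivity
        linarith
    linarith
  · have h0 : c0 < 0 := by
      by_contra h
      push Not at h
      have := mul_nonneg hA0.le h
      have h5 : 0 < κ ^ 2 := by positivity
      linarith
    have h1 : A1 * c0 ≤ -κ ^ 2 / 3 := by
      have h2 : A0 / 3 ≤ A1 := by linarith
      have h3 : A1 * c0 ≤ A0 / 3 * c0 := mul_le_mul_of_nonpos_right h2 h0.le
      linarith
    have h2 : A1 * (K * ε) ≤ κ ^ 2 / 12 := by
      have h3 : A1 * (K * ε) ≤ W * (K * ε) :=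
        mul_le_mul_of_nonneg_right hAW (mul_nonneg hK0 hε0.le)
      linarith
    have h3 : A1 * c1 ≤ A1 * (c0 + K * ε) := mul_le_mul_of_nonneg_left (by linarith) hA1.le
    nlinarith

/-! ### families -/

theorem thc_le (t : ℝ) : |thc t| ≤ 2 := by
  unfold thc
  by_cases h : |t| ≤ 2
  · rw [abs_mul]
    have h1 : |cut t| ≤ 1 := by
      rw [abs_of_nonneg cut.nonneg]
      exact cut.le_one
    calc |t| * |cut t| ≤ 2 * 1 := mul_le_mul h h1 (abs_nonneg _) (by norm_num)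
      _ = 2 := by norm_num
  · have h1 : cut t = 0 := cut.zero_of_le_dist (by
      rw [Real.dist_eq, sub_zero]
      exact (not_le.1 h).le)
    rw [h1, mul_zero, abs_zero]
    norm_num

theorem thc_smooth : ContDiff ℝ ∞ thc := contDiff_id.mul cut.contDiff

theorem EB0_of {κ E F : Type} [NormedAddCommGroup E] [NormedSpace ℝ E] [NormedAddCommGroup F]
    [NormedSpace ℝ F] {f : κ → E → F} {x : κ → E} (hs : ∀ q, ContDiff ℝ ∞ (f q))
    (hb : ∀ k : ℕ, ∃ C : ℝ, ∀ q, ‖iteratedFDeriv ℝ k (f q) (x q)‖ ≤ C) : EB0 f x := by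
  refine ⟨hs, fun k => ?_⟩
  obtain ⟨C, hC⟩ := hb k
  refine ⟨C, fun q => ?_⟩
  rw [mul_zero, Real.exp_zero, mul_one]
  exact hC q

theorem EB0_bd {κ E F : Type} [NormedAddCommGroup E] [NormedSpace ℝ E] [NormedAddCommGroup F]
    [NormedSpace ℝ F] {f : κ → E → F} {x : κ → E} (h : EB0 f x) (k : ℕ) :
    ∃ C : ℝ, ∀ q, ‖iteratedFDeriv ℝ k (f q) (x q)‖ ≤ C := by
  obtain ⟨C, hC⟩ := h.bound k
  refine ⟨C, fun q => ?_⟩
  have := hC q
  rwa [mul_zero, Real.exp_zero, mul_one] at this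

/-- The derivatives of the area. -/
noncomputable def Ik (D : Set Pl) (m : Pl → Co) (B δ : Pl → ℝ) (k : ℕ) (τ : ℝ) : ℝ :=
  ∫ w in D, δ w ^ k * Real.exp (B w + τ * δ w) * √(dt (m w))

theorem Ik_cont (hm : BGM.Rp m) {B δ : Pl → ℝ} (hB : Continuous B) (hδ : Continuous δ) (k : ℕ)
    (τ : ℝ) : Continuous fun w => δ w ^ k * Real.exp (B w + τ * δ w) * √(dt (m w)) :=
  ((hδ.pow k).mul (Real.continuous_exp.comp (hB.add (continuous_const.mul hδ)))).mul (F0_dt hm)

theorem Ik_deriv (hX : Surface Γ D) (hm : BGM.Rp m) {B δ : Pl → ℝ} (hB : Continuous B)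
    (hδ : Continuous δ) (k : ℕ) (τ : ℝ) :
    HasDerivAt (Ik D m B δ k) (Ik D m B δ (k + 1) τ) τ := by
  have hb : Continuous fun w => |δ w| ^ (k + 1) * Real.exp (|B w| + (|τ| + 1) * |δ w|) *
      √(dt (m w)) :=
    ((hδ.abs.pow _).mul (Real.continuous_exp.comp (hB.abs.add
      (continuous_const.mul hδ.abs)))).mul (F0_dt hm)
  refine (hasDerivAt_integral_of_dominated_loc_of_deriv_le (μ := volume.restrict D)
    (F := fun x w => δ w ^ k * Real.exp (B w + x * δ w) * √(dt (m w)))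
    (F' := fun x w => δ w ^ (k + 1) * Real.exp (B w + x * δ w) * √(dt (m w)))
    (s := Metric.ball τ 1) (bound := fun w => |δ w| ^ (k + 1) *
      Real.exp (|B w| + (|τ| + 1) * |δ w|) * √(dt (m w)))
    (Metric.ball_mem_nhds τ one_pos)
    (Filter.Eventually.of_forall fun x => (Ik_cont hm hB hδ k x).aestronglyMeasurable)
    (Cmp_int hX (Ik_cont hm hB hδ k τ)) (Ik_cont hm hB hδ (k + 1) τ).aestronglyMeasurable
    (Filter.Eventually.of_forall fun w x hx => ?_) (Cmp_int hX hb)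
    (Filter.Eventually.of_forall fun w x _ => ?_)).2
  · rw [norm_mul, norm_mul, Real.norm_eq_abs, Real.norm_eq_abs, Real.norm_eq_abs, abs_pow,
      Real.abs_exp, abs_of_nonneg (Real.sqrt_nonneg _)]
    refine mul_le_mul_of_nonneg_right (mul_le_mul_of_nonneg_left (Real.exp_le_exp.2 ?_)
      (by positivity)) (Real.sqrt_nonneg _)
    rw [Metric.mem_ball, Real.dist_eq] at hx
    have h1 : |x| ≤ |τ| + 1 := by
      have := abs_sub_abs_le_abs_sub x τ
      linarith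
    have h2 : x * δ w ≤ |x| * |δ w| := by
      rw [← abs_mul]
      exact le_abs_self _
    have h3 : |x| * |δ w| ≤ (|τ| + 1) * |δ w| := mul_le_mul_of_nonneg_right h1 (abs_nonneg _)
    have h4 := le_abs_self (B w)
    linarith
  · have h1 : HasDerivAt (fun x => B w + x * δ w) (δ w) x := by
      have := ((hasDerivAt_id x).mul_const (δ w)).const_add (B w)
      simpa using this
    have h2 := (h1.exp.const_mul (δ w ^ k)).mul_const (√(dt (m w)))
    refine h2.congr_deriv ?_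
    rw [pow_succ]
    ring

theorem Ik_iter (hX : Surface Γ D) (hm : BGM.Rp m) {B δ : Pl → ℝ} (hB : Continuous B)
    (hδ : Continuous δ) (k : ℕ) : iteratedDeriv k (Ik D m B δ 0) = Ik D m B δ k := by
  induction k with
  | zero => exact iteratedDeriv_zero
  | succ k ih =>
    rw [iteratedDeriv_succ, ih]
    funext τ
    exact (Ik_deriv hX hm hB hδ k τ).deriv

theorem Ik_smooth (hX : Surface Γ D) (hm : BGM.Rp m) {B δ : Pl → ℝ} (hB : Continuous B)
    (hδ : Continuous δ) : ContDiff ℝ ∞ (Ik D m B δ 0) := by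
  refine contDiff_of_differentiable_iteratedDeriv fun k _ => ?_
  rw [Ik_iter hX hm hB hδ]
  exact fun τ => (Ik_deriv hX hm hB hδ k τ).differentiableAt

theorem Ik_bd (hX : Surface Γ D) (hm : BGM.Rp m) {B δ : Pl → ℝ} (hB : Continuous B)
    (hδ : Continuous δ) {C : ℝ} (hC : 0 ≤ C) (h1 : ∀ z ∈ closure D, |B z| ≤ C)
    (h2 : ∀ z ∈ closure D, |δ z| ≤ C) (k : ℕ) {τ : ℝ} (hτ : |τ| ≤ 2) :
    |Ik D m B δ k τ| ≤ C ^ k * Real.exp (3 * C) * AR D m fun _ => 0 := by
  have h0 : (∫ w in D, C ^ k * Real.exp (3 * C) * (Real.exp 0 * √(dt (m w)))) =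
      C ^ k * Real.exp (3 * C) * AR D m fun _ => 0 := by
    rw [integral_const_mul]
    rfl
  rw [← h0]
  unfold Ik
  refine (abs_integral_le_integral_abs).trans ?_
  refine setIntegral_mono_on (Cmp_int hX (Ik_cont hm hB hδ k τ)).abs ?_ hX.meas fun z hz => ?_
  · exact Cmp_int hX (continuous_const.mul (continuous_const.mul (F0_dt hm)))
  · have hz' := subset_closure hz
    rw [abs_mul, abs_mul, abs_pow, Real.abs_exp, abs_of_nonneg (Real.sqrt_nonneg _),
      Real.exp_zero, one_mul]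
    refine mul_le_mul_of_nonneg_right (mul_le_mul
      (pow_le_pow_left₀ (abs_nonneg _) (h2 z hz') k) (Real.exp_le_exp.2 ?_)
      (Real.exp_pos _).le (by positivity)) (Real.sqrt_nonneg _)
    have h3 := (abs_le.1 (h1 z hz')).2
    have h4 : τ * δ z ≤ |τ| * |δ z| := by
      rw [← abs_mul]
      exact le_abs_self _
    have h5 : |τ| * |δ z| ≤ 2 * C := mul_le_mul hτ (h2 z hz') (abs_nonneg _) (by norm_num)
    linarith

theorem AR_Ik (B δ : Pl → ℝ) (τ : ℝ) : AR D m (fun w => B w + τ * δ w) = Ik D m B δ 0 τ := by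
  unfold AR Ik
  simp only [pow_zero, one_mul]

/-- The area of a family. -/
theorem EB0_AR (hX : Surface Γ D) (hm : BGM.Rp m) {κ : Type} {B δ : κ → Pl → ℝ}
    (hB : ∀ i, Continuous (B i)) (hδ : ∀ i, Continuous (δ i)) {C : ℝ}
    (h1 : ∀ i, ∀ z ∈ closure D, |B i z| ≤ C) (h2 : ∀ i, ∀ z ∈ closure D, |δ i z| ≤ C)
    {x : κ → ℝ} (hx : ∀ i, |x i| ≤ 2) :
    EB0 (fun i τ => AR D m fun w => B i w + τ * δ i w) x := by
  have h1' : ∀ i, ∀ z ∈ closure D, |B i z| ≤ |C| := fun i z hz => (h1 i z hz).trans (le_abs_self C)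
  have h2' : ∀ i, ∀ z ∈ closure D, |δ i z| ≤ |C| := fun i z hz => (h2 i z hz).trans (le_abs_self C)
  have e : (fun i τ => AR D m fun w => B i w + τ * δ i w) = fun i => Ik D m (B i) (δ i) 0 := by
    funext i τ
    exact AR_Ik _ _ _
  rw [e]
  refine EB0_of (fun i => Ik_smooth hX hm (hB i) (hδ i)) fun k =>
    ⟨|C| ^ k * Real.exp (3 * |C|) * AR D m fun _ => 0, fun i => ?_⟩
  rw [norm_iteratedFDeriv_eq_norm_iteratedDeriv, Ik_iter hX hm (hB i) (hδ i), Real.norm_eq_abs]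
  exact Ik_bd hX hm (hB i) (hδ i) (abs_nonneg C) (h1' i) (h2' i) k (hx i)

/-- A criterion for families of class `CF`. -/
theorem CF_gen (hX : Surface Γ D) (hO : Ori Γ) (hm : HM Γ m) {a b : ℝ} (ha : 0 < a) {ι : Type}
    {B δ : ι → Pl → ℝ} (hB : ∀ i, B i ∈ Test Γ) (hδ : ∀ i, δ i ∈ Test Γ)
    (bB : ∀ k : ℕ, ∃ C : ℝ, ∀ i, ∀ z ∈ closure D, ‖iteratedFDeriv ℝ k (B i) z‖ ≤ C)
    (bδ : ∀ k : ℕ, ∃ C : ℝ, ∀ i, ∀ z ∈ closure D, ‖iteratedFDeriv ℝ k (δ i) z‖ ≤ C)
    (neg : ∀ (i : ι) (t : ℝ) (z : Pl),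
      -b ^ 2 ≤ curv (fun w => Real.exp (nx D m (fun w => B i w + thc t * δ i w) w) • m w) z ∧
      curv (fun w => Real.exp (nx D m (fun w => B i w + thc t * δ i w) w) • m w) z ≤ -a ^ 2) :
    CF Γ D m a b fun (i : ι) (e : ℝ × Pl) =>
      nx D m (fun z => B i z + thc e.1 * δ i z) e.2 := by
  have hrp : BGM.Rp m := ⟨hm.smooth, hm.pos⟩
  have hK : IsCompact (closure D) := Cmp_compact hX
  obtain ⟨C1, hC1⟩ := bB 0
  obtain ⟨C2, hC2⟩ := bδ 0
  obtain ⟨C, hC⟩ : ∃ C, C = |C1| + |C2| := ⟨_, rfl⟩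
  have h1 : ∀ i, ∀ z ∈ closure D, |B i z| ≤ C := by
    intro i z hz
    have := hC1 i z hz
    rw [norm_iteratedFDeriv_zero, Real.norm_eq_abs] at this
    have h3 := le_abs_self C1
    have h4 := abs_nonneg C2
    linarith
  have h2 : ∀ i, ∀ z ∈ closure D, |δ i z| ≤ C := by
    intro i z hz
    have := hC2 i z hz
    rw [norm_iteratedFDeriv_zero, Real.norm_eq_abs] at this
    have h3 := le_abs_self C2
    have h4 := abs_nonneg C1
    linarith
  have hC0 : 0 ≤ C := by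
    rw [hC]
    positivity
  have hℓ : ∀ i : {q : ι × ℝ × Pl // |q.2.1| ≤ 1 ∧ q.2.2 ∈ closure D}, (0 : ℝ) ≤ 0 :=
    fun _ => le_rfl
  have hxK : ∀ q : {q : ι × ℝ × Pl // |q.2.1| ≤ 1 ∧ q.2.2 ∈ closure D},
      (q.1.2 : ℝ × Pl) ∈ Icc (-1 : ℝ) 1 ×ˢ closure D := fun q =>
    ⟨abs_le.1 q.2.1, q.2.2⟩
  have hKK : IsCompact (Icc (-1 : ℝ) 1 ×ˢ closure D) := isCompact_Icc.prod hK
  have e1 : EB0 (fun (q : {q : ι × ℝ × Pl // |q.2.1| ≤ 1 ∧ q.2.2 ∈ closure D}) (e : ℝ × Pl) =>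
      B q.1.1 e.2) (fun q => q.1.2) := by
    refine EB_comp hℓ (g := fun q => B q.1.1) (f := fun _ (e : ℝ × Pl) => e.2) ?_
      (EB_compact hℓ contDiff_snd hKK hxK)
    refine EB0_of (fun q => (hB _).1) fun k => ?_
    obtain ⟨C, hC⟩ := bB k
    exact ⟨C, fun q => hC _ _ q.2.2⟩
  have e2 : EB0 (fun (q : {q : ι × ℝ × Pl // |q.2.1| ≤ 1 ∧ q.2.2 ∈ closure D}) (e : ℝ × Pl) =>
      δ q.1.1 e.2) (fun q => q.1.2) := by
    refine EB_comp hℓ (g := fun q => δ q.1.1) (f := fun _ (e : ℝ × Pl) => e.2) ?_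
      (EB_compact hℓ contDiff_snd hKK hxK)
    refine EB0_of (fun q => (hδ _).1) fun k => ?_
    obtain ⟨C, hC⟩ := bδ k
    exact ⟨C, fun q => hC _ _ q.2.2⟩
  have e3 : EB0 (fun (q : {q : ι × ℝ × Pl // |q.2.1| ≤ 1 ∧ q.2.2 ∈ closure D}) (e : ℝ × Pl) =>
      thc e.1) (fun q => q.1.2) :=
    EB_compact hℓ (thc_smooth.comp contDiff_fst) hKK hxK
  have e4 : EB0 (fun (q : {q : ι × ℝ × Pl // |q.2.1| ≤ 1 ∧ q.2.2 ∈ closure D}) (e : ℝ × Pl) =>
      AR D m fun w => B q.1.1 w + thc e.1 * δ q.1.1 w) (fun q => q.1.2) := by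
    refine EB_comp hℓ (g := fun q τ => AR D m fun w => B q.1.1 w + τ * δ q.1.1 w)
      (f := fun _ (e : ℝ × Pl) => thc e.1) ?_ e3
    exact EB0_AR hX hrp (fun q => (hB _).1.continuous) (fun q => (hδ _).1.continuous)
      (fun q => h1 _) (fun q => h2 _) fun q => thc_le _
  have hpos : ∀ (i : ι) (τ : ℝ), 0 < AR D m fun w => B i w + τ * δ i w := fun i τ =>
    AR_pos hX hrp ((hB i).1.continuous.add (continuous_const.mul (hδ i).1.continuous))
  have hlow : ∀ (i : ι) (τ : ℝ), |τ| ≤ 2 → (AR D m fun w => B i w + τ * δ i w)⁻¹ ≤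
      Real.exp (3 * C) * (AR D m fun _ => 0)⁻¹ := by
    intro i τ hτ
    have h3 := AR_mono hX hrp (g := fun _ => 0) (f := fun w => B i w + τ * δ i w) (ε := 3 * C)
      ((hB i).1.continuous.add (continuous_const.mul (hδ i).1.continuous)) continuous_const
      (fun z hz => by
        have hz' := subset_closure hz
        have h4 := (abs_le.1 (h1 i z hz')).1
        have h5 : |τ * δ i z| ≤ 2 * C := by
          rw [abs_mul]
          exact mul_le_mul hτ (h2 i z hz') (abs_nonneg _) (by norm_num)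
        have h6 := (abs_le.1 h5).1
        show (0 : ℝ) ≤ B i z + τ * δ i z + 3 * C
        linarith)
    have h7 := hpos i τ
    have h8 := AR_zero_pos hX hrp
    rw [inv_le_iff_one_le_mul₀ h7, mul_assoc, mul_comm (AR D m fun _ => 0)⁻¹, ← mul_assoc,
      ← div_eq_mul_inv, one_le_div h8]
    exact h3
  have e5 : EB0 (fun (q : {q : ι × ℝ × Pl // |q.2.1| ≤ 1 ∧ q.2.2 ∈ closure D}) (e : ℝ × Pl) =>
      Real.log (AR D m fun w => B q.1.1 w + thc e.1 * δ q.1.1 w)) (fun q => q.1.2) := by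
    refine EB_log hℓ e4 (fun q e => hpos _ _) (C := Real.exp (3 * C) * (AR D m fun _ => 0)⁻¹)
      fun q => ?_
    rw [mul_zero, Real.exp_zero, mul_one]
    exact hlow _ _ (thc_le _)
  have e6 := EB_sub hℓ (EB_add hℓ e1 (EB_mul hℓ e3 e2)) e5
  have hne : (closure D).Nonempty := by
    obtain ⟨γ, hγ, _⟩ := hX.orbit (0, 0)
    exact ⟨_, subset_closure hγ⟩
  obtain ⟨z0, hz0⟩ := hne
  refine ⟨hX, hO, hm, ha, fun i => ?_, fun i p γ z => ?_, fun k => ?_, fun i t z => neg i t z⟩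
  · exact e6.smooth ⟨(i, 0, z0), by simp, hz0⟩
  · show nx D m (fun z => B i z + thc p * δ i z) (γ • z) = nx D m (fun z => B i z + thc p * δ i z) z
    rw [nx_eq, nx_eq]
    show B i (γ • z) + thc p * δ i (γ • z) - _ = B i z + thc p * δ i z - _
    rw [(hB i).2 γ z, (hδ i).2 γ z]
  · obtain ⟨C, hC⟩ := EB0_bd e6 k
    refine ⟨C, fun i p hp z hz => ?_⟩
    exact hC ⟨(i, p, z), by rwa [Real.norm_eq_abs] at hp, hz⟩

/-! ### bounds of the exponents -/

theorem F0_sup {P : ℕ → ℝ → Prop} (hP : ∀ k, ∃ C, P k C)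
    (hmono : ∀ k C C', C ≤ C' → P k C → P k C') (r : ℕ) : ∃ C : ℝ, 0 ≤ C ∧ ∀ k ≤ r, P k C := by
  choose C hC using hP
  refine ⟨∑ k ∈ Finset.range (r + 1), |C k|, Finset.sum_nonneg fun _ _ => abs_nonneg _,
    fun k hk => ?_⟩
  refine hmono k (C k) _ ((le_abs_self _).trans ?_) (hC k)
  exact Finset.single_le_sum (f := fun k => |C k|) (fun _ _ => abs_nonneg _)
    (Finset.mem_range.2 (by omega))

/-- The derivatives of the exponents are bounded uniformly in the coefficients. -/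
theorem FA0_ex {ψ : Pl → ℝ} {L : ℕ} {c : ℕ → ℝ} (h : BGM.Cx Γ D m ψ L c) (r : ℕ) :
    ∃ C : ℝ, 0 ≤ C ∧ ∀ j ≤ r, ∀ (ξ : Dir → I), ∀ z ∈ closure D,
      ‖iteratedFDeriv ℝ j (BGM.ex Γ ψ L c ξ) z‖ ≤ C := by
  have hK : IsCompact (closure D) := Cmp_compact h.hX
  have h1 : ∀ j : ℕ, ∃ C : ℝ, ∀ z ∈ closure D, ‖iteratedFDeriv ℝ j ψ z‖ ≤ C := fun j =>
    hK.exists_bound_of_continuousOn
      ((h.psi.1.continuous_iteratedFDeriv (m := j) (by exact_mod_cast le_top)).continuousOn)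
  obtain ⟨C1, hC10, hC1⟩ := F0_sup h1 (fun k C C' hCC hP z hz => (hP z hz).trans hCC) r
  obtain ⟨C2, hC21, hC2⟩ := BGM.QML_deriv h.hX L h.cs r hK
  refine ⟨C1 + C2, by linarith, fun j hj ξ z hz => ?_⟩
  have e : iteratedFDeriv ℝ j (BGM.ex Γ ψ L c ξ) z =
      iteratedFDeriv ℝ j ψ z + iteratedFDeriv ℝ j (BGM.ps Γ L c ξ) z := by
    have h0 : BGM.ex Γ ψ L c ξ = fun z => ψ z + BGM.ps Γ L c ξ z := rfl
    rw [h0]
    exact fun_iteratedFDeriv_add_apply ((h.psi.1.of_le (by exact_mod_cast le_top)).contDiffAt)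
      (((BGM.ps_mem h.hX L h.cs ξ).1.of_le (by exact_mod_cast le_top)).contDiffAt)
  rw [e]
  exact (norm_add_le _ _).trans (add_le_add (hC1 j hj z hz) (hC2 ξ j hj z hz))

/-- The perturbation of one scale. -/
noncomputable def Sg0 (Γ : Type) [Group Γ] [MulAction Γ Pl] (L n : ℕ) (t : ℤ × ℤ → ℝ) (z : Pl) :
    ℝ := ∑ p ∈ grid L (n + 1), t p * per Γ (BGM.bmq (n + 1) p) z

theorem Sg0_test (hX : Surface Γ D) (L n : ℕ) (t : ℤ × ℤ → ℝ) : Sg0 Γ L n t ∈ Test Γ := by
  refine ⟨?_, fun γ z => ?_⟩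
  · unfold Sg0
    exact ContDiff.sum fun p _ => contDiff_const.mul (BGM.QH1_per hX n p).1
  · unfold Sg0
    refine Finset.sum_congr rfl fun p _ => ?_
    rw [(BGM.QH1_per hX n p).2 γ z]

theorem FA0_sum (hX : Surface Γ D) (L r : ℕ) : ∃ C : ℝ, 0 < C ∧ ∀ (n : ℕ) (t : ℤ × ℤ → ℝ)
    (τ : ℝ), (∀ p, |t p| ≤ τ) → ∀ j ≤ r, ∀ z ∈ closure D,
      ‖iteratedFDeriv ℝ j (Sg0 Γ L n t) z‖ ≤ C * ((n : ℝ) + 1) ^ (r + 2) * τ := by
  have hK : IsCompact (closure D) := Cmp_compact hX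
  obtain ⟨C, hC, h⟩ := BGM.per_bmq_deriv hX L r hK
  refine ⟨(2 * L) ^ 2 * C + 1, by positivity, fun n t τ ht j hj z hz => ?_⟩
  have hτ : 0 ≤ τ := (abs_nonneg _).trans (ht (0, 0))
  have e : iteratedFDeriv ℝ j (Sg0 Γ L n t) z = ∑ p ∈ grid L (n + 1),
      t p • iteratedFDeriv ℝ j (per Γ (BGM.bmq (n + 1) p)) z := by
    have h0 : Sg0 Γ L n t = fun z => ∑ p ∈ grid L (n + 1),
        (t p • per Γ (BGM.bmq (n + 1) p)) z := rfl
    have hsm : ∀ p : ℤ × ℤ, ContDiffAt ℝ j (per Γ (BGM.bmq (n + 1) p)) z := fun p =>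
      ((BGM.QH1_per hX n p).1.of_le (by exact_mod_cast le_top)).contDiffAt
    rw [h0, iteratedFDeriv_fun_sum_apply]
    · refine Finset.sum_congr rfl fun p _ => ?_
      exact iteratedFDeriv_const_smul_apply (hsm p)
    · intro p _
      exact contDiffAt_const.smul (hsm p)
  rw [e]
  refine (norm_sum_le _ _).trans ?_
  have key : ∀ p ∈ grid L (n + 1), ‖t p •
      iteratedFDeriv ℝ j (per Γ (BGM.bmq (n + 1) p)) z‖ ≤ τ * (C * ((n : ℝ) + 1) ^ r) := by
    intro p hp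
    rw [norm_smul, Real.norm_eq_abs]
    have h1 := h (n + 1) (by omega) p hp j hj z hz
    push_cast at h1
    exact mul_le_mul (ht p) h1 (norm_nonneg _) hτ
  refine (Finset.sum_le_sum key).trans ?_
  rw [Finset.sum_const, nsmul_eq_mul, BGM.QH1_card]
  push_cast
  have h3 : (2 * (L : ℝ) * ((n : ℝ) + 1)) ^ 2 * (τ * (C * ((n : ℝ) + 1) ^ r)) =
      ((2 * L) ^ 2 * C) * ((n : ℝ) + 1) ^ (r + 2) * τ := by ring
  rw [h3]
  have h4 : 0 ≤ ((n : ℝ) + 1) ^ (r + 2) * τ := by positivity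
  nlinarith


/-! ### the data -/

theorem F0_agree {P : Dt} (hP : OkD Γ D P) {n : ℕ} {ζ ζ' : Dir → I}
    (ha : ∀ d : Dir, d.1 ≠ n → ζ d = ζ' d) (z : Pl) :
    BGM.ex Γ P.ψ P.L P.c ζ' z = BGM.ex Γ P.ψ P.L P.c ζ z +
      Sg0 Γ P.L n (fun p => P.c n * (((ζ' (n, p) : I) : ℝ) - ζ (n, p))) z := by
  obtain ⟨s, hs0, hs1, hc⟩ := hP.c
  have hc' : P.c = fun R => s * BE33.cn R := funext hc
  have hx : BE33.Cxs Γ D P.m P.ψ P.L s := ⟨hs0, by
    have h1 := hP.cx
    rw [hc'] at h1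
    exact h1⟩
  have h2 := BE33.G1_agree hx (n := n) (ζ := ζ) (ζ' := ζ') ha z
  rw [hc', h2]
  unfold BE33.pt Sg0
  congr 1
  refine Finset.sum_congr rfl fun p _ => ?_
  ring

/-- The coefficients decay rapidly. -/
theorem F0_rapid {P : Dt} (hP : OkD Γ D P) (r : ℕ) :
    Tendsto (fun n : ℕ => ((n : ℝ) + 1) ^ r * P.c n) atTop (𝓝 0) := by
  have h := (Rapid.summable hP.cx.cs.rapid r).tendsto_atTop_zero
  refine h.congr fun n => ?_
  rw [abs_of_pos (hP.cx.cs.pos n)]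

theorem F0_bdd {P : Dt} (hP : OkD Γ D P) (r : ℕ) : ∃ T : ℝ, 0 ≤ T ∧ ∀ n : ℕ,
    ((n : ℝ) + 1) ^ r * P.c n ≤ T := by
  have h := Rapid.summable hP.cx.cs.rapid r
  refine ⟨∑' R : ℕ, ((R : ℝ) + 1) ^ r * |P.c R|, tsum_nonneg fun R => by positivity,
    fun n => ?_⟩
  have h1 := h.le_tsum n fun j _ => by positivity
  rwa [abs_of_pos (hP.cx.cs.pos n)] at h1

theorem bk_tendsto : Tendsto bk atTop atTop := by
  rw [← tendsto_natCast_atTop_iff (R := ℝ)]
  have h1 : Tendsto (fun k : ℕ => Real.exp ((k : ℝ) ^ (2 / 3 : ℝ))) atTop atTop :=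
    Real.tendsto_exp_atTop.comp ((tendsto_rpow_atTop (by norm_num)).comp
      tendsto_natCast_atTop_atTop)
  exact tendsto_atTop_mono (fun k => Nat.le_ceil _) h1

end B35
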