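import Pool.Agent.LibB35.FA0

/-! Row FA1: the path from the base metric to the metric of the block is a family of class `CF`. Uses the criterion
`CF_gen`, the stability of negative curvature `FA0_neg` and the bounds of the exponents `FA0_ex`, `FA0_sum` of FA0.lean. -/

open MeasureTheory Set Filter Topology
open scoped ContDiff unitInterval

namespace B35

open BGS BR BE
open Pool.BGR (upI)

variable {Γ : Type} [Group Γ] [MulAction Γ Pl] {D : Set Pl} {P : Dt} {κ : ℝ}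

private theorem FA1_agr (n : ℕ) (ξ η : Dir → I) (d : Dir) (hd : d.1 ≠ n) :
    zer n ξ d = mix n ξ η d := by
  simp [zer, mix, hd]

/-- The difference of the two exponents, divided by the square root of the coefficient. -/
private theorem FA1_form (hP : OkD Γ D P) (n : ℕ) (ξ η : Dir → I) (x : ℝ) (z : Pl) :
    x / √(P.c n) * (BGM.ex Γ P.ψ P.L P.c (mix n ξ η) z - BGM.ex Γ P.ψ P.L P.c (zer n ξ) z) =
      x * Sg0 Γ P.L n (fun p => √(P.c n) * ((η (n, p) : I) : ℝ)) z := by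
  rw [F0_agree hP (FA1_agr n ξ η) z, add_sub_cancel_left]
  have hc := hP.cx.cs.pos n
  have hs : 0 < √(P.c n) := Real.sqrt_pos.2 hc
  have hss : √(P.c n) * √(P.c n) = P.c n := Real.mul_self_sqrt hc.le
  have e : Sg0 Γ P.L n (fun p => P.c n * (((mix n ξ η (n, p) : I) : ℝ) - zer n ξ (n, p))) z =
      √(P.c n) * Sg0 Γ P.L n (fun p => √(P.c n) * ((η (n, p) : I) : ℝ)) z := by
    unfold Sg0
    rw [Finset.mul_sum]
    refine Finset.sum_congr rfl fun p _ => ?_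
    beta_reduce
    have hz : ((zer n ξ (n, p) : I) : ℝ) = 0 := by simp [zer]
    have hm : mix n ξ η (n, p) = η (n, p) := by simp [mix]
    rw [hz, hm, sub_zero, ← mul_assoc, ← mul_assoc, hss]
  rw [e, ← mul_assoc, div_mul_cancel₀ _ hs.ne']

/-- The square roots of the coefficients decay rapidly. -/
private theorem FA1_rapid (hP : OkD Γ D P) (r : ℕ) :
    Tendsto (fun n : ℕ => ((n : ℝ) + 1) ^ r * √(P.c n)) atTop (𝓝 0) := by
  have h := (F0_rapid hP (2 * r)).sqrt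
  rw [Real.sqrt_zero] at h
  refine h.congr fun n => ?_
  have h0 : (0 : ℝ) ≤ ((n : ℝ) + 1) ^ (2 * r) := by positivity
  rw [Real.sqrt_mul h0]
  congr 1
  rw [mul_comm 2 r, pow_mul, Real.sqrt_sq (by positivity)]

private theorem FA1_bdd (hP : OkD Γ D P) (r : ℕ) : ∃ T : ℝ, ∀ n : ℕ,
    ((n : ℝ) + 1) ^ r * √(P.c n) ≤ T := by
  obtain ⟨T, hT⟩ := (FA1_rapid hP r).bddAbove_range
  exact ⟨T, fun n => hT ⟨n, rfl⟩⟩

/-- Row FA1. -/
theorem CF_path (hP : OkD Γ D P) (hκ : 0 < κ) : ∃ (k0 : ℕ) (b : ℝ),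
    CF Γ D P.m (κ / 2) b (fun q : P.Bi Γ D κ k0 => P.sP Γ D q.1) := by
  have hX := hP.cx.hX
  obtain ⟨M, hM0, hM⟩ := FA0_ex hP.cx 2
  obtain ⟨ε, b, hε, hneg⟩ := FA0_neg (Γ := Γ) (D := D) hX hP.hm hκ hM0
  obtain ⟨C, hC, hsum⟩ := FA0_sum hX P.L 2
  have hten : Tendsto (fun k : ℕ => C * ((bk k : ℝ) + 1) ^ 4 * (2 * √(P.c (bk k)))) atTop
      (𝓝 0) := by
    have h1 := ((FA1_rapid hP 4).comp bk_tendsto).const_mul (2 * C)
    rw [mul_zero] at h1
    refine h1.congr fun k => ?_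
    show 2 * C * (((bk k : ℝ) + 1) ^ 4 * √(P.c (bk k))) = _
    ring
  obtain ⟨k0, hk0⟩ := eventually_atTop.1 (hten.eventually (Iio_mem_nhds hε))
  refine ⟨k0, b, ?_⟩
  have e : (fun q : P.Bi Γ D κ k0 => P.sP Γ D q.1) = fun (q : P.Bi Γ D κ k0) (e : ℝ × Pl) =>
      nx D P.m (fun z => BGM.ex Γ P.ψ P.L P.c (zer (bk q.1.1) q.1.2.1) z + thc e.1 *
          Sg0 Γ P.L (bk q.1.1)
            (fun p => √(P.c (bk q.1.1)) * ((q.1.2.2 (bk q.1.1, p) : I) : ℝ)) z) e.2 := by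
    funext q e
    unfold Dt.sP
    congr 1
    funext z
    rw [FA1_form hP]
  rw [e]
  have hco : ∀ (q : P.Bi Γ D κ k0) (p : ℤ × ℤ),
      |√(P.c (bk q.1.1)) * ((q.1.2.2 (bk q.1.1, p) : I) : ℝ)| ≤ √(P.c (bk q.1.1)) := by
    intro q p
    have h3 := (q.1.2.2 (bk q.1.1, p)).2
    rw [abs_mul, abs_of_nonneg (Real.sqrt_nonneg _), abs_of_nonneg h3.1]
    exact mul_le_of_le_one_right (Real.sqrt_nonneg _) h3.2
  refine CF_gen (Γ := Γ) (D := D) hX hP.ori hP.hm (by positivity) (fun q => BGM.D2_smooth hP.cx _)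
    (fun q => Sg0_test hX _ _ _) (fun k => ?_) (fun k => ?_) fun q t z => ?_
  · obtain ⟨C, -, hC⟩ := FA0_ex hP.cx k
    exact ⟨C, fun q z hz => hC k le_rfl _ z hz⟩
  · obtain ⟨C, hC, h1⟩ := FA0_sum hX P.L k
    obtain ⟨T, hT⟩ := FA1_bdd hP (k + 2)
    refine ⟨C * T, fun q z hz => ?_⟩
    refine (h1 (bk q.1.1) _ (√(P.c (bk q.1.1))) (hco q) k le_rfl z hz).trans ?_
    rw [mul_assoc]
    exact mul_le_mul_of_nonneg_left (hT _) hC.le
  · have e2 : (fun w => BGM.ex Γ P.ψ P.L P.c (zer (bk q.1.1) q.1.2.1) w + thc t *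
          Sg0 Γ P.L (bk q.1.1)
            (fun p => √(P.c (bk q.1.1)) * ((q.1.2.2 (bk q.1.1, p) : I) : ℝ)) w) =
        fun w => BGM.ex Γ P.ψ P.L P.c (zer (bk q.1.1) q.1.2.1) w +
          Sg0 Γ P.L (bk q.1.1) (fun p => thc t *
            (√(P.c (bk q.1.1)) * ((q.1.2.2 (bk q.1.1, p) : I) : ℝ))) w := by
      funext w
      congr 1
      unfold Sg0
      rw [Finset.mul_sum]
      refine Finset.sum_congr rfl fun p _ => ?_
      beta_reduce
      ring
    rw [e2]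
    refine hneg _ _ (BGM.D2_smooth hP.cx _) (Sg0_test hX _ _ _)
      (fun j hj z hz => hM j hj _ z hz) (fun j hj z hz => ?_) q.2.2 z
    refine (hsum (bk q.1.1) _ (2 * √(P.c (bk q.1.1))) (fun p => ?_) j hj z hz).trans
      (hk0 _ q.2.1).le
    rw [abs_mul]
    exact mul_le_mul (thc_le t) (hco q p) (abs_nonneg _) (by norm_num)

end B35
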