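import Pool.Agent.LibB35.FA0

/-! Row FA2: the dependence on one coefficient is a family of class `CF`. Uses the criterion `CF_gen`, the
stability of negative curvature `FA0_neg` and the bounds of the exponents `FA0_ex`, `FA0_sum` of FA0.lean. -/

open MeasureTheory Set Filter Topology
open scoped ContDiff unitInterval

namespace B35

open BGS BR BE
open Pool.BGR (upI)

variable {Γ : Type} [Group Γ] [MulAction Γ Pl] {D : Set Pl} {P : Dt} {κ : ℝ}

private theorem FA2_coef (n : ℕ) (p₀ : ℤ × ℤ) (ξ η : Dir → I) (p : ℤ × ℤ) :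
    ((upI (mix n ξ η) (n, p₀) 0 (n, p) : I) : ℝ) = if p = p₀ then 0 else ((η (n, p) : I) : ℝ) := by
  unfold upI
  by_cases h : p = p₀
  · subst h
    rw [Function.update_self, if_pos rfl]
    rfl
  · rw [Function.update_of_ne (fun h1 => h (Prod.mk.injEq _ _ _ _ ▸ h1).2), if_neg h]
    simp [mix]

private theorem FA2_agr (n : ℕ) (p₀ : ℤ × ℤ) (ξ η : Dir → I) (d : Dir) (hd : d.1 ≠ n) :
    zer n ξ d = upI (mix n ξ η) (n, p₀) 0 d := by
  unfold upI
  rw [Function.update_of_ne (fun h => hd (by rw [h]))]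
  simp [zer, mix, hd]

private theorem FA2_form (hP : OkD Γ D P) (n : ℕ) (p₀ : ℤ × ℤ) (ξ η : Dir → I) (τ : ℝ) (z : Pl) :
    BGM.ex Γ P.ψ P.L P.c (upI (mix n ξ η) (n, p₀) 0) z +
      τ * Sg0 Γ P.L n (fun p => if p = p₀ then P.c n else 0) z =
      BGM.ex Γ P.ψ P.L P.c (zer n ξ) z +
        Sg0 Γ P.L n (fun p => P.c n * (if p = p₀ then τ else ((η (n, p) : I) : ℝ))) z := by
  rw [F0_agree hP (FA2_agr n p₀ ξ η) z, add_assoc]
  congr 1
  unfold Sg0
  rw [Finset.mul_sum, ← Finset.sum_add_distrib]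
  refine Finset.sum_congr rfl fun p _ => ?_
  beta_reduce
  rw [FA2_coef]
  have hz : ((zer n ξ (n, p) : I) : ℝ) = 0 := by simp [zer]
  rw [hz]
  split_ifs <;> ring

private theorem FA2_single {L n : ℕ} {p₀ : ℤ × ℤ} (hp : p₀ ∈ grid L (n + 1)) (c : ℝ) (z : Pl) :
    Sg0 Γ L n (fun p => if p = p₀ then c else 0) z = c * per Γ (BGM.bmq (n + 1) p₀) z := by
  unfold Sg0
  rw [Finset.sum_eq_single p₀]
  · beta_reduce
    rw [if_pos rfl]
  · intro p _ hne
    beta_reduce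
    rw [if_neg hne, zero_mul]
  · intro h
    exact absurd hp h

/-- Row FA2. -/
theorem CF_cell (hP : OkD Γ D P) (hκ : 0 < κ) : ∃ (k0 : ℕ) (b : ℝ),
    CF Γ D P.m (κ / 2) b (fun q : P.Bc Γ D κ k0 => P.sC Γ D q.1) := by
  have hX := hP.cx.hX
  obtain ⟨M, hM0, hM⟩ := FA0_ex hP.cx 2
  obtain ⟨ε, b, hε, hneg⟩ := FA0_neg (Γ := Γ) (D := D) hX hP.hm hκ hM0
  obtain ⟨C, hC, hsum⟩ := FA0_sum hX P.L 2
  have hten : Tendsto (fun k : ℕ => C * ((bk k : ℝ) + 1) ^ 4 * (2 * P.c (bk k))) atTop (𝓝 0) := by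
    have h1 := ((F0_rapid hP 4).comp bk_tendsto).const_mul (2 * C)
    rw [mul_zero] at h1
    refine h1.congr fun k => ?_
    show 2 * C * (((bk k : ℝ) + 1) ^ 4 * P.c (bk k)) = _
    ring
  obtain ⟨k0, hk0⟩ := eventually_atTop.1 (hten.eventually (Iio_mem_nhds hε))
  refine ⟨k0, b, ?_⟩
  have e : (fun q : P.Bc Γ D κ k0 => P.sC Γ D q.1) = fun (q : P.Bc Γ D κ k0) (e : ℝ × Pl) =>
      nx D P.m (fun z => BGM.ex Γ P.ψ P.L P.c (upI (mix (bk q.1.1.1) q.1.1.2.1 q.1.1.2.2)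
        (bk q.1.1.1, q.1.2) 0) z + thc e.1 *
          Sg0 Γ P.L (bk q.1.1.1) (fun p => if p = q.1.2 then P.c (bk q.1.1.1) else 0) z) e.2 := by
    funext q e
    unfold Dt.sC
    congr 1
    funext z
    rw [FA2_single q.2.2.2, mul_assoc]
  rw [e]
  refine CF_gen (Γ := Γ) (D := D) hX hP.ori hP.hm (by positivity) (fun q => BGM.D2_smooth hP.cx _)
    (fun q => Sg0_test hX _ _ _) (fun k => ?_) (fun k => ?_) fun q t z => ?_
  · obtain ⟨C, -, hC⟩ := FA0_ex hP.cx k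
    exact ⟨C, fun q z hz => hC k le_rfl _ z hz⟩
  · obtain ⟨C, hC, h1⟩ := FA0_sum hX P.L k
    obtain ⟨T, hT0, hT⟩ := F0_bdd hP (k + 2)
    refine ⟨C * T, fun q z hz => ?_⟩
    have hc := hP.cx.cs.pos (bk q.1.1.1)
    refine (h1 (bk q.1.1.1) _ (P.c (bk q.1.1.1)) (fun p => ?_) k le_rfl z hz).trans ?_
    · split_ifs
      · rw [abs_of_pos hc]
      · rw [abs_zero]
        exact hc.le
    · rw [mul_assoc]
      exact mul_le_mul_of_nonneg_left (hT _) hC.le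
  · have e2 : (fun w => BGM.ex Γ P.ψ P.L P.c (upI (mix (bk q.1.1.1) q.1.1.2.1 q.1.1.2.2)
        (bk q.1.1.1, q.1.2) 0) w + thc t *
          Sg0 Γ P.L (bk q.1.1.1) (fun p => if p = q.1.2 then P.c (bk q.1.1.1) else 0) w) =
        fun w => BGM.ex Γ P.ψ P.L P.c (zer (bk q.1.1.1) q.1.1.2.1) w +
          Sg0 Γ P.L (bk q.1.1.1) (fun p => P.c (bk q.1.1.1) *
            (if p = q.1.2 then thc t else ((q.1.1.2.2 (bk q.1.1.1, p) : I) : ℝ))) w :=
      funext fun w => FA2_form hP _ _ _ _ _ w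
    rw [e2]
    refine hneg _ _ (BGM.D2_smooth hP.cx _) (Sg0_test hX _ _ _)
      (fun j hj z hz => hM j hj _ z hz) (fun j hj z hz => ?_) q.2.2.1 z
    have hc := hP.cx.cs.pos (bk q.1.1.1)
    refine (hsum (bk q.1.1.1) _ (2 * P.c (bk q.1.1.1)) (fun p => ?_) j hj z hz).trans
      (hk0 _ q.2.1).le
    rw [abs_mul, abs_of_pos hc, mul_comm (2 : ℝ)]
    refine mul_le_mul_of_nonneg_left ?_ hc.le
    split_ifs
    · exact thc_le t
    · have h3 := (q.1.1.2.2 (bk q.1.1.1, p)).2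
      rw [abs_of_nonneg h3.1]
      linarith [h3.2]

end B35
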