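import Pool.Agent.LibB35.Fam
import Pool.Agent.LibBE33.G1

/-! Row FA3: the values of the families. SHORT, 35 min. Plan. `thc 0 = 0`, `thc t = t` for `|t| ≤ 1` (`cut` is one on `[-1, 1]`:
`ContDiffBump.one_of_mem_closedBall`). `Dt.X` is `exp (h) • m` with `h = nx ..`; `mm m s p z = exp (s (p, z)) • m z`. At `p = √c`: `√c / √c = 1`
(`c > 0`, `c ≤ 1` from `Cs`), so the exponent is `ex (mix ..)`. At `p = t ∈ I` for the cell: `BGM.ps_up`-type formula, see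
`G1_mvI`, `G1_agree` in LibBE33/G1 (`upI ζ (n, c) t` against `upI ζ (n, c) 0`: the coefficient of the cell `c ∈ grid` changes from `0` to `t`). -/

open MeasureTheory Set Filter Topology
open scoped ContDiff unitInterval

namespace B35

open BGS BR BE
open Pool.BGR (upI)

variable {Γ : Type} [Group Γ] [MulAction Γ Pl] {D : Set Pl} {P : Dt} {κ : ℝ}

theorem FA3_thc {t : ℝ} (ht : |t| ≤ 1) : thc t = t := by
  have h1 : cut t = 1 := by
    refine cut.one_of_mem_closedBall ?_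
    rw [mem_closedBall_zero_iff, Real.norm_eq_abs]
    exact ht
  rw [thc, h1, mul_one]

theorem FA3_thc0 : thc 0 = 0 := by
  rw [thc, zero_mul]

/-- Row FA3. -/
theorem path_zero (hP : OkD Γ D P) (q : ℕ × (Dir → I) × (Dir → I)) :
    mm P.m (P.sP Γ D q) 0 = P.X0 Γ D q.1 q.2.1 := by
  have h : (fun z => BGM.ex Γ P.ψ P.L P.c (zer (bk q.1) q.2.1) z +
      thc 0 / √(P.c (bk q.1)) * (BGM.ex Γ P.ψ P.L P.c (mix (bk q.1) q.2.1 q.2.2) z -
        BGM.ex Γ P.ψ P.L P.c (zer (bk q.1) q.2.1) z)) =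
      BGM.ex Γ P.ψ P.L P.c (zer (bk q.1) q.2.1) := by
    funext z
    rw [FA3_thc0, zero_div, zero_mul, add_zero]
  funext z
  show Real.exp (nx D P.m (fun z => BGM.ex Γ P.ψ P.L P.c (zer (bk q.1) q.2.1) z +
      thc 0 / √(P.c (bk q.1)) * (BGM.ex Γ P.ψ P.L P.c (mix (bk q.1) q.2.1 q.2.2) z -
        BGM.ex Γ P.ψ P.L P.c (zer (bk q.1) q.2.1) z)) z) • P.m z = _
  rw [h]
  rfl

theorem path_one (hP : OkD Γ D P) (q : ℕ × (Dir → I) × (Dir → I)) :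
    mm P.m (P.sP Γ D q) (√(P.c (bk q.1))) = P.X Γ D (mix (bk q.1) q.2.1 q.2.2) := by
  obtain ⟨s, hs0, hs1, hs⟩ := hP.c
  have hc0 : 0 < P.c (bk q.1) := by
    rw [hs]
    exact mul_pos hs0 (Real.exp_pos _)
  have hc1 : P.c (bk q.1) ≤ 1 := by
    rw [hs]
    refine mul_le_one₀ hs1 (Real.exp_pos _).le ?_
    unfold cn
    rw [Real.exp_le_one_iff, neg_nonpos]
    exact Real.rpow_nonneg (Real.log_nonneg (by
      have : (0 : ℝ) ≤ (bk q.1 : ℕ) := Nat.cast_nonneg _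
      linarith)) _
  have hr0 : 0 < √(P.c (bk q.1)) := Real.sqrt_pos.2 hc0
  have hr1 : √(P.c (bk q.1)) ≤ 1 := Real.sqrt_le_one.2 hc1
  have h : (fun z => BGM.ex Γ P.ψ P.L P.c (zer (bk q.1) q.2.1) z +
      thc (√(P.c (bk q.1))) / √(P.c (bk q.1)) *
        (BGM.ex Γ P.ψ P.L P.c (mix (bk q.1) q.2.1 q.2.2) z -
        BGM.ex Γ P.ψ P.L P.c (zer (bk q.1) q.2.1) z)) =
      BGM.ex Γ P.ψ P.L P.c (mix (bk q.1) q.2.1 q.2.2) := by
    funext z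
    rw [FA3_thc (by rw [abs_of_pos hr0]; exact hr1), div_self hr0.ne']
    ring
  funext z
  show Real.exp (nx D P.m (fun z => BGM.ex Γ P.ψ P.L P.c (zer (bk q.1) q.2.1) z +
      thc (√(P.c (bk q.1))) / √(P.c (bk q.1)) *
        (BGM.ex Γ P.ψ P.L P.c (mix (bk q.1) q.2.1 q.2.2) z -
        BGM.ex Γ P.ψ P.L P.c (zer (bk q.1) q.2.1) z)) z) • P.m z = _
  rw [h]
  rfl

theorem cell_val (hP : OkD Γ D P) (q : (ℕ × (Dir → I) × (Dir → I)) × (ℤ × ℤ))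
    (hq : q.2 ∈ grid P.L (bk q.1.1 + 1)) (t : I) :
    mm P.m (P.sC Γ D q) t = P.X Γ D (upI (mix (bk q.1.1) q.1.2.1 q.1.2.2) (bk q.1.1, q.2) t) := by
  have h : (fun z => BGM.ex Γ P.ψ P.L P.c (upI (mix (bk q.1.1) q.1.2.1 q.1.2.2)
      (bk q.1.1, q.2) 0) z + thc t * P.c (bk q.1.1) * per Γ (BGM.bmq (bk q.1.1 + 1) q.2) z) =
      BGM.ex Γ P.ψ P.L P.c (upI (mix (bk q.1.1) q.1.2.1 q.1.2.2) (bk q.1.1, q.2) t) := by
    funext z
    unfold BGM.ex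
    rw [BGM.ps_up hP.cx.hX P.L hP.cx.cs _ _ hq, BGM.ps_up hP.cx.hX P.L hP.cx.cs _ _ hq,
      FA3_thc (by rw [abs_of_nonneg t.2.1]; exact t.2.2)]
    simp only [Set.Icc.coe_zero]
    ring
  funext z
  show Real.exp (nx D P.m (fun z => BGM.ex Γ P.ψ P.L P.c (upI (mix (bk q.1.1) q.1.2.1 q.1.2.2)
      (bk q.1.1, q.2) 0) z + thc t * P.c (bk q.1.1) *
        per Γ (BGM.bmq (bk q.1.1 + 1) q.2) z) z) • P.m z = _
  rw [h]
  rfl

end B35
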