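import Pool.Agent.LibB35.Fam

/-! Row FA4: the numbers. SHORT, 35 min. Plan. `bk k = ⌈exp (k^(2/3))⌉₊`: `Nat.le_ceil`, `Nat.ceil_lt_add_one`, `1 ≤ exp`.
`P.c (bk k) = s exp (-(log (bk k + 1))^(5/4))`, `k^(2/3) ≤ log (bk k + 1) ≤ k^(2/3) + log 3`, `(k^(2/3))^(5/4) = k^(5/6)`
(`Real.rpow_mul`); upper bound: monotone, `s ≤ 1`. Lower bound: `(x + log 3)^(5/4) ≤ (3/2) x^(5/4)` for large `x` (`(1 + log 3/x)^(5/4) ≤ 3/2`) and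
`s ≥ exp (-(1/2) k^(5/6))` for large `k`. -/

open MeasureTheory Set Filter Topology
open scoped ContDiff unitInterval

namespace B35

open BGS BR BE
open Pool.BGR (upI)

variable {Γ : Type} [Group Γ] [MulAction Γ Pl] {D : Set Pl} {P : Dt} {κ : ℝ}

private theorem FA4_bk (k : ℕ) : Real.exp ((k : ℝ) ^ (2 / 3 : ℝ)) ≤ (bk k : ℝ) ∧
    (bk k : ℝ) + 1 ≤ 3 * Real.exp ((k : ℝ) ^ (2 / 3 : ℝ)) := by
  have h1 : 0 ≤ (k : ℝ) ^ (2 / 3 : ℝ) := Real.rpow_nonneg (Nat.cast_nonneg k) _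
  have h2 : 1 ≤ Real.exp ((k : ℝ) ^ (2 / 3 : ℝ)) := Real.one_le_exp h1
  refine ⟨Nat.le_ceil _, ?_⟩
  have h3 : ((⌈Real.exp ((k : ℝ) ^ (2 / 3 : ℝ))⌉₊ : ℕ) : ℝ) <
      Real.exp ((k : ℝ) ^ (2 / 3 : ℝ)) + 1 := Nat.ceil_lt_add_one (Real.exp_pos _).le
  unfold bk
  linarith

/-- Row FA4: sizes of the numbers of a block. -/
theorem c_le (hP : OkD Γ D P) : ∃ k0 : ℕ, ∀ k ≥ k0,
    P.c (bk k) ≤ Real.exp (-(k : ℝ) ^ (5 / 6 : ℝ)) ∧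
      Real.exp (-2 * (k : ℝ) ^ (5 / 6 : ℝ)) ≤ P.c (bk k) := by
  obtain ⟨s, hs0, hs1, hs⟩ := hP.c
  have t1 : Tendsto (fun k : ℕ => (k : ℝ) ^ (2 / 3 : ℝ)) atTop atTop :=
    (tendsto_rpow_atTop (by norm_num : (0 : ℝ) < 2 / 3)).comp tendsto_natCast_atTop_atTop
  have t2 : Tendsto (fun k : ℕ => (k : ℝ) ^ (5 / 6 : ℝ)) atTop atTop :=
    (tendsto_rpow_atTop (by norm_num : (0 : ℝ) < 5 / 6)).comp tendsto_natCast_atTop_atTop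
  have e1 := t1.eventually_ge_atTop (5 * Real.log 3)
  have e2 := t2.eventually_ge_atTop (-2 * Real.log s)
  obtain ⟨k0, hk0⟩ := eventually_atTop.1 (e1.and e2)
  refine ⟨k0, fun k hk => ?_⟩
  obtain ⟨h1, h2⟩ := hk0 k hk
  obtain ⟨b1, b2⟩ := FA4_bk k
  have hE0 := Real.exp_pos ((k : ℝ) ^ (2 / 3 : ℝ))
  obtain ⟨x, hx⟩ : ∃ x, x = (k : ℝ) ^ (2 / 3 : ℝ) := ⟨_, rfl⟩
  obtain ⟨y, hy⟩ : ∃ y, y = Real.log ((bk k : ℝ) + 1) := ⟨_, rfl⟩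
  have hx0 : 0 ≤ x := by
    rw [hx]
    exact Real.rpow_nonneg (Nat.cast_nonneg k) _
  rw [← hx] at h1 b1 b2 hE0
  have hxk : x ^ (5 / 4 : ℝ) = (k : ℝ) ^ (5 / 6 : ℝ) := by
    rw [hx, ← Real.rpow_mul (Nat.cast_nonneg k)]
    norm_num
  have hb0 : (0 : ℝ) < (bk k : ℝ) + 1 := by positivity
  have hxy : x ≤ y := by
    rw [hy, Real.le_log_iff_exp_le hb0]
    linarith
  have hyx : y ≤ x + Real.log 3 := by
    rw [hy, ← Real.log_exp x, ← Real.log_mul (Real.exp_pos x).ne' (by norm_num)]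
    exact Real.log_le_log hb0 (by linarith)
  have hc : P.c (bk k) = s * Real.exp (-y ^ (5 / 4 : ℝ)) := by
    rw [hs, hy]
    rfl
  rw [hc, ← hxk]
  constructor
  · have h3 : x ^ (5 / 4 : ℝ) ≤ y ^ (5 / 4 : ℝ) := Real.rpow_le_rpow hx0 hxy (by norm_num)
    have h4 : Real.exp (-y ^ (5 / 4 : ℝ)) ≤ Real.exp (-x ^ (5 / 4 : ℝ)) :=
      Real.exp_le_exp.2 (by linarith)
    have h5 := Real.exp_pos (-y ^ (5 / 4 : ℝ))
    nlinarith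
  · have hl3 : 0 < Real.log 3 := Real.log_pos (by norm_num)
    have hx1 : 0 < x := by linarith
    have h3 : y ≤ 6 / 5 * x := by linarith
    have hy0 : 0 ≤ y := hx0.trans hxy
    have h4 : y ^ (5 / 4 : ℝ) ≤ 3 / 2 * x ^ (5 / 4 : ℝ) := by
      calc y ^ (5 / 4 : ℝ) ≤ (6 / 5 * x) ^ (5 / 4 : ℝ) :=
            Real.rpow_le_rpow hy0 h3 (by norm_num)
        _ = (6 / 5 : ℝ) ^ (5 / 4 : ℝ) * x ^ (5 / 4 : ℝ) :=
            Real.mul_rpow (by norm_num) hx0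
        _ ≤ 3 / 2 * x ^ (5 / 4 : ℝ) := by
            refine mul_le_mul_of_nonneg_right ?_ (Real.rpow_nonneg hx0 _)
            have h5 : (6 / 5 : ℝ) ^ (5 / 4 : ℝ) ≤ (6 / 5 : ℝ) ^ (2 : ℝ) :=
              Real.rpow_le_rpow_of_exponent_le (by norm_num) (by norm_num)
            have h6 : (6 / 5 : ℝ) ^ (2 : ℝ) = 36 / 25 := by
              rw [show (2 : ℝ) = ((2 : ℕ) : ℝ) by norm_num, Real.rpow_natCast]
              norm_num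
            rw [h6] at h5
            linarith
    rw [← hxk] at h2
    have h7 : -2 * x ^ (5 / 4 : ℝ) ≤ Real.log s + -y ^ (5 / 4 : ℝ) := by linarith
    calc Real.exp (-2 * x ^ (5 / 4 : ℝ)) ≤ Real.exp (Real.log s + -y ^ (5 / 4 : ℝ)) :=
          Real.exp_le_exp.2 h7
      _ = s * Real.exp (-y ^ (5 / 4 : ℝ)) := by
          rw [Real.exp_add, Real.exp_log hs0]

theorem bk_le (k : ℕ) : Real.exp ((k : ℝ) ^ (2 / 3 : ℝ)) ≤ (bk k : ℝ) ∧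
    (bk k : ℝ) + 1 ≤ 3 * Real.exp ((k : ℝ) ^ (2 / 3 : ℝ)) := FA4_bk k

end B35
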