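import Pool.Agent.LibB35.Fam
import Pool.Agent.LibBE33.G3
import Pool.Agent.LibBM73.M7

/-! Row FA5: the metrics of a block. MEDIUM, 50 min. Plan. `P.X` = constant multiple of `BGM.mx` (`nx h = h - log area`,
`exp (h - log A) = exp h / A`, `A > 0`). `X_hm`: `BGM.D2_rp`, `D2_iv`, curvature hypothesis; area one: `√(dt (q • m)) = q √(dt m)`;
`Mt` is a subtype (`IsMetric`, LibBGS/Defs; see LibBM73/M7 `CF.norm_area`, or LibBGR `Near`). `block_neg`: `BGM.E2_scale` (curvature of a multiple),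
`BE33.G3_XX` / `BE33.G2_curv` with `n = bk k → ∞` (`bk = BE33.nj`, `P.c R = s cn R`, `cn` is the same function); the areas of the metrics are in
`[1/C, C]` and the two areas differ by a factor `1 + o(1)` (`G1_ex`), so `-κ²` becomes `≤ -κ² (1 - o(1)) + o(1) ≤ -(κ/2)²`.
`in_block`: `BE33.G3_ev` in the same way (or directly: `P.X ξ` has curvature `≤ -κ₁²`, compactness, and the base metric is close). -/

open MeasureTheory Set Filter Topology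
open scoped ContDiff unitInterval

namespace B35

open BGS BR BE
open Pool.BGR (upI)

variable {Γ : Type} [Group Γ] [MulAction Γ Pl] {D : Set Pl} {P : Dt} {κ : ℝ}

/-- The area of the surface is positive. -/
private theorem FA5_area {m : Pl → Co} (hX : Surface Γ D) (hm : BGM.Rp m) :
    0 < ∫ z in D, √(dt (m z)) := by
  have hC : Countable Γ := Cover_countable hX
  have hv : volume D ≠ 0 := by
    intro h0
    have h1 : ∀ γ : Γ, volume ((fun z : Pl => γ • z) '' D) = 0 := fun γ =>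
      addHaar_image_eq_zero_of_differentiableOn_of_addHaar_eq_zero volume
        ((hX.smooth γ).differentiable (by simp)).differentiableOn h0
    have h2 : volume (⋃ γ : Γ, (fun z : Pl => γ • z) '' D) = 0 := by
      rw [measure_iUnion_null_iff]
      exact h1
    have h3 : (⋃ γ : Γ, (fun z : Pl => γ • z) '' D) = univ := by
      rw [eq_univ_iff_forall]
      intro z
      obtain ⟨γ, hγ, -⟩ := hX.orbit z
      refine mem_iUnion.2 ⟨γ⁻¹, γ • z, hγ, ?_⟩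
      exact inv_smul_smul γ z
    rw [h3] at h2
    have h4 := (isOpen_univ (X := Pl)).measure_pos volume ⟨0, mem_univ _⟩
    rw [h2] at h4
    exact lt_irrefl _ h4
  have hd : Continuous fun z => √(dt (m z)) :=
    Real.continuous_sqrt.comp (Cmp_dt_cont.comp hm.smooth.continuous)
  rw [setIntegral_pos_iff_support_of_nonneg_ae (Eventually.of_forall fun z => Real.sqrt_nonneg _)
    (Cmp_int hX hd)]
  have h5 : (Function.support fun z => √(dt (m z))) = univ := by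
    rw [eq_univ_iff_forall]
    intro z
    exact (Real.sqrt_pos.2 (hm.pos z).2).ne'
  rw [h5, univ_inter]
  exact pos_iff_ne_zero.2 hv

/-- The area of the metric with the exponent `h`. -/
private noncomputable def FA5_A (D : Set Pl) (m : Pl → Co) (h : Pl → ℝ) : ℝ :=
  ∫ w in D, Real.exp (h w) * √(dt (m w))

private theorem FA5_mono {m : Pl → Co} (hX : Surface Γ D) (hm : BGM.Rp m) {h h' : Pl → ℝ}
    (hc : Continuous h) (hc' : Continuous h') {ε : ℝ} (hh : ∀ z, h z ≤ h' z + ε) :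
    FA5_A D m h ≤ Real.exp ε * FA5_A D m h' := by
  have hd : Continuous fun z => √(dt (m z)) :=
    Real.continuous_sqrt.comp (Cmp_dt_cont.comp hm.smooth.continuous)
  unfold FA5_A
  rw [← integral_const_mul]
  refine integral_mono (Cmp_int hX ((Real.continuous_exp.comp hc).mul hd))
    ((Cmp_int hX ((Real.continuous_exp.comp hc').mul hd)).const_mul _) fun z => ?_
  show Real.exp (h z) * √(dt (m z)) ≤ Real.exp ε * (Real.exp (h' z) * √(dt (m z)))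
  rw [← mul_assoc, ← Real.exp_add]
  refine mul_le_mul_of_nonneg_right (Real.exp_le_exp.2 ?_) (Real.sqrt_nonneg _)
  linarith [hh z]

private theorem FA5_ex (hP : OkD Γ D P) (ξ : Dir → I) :
    BGM.ex Γ P.ψ P.L P.c ξ ∈ Test Γ := BGM.D2_smooth hP.cx ξ

/-- The areas are bounded. -/
private theorem FA5_bd (hP : OkD Γ D P) : ∃ A1 A2 : ℝ, 0 < A1 ∧ 0 < A2 ∧ ∀ ξ : Dir → I,
    A1 ≤ FA5_A D P.m (BGM.ex Γ P.ψ P.L P.c ξ) ∧ FA5_A D P.m (BGM.ex Γ P.ψ P.L P.c ξ) ≤ A2 := by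
  obtain ⟨M, hM, hb⟩ := BGM.D2_bound hP.cx
  have h0 := FA5_area hP.cx.hX hP.cx.rp
  have e0 : FA5_A D P.m (fun _ => 0) = ∫ z in D, √(dt (P.m z)) := by
    unfold FA5_A
    simp
  refine ⟨Real.exp (-M) * ∫ z in D, √(dt (P.m z)), Real.exp M * ∫ z in D, √(dt (P.m z)),
    mul_pos (Real.exp_pos _) h0, mul_pos (Real.exp_pos _) h0, fun ξ => ⟨?_, ?_⟩⟩
  · have h1 := FA5_mono (ε := M) hP.cx.hX hP.cx.rp (h := fun _ => 0)
      (h' := BGM.ex Γ P.ψ P.L P.c ξ) continuous_const (FA5_ex hP ξ).1.continuous fun z => by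
        have := (abs_le.1 (hb ξ z)).1
        linarith
    rw [e0] at h1
    rw [Real.exp_neg]
    have h2 := Real.exp_pos M
    rw [inv_mul_le_iff₀ h2]
    exact h1
  · have h1 := FA5_mono (ε := M) hP.cx.hX hP.cx.rp (h' := fun _ => 0)
      (h := BGM.ex Γ P.ψ P.L P.c ξ) (FA5_ex hP ξ).1.continuous continuous_const fun z => by
        have := (abs_le.1 (hb ξ z)).2
        linarith
    rwa [e0] at h1

private theorem FA5_pos (hP : OkD Γ D P) (ξ : Dir → I) :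
    0 < FA5_A D P.m (BGM.ex Γ P.ψ P.L P.c ξ) := by
  obtain ⟨A1, A2, h1, -, h2⟩ := FA5_bd hP
  exact h1.trans_le (h2 ξ).1

private theorem FA5_X (hP : OkD Γ D P) (ξ : Dir → I) : P.X Γ D ξ = fun z =>
    (FA5_A D P.m (BGM.ex Γ P.ψ P.L P.c ξ))⁻¹ • BGM.mx Γ P.m P.ψ P.L P.c ξ z := by
  have h1 := FA5_pos hP ξ
  funext z
  show Real.exp (BGM.ex Γ P.ψ P.L P.c ξ z - Real.log (FA5_A D P.m (BGM.ex Γ P.ψ P.L P.c ξ))) •
    P.m z = (FA5_A D P.m (BGM.ex Γ P.ψ P.L P.c ξ))⁻¹ •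
      Real.exp (BGM.ex Γ P.ψ P.L P.c ξ z) • P.m z
  rw [smul_smul, sub_eq_add_neg, Real.exp_add, Real.exp_neg, Real.exp_log h1, mul_comm]

private theorem FA5_curv (hP : OkD Γ D P) (ξ : Dir → I) (z : Pl) : curv (P.X Γ D ξ) z =
    FA5_A D P.m (BGM.ex Γ P.ψ P.L P.c ξ) * curv (BGM.mx Γ P.m P.ψ P.L P.c ξ) z := by
  have h1 := FA5_pos hP ξ
  rw [FA5_X hP ξ, BGM.E2_scale (BGM.D2_rp hP.cx ξ) (inv_pos.2 h1) z, div_inv_eq_mul, mul_comm]

private theorem FA5_c {s : ℝ} (hs : ∀ R, P.c R = s * cn R) : P.c = fun R => s * BE33.cn R := by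
  funext R
  rw [hs]
  rfl

private theorem FA5_tend (hP : OkD Γ D P) (C : ℝ) :
    Tendsto (fun n : ℕ => C * ((n : ℝ) + 1) ^ 6 * BE33.cn n) atTop (𝓝 0) := by
  obtain ⟨s, hs0, -, hs⟩ := hP.c
  have hpos : ∀ n, 0 < BE33.cn n := fun n => Real.exp_pos _
  have hr := hP.cx.cs.rapid 6
  rw [FA5_c hs] at hr
  have h1 : Tendsto (fun n : ℕ => ((n : ℝ) + 1) ^ 6 * BE33.cn n) atTop (𝓝 0) := by
    have h2 : Tendsto (fun n : ℕ => (64 / s) * ((n : ℝ) ^ 6 * (s * BE33.cn n))) atTop (𝓝 0) := by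
      have := hr.const_mul (64 / s)
      rwa [mul_zero] at this
    refine squeeze_zero' (Eventually.of_forall fun n => mul_nonneg (by positivity) (hpos n).le)
      ?_ h2
    filter_upwards [eventually_ge_atTop 1] with n hn
    have hn1 : (1 : ℝ) ≤ n := by exact_mod_cast hn
    have h3 : ((n : ℝ) + 1) ^ 6 ≤ 64 * (n : ℝ) ^ 6 := by
      have h4 : ((n : ℝ) + 1) ^ 6 ≤ (2 * (n : ℝ)) ^ 6 :=
        pow_le_pow_left₀ (by positivity) (by linarith) 6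
      have h5 : (2 * (n : ℝ)) ^ 6 = 64 * (n : ℝ) ^ 6 := by ring
      linarith
    have h6 : (64 / s) * ((n : ℝ) ^ 6 * (s * BE33.cn n)) = 64 * (n : ℝ) ^ 6 * BE33.cn n := by
      field_simp
    rw [h6]
    exact mul_le_mul_of_nonneg_right h3 (hpos n).le
  have h7 := h1.const_mul C
  rw [mul_zero] at h7
  refine h7.congr fun n => ?_
  ring

private theorem FA5_bk : Tendsto bk atTop atTop :=
  tendsto_nat_ceil_atTop.comp (Real.tendsto_exp_atTop.comp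
    ((tendsto_rpow_atTop (by norm_num : (0 : ℝ) < 2 / 3)).comp tendsto_natCast_atTop_atTop))

/-- Changes of the coefficients of the scale `n`. -/
private theorem FA5_chg (hP : OkD Γ D P) : ∃ C : ℝ, 0 < C ∧ ∀ (n : ℕ) (ζ ζ' : Dir → I),
    BE33.Agr n ζ ζ' → ∀ z,
      |BGM.ex Γ P.ψ P.L P.c ζ' z - BGM.ex Γ P.ψ P.L P.c ζ z| ≤
        C * ((n : ℝ) + 1) ^ 6 * BE33.cn n ∧
      |curv (BGM.mx Γ P.m P.ψ P.L P.c ζ') z - curv (BGM.mx Γ P.m P.ψ P.L P.c ζ) z| ≤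
        C * ((n : ℝ) + 1) ^ 6 * BE33.cn n := by
  obtain ⟨s, hs0, -, hs⟩ := hP.c
  have hc := FA5_c hs
  have hcx : BE33.Cxs Γ D P.m P.ψ P.L s := ⟨hs0, by rw [← hc]; exact hP.cx⟩
  obtain ⟨C1, hC1, h1⟩ := BE33.G1_ex hcx
  obtain ⟨C2, hC2, h2⟩ := BE33.G2_curv hcx
  rw [hc]
  refine ⟨C1 + C2, by positivity, fun n ζ ζ' ha z => ?_⟩
  have hcn : 0 < BE33.cn n := Real.exp_pos _
  have ht : ∀ p : ℤ × ℤ, |((ζ' (n, p) : I) : ℝ) - ζ (n, p)| ≤ 2 := by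
    intro p
    have h3 := (ζ' (n, p)).2
    have h4 := (ζ (n, p)).2
    rw [abs_le]
    constructor <;> linarith [h3.1, h3.2, h4.1, h4.2]
  have hn : (1 : ℝ) ≤ (n : ℝ) + 1 := by
    have : (0 : ℝ) ≤ n := Nat.cast_nonneg n
    linarith
  have h26 : ((n : ℝ) + 1) ^ 2 ≤ ((n : ℝ) + 1) ^ 6 := pow_le_pow_right₀ hn (by norm_num)
  constructor
  · rw [BE33.G1_agree hcx ha z]
    refine (h1 n ζ _ ht z).trans ?_
    refine mul_le_mul_of_nonneg_right ?_ hcn.le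
    calc C1 * ((n : ℝ) + 1) ^ 2 ≤ C1 * ((n : ℝ) + 1) ^ 6 := mul_le_mul_of_nonneg_left h26 hC1.le
      _ ≤ (C1 + C2) * ((n : ℝ) + 1) ^ 6 :=
        mul_le_mul_of_nonneg_right (by linarith) (by positivity)
  · have h5 : BGM.mx Γ P.m P.ψ P.L (fun R => s * BE33.cn R) ζ' =
        BGM.cf (BE33.pt Γ P.ψ P.L s ζ n fun p => ((ζ' (n, p) : I) : ℝ) - ζ (n, p)) P.m := by
      unfold BGM.mx
      congr 1
      funext w
      exact BE33.G1_agree hcx ha w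
    rw [h5]
    refine (h2 n ζ _ ht z).trans ?_
    refine mul_le_mul_of_nonneg_right ?_ hcn.le
    exact mul_le_mul_of_nonneg_right (by linarith) (by positivity)

/-- Row FA5: the metrics of a block: curvature, area, total. -/
theorem X_hm (hP : OkD Γ D P) {ξ : Dir → I} (h : ∀ z, curv (P.X Γ D ξ) z < 0) :
    HM Γ (P.X Γ D ξ) ∧ ∃ m' : Mt Γ D, m'.1.1 = P.X Γ D ξ := by
  have ht := FA5_ex hP ξ
  have h0 := FA5_pos hP ξ
  have hs : ContDiff ℝ ∞ (P.h Γ D ξ) := ht.1.sub contDiff_const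
  have hi : ∀ (γ : Γ) z, P.h Γ D ξ (γ • z) = P.h Γ D ξ z := fun γ z => by
    show BGM.ex Γ P.ψ P.L P.c ξ (γ • z) - _ = BGM.ex Γ P.ψ P.L P.c ξ z - _
    rw [ht.2 γ z]
  have hrp : BGM.Rp (P.X Γ D ξ) := BGM.D1_rp hP.cx.rp hs
  have hiv : BGM.Iv Γ (P.X Γ D ξ) := BGM.D1_iv hP.cx.iv hi
  refine ⟨⟨hrp.smooth, hrp.pos, hiv, h⟩, ⟨⟨P.X Γ D ξ, hrp.smooth⟩, hrp.pos, hiv, h, ?_⟩, rfl⟩
  have e1 : ∀ z, √(dt (P.X Γ D ξ z)) = (FA5_A D P.m (BGM.ex Γ P.ψ P.L P.c ξ))⁻¹ *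
      (Real.exp (BGM.ex Γ P.ψ P.L P.c ξ z) * √(dt (P.m z))) := by
    intro z
    have h1 : √(dt (BGM.cf (P.h Γ D ξ) P.m z)) = Real.exp (P.h Γ D ξ z) * √(dt (P.m z)) :=
      BM73.dt_cf _ _ _
    have h2 : Real.exp (P.h Γ D ξ z) = (FA5_A D P.m (BGM.ex Γ P.ψ P.L P.c ξ))⁻¹ *
        Real.exp (BGM.ex Γ P.ψ P.L P.c ξ z) := by
      show Real.exp (BGM.ex Γ P.ψ P.L P.c ξ z -
        Real.log (FA5_A D P.m (BGM.ex Γ P.ψ P.L P.c ξ))) = _
      rw [sub_eq_add_neg, Real.exp_add, Real.exp_neg, Real.exp_log h0, mul_comm]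
    rw [← mul_assoc, ← h2]
    exact h1
  show ∫ z in D, √(dt (P.X Γ D ξ z)) = 1
  simp only [e1]
  rw [integral_const_mul]
  exact inv_mul_cancel₀ h0.ne'

private theorem FA5_agr (n : ℕ) (ξ η : Dir → I) : BE33.Agr n (zer n ξ) (mix n ξ η) := by
  intro d hd
  rw [zer, mix, if_neg hd, if_neg hd]

theorem block_neg (hP : OkD Γ D P) (hκ : 0 < κ) : ∃ k0 : ℕ, ∀ k ≥ k0, ∀ ξ ∈ P.B Γ D κ k,
    ∀ (η : Dir → I) (z : Pl), curv (P.X Γ D (mix (bk k) ξ η)) z ≤ -(κ / 2) ^ 2 := by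
  obtain ⟨C, hC0, hC⟩ := FA5_chg hP
  obtain ⟨A1, A2, hA1, hA2, hA⟩ := FA5_bd hP
  have hl2 : 0 < Real.log 2 := Real.log_pos (by norm_num)
  have hev := (FA5_tend hP C).eventually (Iio_mem_nhds
    (show (0 : ℝ) < min (Real.log 2) (κ ^ 2 / (4 * A2)) from lt_min hl2 (by positivity)))
  obtain ⟨k0, hk0⟩ := eventually_atTop.1 (FA5_bk.eventually hev)
  refine ⟨k0, fun k hk ξ hξ η z => ?_⟩
  have hn : C * ((bk k : ℝ) + 1) ^ 6 * BE33.cn (bk k) < min (Real.log 2) (κ ^ 2 / (4 * A2)) :=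
    hk0 k hk
  obtain ⟨hn1, hn2⟩ := lt_min_iff.1 hn
  have hag := FA5_agr (bk k) ξ η
  have hB : curv (P.X Γ D (zer (bk k) ξ)) z ≤ -κ ^ 2 := hξ z
  rw [FA5_curv hP] at hB ⊢
  have hz := hC (bk k) _ _ hag
  have hratio : FA5_A D P.m (BGM.ex Γ P.ψ P.L P.c (zer (bk k) ξ)) ≤
      2 * FA5_A D P.m (BGM.ex Γ P.ψ P.L P.c (mix (bk k) ξ η)) := by
    have h1 := FA5_mono (ε := Real.log 2) hP.cx.hX hP.cx.rp
      (FA5_ex hP (zer (bk k) ξ)).1.continuous (FA5_ex hP (mix (bk k) ξ η)).1.continuous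
      fun w => by
        have := (abs_le.1 (hz w).1).1
        linarith
    rwa [Real.exp_log (by norm_num : (0 : ℝ) < 2)] at h1
  have h2 := (abs_le.1 (hz z).2).2
  obtain ⟨a, ha⟩ : ∃ a, a = FA5_A D P.m (BGM.ex Γ P.ψ P.L P.c (zer (bk k) ξ)) := ⟨_, rfl⟩
  obtain ⟨a', ha'⟩ : ∃ a', a' = FA5_A D P.m (BGM.ex Γ P.ψ P.L P.c (mix (bk k) ξ η)) := ⟨_, rfl⟩
  obtain ⟨x, hx⟩ : ∃ x, x = curv (BGM.mx Γ P.m P.ψ P.L P.c (zer (bk k) ξ)) z := ⟨_, rfl⟩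
  obtain ⟨x', hx'⟩ : ∃ x', x' = curv (BGM.mx Γ P.m P.ψ P.L P.c (mix (bk k) ξ η)) z := ⟨_, rfl⟩
  have hap : 0 < a := by
    rw [ha]
    exact FA5_pos hP _
  have hap' : 0 < a' := by
    rw [ha']
    exact FA5_pos hP _
  have ha2 : a' ≤ A2 := by
    rw [ha']
    exact (hA _).2
  rw [← ha, ← hx] at hB
  rw [← ha, ← ha'] at hratio
  rw [← hx, ← hx'] at h2
  rw [← ha', ← hx']
  have h3 : x' ≤ x + κ ^ 2 / (4 * A2) := by linarith
  have h4 : a' * x' ≤ a' * x + a' * (κ ^ 2 / (4 * A2)) := by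
    rw [← mul_add]
    exact mul_le_mul_of_nonneg_left h3 hap'.le
  have h5 : a' * (κ ^ 2 / (4 * A2)) ≤ κ ^ 2 / 4 := by
    have h6 : a' * (κ ^ 2 / (4 * A2)) ≤ A2 * (κ ^ 2 / (4 * A2)) :=
      mul_le_mul_of_nonneg_right ha2 (by positivity)
    have h7 : A2 * (κ ^ 2 / (4 * A2)) = κ ^ 2 / 4 := by
      field_simp
    linarith
  have hx0 : x < 0 := by
    by_contra hcon
    have h6 : 0 ≤ a * x := mul_nonneg hap.le (not_lt.1 hcon)
    have h7 : 0 < κ ^ 2 := by positivity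
    linarith
  have h8 : 2 * (a' * x) ≤ a * x := by
    have h9 : (2 * a') * x ≤ a * x := mul_le_mul_of_nonpos_right hratio hx0.le
    linarith
  have h10 : -(κ / 2) ^ 2 = -κ ^ 2 / 2 + κ ^ 2 / 4 := by ring
  rw [h10]
  linarith

theorem in_block (hP : OkD Γ D P) {ξ : Dir → I}
    (h : ∀ z, curv (P.X Γ D ξ) z < 0) : ∃ κ : ℝ, 0 < κ ∧ ∃ k0 : ℕ, ∀ k ≥ k0,
      ξ ∈ P.B Γ D κ k := by
  obtain ⟨s, hs0, -, hs⟩ := hP.c
  have hc := FA5_c hs
  have hcx : BE33.Cxs Γ D P.m P.ψ P.L s := ⟨hs0, by rw [← hc]; exact hP.cx⟩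
  obtain ⟨A1, A2, hA1, hA2, hA⟩ := FA5_bd hP
  have hneg : ∀ z, curv (BE33.XX Γ P.m P.ψ P.L s ξ) z < 0 := by
    intro z
    have h1 := h z
    rw [FA5_curv hP, hc] at h1
    have h2 := FA5_pos hP ξ
    rw [hc] at h2
    by_contra hcon
    have h3 : 0 ≤ curv (BGM.mx Γ P.m P.ψ P.L (fun R => s * BE33.cn R) ξ) z := not_lt.1 hcon
    exact absurd h1 (not_lt.2 (mul_nonneg h2.le h3))
  obtain ⟨i, hi⟩ := BE33.G3_ev hcx hneg
  obtain ⟨k0, hk0⟩ := eventually_atTop.1 (FA5_bk.eventually hi)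
  refine ⟨√(A1 / ((i : ℝ) + 1)), Real.sqrt_pos.2 (by positivity), k0, fun k hk z => ?_⟩
  have h1 := hk0 k hk z
  show curv (P.X Γ D (zer (bk k) ξ)) z ≤ _
  rw [FA5_curv hP, Real.sq_sqrt (by positivity)]
  have h2 : BE33.X0 Γ P.m P.ψ P.L s (bk k) ξ = BGM.mx Γ P.m P.ψ P.L P.c (zer (bk k) ξ) := by
    rw [hc]
    rfl
  rw [h2] at h1
  have h3 := (hA (zer (bk k) ξ)).1
  have h4 := FA5_pos hP (zer (bk k) ξ)
  have h5 : (0 : ℝ) < 1 / ((i : ℝ) + 1) := by positivity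
  calc FA5_A D P.m (BGM.ex Γ P.ψ P.L P.c (zer (bk k) ξ)) *
        curv (BGM.mx Γ P.m P.ψ P.L P.c (zer (bk k) ξ)) z
      ≤ FA5_A D P.m (BGM.ex Γ P.ψ P.L P.c (zer (bk k) ξ)) * -(1 / ((i : ℝ) + 1)) :=
        mul_le_mul_of_nonneg_left h1 h4.le
    _ ≤ A1 * -(1 / ((i : ℝ) + 1)) := mul_le_mul_of_nonpos_right h3 (by linarith)
    _ = -(A1 / ((i : ℝ) + 1)) := by ring

end B35
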