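import Pool.Agent.LibB35.Defs

/-! The one-parameter families of metrics of the blocks. -/

open MeasureTheory Set Filter Topology
open scoped ContDiff unitInterval

namespace B35

open BGS BR BE
open Pool.BGR (upI)

/-- A bounded smooth function that is the identity on `[-1, 1]`. -/
noncomputable def thc (t : ℝ) : ℝ := t * cut t

/-- The path from the base metric of the block `k` to the metric with the coefficients `η`; the
latter is reached at the parameter `√(c n)`, `n = bk k`. -/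
noncomputable def Dt.sP (P : Dt) (Γ : Type) [Group Γ] [MulAction Γ Pl] (D : Set Pl)
    (q : ℕ × (Dir → I) × (Dir → I)) (e : ℝ × Pl) : ℝ :=
  nx D P.m (fun z => BGM.ex Γ P.ψ P.L P.c (zer (bk q.1) q.2.1) z +
    thc e.1 / √(P.c (bk q.1)) * (BGM.ex Γ P.ψ P.L P.c (mix (bk q.1) q.2.1 q.2.2) z -
      BGM.ex Γ P.ψ P.L P.c (zer (bk q.1) q.2.1) z)) e.2

/-- The dependence on the coefficient of the cell `c`. -/
noncomputable def Dt.sC (P : Dt) (Γ : Type) [Group Γ] [MulAction Γ Pl] (D : Set Pl)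
    (q : (ℕ × (Dir → I) × (Dir → I)) × (ℤ × ℤ)) (e : ℝ × Pl) : ℝ :=
  nx D P.m (fun z => BGM.ex Γ P.ψ P.L P.c (upI (mix (bk q.1.1) q.1.2.1 q.1.2.2)
    (bk q.1.1, q.2) 0) z + thc e.1 * P.c (bk q.1.1) *
      per Γ (BGM.bmq (bk q.1.1 + 1) q.2) z) e.2

/-- The indices of the blocks. -/
def Dt.Bi (P : Dt) (Γ : Type) [Group Γ] [MulAction Γ Pl] (D : Set Pl) (κ : ℝ) (k0 : ℕ) : Type :=
  {q : ℕ × (Dir → I) × (Dir → I) // k0 ≤ q.1 ∧ q.2.1 ∈ P.B Γ D κ q.1}

/-- The indices of the blocks and a cell of the grid. -/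
def Dt.Bc (P : Dt) (Γ : Type) [Group Γ] [MulAction Γ Pl] (D : Set Pl) (κ : ℝ) (k0 : ℕ) : Type :=
  {q : (ℕ × (Dir → I) × (Dir → I)) × (ℤ × ℤ) //
    k0 ≤ q.1.1 ∧ q.1.2.1 ∈ P.B Γ D κ q.1.1 ∧ q.2 ∈ grid P.L (bk q.1.1 + 1)}

end B35
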