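import Pool.Agent.LibBF73.F7
import Pool.Agent.LibFB23.Blocks
import Pool.Agent.LibGWa.U9
import Pool.Agent.LibBE33.A4
import Pool.Agent.LibGD33.Asm2

/-! The final assembly: the law of the coefficients, the random metric of area one, and the windows
for all `L ≤ K log T`. -/

open MeasureTheory ProbabilityTheory Set Filter Topology
open scoped ContDiff unitInterval

namespace B35

open BGS BR Mes
open Pool.BGR (PM)
open BE33 (um)

variable {Γ : Type} [Group Γ] [MulAction Γ Pl] {D : Set Pl}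

/-- Moments give the law. -/
theorem goe_of_mom {m' : Mt Γ D} (hl : GWin.Lev (FG33.lam m')) {L : ℝ → ℝ}
    (hL : Tendsto L atTop atTop)
    (hm : ∀ a : ℝ → ℂ, FG33.IsAmp a → ∀ r : ℕ,
      Tendsto (fun T => (1 / T) * ∫ τ in T..2 * T, GWin.st (FG33.lam m') a (L T) τ ^ r) atTop
        (𝓝 (gaussMom (GWin.vg a) r))) : FG33.GOEWindows m' L := by
  intro a ha
  have hc : ∀ᶠ T in atTop, Continuous (GWin.st (FG33.lam m') a (L T)) := by
    filter_upwards [hL.eventually (eventually_gt_atTop 0)] with T hT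
    exact GWin.st_cont ha hl hT
  constructor
  · rintro F hF ⟨B, hB⟩
    rw [GWin.varGOE_eq ha]
    exact GWin.law_of_mom (GWin.vg_nonneg a) hc (hm a ha)
      (BoundedContinuousFunction.ofNormedAddCommGroup F hF B hB)
  · intro r
    rw [GWin.gauss_moments, GWin.varGOE_eq ha, Real.coe_toNNReal _ (GWin.vg_nonneg a)]
    exact hm a ha r

/-- The law of one coefficient. -/
theorem den_of_Qt {u : I → I} (hu : BE33.Qt u) : Den ((volume : Measure I).map u) BE33.rho where
  prob := Measure.isProbabilityMeasure_map hu.cont.measurable.aemeasurable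
  smooth := BE33.rho_smooth
  nonneg := BE33.rho_nonneg
  supp := by
    intro t ht
    unfold BE33.rho BE33.rho0
    rcases not_and_or.1 ht with h | h
    · rw [expNegInvGlue.zero_of_nonpos (le_of_lt (not_le.1 h)), zero_mul, zero_div]
    · rw [expNegInvGlue.zero_of_nonpos (x := 1 - t) (by linarith [not_le.1 h]), mul_zero,
        zero_div]
  int := by
    intro f hf
    have e1 : ∫ t : I, f t ∂((volume : Measure I).map u) = ∫ t : I, f (u t) :=
      integral_map hu.cont.measurable.aemeasurable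
        (hf.comp continuous_subtype_val).aestronglyMeasurable
    rw [e1]
    have hre : Continuous fun v : ℝ => (f v).re := Complex.continuous_re.comp hf
    have him : Continuous fun v : ℝ => (f v).im := Complex.continuous_im.comp hf
    have hfu : Continuous fun t : I => f (u t) := hf.comp (continuous_subtype_val.comp hu.cont)
    have hi : Integrable (fun t : I => f (u t)) := by
      obtain ⟨C, hC⟩ := isCompact_univ.exists_bound_of_continuousOn hfu.continuousOn
      exact Integrable.of_bound hfu.aestronglyMeasurable C (ae_of_all _ fun t => hC t trivial)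
    have hg : Continuous fun t : ℝ => ((BE33.rho t : ℝ) : ℂ) * f t :=
      (Complex.continuous_ofReal.comp BE33.rho_smooth.continuous).mul hf
    have hg' := hg.intervalIntegrable (μ := volume) 0 1
    apply Complex.ext
    · have h1 : (∫ t : I, f (u t)).re = ∫ t : I, (f (u t)).re :=
        (integral_re (𝕜 := ℂ) hi).symm
      have h2 : (∫ t in (0 : ℝ)..1, ((BE33.rho t : ℝ) : ℂ) * f t).re =
          ∫ t in (0 : ℝ)..1, (((BE33.rho t : ℝ) : ℂ) * f t).re := by
        rw [intervalIntegral.integral_of_le zero_le_one, intervalIntegral.integral_of_le zero_le_one]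
        exact (integral_re (𝕜 := ℂ) hg'.1).symm
      rw [h1, h2, hu.law _ hre]
      refine intervalIntegral.integral_congr fun t _ => ?_
      simp only [Complex.re_ofReal_mul]
      ring
    · have h1 : (∫ t : I, f (u t)).im = ∫ t : I, (f (u t)).im :=
        (integral_im (𝕜 := ℂ) hi).symm
      have h2 : (∫ t in (0 : ℝ)..1, ((BE33.rho t : ℝ) : ℂ) * f t).im =
          ∫ t in (0 : ℝ)..1, (((BE33.rho t : ℝ) : ℂ) * f t).im := by
        rw [intervalIntegral.integral_of_le zero_le_one, intervalIntegral.integral_of_le zero_le_one]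
        exact (integral_im (𝕜 := ℂ) hg'.1).symm
      rw [h1, h2, hu.law _ him]
      refine intervalIntegral.integral_congr fun t _ => ?_
      simp only [Complex.im_ofReal_mul]
      ring

theorem meas_um {u : I → I} (hu : BE33.Qt u) : Measurable (um u) :=
  measurable_pi_lambda _ fun d => hu.cont.measurable.comp (measurable_pi_apply d)

theorem Pm_map {u : I → I} (hu : BE33.Qt u) :
    (PM Dir).map (um u) = Pm ((volume : Measure I).map u) := by
  unfold Pool.BGR.PM Pm
  exact Measure.infinitePi_map_pi (μ := fun _ : Dir => (volume : Measure I))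
    (f := fun _ => u) fun _ => hu.cont.measurable

/-- The data. -/
theorem okD_of (hX : Surface Γ D) (hO : Ori Γ) {L : ℕ}
    (hL : ∀ z ∈ closure D, |z.1| ≤ (L : ℝ) - 1 ∧ |z.2| ≤ (L : ℝ) - 1) (m : Mt Γ D) {ψ : Pl → ℝ}
    (hψ : ψ ∈ Test Γ) {s : ℝ} (hs : 0 < s) (hs1 : s ≤ 1) :
    OkD Γ D ⟨m.1.1, ψ, L, fun R => s * BE33.cn R⟩ where
  cx := BGM.GM_cx hX (BGM.h1_of hX) hL (BE33.cn_Cs hs hs1) m hψ
  ori := hO
  hm := hm_of_Mt m
  c := ⟨s, hs, hs1, fun _ => rfl⟩

/-- The metric of area one. -/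
theorem X_of {m m' : Mt Γ D} {ψ : Pl → ℝ} {L : ℕ} {s q : ℝ} (hq : 0 < q) {ζ : Dir → I}
    (h : ∀ z, m'.1.1 z = (q * Real.exp (ψ z + s * BGM.ps Γ L BE33.cn ζ z)) • m.1.1 z) :
    m'.1.1 = Dt.X ⟨m.1.1, ψ, L, fun R => s * BE33.cn R⟩ Γ D ζ := by
  set f : Pl → ℝ := BGM.ex Γ ψ L (fun R => s * BE33.cn R) ζ with hf
  have h' : ∀ z, m'.1.1 z = (q * Real.exp (f z)) • m.1.1 z := by
    intro z
    rw [h z, hf]
    unfold BGM.ex
    rw [BGM.GM_ps]
  have harea := m'.2.area
  have e1 : ∀ z, √(dt (m'.1.1 z)) = q * (Real.exp (f z) * √(dt (m.1.1 z))) := by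
    intro z
    rw [h' z]
    have e2 : dt ((q * Real.exp (f z)) • m.1.1 z) = (q * Real.exp (f z)) ^ 2 * dt (m.1.1 z) := by
      unfold dt
      simp only [Prod.smul_fst, Prod.smul_snd, smul_eq_mul]
      ring
    rw [e2, Real.sqrt_mul (sq_nonneg _), Real.sqrt_sq (by positivity)]
    ring
  simp only [e1] at harea
  rw [integral_const_mul] at harea
  set A : ℝ := ∫ w in D, Real.exp (f w) * √(dt (m.1.1 w)) with hA
  have hA0 : 0 < A := by
    by_contra hn
    have h3 := mul_nonpos_of_nonneg_of_nonpos hq.le (not_lt.1 hn)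
    linarith
  have hqA : q = Real.exp (-Real.log A) := by
    rw [Real.exp_neg, Real.exp_log hA0]
    field_simp
    exact harea
  funext z
  rw [h' z]
  unfold Dt.X Dt.h nx
  show (q * Real.exp (f z)) • m.1.1 z = Real.exp (f z - Real.log A) • m.1.1 z
  rw [sub_eq_add_neg, Real.exp_add, hqA, mul_comm]

/-- **Windows beyond the Ehrenfest time.** -/
theorem ae_all (hX : Surface Γ D) (hO : Ori Γ) {L₀ : ℕ}
    (hL₀ : ∀ z ∈ closure D, |z.1| ≤ (L₀ : ℝ) - 1 ∧ |z.2| ≤ (L₀ : ℝ) - 1) {u : I → I}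
    (hu : BE33.Qt u) (m : Mt Γ D) {ψ : Pl → ℝ} (hψ : ψ ∈ Test Γ) {s : ℝ} (hs : 0 < s)
    (hs1 : s ≤ 1) :
    ∀ᵐ ξ ∂(PM Dir), ∀ m' : Mt Γ D,
      (∃ q : ℝ, 0 < q ∧ ∀ z, m'.1.1 z =
        (q * Real.exp (ψ z + s * BGM.ps Γ L₀ BE33.cn (um u ξ) z)) • m.1.1 z) →
      ∀ L : ℝ → ℝ, Tendsto L atTop atTop → (∃ K : ℝ, ∀ᶠ T in atTop, L T ≤ K * Real.log T) →
        FG33.GOEWindows m' L := by
  obtain ⟨A, hA, hfb⟩ := FB23.from_blocks'
  have hP := okD_of hX hO hL₀ m hψ hs hs1
  have h1 := ae_blocks' hP (den_of_Qt hu) hA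
  rw [← Pm_map hu] at h1
  have h2 := ae_of_ae_map (meas_um hu).aemeasurable h1
  filter_upwards [h2] with ξ hξ m' hm' L hL hLK
  obtain ⟨q, hq, hm'⟩ := hm'
  have heq := X_of hq hm'
  have hneg : ∀ z, curv (Dt.X ⟨m.1.1, ψ, L₀, fun R => s * BE33.cn R⟩ Γ D (um u ξ)) z < 0 := by
    intro z
    rw [← heq]
    exact m'.2.neg z
  have hlev : GWin.Lev (FG33.lam m') := GD.lev hX m'
  exact goe_of_mom hlev hL (hfb _ hlev (hξ hneg m' heq) L hL hLK)

end B35
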