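import Pool.Agent.LibB35.Defs

/-! The combinatorics of the moments: definitions. `P0` is the set of the primitive closed geodesics,
`Ag P0` the set of the closed geodesics (primitive class, number of turns minus one, orientation);
an element of `Ag P0 × Bool` is a closed geodesic with a sign (`false`: complex conjugate). -/

open MeasureTheory Set Filter Topology

namespace B35

/-- Abstract closed geodesics. -/
abbrev Ag (P0 : Type) : Type := P0 × ℕ × Bool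

variable {P0 I : Type} [Fintype I]

open Classical in
/-- The signed number of turns of the tuple around the primitive closed geodesic `p` is zero, for
every `p`. -/
def Deg (F : I → Ag P0 × Bool) : Prop :=
  ∀ p : P0, ∑ i with (F i).1.1 = p, sgn (F i).2 * ((F i).1.2.1 + 1) = 0

/-- Every primitive closed geodesic of the tuple occurs at least twice. -/
def Pair (F : I → Ag P0 × Bool) : Prop := ∀ i, ∃ j, j ≠ i ∧ (F j).1.1 = (F i).1.1

/-- The tuples of elements of `Q` with signs. -/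
noncomputable def Tu (I : Type) [Fintype I] (Q : Finset (Ag P0)) : Finset (I → Ag P0 × Bool) :=
  open Classical in Fintype.piFinset fun _ : I => Q ×ˢ (Finset.univ : Finset Bool)

/-- The weight of a tuple. -/
noncomputable def wF (w : Ag P0 → ℝ) (F : I → Ag P0 × Bool) : ℝ := ∏ i, w (F i).1

/-- The term of a tuple. -/
noncomputable def tm (Z : I → Ag P0 → ℂ) (F : I → Ag P0 × Bool) : ℂ :=
  ∏ i, (1 / 2 : ℂ) * cj (F i).2 (Z i (F i).1)

open Classical in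
/-- The diagonal moment. -/
noncomputable def DD (Q : Finset (Ag P0)) (M : Ag P0 → ℂ) (r : ℕ) : ℂ :=
  ∑ F ∈ Tu (Fin r) Q with Deg F, tm (fun _ => M) F

/-- The numerical hypotheses on the weights. -/
structure Wt (Q : Finset (Ag P0)) (w : Ag P0 → ℝ) (V : ℝ) : Prop where
  one : 1 ≤ V
  nonneg : ∀ q, 0 ≤ w q
  le : ∀ q, w q ≤ V
  sq : ∑ q ∈ Q, w q ^ 2 ≤ V
  turns : ∀ q ∈ Q, (q.2.1 : ℝ) + 1 ≤ V

variable {Ω : Type} [MeasurableSpace Ω]

/-- The hypotheses of the combinatorial theorem. -/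
structure HB (μ : Measure Ω) (u v T : ℝ) (r r' : ℕ) (Q : Finset (Ag P0)) (w : Ag P0 → ℝ)
    (V ε ε' εD θ : ℝ) (Z : ℝ → Ω → Ag P0 → ℂ) (Mw : Ω → Ag P0 → ℂ) (l : Ω → P0 → ℝ)
    (m0 : Ag P0 → ℂ) (Bd : (Fin r ⊕ Fin r' → Bool) → Finset (Fin r ⊕ Fin r' → Ag P0)) : Prop where
  prob : IsProbabilityMeasure μ
  u_pos : 0 < u
  uv : u < v
  T_pos : 1 ≤ T
  wt : Wt Q w V
  ε0 : 0 ≤ ε ∧ ε ≤ 1
  ε1 : 0 ≤ ε' ∧ ε' ≤ 1
  εD0 : 0 ≤ εD
  θ0 : 0 ≤ θ ∧ θ < u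
  meas : ∀ q, Measurable fun x : ℝ × Ω => Z x.1 x.2 q
  app : ∀ τ, u * T ≤ τ → τ ≤ v * T → ∀ ω, ∀ q ∈ Q,
    ‖Z τ ω q - Mw ω q * Complex.exp (-(Complex.I * τ * (((q.2.1 + 1) * l ω q.1 : ℝ) : ℂ)))‖ ≤
      ε * w q + ε'
  par : ∀ ω, ∀ q ∈ Q, ‖Mw ω q - m0 q‖ ≤ ε * w q
  m0 : ∀ q ∈ Q, ‖m0 q‖ ≤ V * w q
  und : ∀ F ∈ Tu (Fin r ⊕ Fin r') Q, ∀ τ τ' : ℝ, u * T ≤ τ → τ ≤ v * T → u * T ≤ τ' →
    τ' ≤ v * T →
    ‖∫ ω, tm (fun i => Z (Sum.elim (fun _ => τ) (fun _ => τ') i) ω) F ∂μ‖ ≤ εD ∨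
    (fun i => (F i).1) ∈ Bd (fun i => (F i).2) ∨
    open Classical in
    ∀ p : P0, |∑ i with (F i).1.1 = p, sgn (F i).2 *
      ((Sum.elim (fun _ => τ) (fun _ => τ') i : ℝ) / T) * ((F i).1.2.1 + 1)| ≤ θ

/-- The average of the term of a tuple. -/
noncomputable def EF (μ : Measure Ω) (u v T : ℝ) {r r' : ℕ} (Z : ℝ → Ω → Ag P0 → ℂ)
    (F : Fin r ⊕ Fin r' → Ag P0 × Bool) : ℂ :=
  ((1 / ((v - u) * T) : ℝ) : ℂ) * ∫ τ in (u * T)..(v * T), ((1 / ((v - u) * T) : ℝ) : ℂ) *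
    ∫ τ' in (u * T)..(v * T), ∫ ω, tm (fun i => Z (Sum.elim (fun _ => τ) (fun _ => τ') i) ω) F ∂μ

end B35
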