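import Pool.Agent.LibB35.GQ2a

/-! Rows Q2 (the facts on the blocks, from C1, C2, C3 and the families). MEDIUM, 50 min each. Notation in a block `k`,
`T = 2 ^ k`: `μ0 = P.X0 Γ D k ξ`, `μ = P.X Γ D (mix (bk k) ξ η)`, `p = √(P.c (bk k)) ≤ exp (-(1/2) k^(5/6))` (`c_le`),
`δ = dl k = exp (-k^(3/4))`, `CF_path` (index `(k, ξ, η)`), `path_zero`, `path_one`, `block_neg`, `X_hm`, `cls_q`, `amp_sc`.
For every `B`: `k^B exp (-c k^(5/6)) → 0`, `p ≤ δ²/(poly k)`, `(T δ²)^(-A) T² exp (C0 K k) ≤ T^(-A')` for `A` large: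
`T^(-A) = exp (-A k log 2)`, `δ^(-2A) = exp (2 A k^(3/4))`.
Q2a `ln_cmp`: C3 (first part; `l ≤ K k`), and for `l` large compared with `l1` the comparison `ln μ0 q ≤ 2 ln μ q` of `BGM.D1_tl`
(exponents differ by at most `C √c`); Q2b `fact1`: `Sg_eq`, `sum_cls`, C1 for every `q`; the number of `q` is `≤ exp (C K' k)` (`wts`).
Q2c `fact2`: C2. Q2d `fact3`: C3, `amp_sc` (Lipschitz), `wts`. -/

open MeasureTheory Set Filter Topology
open scoped ContDiff unitInterval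

namespace B35

open BGS BR BE

variable {Γ : Type} [Group Γ] [MulAction Γ Pl] {D : Set Pl} {P : Dt} {κ : ℝ}

private theorem Q2c_ev1 (B C c : ℝ) (hc : 0 < c) {s : ℝ} (hs : 0 < s) :
    ∀ᶠ k : ℕ in atTop, B + C * Real.log k ≤ c * (k : ℝ) ^ s := by
  have h1 : (fun x : ℝ => B + C * Real.log x) =o[atTop] (fun x : ℝ => x ^ s) := by
    refine (Asymptotics.isLittleO_const_left.2 (Or.inr ?_)).add
      ((isLittleO_log_rpow_atTop hs).const_mul_left C)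
    exact tendsto_norm_atTop_atTop.comp (tendsto_rpow_atTop hs)
  have h2 := h1.bound hc
  have h3 := tendsto_natCast_atTop_atTop.eventually h2
  filter_upwards [h3] with k hk
  rw [Real.norm_of_nonneg (by positivity : (0 : ℝ) ≤ (k : ℝ) ^ s)] at hk
  exact (Real.le_norm_self _).trans hk

private theorem Q2c_ev2 (B c : ℝ) (hc : 0 < c) {s t : ℝ} (hst : s < t) :
    ∀ᶠ k : ℕ in atTop, B * (k : ℝ) ^ s ≤ c * (k : ℝ) ^ t := by
  filter_upwards [Q2c_ev1 B 0 c hc (sub_pos.2 hst), eventually_ge_atTop 1] with k hk h1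
  have hk0 : (0 : ℝ) < k := by exact_mod_cast h1
  rw [zero_mul, add_zero] at hk
  calc B * (k : ℝ) ^ s ≤ (c * (k : ℝ) ^ (t - s)) * (k : ℝ) ^ s :=
        mul_le_mul_of_nonneg_right hk (Real.rpow_nonneg hk0.le _)
    _ = c * (k : ℝ) ^ t := by
        rw [mul_assoc, ← Real.rpow_add hk0, sub_add_cancel]

private theorem Q2c_num1 {R K u C M L τ w w0 C' : ℝ} {k : ℕ} (hR : 1 ≤ R) (hK : 1 ≤ K)
    (hu : 0 < u) (hC : 0 ≤ C) (hM : 0 ≤ M) (hk : (1 : ℝ) ≤ k) (hτ : u * 2 ^ k ≤ τ)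
    (hρ : 0 ≤ 1 + (R * L + 1)) (hρ2 : 1 + (R * L + 1) ≤ (R * K + 2) * k) (hw : 0 ≤ w)
    (hw2 : w ≤ 2 * w0) (hw0 : 0 ≤ w0) (hC1 : C ≤ C')
    (hC2 : C * M * (2 * (R * K + 2) ^ C * u ^ (-(1 / 4) : ℝ)) ≤ C') :
    C * (1 + (R * L + 1)) ^ C * M * (τ ^ (-(1 / 4) : ℝ) * w) ≤
      C' * (k : ℝ) ^ C' * (2 ^ k : ℝ) ^ (-(1 / 4) : ℝ) * w0 := by
  have hT0 : (0 : ℝ) < 2 ^ k := by positivity
  have hk0 : (0 : ℝ) < k := by linarith
  have hRK : 0 ≤ R * K := by positivity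
  have hW : 0 < R * K + 2 := by linarith
  have h3 : τ ^ (-(1 / 4) : ℝ) ≤ u ^ (-(1 / 4) : ℝ) * (2 ^ k : ℝ) ^ (-(1 / 4) : ℝ) := by
    rw [← Real.mul_rpow hu.le hT0.le]
    exact Real.rpow_le_rpow_of_nonpos (by positivity) hτ (by norm_num)
  have h4 : (1 + (R * L + 1)) ^ C ≤ (R * K + 2) ^ C * (k : ℝ) ^ C := by
    rw [← Real.mul_rpow hW.le hk0.le]
    exact Real.rpow_le_rpow hρ hρ2 hC
  have hτ0 : 0 ≤ τ := le_trans (by positivity) hτ
  have hC0' : 0 ≤ C' := hC.trans hC1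
  calc C * (1 + (R * L + 1)) ^ C * M * (τ ^ (-(1 / 4) : ℝ) * w)
      ≤ C * ((R * K + 2) ^ C * (k : ℝ) ^ C) * M *
        ((u ^ (-(1 / 4) : ℝ) * (2 ^ k : ℝ) ^ (-(1 / 4) : ℝ)) * (2 * w0)) := by
        gcongr
    _ = (C * M * (2 * (R * K + 2) ^ C * u ^ (-(1 / 4) : ℝ))) * (k : ℝ) ^ C *
        (2 ^ k : ℝ) ^ (-(1 / 4) : ℝ) * w0 := by
        ring
    _ ≤ C' * (k : ℝ) ^ C' * (2 ^ k : ℝ) ^ (-(1 / 4) : ℝ) * w0 := by
        have h6 : (k : ℝ) ^ C ≤ (k : ℝ) ^ C' :=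
          Real.rpow_le_rpow_of_exponent_le hk hC1
        gcongr

private theorem Q2c_num2 {R K u C M C0 L τ C' : ℝ} {k A A' Cn : ℕ} (hu : 0 < u)
    (hC : 0 ≤ C) (hCn : (Cn : ℝ) ≤ C) (hM : 0 ≤ M) (hC0 : 0 ≤ C0) (hk0 : (0 : ℝ) < k)
    (hA1 : 2 + C0 * R * K + A * Real.log 2 ≤ A' * Real.log 2)
    (e5 : C * Real.log (R * K + 2) + C * Real.log k ≤ k)
    (e6 : C * (k : ℝ) ^ (3 / 4 : ℝ) ≤ k)
    (hτ : u * 2 ^ k ≤ τ) (hLk : L ≤ K * k) (hR : 1 ≤ R) (hρ1 : 1 ≤ 1 + (R * L + 1))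
    (hρC : (1 + (R * L + 1)) ^ C ≤ Real.exp (C * Real.log (R * K + 2) + C * Real.log k))
    (hC2 : C * M * Real.exp C0 / u ^ A' ≤ C') :
    Cn * ((1 + (R * L + 1)) / dl k) ^ Cn * Real.exp (C0 * (R * L + 1)) * M / τ ^ A' ≤
      C' / (2 ^ k) ^ A := by
  have hT : (2 : ℝ) ^ k = Real.exp (k * Real.log 2) := by
    rw [mul_comm, Real.exp_mul, Real.exp_log two_pos, Real.rpow_natCast]
  have hT0 : (0 : ℝ) < 2 ^ k := by positivity
  have hτ0 : 0 < τ := lt_of_lt_of_le (by positivity) hτ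
  have hdl : dl k = Real.exp (-(k : ℝ) ^ (3 / 4 : ℝ)) := rfl
  have hk34 : 0 ≤ (k : ℝ) ^ (3 / 4 : ℝ) := Real.rpow_nonneg hk0.le _
  have h3 : (1 + (R * L + 1)) ^ Cn ≤ Real.exp k := by
    refine le_trans ?_ (hρC.trans (Real.exp_le_exp.2 e5))
    rw [← Real.rpow_natCast]
    exact Real.rpow_le_rpow_of_exponent_le hρ1 hCn
  have h3' : ((1 + (R * L + 1)) / dl k) ^ Cn ≤ Real.exp k * Real.exp k := by
    rw [div_pow, div_eq_mul_inv]
    refine mul_le_mul h3 ?_ (by rw [hdl]; positivity) (Real.exp_pos _).le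
    rw [hdl, ← Real.exp_nat_mul, ← Real.exp_neg]
    refine Real.exp_le_exp.2 ?_
    have h6 := mul_le_mul_of_nonneg_right hCn hk34
    linarith
  have h4 : Real.exp (C0 * (R * L + 1)) ≤ Real.exp C0 * Real.exp (C0 * R * K * k) := by
    rw [← Real.exp_add]
    refine Real.exp_le_exp.2 ?_
    have h3 : R * L ≤ R * (K * k) := mul_le_mul_of_nonneg_left hLk (by linarith)
    have h4 : C0 * (R * L) ≤ C0 * (R * (K * k)) := mul_le_mul_of_nonneg_left h3 hC0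
    linarith
  have h6 : (u * Real.exp (k * Real.log 2)) ^ A' ≤ τ ^ A' := by
    rw [← hT]
    exact pow_le_pow_left₀ (by positivity) hτ A'
  have hu' : 0 < (u * Real.exp (k * Real.log 2)) ^ A' := by positivity
  have hnum0 : 0 ≤ (1 + (R * L + 1)) / dl k :=
    div_nonneg (by linarith) (by rw [hdl]; exact (Real.exp_pos _).le)
  calc Cn * ((1 + (R * L + 1)) / dl k) ^ Cn * Real.exp (C0 * (R * L + 1)) * M / τ ^ A'
      ≤ C * (Real.exp k * Real.exp k) * (Real.exp C0 * Real.exp (C0 * R * K * k)) * M /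
        (u * Real.exp (k * Real.log 2)) ^ A' := by
        gcongr
    _ = (C * M * Real.exp C0 / u ^ A') * Real.exp (k + k + C0 * R * K * k -
          A' * (k * Real.log 2)) := by
        rw [mul_pow u, ← Real.exp_nat_mul, Real.exp_sub, Real.exp_add, Real.exp_add]
        field_simp
    _ ≤ (C * M * Real.exp C0 / u ^ A') * Real.exp (-(A * (k * Real.log 2))) := by
        refine mul_le_mul_of_nonneg_left (Real.exp_le_exp.2 ?_) (by positivity)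
        have h8 := mul_le_mul_of_nonneg_right hA1 hk0.le
        nlinarith
    _ ≤ C' / (2 ^ k) ^ A := by
        rw [Real.exp_neg, hT, ← Real.exp_nat_mul, div_eq_mul_inv]
        exact mul_le_mul_of_nonneg_right hC2 (by positivity)

/-- Row Q2c. -/
theorem fact2 (hP : OkD Γ D P) (hκ : 0 < κ) {a : ℝ → ℂ} (ha : FG33.IsAmp a) {R : ℝ} (hR : 1 ≤ R)
    (hR' : ∀ s, R < |s| → a s = 0) {u v : ℝ} (hu : 0 < u) (huv : u < v) {K : ℝ} (hK : 1 ≤ K)
    (K' : ℝ) (N A : ℕ) :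
    ∃ (C : ℝ) (k0 : ℕ), ∀ k ≥ k0, ∀ ξ ∈ P.B Γ D κ k, ∀ η : Dir → I, ∀ L : ℝ, 1 ≤ L → L ≤ K * k →
      ∀ τ : ℝ, u * 2 ^ k ≤ τ → τ ≤ v * 2 ^ k → ∀ q ∈ Cs (Γ := Γ) (P.X0 Γ D k ξ) (K' * k),
      ‖zl (P.X0 Γ D k ξ) (P.X Γ D (mix (bk k) ξ η)) (dl k) N (GWin.sc a L) τ q -
        mz (P.X Γ D (mix (bk k) ξ η)) (GWin.sc a L) τ q‖ ≤
        C * (k : ℝ) ^ C * (2 ^ k : ℝ) ^ (-(1 / 4) : ℝ) * wg (P.X0 Γ D k ξ) q + C / (2 ^ k) ^ A := by
  obtain ⟨k1, b, hCF⟩ := CF_path hP hκ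
  obtain ⟨C0, hC0, h2⟩ := C2 hCF
  obtain ⟨A', hA'⟩ := exists_nat_ge ((2 + C0 * R * K) / Real.log 2 + (A : ℝ))
  obtain ⟨n, Cn, h2⟩ := h2 N A' (2 * (R * K + 1) / Real.log 2)
  set C : ℝ := (Cn : ℝ) + 1 with hCdef
  have hC : 1 ≤ C := by
    have : (0 : ℝ) ≤ Cn := Nat.cast_nonneg _
    linarith
  have hCnC : (Cn : ℝ) ≤ C := by linarith
  obtain ⟨M, hM, hamp⟩ := amp_sc ha (by linarith : (0 : ℝ) ≤ R) hR' n
  obtain ⟨c1, k2, hc1, hln⟩ := ln_cmp hP hκ K'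
  obtain ⟨k3, hcle⟩ := c_le hP
  obtain ⟨k4, hneg⟩ := block_neg hP hκ
  have hl2 : 0 < Real.log 2 := Real.log_pos (by norm_num)
  have hRK : 1 ≤ R * K := by nlinarith
  have hW : 0 < R * K + 2 := by linarith
  have hA1 : 2 + C0 * R * K + A * Real.log 2 ≤ A' * Real.log 2 := by
    have h3 := mul_le_mul_of_nonneg_right hA' hl2.le
    have h4 : ((2 + C0 * R * K) / Real.log 2 + (A : ℝ)) * Real.log 2 =
        2 + C0 * R * K + A * Real.log 2 := by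
      field_simp
    rw [h4] at h3
    exact h3
  obtain ⟨k5, h5⟩ := eventually_atTop.1
    ((Q2c_ev1 (- 2 * Real.log u) 0 (Real.log 2) hl2 one_pos).and
      ((Q2c_ev1 (Real.log C) 0 1 one_pos (show (0 : ℝ) < 3 / 4 by norm_num)).and
      ((Q2c_ev1 (Real.log C + C * Real.log (R * K + 2)) C (1 / 4) (by norm_num)
        (show (0 : ℝ) < 5 / 6 by norm_num)).and
      ((Q2c_ev2 2 (1 / 4) (by norm_num) (show (3 / 4 : ℝ) < 5 / 6 by norm_num)).and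
      ((Q2c_ev1 (C * Real.log (R * K + 2)) C 1 one_pos one_pos).and
      ((Q2c_ev2 C 1 one_pos (show (3 / 4 : ℝ) < 1 by norm_num)).and
      ((tendsto_pow_atTop_atTop_of_one_lt (by norm_num : (1 : ℝ) < 2)).eventually_ge_atTop
        (1 / u))))))))
  refine ⟨max C (max (C * M * (2 * (R * K + 2) ^ C * u ^ (-(1 / 4) : ℝ)))
    (C * M * Real.exp C0 / u ^ A')), max (max (max k1 k2) (max k3 k4)) (max k5 1), ?_⟩
  intro k hk ξ hξ η L hL hLk τ hτ hτ' q hq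
  simp only [ge_iff_le, max_le_iff] at hk
  obtain ⟨⟨⟨hk1, hk2⟩, hk3, hk4⟩, hk5, hk6⟩ := hk
  obtain ⟨e1, e2, e3, e4, e5, e6, e7⟩ := h5 k hk5
  have hkR : (1 : ℝ) ≤ k := by exact_mod_cast hk6
  have hk0 : (0 : ℝ) < k := by linarith
  rw [Real.rpow_one] at e1 e5 e6
  rw [zero_mul, add_zero, one_mul] at e2
  rw [one_mul] at e5 e6
  rw [zero_mul, add_zero] at e1
  have hX := hP.cx.hX
  have hO := hP.ori
  -- the metrics
  have hm0 : HM Γ (P.X0 Γ D k ξ) := by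
    refine (X_hm hP (ξ := zer (bk k) ξ) fun z => ?_).1
    have : curv (P.X0 Γ D k ξ) z ≤ -κ ^ 2 := hξ z
    have h3 : 0 < κ ^ 2 := by positivity
    exact lt_of_le_of_lt this (by linarith)
  have hm1 : HM Γ (P.X Γ D (mix (bk k) ξ η)) := by
    refine (X_hm hP fun z => ?_).1
    have := hneg k hk4 ξ hξ η z
    have h3 : 0 < (κ / 2) ^ 2 := by positivity
    linarith
  obtain ⟨hcl0, -, -, -, -, -⟩ := cls_q hX hO hm0 q
  obtain ⟨hcl1, htr1, hlp1, -, -, htg1⟩ := cls_q hX hO hm1 q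
  -- the number `√c`
  have hcpos : 0 < P.c (bk k) := by
    obtain ⟨s, hs, -, h3⟩ := hP.c
    rw [h3]
    exact mul_pos hs (Real.exp_pos _)
  have hp : √(P.c (bk k)) ≤ Real.exp (-(1 / 2) * (k : ℝ) ^ (5 / 6 : ℝ)) := by
    rw [Real.sqrt_le_left (Real.exp_pos _).le, ← Real.exp_nat_mul]
    refine (hcle k hk3).1.trans (Real.exp_le_exp.2 ?_)
    push_cast
    linarith
  have hp1 : |√(P.c (bk k))| ≤ 1 := by
    rw [abs_of_nonneg (Real.sqrt_nonneg _)]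
    refine hp.trans (Real.exp_le_one_iff.2 ?_)
    have : 0 ≤ (k : ℝ) ^ (5 / 6 : ℝ) := by positivity
    linarith
  -- the size `1 + ρ`
  have hρ1 : 1 ≤ R * L + 1 := by
    have h3 : 0 ≤ R * L := mul_nonneg (by linarith only [hR]) (by linarith only [hL])
    linarith only [h3]
  have hρ2 : 1 + (R * L + 1) ≤ (R * K + 2) * k := by
    have h3 : R * L ≤ R * (K * k) := mul_le_mul_of_nonneg_left hLk (by linarith only [hR])
    linarith only [h3, hkR]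
  have hWk : (((R * K + 2) * k : ℝ)) ^ C = Real.exp (C * Real.log (R * K + 2) +
      C * Real.log k) := by
    rw [← Real.exp_log (mul_pos hW hk0), ← Real.exp_mul, Real.log_mul hW.ne' hk0.ne']
    congr 1
    ring
  have hρC : (1 + (R * L + 1)) ^ C ≤ Real.exp (C * Real.log (R * K + 2) + C * Real.log k) := by
    rw [← hWk]
    exact Real.rpow_le_rpow (by linarith) hρ2 (by linarith)
  have hCe : C = Real.exp (Real.log C) := (Real.exp_log (by linarith)).symm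
  have hCρ : C * (1 + (R * L + 1)) ^ C ≤
      Real.exp (Real.log C + C * Real.log (R * K + 2) + C * Real.log k) := by
    have h3 : C * (1 + (R * L + 1)) ^ C ≤
        C * Real.exp (C * Real.log (R * K + 2) + C * Real.log k) :=
      mul_le_mul_of_nonneg_left hρC (by linarith)
    refine h3.trans (le_of_eq ?_)
    nth_rw 1 [hCe]
    rw [← Real.exp_add]
    congr 1
    ring
  have hT : (2 : ℝ) ^ k = Real.exp (k * Real.log 2) := by
    rw [mul_comm, Real.exp_mul, Real.exp_log two_pos, Real.rpow_natCast]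
  have hT0 : (0 : ℝ) < 2 ^ k := by positivity
  have hτ1 : 1 ≤ τ := by
    rw [div_le_iff₀ hu] at e7
    linarith
  have c1' : R * L + 1 ≤ 2 * (R * K + 1) / Real.log 2 * Real.log τ := by
    have h3 : Real.log (u * 2 ^ k) ≤ Real.log τ := Real.log_le_log (by positivity) hτ
    rw [hT, Real.log_mul hu.ne' (Real.exp_pos _).ne', Real.log_exp] at h3
    have h4 : (k : ℝ) * Real.log 2 / 2 ≤ Real.log τ := by linarith
    have h5 : R * L ≤ R * (K * k) := mul_le_mul_of_nonneg_left hLk (by linarith only [hR])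
    have h6 : 0 ≤ 2 * (R * K + 1) / Real.log 2 := by positivity
    calc R * L + 1 ≤ (R * K + 1) * k := by linarith
      _ = 2 * (R * K + 1) / Real.log 2 * ((k : ℝ) * Real.log 2 / 2) := by
          field_simp
      _ ≤ 2 * (R * K + 1) / Real.log 2 * Real.log τ := mul_le_mul_of_nonneg_left h4 h6
  have hδ0 : 0 < dl k := Real.exp_pos _
  have hδ1 : dl k ≤ 1 := by
    rw [dl]
    refine Real.exp_le_one_iff.2 ?_
    have : 0 ≤ (k : ℝ) ^ (3 / 4 : ℝ) := by positivity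
    linarith
  have hρ0 : 1 ≤ 1 + (R * L + 1) := by linarith
  have hCnρ : Cn * (1 + (R * L + 1)) ^ Cn ≤ C * (1 + (R * L + 1)) ^ C := by
    have h3 : (1 + (R * L + 1)) ^ Cn ≤ (1 + (R * L + 1)) ^ C := by
      rw [← Real.rpow_natCast]
      exact Real.rpow_le_rpow_of_exponent_le hρ0 hCnC
    exact mul_le_mul hCnC h3 (pow_nonneg (by linarith) _) (by linarith)
  have c3' : Cn * (1 + (R * L + 1)) ^ Cn * |√(P.c (bk k))| ≤ dl k := by
    rw [abs_of_nonneg (Real.sqrt_nonneg _)]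
    calc Cn * (1 + (R * L + 1)) ^ Cn * √(P.c (bk k))
        ≤ C * (1 + (R * L + 1)) ^ C * √(P.c (bk k)) :=
          mul_le_mul_of_nonneg_right hCnρ (Real.sqrt_nonneg _)
      _ ≤ Real.exp (Real.log C + C * Real.log (R * K + 2) + C * Real.log k) *
          Real.exp (-(1 / 2) * (k : ℝ) ^ (5 / 6 : ℝ)) := by
          gcongr
      _ ≤ dl k := by
          rw [← Real.exp_add, dl]
          refine Real.exp_le_exp.2 ?_
          have : 0 ≤ (k : ℝ) ^ (3 / 4 : ℝ) := by positivity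
          linarith
  have e0 : mm P.m (P.sP Γ D (k, ξ, η)) 0 = P.X0 Γ D k ξ := path_zero hP (k, ξ, η)
  have e0' : mm P.m (P.sP Γ D (k, ξ, η)) (√(P.c (bk k))) = P.X Γ D (mix (bk k) ξ η) :=
    path_one hP (k, ξ, η)
  have key := h2 ⟨(k, ξ, η), hk1, hξ⟩ (√(P.c (bk k))) hp1 (gel q) (gpr q)
    (ax (P.X0 Γ D k ξ) (gpr q)).1 (ax (P.X0 Γ D k ξ) (gpr q)).2
    (ax (P.X Γ D (mix (bk k) ξ η)) (gpr q)).1 (ax (P.X Γ D (mix (bk k) ξ η)) (gpr q)).2
    (ln (P.X0 Γ D k ξ) q) (lp (P.X0 Γ D k ξ) q.1) (ln (P.X Γ D (mix (bk k) ξ η)) q)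
    (lp (P.X Γ D (mix (bk k) ξ η)) q.1)
    (by show Cls (mm P.m (P.sP Γ D (k, ξ, η)) 0) _ _ _ _ _ _; rw [e0]; exact hcl0)
    (by show Cls (mm P.m (P.sP Γ D (k, ξ, η)) _) _ _ _ _ _ _; rw [e0']; exact hcl1)
    (GWin.sc a L) (R * L + 1) M τ (dl k) (by linarith) (hamp L hL).2.1 hτ1 c1' hδ0 hδ1 c3'
  simp only [e0, e0', htr1] at key
  -- the weights
  have hwμ : lp (P.X Γ D (mix (bk k) ξ η)) q.1 /
      √(GD.trg (P.X Γ D (mix (bk k) ξ η)) (gel q) - 2) = wg (P.X Γ D (mix (bk k) ξ η)) q := rfl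
  have hw0 : 0 ≤ wg (P.X Γ D (mix (bk k) ξ η)) q := by
    rw [← hwμ]
    exact div_nonneg hlp1.le (Real.sqrt_nonneg _)
  have hq' : ln (P.X0 Γ D k ξ) q ≤ K' * k := (Cs_mem hX hO hm0).1 hq
  have hw2 : wg (P.X Γ D (mix (bk k) ξ η)) q ≤ 2 * wg (P.X0 Γ D k ξ) q := by
    have h3 := ((hln k hk2 ξ hξ η q).2.2 hq').2
    obtain ⟨hcl0', -, hlp0, -, -, -⟩ := cls_q hX hO hm0 q
    have h4 : 0 ≤ wg (P.X0 Γ D k ξ) q := by
      exact div_nonneg hlp0.le (Real.sqrt_nonneg _)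
    have h5 : Real.exp (-c1 * (k : ℝ) ^ (5 / 6 : ℝ)) ≤ 1 := by
      refine Real.exp_le_one_iff.2 ?_
      have : 0 ≤ (k : ℝ) ^ (5 / 6 : ℝ) := Real.rpow_nonneg hk0.le _
      have h7 := mul_nonneg hc1.le this
      rw [neg_mul]
      linarith only [h7]
    have h6 := (abs_le.1 h3).2
    have h7 := mul_le_mul_of_nonneg_right h5 h4
    linarith only [h6, h7]
  rw [hwμ] at key
  have hmz : mz (P.X Γ D (mix (bk k) ξ η)) (GWin.sc a L) τ q =
      ((wg (P.X Γ D (mix (bk k) ξ η)) q : ℝ) : ℂ) * (GWin.sc a L (ln (P.X Γ D (mix (bk k) ξ η)) q) *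
        Complex.exp (-(Complex.I * τ * ln (P.X Γ D (mix (bk k) ξ η)) q))) := by
    rw [mz, mt, mul_assoc]
  rw [hmz]
  have hzl : zl (P.X0 Γ D k ξ) (P.X Γ D (mix (bk k) ξ η)) (dl k) N (GWin.sc a L) τ q =
      ZL (P.X0 Γ D k ξ) (P.X Γ D (mix (bk k) ξ η)) (dl k) N (GWin.sc a L) τ (gel q)
        (ax (P.X0 Γ D k ξ) (gpr q)).1 (ax (P.X0 Γ D k ξ) (gpr q)).2
        (lp (P.X0 Γ D k ξ) q.1) := rfl
  rw [hzl]
  refine key.trans ?_
  have hτ0 : 0 < τ := lt_of_lt_of_le (by positivity) hτ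
  have hM0 : 0 ≤ M := by linarith
  have hC0' : 0 ≤ C := by linarith
  have hw00 : 0 ≤ wg (P.X0 Γ D k ξ) q := by linarith
  refine add_le_add ?_ ?_
  · refine le_trans ?_ (Q2c_num1 hR hK hu hC0' hM0 hkR hτ (by linarith) hρ2 hw0 hw2 hw00
      (le_max_left _ _) ((le_max_left _ _).trans (le_max_right _ _)))
    have h3 : 1 / √τ ≤ τ ^ (-(1 / 4) : ℝ) := by
      rw [one_div, Real.sqrt_eq_rpow, ← Real.rpow_neg hτ0.le]
      exact Real.rpow_le_rpow_of_exponent_le hτ1 (by norm_num)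
    have h4 : 0 ≤ C * (1 + (R * L + 1)) ^ C := by positivity
    have h5 : 0 ≤ (Cn : ℝ) * (1 + (R * L + 1)) ^ Cn := by positivity
    calc Cn * (1 + (R * L + 1)) ^ Cn * (M / √τ) * wg (P.X Γ D (mix (bk k) ξ η)) q
        = Cn * (1 + (R * L + 1)) ^ Cn * M * (1 / √τ * wg (P.X Γ D (mix (bk k) ξ η)) q) := by ring
      _ ≤ C * (1 + (R * L + 1)) ^ C * M *
          (τ ^ (-(1 / 4) : ℝ) * wg (P.X Γ D (mix (bk k) ξ η)) q) := by
          refine mul_le_mul (mul_le_mul_of_nonneg_right hCnρ hM0)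
            (mul_le_mul_of_nonneg_right h3 hw0) (by positivity) (mul_nonneg h4 hM0)
  · exact Q2c_num2 hu hC0' hCnC hM0 hC0 hk0 hA1 e5 e6 hτ hLk hR hρ0 hρC
      ((le_max_right _ _).trans (le_max_right _ _))

end B35
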