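import Pool.Agent.LibB35.GQ2a

/-! Rows Q2 (the facts on the blocks, from C1, C2, C3 and the families). MEDIUM, 50 min each. Notation in a block `k`,
`T = 2 ^ k`: `μ0 = P.X0 Γ D k ξ`, `μ = P.X Γ D (mix (bk k) ξ η)`, `p = √(P.c (bk k)) ≤ exp (-(1/2) k^(5/6))` (`c_le`),
`δ = dl k = exp (-k^(3/4))`, `CF_path` (index `(k, ξ, η)`), `path_zero`, `path_one`, `block_neg`, `X_hm`, `cls_q`, `amp_sc`.
For every `B`: `k^B exp (-c k^(5/6)) → 0`, `p ≤ δ²/(poly k)`, `(T δ²)^(-A) T² exp (C0 K k) ≤ T^(-A')` for `A` large: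
`T^(-A) = exp (-A k log 2)`, `δ^(-2A) = exp (2 A k^(3/4))`.
Q2a `ln_cmp`: C3 (first part; `l ≤ K k`), and for `l` large compared with `l1` the comparison `ln μ0 q ≤ 2 ln μ q` of `BGM.D1_tl`
(exponents differ by at most `C √c`); Q2b `fact1`: `Sg_eq`, `sum_cls`, C1 for every `q`; the number of `q` is `≤ exp (C K' k)` (`wts`).
Q2c `fact2`: C2. Q2d `fact3`: C3, `amp_sc` (Lipschitz), `wts`. -/

open MeasureTheory Set Filter Topology
open scoped ContDiff unitInterval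

namespace B35

open BGS BR BE

variable {Γ : Type} [Group Γ] [MulAction Γ Pl] {D : Set Pl} {P : Dt} {κ : ℝ}

private theorem GQ2d_supp {a : ℝ → ℂ} (ha : HasCompactSupport a) :
    ∃ R : ℝ, 0 ≤ R ∧ ∀ s, R < |s| → a s = 0 := by
  obtain ⟨R, hR⟩ := ha.isBounded.subset_closedBall (0 : ℝ)
  refine ⟨max R 0, le_max_right _ _, fun s hs => ?_⟩
  by_contra h
  have h1 := hR (subset_tsupport a h)
  rw [mem_closedBall_zero_iff, Real.norm_eq_abs] at h1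
  exact absurd (h1.trans (le_max_left _ _)) (not_le.2 hs)

private theorem GQ2d_exp {c A : ℝ} (hc : 0 < c) : ∃ k0 : ℕ, ∀ k ≥ k0,
    A * Real.exp (-c * (k : ℝ) ^ (5 / 6 : ℝ)) ≤
      Real.exp (-(c / 2) * (k : ℝ) ^ (5 / 6 : ℝ)) := by
  have h1 : Tendsto (fun k : ℕ => Real.exp (c / 2 * (k : ℝ) ^ (5 / 6 : ℝ))) atTop atTop :=
    Real.tendsto_exp_atTop.comp (((tendsto_rpow_atTop (by norm_num)).comp
      tendsto_natCast_atTop_atTop).const_mul_atTop (by positivity))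
  obtain ⟨k0, hk0⟩ := eventually_atTop.1 (h1.eventually_ge_atTop A)
  refine ⟨k0, fun k hk => ?_⟩
  have h2 : Real.exp (-(c / 2) * (k : ℝ) ^ (5 / 6 : ℝ)) =
      Real.exp (c / 2 * (k : ℝ) ^ (5 / 6 : ℝ)) * Real.exp (-c * (k : ℝ) ^ (5 / 6 : ℝ)) := by
    rw [← Real.exp_add]
    congr 1
    ring
  rw [h2]
  exact mul_le_mul_of_nonneg_right (hk0 k hk) (Real.exp_pos _).le

private theorem GQ2d_Cs {μ : Pl → Co} {t : ℝ} {q : Cg Γ} (h : q ∈ Cs (Γ := Γ) μ t) :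
    ln μ q ≤ t := by
  unfold Cs at h
  split_ifs at h with h1
  · exact h1.mem_toFinset.1 h
  · exact absurd h (Finset.notMem_empty q)

/-- Row Q2d. -/
theorem fact3 (hP : OkD Γ D P) (hκ : 0 < κ) {a : ℝ → ℂ} (ha : FG33.IsAmp a) (K K' : ℝ) :
    ∃ (c C : ℝ) (k0 : ℕ), 0 < c ∧ ∀ k ≥ k0, ∀ ξ ∈ P.B Γ D κ k, ∀ η : Dir → I, ∀ L : ℝ, 1 ≤ L →
      L ≤ K * k → ∀ q ∈ Cs (Γ := Γ) (P.X0 Γ D k ξ) (K' * k),
      ‖mt (P.X Γ D (mix (bk k) ξ η)) (GWin.sc a L) q - mt (P.X0 Γ D k ξ) (GWin.sc a L) q‖ ≤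
        Real.exp (-c * (k : ℝ) ^ (5 / 6 : ℝ)) * wg (P.X0 Γ D k ξ) q ∧
      ‖mt (P.X0 Γ D k ξ) (GWin.sc a L) q‖ ≤ C * wg (P.X0 Γ D k ξ) q := by
  obtain ⟨R, hR, hR'⟩ := GQ2d_supp ha.supp
  obtain ⟨M, hM, hamp⟩ := amp_sc ha hR hR' 0
  obtain ⟨c, k1, hc, hcmp⟩ := ln_cmp hP hκ K'
  obtain ⟨C, k2, hC, hw⟩ := wts hP hκ
  obtain ⟨k3, hk3⟩ := GQ2d_exp (A := 3 * M) hc
  refine ⟨c / 2, M, max k1 (max k2 k3), by positivity, ?_⟩
  intro k hk ξ hξ η L hL _ q hq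
  have hk1 : k1 ≤ k := le_trans (le_max_left _ _) hk
  have hk2 : k2 ≤ k := le_trans (le_trans (le_max_left _ _) (le_max_right _ _)) hk
  have hk3' : k3 ≤ k := le_trans (le_trans (le_max_right _ _) (le_max_right _ _)) hk
  obtain ⟨-, -, h1⟩ := hcmp k hk1 ξ hξ η q
  obtain ⟨h2, h3⟩ := h1 (GQ2d_Cs hq)
  have hw0 : 0 ≤ wg (P.X0 Γ D k ξ) q := ((hw k hk2 ξ hξ).1 q).1
  have hb : ∀ s, ‖GWin.sc a L s‖ ≤ M := by
    intro s
    have h4 := (hamp L hL).1.bound 0 le_rfl s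
    rwa [iteratedDeriv_zero] at h4
  have hlip := (hamp L hL).2.2
  set e := Real.exp (-c * (k : ℝ) ^ (5 / 6 : ℝ)) with he
  have he0 : 0 ≤ e := (Real.exp_pos _).le
  have he1 : e ≤ 1 := by
    rw [he, Real.exp_le_one_iff]
    have : 0 ≤ (k : ℝ) ^ (5 / 6 : ℝ) := by positivity
    nlinarith
  refine ⟨?_, ?_⟩
  · set w := wg (P.X Γ D (mix (bk k) ξ η)) q with hwdef
    set w0 := wg (P.X0 Γ D k ξ) q with hw0def
    set l := ln (P.X Γ D (mix (bk k) ξ η)) q with hl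
    set l0 := ln (P.X0 Γ D k ξ) q with hl0
    have h4 : mt (P.X Γ D (mix (bk k) ξ η)) (GWin.sc a L) q - mt (P.X0 Γ D k ξ) (GWin.sc a L) q =
        (w : ℂ) * (GWin.sc a L l - GWin.sc a L l0) + ((w - w0 : ℝ) : ℂ) * GWin.sc a L l0 := by
      unfold mt
      push_cast
      ring
    have h5 : |w| ≤ 2 * w0 := by
      have h6 : |w| ≤ |w - w0| + |w0| := by
        have := abs_add_le (w - w0) w0
        rwa [sub_add_cancel] at this
      rw [abs_of_nonneg hw0] at h6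
      nlinarith
    rw [h4]
    refine (norm_add_le _ _).trans ?_
    rw [norm_mul, norm_mul, Complex.norm_real, Complex.norm_real, Real.norm_eq_abs,
      Real.norm_eq_abs]
    have h6 : |w| * ‖GWin.sc a L l - GWin.sc a L l0‖ ≤ 2 * w0 * (M * e) := by
      refine mul_le_mul h5 ((hlip l l0).trans ?_) (norm_nonneg _) (mul_nonneg zero_le_two hw0)
      exact mul_le_mul_of_nonneg_left h2 (by linarith)
    have h7 : |w - w0| * ‖GWin.sc a L l0‖ ≤ e * w0 * M :=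
      mul_le_mul h3 (hb l0) (norm_nonneg _) (mul_nonneg he0 hw0)
    have h8 := mul_le_mul_of_nonneg_right (hk3 k hk3') hw0
    calc _ ≤ 2 * w0 * (M * e) + e * w0 * M := add_le_add h6 h7
      _ = 3 * M * e * w0 := by ring
      _ ≤ _ := h8
  · unfold mt
    rw [norm_mul, Complex.norm_real, Real.norm_eq_abs, abs_of_nonneg hw0, mul_comm]
    exact mul_le_mul_of_nonneg_right (hb _) hw0

end B35
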