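import Pool.Agent.LibB35.GQ2b
import Pool.Agent.LibB35.GQ2c
import Pool.Agent.LibB35.GQ2d
import Pool.Agent.LibB35.GA
import Pool.Agent.LibB35.GS1

/-! Row B (the block theorem; cites GQ2, GR10, IF). The geometric input of `comb`: `Ω = Dir → I`, `μ = Pm ν`, `P0 = GH.PG Γ`,
`Q = Cs μ0 (K' k)`, `w = wg μ0`, `T = 2 ^ k`, `Z τ η q = zl μ0 (X (mix ξ η)) (dl k) N (sc a L) τ q`, `Mw η q = mt (X (mix ξ η)) ..`,
`l η p = lp (X (mix ξ η)) p`, `m0 = mt μ0 ..`, `θ = C (bk k + 1)^(-1/2)`, `V = C k^C`, `ε = exp (-c k^(5/6)) + C k^C T^(-1/4)`,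
`ε' = εD = C / T^A` with `A` so large that `T^(-A) (card Q + 1)^(r+r') ≤ exp (-k)`.
B1 `hb_block`: the structure `HB`. `und`: if some cell detects (`R^(-3/2) ≤ |..|`) then `decor`: `∫ tm ∂μ` is a constant times
`∫ ∏ cj (zl ..)`, and for the cell `c`, `∫_η f (X (mix ξ η)) = ∫_η ∫_t f (X (upI (mix ξ η) (n, c) t)) ∂ν` (row S1 below, slices of the
product measure; `upI (mix n ξ η) (n, c) t = mix n ξ (upI η (n, c) t)`); otherwise `undet` with `lam j = sgn (e j) τ j / T`,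
`Λ = max (v) (1/u)`.
B2 `block`: replace `Sg` by the sum of the `zl` (fact1): `|x^r y^r' - x'^r y'^r'| ≤ ..` with `|x - x'| ≤ C/T^A` and all sizes
`≤ exp (C k)`; Fubini between `η` and `τ, τ'` (`meas_Sg`, bounded), `block_neg` (the `if` in `Dt.M` is true). -/

open MeasureTheory Set Filter Topology
open scoped ContDiff unitInterval

namespace B35

open BGS BR BE
open Pool.BGR (upI)

variable {Γ : Type} [Group Γ] [MulAction Γ Pl] {D : Set Pl} {P : Dt} {κ : ℝ} {ν : Measure I}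
  {ρ : ℝ → ℝ}


private theorem gb1_ev_exp (C : ℝ) {c : ℝ} (hc : 0 < c) :
    ∀ᶠ k : ℕ in atTop, C ≤ Real.exp (c * (k : ℝ) ^ (2 / 3 : ℝ)) := by
  have h1 : Tendsto (fun k : ℕ => Real.exp (c * (k : ℝ) ^ (2 / 3 : ℝ))) atTop atTop :=
    Real.tendsto_exp_atTop.comp (((tendsto_rpow_atTop (by norm_num : (0 : ℝ) < 2 / 3)).comp
      tendsto_natCast_atTop_atTop).const_mul_atTop hc)
  exact h1.eventually_ge_atTop C

private theorem gb1_ev_pow {c c3 : ℝ} (hc3 : 0 < c3) :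
    ∀ᶠ k : ℕ in atTop, Real.exp (-c3 * (k : ℝ) ^ (5 / 6 : ℝ)) ≤ Real.exp (-c * (k : ℝ) ^ (2 / 3 : ℝ)) := by
  have h1 : Tendsto (fun k : ℕ => (k : ℝ) ^ (1 / 6 : ℝ)) atTop atTop :=
    (tendsto_rpow_atTop (by norm_num : (0 : ℝ) < 1 / 6)).comp tendsto_natCast_atTop_atTop
  filter_upwards [h1.eventually_ge_atTop (c / c3), eventually_gt_atTop 0] with k hk hk0
  rw [Real.exp_le_exp]
  have hk0' : (0 : ℝ) < k := by exact_mod_cast hk0
  have h2 : (k : ℝ) ^ (5 / 6 : ℝ) = (k : ℝ) ^ (2 / 3 : ℝ) * (k : ℝ) ^ (1 / 6 : ℝ) := by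
    rw [← Real.rpow_add hk0']; norm_num
  rw [h2]
  have h3 : c ≤ c3 * (k : ℝ) ^ (1 / 6 : ℝ) := by
    rw [div_le_iff₀ hc3] at hk
    linarith
  have h4 : 0 ≤ (k : ℝ) ^ (2 / 3 : ℝ) := by positivity
  nlinarith

private theorem gb1_ev_two (C B : ℝ) {c : ℝ} (hc : 0 < c) :
    ∀ᶠ k : ℕ in atTop, C * (k : ℝ) ^ B * (2 ^ k : ℝ) ^ (-(1 / 4) : ℝ) ≤
      Real.exp (-c * (k : ℝ) ^ (2 / 3 : ℝ)) := by
  have hl : 0 < Real.log 2 := Real.log_pos (by norm_num)
  have h0 : Tendsto (fun k : ℕ => C * ((k : ℝ) ^ B * Real.exp (-(Real.log 2 / 8) * (k : ℝ)))) atTop (𝓝 (C * 0)) :=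
    ((tendsto_rpow_mul_exp_neg_mul_atTop_nhds_zero B (Real.log 2 / 8) (by positivity)).comp
      tendsto_natCast_atTop_atTop).const_mul C
  rw [mul_zero] at h0
  have h1 : Tendsto (fun k : ℕ => (k : ℝ) ^ (1 / 3 : ℝ)) atTop atTop :=
    (tendsto_rpow_atTop (by norm_num : (0 : ℝ) < 1 / 3)).comp tendsto_natCast_atTop_atTop
  filter_upwards [h1.eventually_ge_atTop (c / (Real.log 2 / 8)), eventually_gt_atTop 0,
    h0.eventually (ge_mem_nhds (show (0 : ℝ) < 1 by norm_num))] with k hk hk0 hk1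
  have hk0' : (0 : ℝ) < k := by exact_mod_cast hk0
  have h2 : (k : ℝ) = (k : ℝ) ^ (2 / 3 : ℝ) * (k : ℝ) ^ (1 / 3 : ℝ) := by
    rw [← Real.rpow_add hk0']; norm_num
  have h3 : c * (k : ℝ) ^ (2 / 3 : ℝ) ≤ Real.log 2 / 8 * k := by
    rw [div_le_iff₀ (by positivity)] at hk
    have h4 : 0 ≤ (k : ℝ) ^ (2 / 3 : ℝ) := by positivity
    calc c * (k : ℝ) ^ (2 / 3 : ℝ) ≤ ((k : ℝ) ^ (1 / 3 : ℝ) * (Real.log 2 / 8)) * (k : ℝ) ^ (2 / 3 : ℝ) := by gcongr
      _ = Real.log 2 / 8 * ((k : ℝ) ^ (2 / 3 : ℝ) * (k : ℝ) ^ (1 / 3 : ℝ)) := by ring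
      _ = Real.log 2 / 8 * k := by rw [← h2]
  have h5 : (2 ^ k : ℝ) ^ (-(1 / 4) : ℝ) = Real.exp (-(Real.log 2 / 4) * k) := by
    rw [Real.rpow_def_of_pos (by positivity), Real.log_pow]
    congr 1; ring
  rw [h5]
  have h6 : Real.exp (-(Real.log 2 / 4) * k) = Real.exp (-(Real.log 2 / 8) * k) * Real.exp (-(Real.log 2 / 8) * k) := by
    rw [← Real.exp_add]; congr 1; ring
  rw [h6]
  calc C * (k : ℝ) ^ B * (Real.exp (-(Real.log 2 / 8) * k) * Real.exp (-(Real.log 2 / 8) * k))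
      = C * ((k : ℝ) ^ B * Real.exp (-(Real.log 2 / 8) * (k : ℝ))) * Real.exp (-(Real.log 2 / 8) * k) := by ring
    _ ≤ 1 * Real.exp (-(Real.log 2 / 8) * k) := by gcongr
    _ ≤ Real.exp (-c * (k : ℝ) ^ (2 / 3 : ℝ)) := by
      rw [one_mul, Real.exp_le_exp]; linarith

private theorem gb1_ev_div (C : ℝ) {A : ℕ} (hA : 1 ≤ A) :
    ∀ᶠ k : ℕ in atTop, C / (2 ^ k : ℝ) ^ A ≤ 1 := by
  have h1 : Tendsto (fun k : ℕ => (2 : ℝ) ^ k) atTop atTop := tendsto_pow_atTop_atTop_of_one_lt (by norm_num)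
  filter_upwards [h1.eventually_ge_atTop C] with k hk
  rw [div_le_one (by positivity)]
  have h2 : (1 : ℝ) ≤ 2 ^ k := one_le_pow₀ (by norm_num)
  calc C ≤ 2 ^ k := hk
    _ = (2 ^ k : ℝ) ^ 1 := (pow_one _).symm
    _ ≤ (2 ^ k : ℝ) ^ A := pow_le_pow_right₀ h2 hA

private theorem gb1_mem_Tu {P0 J : Type} [Fintype J] {Q : Finset (Ag P0)} {F : J → Ag P0 × Bool}
    (hF : F ∈ Tu J Q) (j : J) : (F j).1 ∈ Q := by
  classical
  unfold Tu at hF
  have h := Fintype.mem_piFinset.mp hF j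
  exact (Finset.mem_product.mp h).1

/-- Row B1. -/
theorem hb_block (hP : OkD Γ D P) (hν : Den ν ρ) (hκ : 0 < κ) {a : ℝ → ℂ} (ha : FG33.IsAmp a)
    {R : ℝ} (hR : 1 ≤ R) (hR' : ∀ s, R < |s| → a s = 0) {u v : ℝ} (hu : 0 < u) (huv : u < v)
    {K : ℝ} (hK : 1 ≤ K) {K' : ℝ} (hK' : 4 * R * K ≤ K') (N A r r' : ℕ) (hA : 1 ≤ A) :
    ∃ (c C : ℝ) (k0 : ℕ), 0 < c ∧ 1 ≤ C ∧ ∀ k ≥ k0, ∀ ξ ∈ P.B Γ D κ k, ∀ L : ℝ, 1 ≤ L →
      L ≤ K * k →
      ∃ Bd : (Fin r ⊕ Fin r' → Bool) → Finset (Fin r ⊕ Fin r' → Ag (GH.PG Γ)),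
        HB (Pm ν) u v (2 ^ k) r r' (Cs (Γ := Γ) (P.X0 Γ D k ξ) (K' * k)) (wg (P.X0 Γ D k ξ))
          (C * (k : ℝ) ^ C) (Real.exp (-c * (k : ℝ) ^ (2 / 3 : ℝ))) (C / (2 ^ k) ^ A)
          (C / (2 ^ k) ^ A) (Real.exp (-c * (k : ℝ) ^ (2 / 3 : ℝ)))
          (fun τ η q => zl (P.X0 Γ D k ξ) (P.X Γ D (mix (bk k) ξ η)) (dl k) N (GWin.sc a L) τ q)
          (fun η q => mt (P.X Γ D (mix (bk k) ξ η)) (GWin.sc a L) q)
          (fun η p => lp (P.X Γ D (mix (bk k) ξ η)) p) (fun q => mt (P.X0 Γ D k ξ) (GWin.sc a L) q)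
          Bd ∧
        ∑ e : Fin r ⊕ Fin r' → Bool, ∑ q ∈ Bd e, ∏ i, wg (P.X0 Γ D k ξ) (q i) ≤
          Real.exp (-c * (k : ℝ) ^ (2 / 3 : ℝ)) := by
  have hpr := hν.prob
  have hK'4 : 4 * K ≤ K' := by nlinarith
  have hK'1 : K ≤ K' := by linarith
  have hK'p : 1 ≤ K' := by linarith
  obtain ⟨M, hM1, hMamp⟩ := amp_sc ha (by linarith : (0 : ℝ) ≤ R) hR' 0
  obtain ⟨C2, k2, h2⟩ := fact2 hP hκ ha hR hR' hu huv hK K' N (A + 1)
  obtain ⟨c3, C3, k3, hc3, h3⟩ := fact3 hP hκ ha K K'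
  obtain ⟨Cw, kw, hCw, hw⟩ := wts hP hκ
  obtain ⟨Cd, kd, hd⟩ := decor (J := Fin r ⊕ Fin r') hP hν hκ ha hu huv K' N A
  obtain ⟨cu, Cu, ku, hcu, hun⟩ := undet (J := Fin r ⊕ Fin r') hP hκ K' (max v (1 / u))
  obtain ⟨kn, hneg⟩ := block_neg hP hκ
  have hv : 0 < v := hu.trans huv
  set c : ℝ := min (1 / 4) (cu / 2) with hc
  have hc0 : 0 < c := lt_min (by norm_num) (by positivity)
  have hc1 : c ≤ 1 / 4 := min_le_left _ _
  have hc2 : c ≤ cu / 2 := min_le_right _ _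
  have hKw : 0 ≤ K' ^ Cw := by positivity
  set C : ℝ := 1 + |C2| + |C3| + |Cd| + Cw + Cw * K' ^ Cw + Cw * K' with hC
  have hCwK : 0 ≤ Cw * K' ^ Cw := by positivity
  have hCwK' : 0 ≤ Cw * K' := by positivity
  have hC1 : 1 ≤ C := by
    have := abs_nonneg C2; have := abs_nonneg C3; have := abs_nonneg Cd
    linarith
  have hev : ∀ᶠ k : ℕ in atTop, (k2 ≤ k ∧ k3 ≤ k ∧ kw ≤ k ∧ kd ≤ k ∧ ku ≤ k ∧ kn ≤ k ∧ 1 ≤ k) ∧
      |C2| * (k : ℝ) ^ |C2| * (2 ^ k : ℝ) ^ (-(1 / 4) : ℝ) ≤ Real.exp (-c * (k : ℝ) ^ (2 / 3 : ℝ)) ∧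
      Real.exp (-c3 * (k : ℝ) ^ (5 / 6 : ℝ)) ≤ Real.exp (-c * (k : ℝ) ^ (2 / 3 : ℝ)) ∧
      C / (2 ^ k : ℝ) ^ A ≤ 1 ∧
      |Cu| ≤ Real.exp (1 / 4 * (k : ℝ) ^ (2 / 3 : ℝ)) ∧
      ((Fintype.card (Fin r ⊕ Fin r' → Bool) : ℕ) : ℝ) ≤ Real.exp (cu / 2 * (k : ℝ) ^ (2 / 3 : ℝ)) ∧
      2 / u ≤ Real.exp (c * (k : ℝ) ^ (2 / 3 : ℝ)) := by
    filter_upwards [eventually_ge_atTop k2, eventually_ge_atTop k3, eventually_ge_atTop kw,
      eventually_ge_atTop kd, eventually_ge_atTop ku, eventually_ge_atTop kn, eventually_ge_atTop 1,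
      gb1_ev_two |C2| |C2| hc0, gb1_ev_pow (c := c) hc3, gb1_ev_div C hA,
      gb1_ev_exp |Cu| (by norm_num : (0 : ℝ) < 1 / 4),
      gb1_ev_exp ((Fintype.card (Fin r ⊕ Fin r' → Bool) : ℕ) : ℝ) (half_pos hcu),
      gb1_ev_exp (2 / u) hc0] with k a1 a2 a3 a4 a5 a6 a7 a8 a9 a10 a11 a12 a13
    exact ⟨⟨a1, a2, a3, a4, a5, a6, a7⟩, a8, a9, a10, a11, a12, a13⟩
  obtain ⟨k0, hk0⟩ := eventually_atTop.mp hev
  refine ⟨c, C, k0, hc0, hC1, ?_⟩
  intro k hk ξ hξ L hL1 hLK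
  obtain ⟨⟨hk2, hk3, hkw, hkd, hku, hkn, hk1⟩, e2, e3, e4, e5, e6, e7⟩ := hk0 k hk
  have hkr : (1 : ℝ) ≤ k := by exact_mod_cast hk1
  have hkp : (0 : ℝ) < k := by linarith
  have hLK' : L ≤ K' * k := hLK.trans (by gcongr)
  -- the base metric
  have hX := hP.cx.hX
  have hnegξ : ∀ z, curv (P.X0 Γ D k ξ) z < 0 := fun z => by
    have h := hξ z
    have : (0 : ℝ) < κ ^ 2 := by positivity
    linarith
  have hm0 : HM Γ (P.X0 Γ D k ξ) := (X_hm hP hnegξ).1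
  have hnegη : ∀ (η : Dir → I) (z : Pl), curv (P.X Γ D (mix (bk k) ξ η)) z < 0 := fun η z => by
    have h := hneg k hkn ξ hξ η z
    have : (0 : ℝ) < (κ / 2) ^ 2 := by positivity
    linarith
  have hCs : ∀ q : Cg Γ, q ∈ Cs (Γ := Γ) (P.X0 Γ D k ξ) (K' * k) ↔ ln (P.X0 Γ D k ξ) q ≤ K' * k :=
    fun q => Cs_mem hX hP.ori hm0
  obtain ⟨hw1, hw2, hw3⟩ := hw k hkw ξ hξ
  have hK'k : 1 ≤ K' * k := by nlinarith
  obtain ⟨-, -, hw6⟩ := hw3 (K' * k) hK'k
  have hkC : ∀ s : ℝ, s ≤ C → (k : ℝ) ^ s ≤ (k : ℝ) ^ C := fun s hs =>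
    Real.rpow_le_rpow_of_exponent_le hkr hs
  have hkC1 : (1 : ℝ) ≤ (k : ℝ) ^ C := Real.one_le_rpow hkr (by linarith)
  have hVC : C ≤ C * (k : ℝ) ^ C := by nlinarith
  have habs2 := le_abs_self C2
  have habs3 := le_abs_self C3
  have habsd := le_abs_self Cd
  have han2 := abs_nonneg C2
  have han3 := abs_nonneg C3
  have hand := abs_nonneg Cd
  have hCwC : Cw ≤ C := by linarith
  have hC3C : C3 ≤ C := by linarith
  have hC2C : |C2| ≤ C := by linarith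
  have hCdC : Cd ≤ C := by linarith
  have htwo : (0 : ℝ) < 2 ^ k := by positivity
  have hexpc : (0 : ℝ) < Real.exp (-c * (k : ℝ) ^ (2 / 3 : ℝ)) := Real.exp_pos _
  have hk23 : 0 ≤ (k : ℝ) ^ (2 / 3 : ℝ) := by positivity
  have hexp1 : Real.exp (-c * (k : ℝ) ^ (2 / 3 : ℝ)) ≤ 1 := by
    rw [Real.exp_le_one_iff]; nlinarith
  have hampL : Amp (GWin.sc a L) (R * L) M := (hMamp L hL1).1.amp
  -- the approximation by the leading term
  have happ : ∀ (η : Dir → I) (τ : ℝ), u * 2 ^ k ≤ τ → τ ≤ v * 2 ^ k →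
      ∀ q ∈ Cs (Γ := Γ) (P.X0 Γ D k ξ) (K' * k),
      ‖zl (P.X0 Γ D k ξ) (P.X Γ D (mix (bk k) ξ η)) (dl k) N (GWin.sc a L) τ q -
        mz (P.X Γ D (mix (bk k) ξ η)) (GWin.sc a L) τ q‖ ≤
        Real.exp (-c * (k : ℝ) ^ (2 / 3 : ℝ)) * wg (P.X0 Γ D k ξ) q + C / (2 ^ k) ^ A := by
    intro η τ hτ1 hτ2 q hq
    have h := h2 k hk2 ξ hξ η L hL1 hLK τ hτ1 hτ2 q hq
    refine h.trans ?_
    have hwq := (hw1 q).1
    have t1 : C2 * (k : ℝ) ^ C2 * (2 ^ k : ℝ) ^ (-(1 / 4) : ℝ) ≤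
        Real.exp (-c * (k : ℝ) ^ (2 / 3 : ℝ)) := by
      refine le_trans ?_ e2
      have s1 : (k : ℝ) ^ C2 ≤ (k : ℝ) ^ |C2| := Real.rpow_le_rpow_of_exponent_le hkr habs2
      have s2 : 0 ≤ (k : ℝ) ^ C2 := by positivity
      gcongr
    have t2 : C2 / (2 ^ k : ℝ) ^ (A + 1) ≤ C / (2 ^ k) ^ A := by
      have s1 : (1 : ℝ) ≤ 2 ^ k := one_le_pow₀ (by norm_num)
      calc C2 / (2 ^ k : ℝ) ^ (A + 1) ≤ C / (2 ^ k : ℝ) ^ (A + 1) := by gcongr; linarith
        _ ≤ C / (2 ^ k) ^ A := by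
          have s3 : (2 ^ k : ℝ) ^ A ≤ (2 ^ k : ℝ) ^ (A + 1) := pow_le_pow_right₀ s1 (by omega)
          have s4 : 0 ≤ C := by linarith
          exact div_le_div_of_nonneg_left s4 (by positivity) s3
    exact add_le_add (mul_le_mul_of_nonneg_right t1 hwq) t2
  -- measurability
  have hmeas : ∀ q : Cg Γ, Measurable fun x : ℝ × (Dir → I) =>
      zl (P.X0 Γ D k ξ) (P.X Γ D (mix (bk k) ξ x.2)) (dl k) N (GWin.sc a L) x.1 q := by
    intro q
    have h1 := meas_zl hP hm0 (dl k) N hampL q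
    have h2' : Measurable fun x : ℝ × (Dir → I) =>
        ((⟨mix (bk k) ξ x.2, hnegη x.2⟩ : {ξ : Dir → I // ∀ z, curv (P.X Γ D ξ) z < 0}), x.1) := by
      refine Measurable.prodMk ?_ measurable_fst
      refine Measurable.subtype_mk ?_
      exact (meas_mix (bk k)).comp (measurable_const.prodMk measurable_snd)
    have h3' := Measurable.comp h1 h2'
    exact h3'
  have hcj : ∀ e : Bool, Measurable (cj e) := by
    intro e
    unfold cj
    cases e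
    · simpa using Complex.continuous_conj.measurable
    · simpa using measurable_id'
  have hcjn : ∀ (e : Bool) (z : ℂ), ‖cj e z‖ = ‖z‖ := by
    intro e z
    unfold cj
    cases e <;> simp
  have hPm : IsProbabilityMeasure (Pm ν) := by unfold Pm; infer_instance
  choose Bd hBd1 hBd2 using fun e => hun k hku ξ hξ e
  refine ⟨Bd, ?_, ?_⟩
  · refine ⟨hPm, hu, huv, ?_, ?_, ⟨hexpc.le, hexp1⟩, ⟨by positivity, e4⟩, by positivity,
      ⟨hexpc.le, ?_⟩, hmeas, ?_, ?_, ?_, ?_⟩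
    · exact one_le_pow₀ (by norm_num)
    · -- weights
      refine ⟨by linarith, fun q => (hw1 q).1, fun q => ((hw1 q).2.trans hCwC).trans hVC, ?_, ?_⟩
      · refine hw6.trans ?_
        rw [Real.mul_rpow (by linarith) hkp.le]
        calc Cw * (K' ^ Cw * (k : ℝ) ^ Cw) = (Cw * K' ^ Cw) * (k : ℝ) ^ Cw := by ring
          _ ≤ C * (k : ℝ) ^ C := by
            have := hkC Cw hCwC
            gcongr
            linarith
      · intro q hq
        have hl := (hCs q).mp hq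
        have hlp := hw2 q.1
        have hCwp : 0 < Cw := by linarith
        have h1 : ((q.2.1 : ℝ) + 1) * Cw⁻¹ ≤ K' * k := by
          refine le_trans ?_ hl
          rw [ln]
          gcongr
        have h2'' : (q.2.1 : ℝ) + 1 ≤ Cw * K' * k := by
          have := mul_le_mul_of_nonneg_left h1 hCwp.le
          calc (q.2.1 : ℝ) + 1 = Cw * (((q.2.1 : ℝ) + 1) * Cw⁻¹) := by field_simp
            _ ≤ Cw * (K' * k) := this
            _ = Cw * K' * k := by ring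
        refine h2''.trans ?_
        have h3' : (k : ℝ) ≤ (k : ℝ) ^ C := by
          have := hkC 1 hC1
          rwa [Real.rpow_one] at this
        gcongr
        linarith
    · -- θ < u
      have h1 : Real.exp (-c * (k : ℝ) ^ (2 / 3 : ℝ)) * Real.exp (c * (k : ℝ) ^ (2 / 3 : ℝ)) = 1 := by
        rw [← Real.exp_add]; simp
      have h2' : Real.exp (-c * (k : ℝ) ^ (2 / 3 : ℝ)) * (2 / u) ≤ 1 := by
        rw [← h1]; gcongr
      have h3' : Real.exp (-c * (k : ℝ) ^ (2 / 3 : ℝ)) ≤ u / 2 := by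
        have := mul_le_mul_of_nonneg_right h2' (by positivity : 0 ≤ u / 2)
        calc Real.exp (-c * (k : ℝ) ^ (2 / 3 : ℝ))
            = Real.exp (-c * (k : ℝ) ^ (2 / 3 : ℝ)) * (2 / u) * (u / 2) := by field_simp
          _ ≤ 1 * (u / 2) := this
          _ = u / 2 := one_mul _
      linarith
    · intro τ hτ1 hτ2 η q hq
      exact happ η τ hτ1 hτ2 q hq
    · intro η q hq
      have h := (h3 k hk3 ξ hξ η L hL1 hLK q hq).1
      exact h.trans (mul_le_mul_of_nonneg_right e3 (hw1 q).1)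
    · intro q hq
      have h := (h3 k hk3 ξ hξ (fun _ => 0) L hL1 hLK q hq).2
      exact h.trans (mul_le_mul_of_nonneg_right (hC3C.trans hVC) (hw1 q).1)
    · -- undetected tuples
      intro F hF τ τ' hτ1 hτ2 hτ1' hτ2'
      have hFq : ∀ j, (F j).1 ∈ Cs (Γ := Γ) (P.X0 Γ D k ξ) (K' * k) := by
        exact fun j => gb1_mem_Tu hF j
      have hFl : ∀ j, ln (P.X0 Γ D k ξ) (F j).1 ≤ K' * k := fun j => (hCs _).mp (hFq j)
      set tt : Fin r ⊕ Fin r' → ℝ := Sum.elim (fun _ => τ) (fun _ => τ') with htt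
      have htt1 : ∀ j, u * 2 ^ k ≤ tt j ∧ tt j ≤ v * 2 ^ k := by
        intro j
        cases j with
        | inl j => exact ⟨hτ1, hτ2⟩
        | inr j => exact ⟨hτ1', hτ2'⟩
      by_cases hdet : ∃ cc ∈ grid P.L (bk k + 1), ((bk k : ℝ) + 1) ^ (-(3 / 2) : ℝ) ≤
          |∑ j, sgn (F j).2 * (tt j / 2 ^ k) * ((F j).1.2.1 + 1) *
            vis (P.X0 Γ D k ξ) (bk k + 1) cc (F j).1.1|
      · left
        obtain ⟨cc, hcc, hdc⟩ := hdet
        have hdec := fun η => hd k hkd ξ hξ η L hL1 hLK' (fun j => (F j).1) (fun j => (F j).2) tt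
          hFl htt1 cc hcc hdc
        -- the function
        set f : (Dir → I) → ℂ := fun ζ => ∏ j, cj (F j).2 (zl (P.X0 Γ D k ξ) (P.X Γ D ζ) (dl k) N
          (GWin.sc a L) (tt j) (F j).1) with hf
        have hfm : Measurable fun η => f (mix (bk k) ξ η) := by
          refine Finset.measurable_prod _ fun j _ => ?_
          have s1 : Measurable fun η : Dir → I => (tt j, η) := measurable_const.prodMk measurable_id
          have s2 := Measurable.comp (hmeas (F j).1) s1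
          have s3 := Measurable.comp (hcj (F j).2) s2
          exact s3
        have hfb : ∃ B : ℝ, ∀ η, ‖f (mix (bk k) ξ η)‖ ≤ B := by
          refine ⟨∏ j, (1 * wg (P.X0 Γ D k ξ) (F j).1 + 1 + 1 * wg (P.X0 Γ D k ξ) (F j).1 +
            C3 * wg (P.X0 Γ D k ξ) (F j).1), fun η => ?_⟩
          rw [hf]
          simp only [norm_prod, hcjn]
          refine Finset.prod_le_prod (fun _ _ => norm_nonneg _) fun j _ => ?_
          have b1 := happ η (tt j) (htt1 j).1 (htt1 j).2 (F j).1 (hFq j)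
          have b2 := h3 k hk3 ξ hξ η L hL1 hLK (F j).1 (hFq j)
          have hwq := (hw1 (F j).1).1
          have b3 : ‖mz (P.X Γ D (mix (bk k) ξ η)) (GWin.sc a L) (tt j) (F j).1‖ =
              ‖mt (P.X Γ D (mix (bk k) ξ η)) (GWin.sc a L) (F j).1‖ := by
            rw [mz, norm_mul]
            have : -(Complex.I * (tt j : ℂ) * ((ln (P.X Γ D (mix (bk k) ξ η)) (F j).1 : ℝ) : ℂ)) =
                ((-(tt j * ln (P.X Γ D (mix (bk k) ξ η)) (F j).1) : ℝ) : ℂ) * Complex.I := by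
              push_cast; ring
            rw [this, Complex.norm_exp_ofReal_mul_I, mul_one]
          have b4 : ‖zl (P.X0 Γ D k ξ) (P.X Γ D (mix (bk k) ξ η)) (dl k) N (GWin.sc a L) (tt j)
              (F j).1‖ ≤ ‖zl (P.X0 Γ D k ξ) (P.X Γ D (mix (bk k) ξ η)) (dl k) N (GWin.sc a L) (tt j)
              (F j).1 - mz (P.X Γ D (mix (bk k) ξ η)) (GWin.sc a L) (tt j) (F j).1‖ +
              ‖mz (P.X Γ D (mix (bk k) ξ η)) (GWin.sc a L) (tt j) (F j).1‖ := by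
            have := norm_add_le (zl (P.X0 Γ D k ξ) (P.X Γ D (mix (bk k) ξ η)) (dl k) N
              (GWin.sc a L) (tt j) (F j).1 - mz (P.X Γ D (mix (bk k) ξ η)) (GWin.sc a L) (tt j)
              (F j).1) (mz (P.X Γ D (mix (bk k) ξ η)) (GWin.sc a L) (tt j) (F j).1)
            rwa [sub_add_cancel] at this
          have b5 : ‖mt (P.X Γ D (mix (bk k) ξ η)) (GWin.sc a L) (F j).1‖ ≤
              ‖mt (P.X Γ D (mix (bk k) ξ η)) (GWin.sc a L) (F j).1 -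
                mt (P.X0 Γ D k ξ) (GWin.sc a L) (F j).1‖ +
              ‖mt (P.X0 Γ D k ξ) (GWin.sc a L) (F j).1‖ := by
            have := norm_add_le (mt (P.X Γ D (mix (bk k) ξ η)) (GWin.sc a L) (F j).1 -
                mt (P.X0 Γ D k ξ) (GWin.sc a L) (F j).1) (mt (P.X0 Γ D k ξ) (GWin.sc a L) (F j).1)
            rwa [sub_add_cancel] at this
          have b6 : Real.exp (-c * (k : ℝ) ^ (2 / 3 : ℝ)) * wg (P.X0 Γ D k ξ) (F j).1 ≤
              1 * wg (P.X0 Γ D k ξ) (F j).1 := mul_le_mul_of_nonneg_right hexp1 hwq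
          have b7 := b2.1.trans (mul_le_mul_of_nonneg_right e3 hwq)
          linarith [b2.2]
        have hsl := slice (ν := ν) (bk k) cc ξ (f := f) hfm hfb
        have htm : ∀ η, tm (fun i => (fun q => zl (P.X0 Γ D k ξ) (P.X Γ D (mix (bk k) ξ η)) (dl k) N
            (GWin.sc a L) (tt i) q)) F = (1 / 2 : ℂ) ^ (Fintype.card (Fin r ⊕ Fin r')) *
              f (mix (bk k) ξ η) := by
          intro η
          rw [tm, Finset.prod_mul_distrib, Finset.prod_const, Finset.card_univ]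
        have hint : ∫ η, tm (fun i => (fun q => zl (P.X0 Γ D k ξ) (P.X Γ D (mix (bk k) ξ η)) (dl k) N
            (GWin.sc a L) (tt i) q)) F ∂Pm ν = (1 / 2 : ℂ) ^ (Fintype.card (Fin r ⊕ Fin r')) *
              ∫ η, (∫ t : I, f (upI (mix (bk k) ξ η) (bk k, cc) t) ∂ν) ∂Pm ν := by
          rw [← hsl, ← integral_const_mul]
          exact integral_congr_ae (Eventually.of_forall htm)
        have hbd : ‖∫ η, (∫ t : I, f (upI (mix (bk k) ξ η) (bk k, cc) t) ∂ν) ∂Pm ν‖ ≤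
            Cd / (2 ^ k) ^ A := by
          have := norm_integral_le_of_norm_le_const (μ := Pm ν)
            (f := fun η => ∫ t : I, f (upI (mix (bk k) ξ η) (bk k, cc) t) ∂ν)
            (C := Cd / (2 ^ k) ^ A) (Eventually.of_forall hdec)
          simpa using this
        change ‖∫ η, tm (fun i => (fun q => zl (P.X0 Γ D k ξ) (P.X Γ D (mix (bk k) ξ η)) (dl k) N
            (GWin.sc a L) (tt i) q)) F ∂Pm ν‖ ≤ C / (2 ^ k) ^ A
        rw [hint, norm_mul, norm_pow]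
        have hhalf : ‖(1 / 2 : ℂ)‖ ^ (Fintype.card (Fin r ⊕ Fin r')) ≤ 1 := by
          refine pow_le_one₀ (norm_nonneg _) ?_
          norm_num
        calc ‖(1 / 2 : ℂ)‖ ^ (Fintype.card (Fin r ⊕ Fin r')) *
              ‖∫ η, (∫ t : I, f (upI (mix (bk k) ξ η) (bk k, cc) t) ∂ν) ∂Pm ν‖
            ≤ 1 * ‖∫ η, (∫ t : I, f (upI (mix (bk k) ξ η) (bk k, cc) t) ∂ν) ∂Pm ν‖ := by gcongr
          _ ≤ Cd / (2 ^ k) ^ A := by rw [one_mul]; exact hbd
          _ ≤ C / (2 ^ k) ^ A := by gcongr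
      · right
        by_cases hB : (fun i => (F i).1) ∈ Bd (fun i => (F i).2)
        · left; exact hB
        · right
          intro p
          push Not at hdet
          have hun' := hBd2 (fun i => (F i).2) (fun i => (F i).1) hB hFl
            (fun j => sgn (F j).2 * (tt j / 2 ^ k)) (by
              intro j
              have h1 : u ≤ tt j / 2 ^ k := by rw [le_div_iff₀ htwo]; exact (htt1 j).1
              have h2' : tt j / 2 ^ k ≤ v := by rw [div_le_iff₀ htwo]; exact (htt1 j).2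
              have hs : sgn (F j).2 * sgn (F j).2 = 1 := by
                unfold sgn; cases (F j).2 <;> norm_num
              have hsa : |sgn (F j).2| = 1 := by
                unfold sgn; cases (F j).2 <;> norm_num
              have hpos : 0 < tt j / 2 ^ k := hu.trans_le h1
              refine ⟨?_, ?_, ?_⟩
              · rw [← mul_assoc, hs, one_mul]; exact hpos
              · rw [abs_mul, hsa, one_mul, abs_of_pos hpos]
                refine le_trans ?_ h1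
                have : 1 / u ≤ max v (1 / u) := le_max_right _ _
                calc (max v (1 / u))⁻¹ ≤ (1 / u)⁻¹ := by gcongr
                  _ = u := by simp
              · rw [abs_mul, hsa, one_mul, abs_of_pos hpos]
                exact h2'.trans (le_max_left _ _))
            (by
              intro cc hcc
              exact (hdet cc hcc).le) p
          have hbk := (bk_le k).1
          have hfin : Cu * ((bk k : ℝ) + 1) ^ (-(1 / 2) : ℝ) ≤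
              Real.exp (-c * (k : ℝ) ^ (2 / 3 : ℝ)) := by
            have h1 : ((bk k : ℝ) + 1) ^ (-(1 / 2) : ℝ) ≤
                (Real.exp ((k : ℝ) ^ (2 / 3 : ℝ))) ^ (-(1 / 2) : ℝ) := by
              refine Real.rpow_le_rpow_of_nonpos (Real.exp_pos _) (by linarith) (by norm_num)
            have h2' : (Real.exp ((k : ℝ) ^ (2 / 3 : ℝ))) ^ (-(1 / 2) : ℝ) =
                Real.exp (-(1 / 2) * (k : ℝ) ^ (2 / 3 : ℝ)) := by
              rw [← Real.exp_mul]; congr 1; ring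
            have h3' : 0 ≤ ((bk k : ℝ) + 1) ^ (-(1 / 2) : ℝ) := by positivity
            calc Cu * ((bk k : ℝ) + 1) ^ (-(1 / 2) : ℝ)
                ≤ |Cu| * ((bk k : ℝ) + 1) ^ (-(1 / 2) : ℝ) := by gcongr; exact le_abs_self _
              _ ≤ Real.exp (1 / 4 * (k : ℝ) ^ (2 / 3 : ℝ)) *
                  Real.exp (-(1 / 2) * (k : ℝ) ^ (2 / 3 : ℝ)) := by
                rw [← h2']; gcongr
              _ = Real.exp (-(1 / 4) * (k : ℝ) ^ (2 / 3 : ℝ)) := by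
                rw [← Real.exp_add]; congr 1; ring
              _ ≤ Real.exp (-c * (k : ℝ) ^ (2 / 3 : ℝ)) := by
                rw [Real.exp_le_exp]; nlinarith
          exact hun'.trans hfin
  · calc ∑ e : Fin r ⊕ Fin r' → Bool, ∑ q ∈ Bd e, ∏ i, wg (P.X0 Γ D k ξ) (q i)
        ≤ ∑ _e : Fin r ⊕ Fin r' → Bool, Real.exp (-cu * (k : ℝ) ^ (2 / 3 : ℝ)) :=
          Finset.sum_le_sum fun e _ => hBd1 e
      _ = (Fintype.card (Fin r ⊕ Fin r' → Bool) : ℝ) * Real.exp (-cu * (k : ℝ) ^ (2 / 3 : ℝ)) := by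
          rw [Finset.sum_const, Finset.card_univ, nsmul_eq_mul]
      _ ≤ Real.exp (cu / 2 * (k : ℝ) ^ (2 / 3 : ℝ)) * Real.exp (-cu * (k : ℝ) ^ (2 / 3 : ℝ)) := by
          gcongr
      _ = Real.exp (-(cu / 2) * (k : ℝ) ^ (2 / 3 : ℝ)) := by
          rw [← Real.exp_add]; congr 1; ring
      _ ≤ Real.exp (-c * (k : ℝ) ^ (2 / 3 : ℝ)) := by
          rw [Real.exp_le_exp]; nlinarith

end B35
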