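import Pool.Agent.LibB35.GA

/-! Row R8: the exceptional pairs of times. SHORT, 30 min. Only real analysis.
Plan. The set `U = {(τ, τ') ∈ [uT, vT]² : |τ A + τ' B| ≤ θ T}` (`A`, `B` integers, not both zero). If `B = 0` then
`|τ A| ≥ u T > θ T` for `θ < u`: the set is empty; for `θ ≥ u` the claim holds with `C = 1 / u`. If `B ≠ 0`, for fixed `τ` the
`τ'` lie in an interval of length `2 θ T / |B| ≤ 2 θ T`. The inner integral of the indicator is at most `2 θ T`, so the
double average is at most `2 θ / (v - u)`. Write the indicator as `Set.indicator (Icc a b) 1 τ'`, `a, b = (-τ A ∓ θ T)/B`. -/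

open MeasureTheory Set Filter Topology

namespace B35

open Classical in
private noncomputable def GR8_f (A B : ℤ) (T θ : ℝ) (p : ℝ × ℝ) : ℝ :=
  if |p.1 / T * A + p.2 / T * B| ≤ θ then (1 : ℝ) else 0

private theorem GR8_nonneg (A B : ℤ) (T θ : ℝ) (p : ℝ × ℝ) : 0 ≤ GR8_f A B T θ p := by
  unfold GR8_f
  split_ifs <;> norm_num

private theorem GR8_le (A B : ℤ) (T θ : ℝ) (p : ℝ × ℝ) : GR8_f A B T θ p ≤ 1 := by
  unfold GR8_f
  split_ifs <;> norm_num

private theorem GR8_meas (A B : ℤ) (T θ : ℝ) : Measurable (GR8_f A B T θ) := by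
  unfold GR8_f
  refine Measurable.ite ?_ measurable_const measurable_const
  exact measurableSet_le (by fun_prop) measurable_const

private theorem GR8_slice (A B : ℤ) (T θ τ : ℝ) : Measurable fun τ' => GR8_f A B T θ (τ, τ') :=
  (GR8_meas A B T θ).comp measurable_prodMk_left

private theorem GR8_int (A B : ℤ) (T θ τ : ℝ) (a b : ℝ) :
    IntervalIntegrable (fun τ' => GR8_f A B T θ (τ, τ')) volume a b := by
  refine (intervalIntegrable_const (c := (1 : ℝ))).mono_fun
    (GR8_slice A B T θ τ).aestronglyMeasurable (ae_of_all _ fun τ' => ?_)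
  show ‖GR8_f A B T θ (τ, τ')‖ ≤ ‖(1 : ℝ)‖
  rw [Real.norm_of_nonneg (GR8_nonneg _ _ _ _ _), norm_one]
  exact GR8_le _ _ _ _ _

private theorem GR8_avg {a b : ℝ} (hab : a < b) (A B : ℤ) (T θ τ : ℝ) :
    0 ≤ 1 / (b - a) * ∫ τ' in a..b, GR8_f A B T θ (τ, τ') ∧
      1 / (b - a) * ∫ τ' in a..b, GR8_f A B T θ (τ, τ') ≤ 1 := by
  have h0 : 0 < b - a := by linarith
  constructor
  · exact mul_nonneg (by positivity)
      (intervalIntegral.integral_nonneg hab.le fun _ _ => GR8_nonneg _ _ _ _ _)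
  · have h1 : ∫ τ' in a..b, GR8_f A B T θ (τ, τ') ≤ ∫ _ in a..b, (1 : ℝ) :=
      intervalIntegral.integral_mono_on hab.le (GR8_int A B T θ τ a b)
        intervalIntegrable_const fun _ _ => GR8_le _ _ _ _ _
    rw [intervalIntegral.integral_const, smul_eq_mul, mul_one] at h1
    rw [div_mul_eq_mul_div, one_mul, div_le_one h0]
    exact h1

private theorem GR8_smeas {a b : ℝ} (hab : a < b) (A B : ℤ) (T θ c : ℝ) :
    Measurable fun τ => c * ∫ τ' in a..b, GR8_f A B T θ (τ, τ') := by
  have h1 : (fun τ => c * ∫ τ' in a..b, GR8_f A B T θ (τ, τ')) = fun τ =>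
      c * ∫ τ' in Ioc a b, GR8_f A B T θ (τ, τ') := by
    funext τ
    rw [intervalIntegral.integral_of_le hab.le]
  rw [h1]
  exact ((GR8_meas A B T θ).stronglyMeasurable.integral_prod_right'
    (ν := volume.restrict (Ioc a b))).measurable.const_mul c

private theorem GR8_inner {a b T θ : ℝ} (hab : a < b) (hT : 0 < T) (hθ : 0 ≤ θ) {A B : ℤ}
    (hB : B ≠ 0) (τ : ℝ) : ∫ τ' in a..b, GR8_f A B T θ (τ, τ') ≤ 2 * θ * T := by
  have hB1 : (1 : ℝ) ≤ |(B : ℝ)| := by
    have := Int.one_le_abs hB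
    exact_mod_cast this
  have hB0 : (0 : ℝ) < |(B : ℝ)| := by linarith
  have hBne : (B : ℝ) ≠ 0 := by exact_mod_cast hB
  rw [intervalIntegral.integral_of_le hab.le]
  have h1 : (fun τ' => GR8_f A B T θ (τ, τ')) =
      (Metric.closedBall (-(τ * A / B)) (θ * T / |(B : ℝ)|)).indicator 1 := by
    funext τ'
    have h2 : |τ / T * A + τ' / T * B| ≤ θ ↔
        τ' ∈ Metric.closedBall (-(τ * A / B)) (θ * T / |(B : ℝ)|) := by
      rw [Metric.mem_closedBall, Real.dist_eq, le_div_iff₀ hB0, ← abs_mul]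
      have e1 : (τ' - -(τ * A / B)) * B = T * (τ / T * A + τ' / T * B) := by
        field_simp
        ring
      rw [e1, abs_mul, abs_of_pos hT, mul_comm θ T]
      exact (mul_le_mul_iff_right₀ hT).symm
    unfold GR8_f
    by_cases h3 : |τ / T * A + τ' / T * B| ≤ θ
    · rw [if_pos h3, indicator_of_mem (h2.1 h3)]
      rfl
    · rw [if_neg h3, indicator_of_notMem fun h4 => h3 (h2.2 h4)]
  rw [h1, integral_indicator_one Metric.isClosed_closedBall.measurableSet]
  have h2 : (volume.restrict (Ioc a b)).real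
      (Metric.closedBall (-(τ * A / B)) (θ * T / |(B : ℝ)|)) ≤
      volume.real (Metric.closedBall (-(τ * A / B)) (θ * T / |(B : ℝ)|)) := by
    rw [measureReal_def, measureReal_def]
    exact ENNReal.toReal_mono (by rw [Real.volume_closedBall]; exact ENNReal.ofReal_ne_top)
      (Measure.restrict_le_self _)
  refine h2.trans ?_
  rw [measureReal_def, Real.volume_closedBall, ENNReal.toReal_ofReal (by positivity)]
  have h3 : θ * T / |(B : ℝ)| ≤ θ * T := div_le_self (by positivity) hB1
  linarith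

open Classical in
/-- Row R8. -/
theorem meas_U {u v : ℝ} (hu : 0 < u) (huv : u < v) : ∃ C : ℝ, 0 ≤ C ∧ ∀ (A B : ℤ),
    ¬(A = 0 ∧ B = 0) → ∀ T θ : ℝ, 0 < T → 0 ≤ θ →
    (1 / ((v - u) * T)) * ∫ τ in (u * T)..(v * T), (1 / ((v - u) * T)) *
      ∫ τ' in (u * T)..(v * T), (if |τ / T * A + τ' / T * B| ≤ θ then (1 : ℝ) else 0) ≤ C * θ ∧
    IntervalIntegrable (fun τ => (1 / ((v - u) * T)) *
      ∫ τ' in (u * T)..(v * T), (if |τ / T * A + τ' / T * B| ≤ θ then (1 : ℝ) else 0))
      volume (u * T) (v * T) := by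
  have hvu : 0 < v - u := by linarith
  refine ⟨1 / u + 2 / (v - u), by positivity, fun A B hAB T θ hT hθ => ?_⟩
  have hab : u * T < v * T := mul_lt_mul_of_pos_right huv hT
  have hL : (v - u) * T = v * T - u * T := by ring
  have hL0 : 0 < (v - u) * T := by positivity
  have e0 : ∀ τ, (∫ τ' in (u * T)..(v * T),
      (if |τ / T * A + τ' / T * B| ≤ θ then (1 : ℝ) else 0)) =
      ∫ τ' in (u * T)..(v * T), GR8_f A B T θ (τ, τ') := by
    intro τ
    refine intervalIntegral.integral_congr fun τ' _ => ?_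
    unfold GR8_f
    split_ifs <;> rfl
  simp only [e0]
  rw [hL]
  have hI : IntervalIntegrable (fun τ => 1 / (v * T - u * T) *
      ∫ τ' in (u * T)..(v * T), GR8_f A B T θ (τ, τ')) volume (u * T) (v * T) := by
    refine (intervalIntegrable_const (c := (1 : ℝ))).mono_fun
      (GR8_smeas hab A B T θ _).aestronglyMeasurable (ae_of_all _ fun τ => ?_)
    show ‖1 / (v * T - u * T) * ∫ τ' in (u * T)..(v * T), GR8_f A B T θ (τ, τ')‖ ≤ ‖(1 : ℝ)‖
    rw [Real.norm_of_nonneg (GR8_avg hab A B T θ τ).1, norm_one]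
    exact (GR8_avg hab A B T θ τ).2
  refine ⟨?_, hI⟩
  -- a bound of the inner average gives a bound of the double average
  have key : ∀ K : ℝ, (∀ τ ∈ Icc (u * T) (v * T), 1 / (v * T - u * T) *
      ∫ τ' in (u * T)..(v * T), GR8_f A B T θ (τ, τ') ≤ K) →
      1 / (v * T - u * T) * ∫ τ in (u * T)..(v * T), 1 / (v * T - u * T) *
        ∫ τ' in (u * T)..(v * T), GR8_f A B T θ (τ, τ') ≤ K := by
    intro K hK
    have h1 := intervalIntegral.integral_mono_on hab.le hI
      (intervalIntegrable_const (c := K)) hK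
    rw [intervalIntegral.integral_const, smul_eq_mul] at h1
    rw [div_mul_eq_mul_div, one_mul, div_le_iff₀ (by linarith)]
    linarith
  by_cases hB : B = 0
  · have hA : A ≠ 0 := fun hA => hAB ⟨hA, hB⟩
    have hA1 : (1 : ℝ) ≤ |(A : ℝ)| := by
      have := Int.one_le_abs hA
      exact_mod_cast this
    rcases lt_or_ge θ u with hθu | hθu
    · refine (key 0 fun τ hτ => ?_).trans (by positivity)
      have h1 : ∀ τ' : ℝ, GR8_f A B T θ (τ, τ') = 0 := by
        intro τ'
        unfold GR8_f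
        rw [if_neg]
        rw [not_le, hB]
        have h2 : u ≤ τ / T := by
          rw [le_div_iff₀ hT]
          exact hτ.1
        have h3 : |τ / T * A + τ' / T * ((0 : ℤ) : ℝ)| = τ / T * |(A : ℝ)| := by
          rw [Int.cast_zero, mul_zero, add_zero, abs_mul, abs_of_pos (by linarith)]
        show θ < |τ / T * A + τ' / T * ((0 : ℤ) : ℝ)|
        rw [h3]
        nlinarith
      simp only [h1]
      simp
    · refine (key 1 fun τ _ => (GR8_avg hab A B T θ τ).2).trans ?_
      have h2 : 1 ≤ 1 / u * θ := by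
        rw [div_mul_eq_mul_div, one_mul, one_le_div hu]
        exact hθu
      have h3 : 0 ≤ 2 / (v - u) * θ := by positivity
      rw [add_mul]
      linarith
  · refine (key (2 / (v - u) * θ) fun τ _ => ?_).trans ?_
    · have h1 := GR8_inner hab hT hθ (A := A) hB τ
      rw [← hL]
      calc 1 / ((v - u) * T) * ∫ τ' in (u * T)..(v * T), GR8_f A B T θ (τ, τ')
          ≤ 1 / ((v - u) * T) * (2 * θ * T) := mul_le_mul_of_nonneg_left h1 (by positivity)
        _ = 2 / (v - u) * θ := by field_simp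
    · have h3 : 0 ≤ 1 / u * θ := by positivity
      rw [add_mul]
      linarith

end B35
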