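import Pool.Agent.LibB35.GR9c
import Pool.Agent.LibB35.GR8

/-! Row R10b: `EF_deg`, `EF_nondeg` (cites R9a, R9c, R8). MEDIUM, 50 min. (General plan of R10; here only these parts.)
`EF_sum` (linearity): `expand` pointwise; `tm` is a measurable bounded function of `(τ, τ', ω)` (`meas`, `cj` is
continuous; bound: `size_est`), so all iterated integrals are linear: `integral_finset_sum` for `μ`, then for `τ'` and `τ`
(interval integrals; measurability of the inner integrals: `MeasureTheory.StronglyMeasurable.integral_prod_right`, and bounded on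
the interval; only the values for `τ, τ'` in the windows matter: `intervalIntegral.integral_congr`).
`EF_deg`: average of `deg_est` (the averages of a constant are the constant, `(v - u) T > 0`).
`EF_nondeg`: `norm_integral_le` with the bound of `nondeg_est` and `meas_U` (with `θ`), `wF ≥ 0`.
`comb`: split the sum over `Tu` into degenerate (`DD_mul`) and nondegenerate tuples. `card (Tu) ≤ (2 card Q)^(r+r')`. Degenerate
tuples are `Pair` (`pair_sum_type`), so `∑ wF ≤ C V^C` (`pair_sum`). For the tuples with `F.fst ∈ Bd (F.snd)`: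
`∑_F wF F ≤ ∑_e ∑_{q ∈ Bd e} ∏ w (q i)` (the map `F ↦ (F.snd, F.fst)` is injective, terms nonnegative). -/

open MeasureTheory Set Filter Topology

namespace B35

theorem GR10b_cj (e : Bool) : Measurable (cj e) := by
  cases e
  · have h1 : cj false = fun z => (starRingEnd ℂ) z := by
      funext z
      simp [cj]
    rw [h1]
    exact Complex.continuous_conj.measurable
  · have h1 : cj true = fun z => z := by
      funext z
      simp [cj]
    rw [h1]
    exact measurable_id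

theorem GR10b_tm {P0 Ω : Type} [MeasurableSpace Ω] {r r' : ℕ} {Z : ℝ → Ω → Ag P0 → ℂ}
    (hm : ∀ q, Measurable fun x : ℝ × Ω => Z x.1 x.2 q) (F : Fin r ⊕ Fin r' → Ag P0 × Bool) :
    Measurable fun x : (ℝ × ℝ) × Ω =>
      tm (fun i => Z (Sum.elim (fun _ => x.1.1) (fun _ => x.1.2) i) x.2) F := by
  unfold tm
  refine Finset.measurable_prod _ fun i _ => ?_
  refine Measurable.const_mul ((GR10b_cj (F i).2).comp ?_) _
  rcases i with i | i
  · exact (hm (F (Sum.inl i)).1).comp (measurable_fst.fst.prodMk measurable_snd)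
  · exact (hm (F (Sum.inr i)).1).comp (measurable_fst.snd.prodMk measurable_snd)

/-- averages of a function close to a constant -/
theorem GR10b_avg {a b : ℝ} (hab : a < b) {f : ℝ → ℂ} (hf : IntervalIntegrable f volume a b)
    {c : ℂ} {K : ℝ} (h : ∀ x, a ≤ x → x ≤ b → ‖f x - c‖ ≤ K) {L : ℝ} (hL : L = b - a) :
    ‖((1 / L : ℝ) : ℂ) * (∫ x in a..b, f x) - c‖ ≤ K := by
  have hL0 : 0 < L := by rw [hL]; linarith
  have hLc : (L : ℂ) ≠ 0 := by exact_mod_cast hL0.ne'
  have h1 : ((1 / L : ℝ) : ℂ) * (∫ x in a..b, f x) - c =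
      ((1 / L : ℝ) : ℂ) * ∫ x in a..b, (f x - c) := by
    rw [intervalIntegral.integral_sub hf intervalIntegrable_const, intervalIntegral.integral_const,
      ← hL, mul_sub, Complex.real_smul]
    congr 1
    push_cast
    field_simp
  have h2 : ‖∫ x in a..b, (f x - c)‖ ≤ K * |b - a| := by
    refine intervalIntegral.norm_integral_le_of_norm_le_const fun x hx => ?_
    rw [uIoc_of_le hab.le] at hx
    exact h x hx.1.le hx.2
  rw [h1, norm_mul, Complex.norm_real, Real.norm_of_nonneg (by positivity)]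
  rw [← hL, abs_of_pos hL0] at h2
  calc 1 / L * ‖∫ x in a..b, (f x - c)‖ ≤ 1 / L * (K * L) := by gcongr
    _ = K := by field_simp

/-- bounded measurable functions are integrable on intervals -/
theorem GR10b_ii {a b : ℝ} (hab : a ≤ b) {f : ℝ → ℂ} (hf : StronglyMeasurable f) {S : ℝ}
    (h : ∀ x, a ≤ x → x ≤ b → ‖f x‖ ≤ S) : IntervalIntegrable f volume a b := by
  rw [intervalIntegrable_iff_integrableOn_Ioc_of_le hab]
  refine Measure.integrableOn_of_bounded (M := S) (by simp) hf.aestronglyMeasurable ?_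
  rw [ae_restrict_iff' measurableSet_Ioc]
  exact Eventually.of_forall fun x hx => h x hx.1.le hx.2

theorem EF_deg (r r' : ℕ) : ∃ C : ℝ, 1 ≤ C ∧ ∀ (P0 Ω : Type) (_ : MeasurableSpace Ω)
    (μ : Measure Ω) (u v T : ℝ) (Q : Finset (Ag P0)) (w : Ag P0 → ℝ) (V ε ε' εD θ : ℝ)
    (Z : ℝ → Ω → Ag P0 → ℂ) (Mw : Ω → Ag P0 → ℂ) (l : Ω → P0 → ℝ) (m0 : Ag P0 → ℂ)
    (Bd : (Fin r ⊕ Fin r' → Bool) → Finset (Fin r ⊕ Fin r' → Ag P0)),
    HB μ u v T r r' Q w V ε ε' εD θ Z Mw l m0 Bd → ∀ F ∈ Tu (Fin r ⊕ Fin r') Q,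
    Deg (F ∘ Sum.inl) → Deg (F ∘ Sum.inr) →
    ‖EF μ u v T Z F - tm (fun _ => m0) F‖ ≤ C * V ^ C * (ε * wF w F + ε') := by
  obtain ⟨C, hC, hC'⟩ := deg_est r r'
  obtain ⟨C2, hC2, hC2'⟩ := size_est r r'
  refine ⟨C, hC, ?_⟩
  intro P0 Ω _ μ u v T Q w V ε ε' εD θ Z Mw l m0 Bd h F hF hd hd'
  have hD := hC' P0 Ω _ μ u v T Q w V ε ε' εD θ Z Mw l m0 Bd h F hF hd hd'
  have hS := hC2' P0 Ω _ μ u v T Q w V ε ε' εD θ Z Mw l m0 Bd h F hF
  haveI := h.prob
  set c := tm (fun _ : Fin r ⊕ Fin r' => m0) F with hc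
  set K := C * V ^ C * (ε * wF w F + ε') with hK
  set S := C2 * V ^ C2 * (wF w F + ε') with hSd
  have hT : 0 < T := lt_of_lt_of_le one_pos h.T_pos
  have hab : u * T < v * T := mul_lt_mul_of_pos_right h.uv hT
  have hmt := GR10b_tm h.meas F
  set g : ℝ × ℝ → ℂ := fun x =>
    ∫ ω, tm (fun i => Z (Sum.elim (fun _ => x.1) (fun _ => x.2) i) ω) F ∂μ with hg
  have hgm : StronglyMeasurable g := by
    have h1 := hmt.stronglyMeasurable.integral_prod_right' (ν := μ)
    exact h1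
  have hgS : ∀ τ τ' : ℝ, u * T ≤ τ → τ ≤ v * T → u * T ≤ τ' → τ' ≤ v * T → ‖g (τ, τ')‖ ≤ S :=
    fun τ τ' h1 h2 h3 h4 => GR9c_int h.prob _ (hS τ τ' h1 h2 h3 h4)
  have hgc : ∀ τ τ' : ℝ, u * T ≤ τ → τ ≤ v * T → u * T ≤ τ' → τ' ≤ v * T →
      ‖g (τ, τ') - c‖ ≤ K := by
    intro τ τ' h1 h2 h3 h4
    have hi : Integrable (fun ω => tm (fun i => Z (Sum.elim (fun _ => τ) (fun _ => τ') i) ω) F) μ := by
      refine Integrable.of_bound (C := S) ?_ (Eventually.of_forall (hS τ τ' h1 h2 h3 h4))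
      exact (hmt.comp (measurable_const.prodMk measurable_id :
        Measurable fun ω : Ω => (((τ, τ') : ℝ × ℝ), ω))).aestronglyMeasurable
    have e : g (τ, τ') - c =
        ∫ ω, (tm (fun i => Z (Sum.elim (fun _ => τ) (fun _ => τ') i) ω) F - c) ∂μ := by
      rw [integral_sub hi (integrable_const c)]
      simp [hg]
    rw [e]
    exact GR9c_int h.prob _ (hD τ τ' h1 h2 h3 h4)
  have hL : (v - u) * T = v * T - u * T := by ring
  set G : ℝ → ℂ := fun τ => ((1 / ((v - u) * T) : ℝ) : ℂ) * ∫ τ' in (u * T)..(v * T), g (τ, τ')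
    with hG
  have hin : ∀ τ : ℝ, u * T ≤ τ → τ ≤ v * T →
      IntervalIntegrable (fun τ' => g (τ, τ')) volume (u * T) (v * T) := by
    intro τ h1 h2
    exact GR10b_ii hab.le (hgm.comp_measurable measurable_prodMk_left)
      (fun τ' h3 h4 => hgS τ τ' h1 h2 h3 h4)
  have hGc : ∀ τ : ℝ, u * T ≤ τ → τ ≤ v * T → ‖G τ - c‖ ≤ K := by
    intro τ h1 h2
    exact GR10b_avg hab (hin τ h1 h2) (fun τ' h3 h4 => hgc τ τ' h1 h2 h3 h4) hL
  have hGm : StronglyMeasurable G := by
    have h1 : StronglyMeasurable fun τ => ∫ τ' in Ioc (u * T) (v * T), g (τ, τ') :=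
      hgm.integral_prod_right' (ν := volume.restrict (Ioc (u * T) (v * T)))
    have h2 : G = fun τ => ((1 / ((v - u) * T) : ℝ) : ℂ) *
        ∫ τ' in Ioc (u * T) (v * T), g (τ, τ') := by
      funext τ
      rw [hG]
      dsimp only
      rw [intervalIntegral.integral_of_le hab.le]
    rw [h2]
    exact h1.const_mul _
  have hGi : IntervalIntegrable G volume (u * T) (v * T) := by
    refine GR10b_ii hab.le hGm (S := K + ‖c‖) fun τ h1 h2 => ?_
    have h3 := hGc τ h1 h2
    have h4 : G τ = (G τ - c) + c := by ring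
    rw [h4]
    exact (norm_add_le _ _).trans (by linarith)
  exact GR10b_avg hab hGi hGc hL

open Classical in
theorem EF_nondeg (r r' : ℕ) {u v : ℝ} (hu : 0 < u) (huv : u < v) : ∃ C : ℝ, 1 ≤ C ∧
    ∀ (P0 Ω : Type) (_ : MeasurableSpace Ω)
    (μ : Measure Ω) (T : ℝ) (Q : Finset (Ag P0)) (w : Ag P0 → ℝ) (V ε ε' εD θ : ℝ)
    (Z : ℝ → Ω → Ag P0 → ℂ) (Mw : Ω → Ag P0 → ℂ) (l : Ω → P0 → ℝ) (m0 : Ag P0 → ℂ)
    (Bd : (Fin r ⊕ Fin r' → Bool) → Finset (Fin r ⊕ Fin r' → Ag P0)),
    HB μ u v T r r' Q w V ε ε' εD θ Z Mw l m0 Bd → ∀ F ∈ Tu (Fin r ⊕ Fin r') Q,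
    ¬(Deg (F ∘ Sum.inl) ∧ Deg (F ∘ Sum.inr)) →
    ‖EF μ u v T Z F‖ ≤ εD +
      (if (fun i => (F i).1) ∈ Bd (fun i => (F i).2) then C * V ^ C * (wF w F + ε') else 0) +
        (if Pair F then C * V ^ C * (wF w F + ε') else 0) * θ := by
  obtain ⟨C9, hC9, hC9'⟩ := nondeg_est r r'
  obtain ⟨C8, hC8, hC8'⟩ := meas_U hu huv
  refine ⟨C9 * (C8 + 1), by nlinarith, ?_⟩
  intro P0 Ω _ μ T Q w V ε ε' εD θ Z Mw l m0 Bd h F hF hnd
  obtain ⟨A, B, hAB, hest⟩ := hC9' P0 Ω _ μ u v T Q w V ε ε' εD θ Z Mw l m0 Bd h F hF hnd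
  have hT : 0 < T := lt_of_lt_of_le one_pos h.T_pos
  obtain ⟨m1, m2⟩ := hC8' A B hAB T θ hT h.θ0.1
  have hab : u * T < v * T := mul_lt_mul_of_pos_right huv hT
  have hwF : 0 ≤ wF w F := Finset.prod_nonneg fun i _ => h.wt.nonneg _
  have hV := h.wt.one
  have hV0 : 0 ≤ V := by linarith
  have hε' := h.ε1.1
  have hθ := h.θ0.1
  have hx0 : 0 ≤ wF w F + ε' := by linarith
  have hVV : V ^ C9 ≤ V ^ (C9 * (C8 + 1)) := Real.rpow_le_rpow_of_exponent_le hV (by nlinarith)
  set L := (v - u) * T with hLd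
  have hL : L = v * T - u * T := by rw [hLd]; ring
  have hL0 : 0 < L := by rw [hL]; linarith
  set b1 : ℝ := (if (fun i => (F i).1) ∈ Bd (fun i => (F i).2) then
    C9 * V ^ C9 * (wF w F + ε') else 0) with hb1
  set b2 : ℝ := (if Pair F then C9 * V ^ C9 * (wF w F + ε') else 0) with hb2
  have hb20 : 0 ≤ b2 := by
    rw [hb2]
    split_ifs
    · positivity
    · exact le_rfl
  set ind : ℝ → ℝ → ℝ := fun τ τ' => if |τ / T * A + τ' / T * B| ≤ θ then (1 : ℝ) else 0 with hind
  have hii : ∀ τ, IntervalIntegrable (ind τ) volume (u * T) (v * T) := by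
    intro τ
    rw [intervalIntegrable_iff_integrableOn_Ioc_of_le hab.le]
    refine Measure.integrableOn_of_bounded (M := 1) (by simp) ?_ ?_
    · refine (Measurable.ite ?_ measurable_const measurable_const).aestronglyMeasurable
      exact measurableSet_le (by fun_prop) measurable_const
    · refine Eventually.of_forall fun x => ?_
      rw [hind]
      dsimp only
      split_ifs <;> simp
  have havg : ∀ (c0 : ℝ) (f : ℝ → ℝ), IntervalIntegrable f volume (u * T) (v * T) →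
      1 / L * ∫ x in (u * T)..(v * T), (c0 + b2 * f x) =
        c0 + b2 * (1 / L * ∫ x in (u * T)..(v * T), f x) := by
    intro c0 f hf
    rw [intervalIntegral.integral_add intervalIntegrable_const (hf.const_mul b2),
      intervalIntegral.integral_const, intervalIntegral.integral_const_mul, ← hL, smul_eq_mul]
    field_simp
  have hnorm : ∀ (f : ℝ → ℂ), ‖((1 / L : ℝ) : ℂ) * ∫ x in (u * T)..(v * T), f x‖ =
      1 / L * ‖∫ x in (u * T)..(v * T), f x‖ := by
    intro f
    rw [norm_mul, Complex.norm_real, Real.norm_of_nonneg (by positivity)]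
  have hin : ∀ τ : ℝ, u * T ≤ τ → τ ≤ v * T → ‖((1 / L : ℝ) : ℂ) * ∫ τ' in (u * T)..(v * T),
      ∫ ω, tm (fun i => Z (Sum.elim (fun _ => τ) (fun _ => τ') i) ω) F ∂μ‖ ≤
      (εD + b1) + b2 * (1 / L * ∫ τ' in (u * T)..(v * T), ind τ τ') := by
    intro τ h1 h2
    rw [hnorm, ← havg _ _ (hii τ)]
    refine mul_le_mul_of_nonneg_left ?_ (by positivity)
    refine intervalIntegral.norm_integral_le_of_norm_le hab.le ?_
      (intervalIntegrable_const.add ((hii τ).const_mul b2))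
    exact Eventually.of_forall fun τ' hτ' => hest τ τ' h1 h2 hτ'.1.le hτ'.2
  have hout : ‖EF μ u v T Z F‖ ≤ (εD + b1) + b2 * (C8 * θ) := by
    unfold EF
    rw [hnorm]
    have m3 : 1 / L * (∫ τ in (u * T)..(v * T), ((εD + b1) + b2 * (1 / L *
        ∫ τ' in (u * T)..(v * T), ind τ τ'))) ≤ (εD + b1) + b2 * (C8 * θ) := by
      rw [havg _ _ m2]
      exact add_le_add le_rfl (mul_le_mul_of_nonneg_left m1 hb20)
    refine le_trans ?_ m3
    refine mul_le_mul_of_nonneg_left ?_ (by positivity)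
    refine intervalIntegral.norm_integral_le_of_norm_le hab.le ?_
      (intervalIntegrable_const.add (m2.const_mul b2))
    exact Eventually.of_forall fun τ hτ => hin τ hτ.1.le hτ.2
  refine hout.trans ?_
  have k1 : b1 ≤ (if (fun i => (F i).1) ∈ Bd (fun i => (F i).2) then
      C9 * (C8 + 1) * V ^ (C9 * (C8 + 1)) * (wF w F + ε') else 0) := by
    rw [hb1]
    split_ifs
    · refine mul_le_mul_of_nonneg_right ?_ hx0
      refine mul_le_mul ?_ hVV (by positivity) (by positivity)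
      nlinarith
    · exact le_rfl
  have k2 : b2 * (C8 * θ) ≤ (if Pair F then
      C9 * (C8 + 1) * V ^ (C9 * (C8 + 1)) * (wF w F + ε') else 0) * θ := by
    rw [← mul_assoc]
    refine mul_le_mul_of_nonneg_right ?_ hθ
    rw [hb2]
    split_ifs
    · have e : C9 * V ^ C9 * (wF w F + ε') * C8 = (C9 * C8) * V ^ C9 * (wF w F + ε') := by ring
      rw [e]
      refine mul_le_mul_of_nonneg_right ?_ hx0
      refine mul_le_mul ?_ hVV (by positivity) (by positivity)
      nlinarith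
    · rw [zero_mul]
  linarith

end B35
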