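import Pool.Agent.LibB35.GA

/-! Row R3: the weights of the paired tuples. MEDIUM, 50 min. Only finite sums.
Plan. `W p := ∑ q ∈ Q with q.1 = p, w q` (`p` in the finite set `PP = Q.image Prod.fst`). By Cauchy–Schwarz
(`Finset.sum_mul_sq_le_sq_mul_sq` / `inner_mul_le_norm_mul_norm`; `sq_sum_le_card_mul_sum_sq`) and the fact that for
given `p` there are at most `2 V` elements `(p, n, o) ∈ Q` (`n + 1 ≤ V`): `W p ^ 2 ≤ 2 V ∑_{q ∈ Q, q.1 = p} w q ^ 2`, so
`∑_p W p ^ 2 ≤ 2 V²` and `W p ≤ 2 V²`.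
(i) Fibre over the primitive classes: `∑_{F ∈ Tu I Q, Pair F} wF w F ≤ 2 ^ card I * ∑_{g ∈ piFinset PP, ∀ i ∃ j ≠ i, g j = g i} ∏ i, W (g i)`
(the map `F ↦ (fun i => (F i).1.1)`; `Finset.prod_univ_sum` for the fibres; the factor 2 from the sign).
(ii) For such `g` let `ℓ i` be a fixed element (leader) of the class of `i` (`j ~ i` iff `g j = g i`): `g = g ∘ ℓ`, and
`∏ i, W (g i) ≤ (2 V²) ^ card I * ∏_{i ∈ image ℓ} W (g i) ^ 2` (each class has at least two elements: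
`W (g i) ^ s ≤ (2V²)^(s-2) W (g i)^2`, `1 ≤ 2 V²`). For fixed `ℓ : I → I` the sum over the `g` with `g = g ∘ ℓ` (determined by
`g` on `image ℓ`) of `∏_{i ∈ image ℓ} W (g i) ^ 2` is at most `(∑_p W p ^ 2) ^ card (image ℓ) ≤ (2 V²) ^ card I`. The number of
`ℓ` is `card I ^ card I`. Total `≤ 2^n n^n (2V²)^(2n)`, `n = card I`. (Any other proof and any other constant are fine.) -/

open MeasureTheory Set Filter Topology

namespace B35

variable {P0 : Type}

private theorem gr3_mem_Tu {I : Type} [Fintype I] {Q : Finset (Ag P0)} {F : I → Ag P0 × Bool} :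
    F ∈ Tu I Q ↔ ∀ i, (F i).1 ∈ Q := by
  unfold Tu
  simp only [Fintype.mem_piFinset, Finset.mem_product, Finset.mem_univ, and_true]

open Classical in
private noncomputable def gr3_W (Q : Finset (Ag P0)) (w : Ag P0 → ℝ) (p : P0) : ℝ :=
  ∑ q ∈ Q with q.1 = p, w q

open Classical in
private theorem gr3_W_sq {Q : Finset (Ag P0)} {w : Ag P0 → ℝ} {V : ℝ} (h : Wt Q w V) (p : P0) :
    gr3_W Q w p ^ 2 ≤ 2 * V * ∑ q ∈ Q with q.1 = p, w q ^ 2 := by
  unfold gr3_W
  have h1 := sq_sum_le_card_mul_sum_sq (s := Q.filter (fun q => q.1 = p)) (f := w)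
  have hcard : ((Q.filter fun q => q.1 = p).card : ℝ) ≤ 2 * V := by
    have hinj : (Q.filter fun q => q.1 = p).card ≤
        (Finset.range ⌊V⌋₊ ×ˢ (Finset.univ : Finset Bool)).card := by
      refine Finset.card_le_card_of_injOn (fun q => q.2) ?_ ?_
      · intro q hq
        have hq' := Finset.mem_filter.1 (Finset.mem_coe.1 hq)
        refine Finset.mem_coe.2 (Finset.mem_product.2 ⟨Finset.mem_range.2 ?_, Finset.mem_univ _⟩)
        have h2 : q.2.1 + 1 ≤ ⌊V⌋₊ := Nat.le_floor (by push_cast; exact h.turns q hq'.1)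
        exact h2
      · intro q hq q' hq' hqq
        have h2 := Finset.mem_filter.1 (Finset.mem_coe.1 hq)
        have h3 := Finset.mem_filter.1 (Finset.mem_coe.1 hq')
        exact Prod.ext (h2.2.trans h3.2.symm) hqq
    rw [Finset.card_product, Finset.card_range, Finset.card_univ, Fintype.card_bool] at hinj
    have h3 : ((⌊V⌋₊ : ℕ) : ℝ) ≤ V := Nat.floor_le (by linarith [h.one])
    have h4 : ((Q.filter fun q => q.1 = p).card : ℝ) ≤ (⌊V⌋₊ : ℝ) * 2 := by exact_mod_cast hinj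
    linarith
  have h5 : 0 ≤ ∑ q ∈ Q with q.1 = p, w q ^ 2 := Finset.sum_nonneg fun q _ => sq_nonneg _
  exact h1.trans (mul_le_mul_of_nonneg_right hcard h5)

open Classical in
private theorem gr3_W_sum {Q : Finset (Ag P0)} {w : Ag P0 → ℝ} {V : ℝ} (h : Wt Q w V) :
    ∑ p ∈ Q.image Prod.fst, gr3_W Q w p ^ 2 ≤ 2 * V ^ 2 := by
  have h1 : ∑ p ∈ Q.image Prod.fst, gr3_W Q w p ^ 2 ≤
      ∑ p ∈ Q.image Prod.fst, 2 * V * ∑ q ∈ Q with q.1 = p, w q ^ 2 :=
    Finset.sum_le_sum fun p _ => gr3_W_sq h p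
  have h0 : ∑ p ∈ Q.image Prod.fst, ∑ q ∈ Q with q.1 = p, w q ^ 2 = ∑ q ∈ Q, w q ^ 2 :=
    Finset.sum_fiberwise_of_maps_to (s := Q) (t := Q.image Prod.fst) (g := Prod.fst)
      (fun q hq => Finset.mem_image_of_mem Prod.fst hq) (fun q => w q ^ 2)
  rw [← Finset.mul_sum, h0] at h1
  have h2 := h.sq
  have h3 := h.one
  have h4 : 2 * V * ∑ q ∈ Q, w q ^ 2 ≤ 2 * V * V :=
    mul_le_mul_of_nonneg_left h2 (by linarith)
  calc _ ≤ _ := h1
    _ ≤ 2 * V * V := h4
    _ = 2 * V ^ 2 := by ring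

private theorem gr3_W_nonneg {Q : Finset (Ag P0)} {w : Ag P0 → ℝ} {V : ℝ} (h : Wt Q w V)
    (p : P0) : 0 ≤ gr3_W Q w p := by
  unfold gr3_W
  exact Finset.sum_nonneg fun q _ => h.nonneg q

private theorem gr3_W_le {Q : Finset (Ag P0)} {w : Ag P0 → ℝ} {V : ℝ} (h : Wt Q w V)
    (p : P0) : gr3_W Q w p ≤ 2 * V ^ 2 := by
  classical
  have h1 := gr3_W_sq h p
  have h0 := gr3_W_nonneg h p
  have hV := h.one
  have h2 : ∑ q ∈ Q with q.1 = p, w q ^ 2 ≤ V :=
    (Finset.sum_le_sum_of_subset_of_nonneg (Finset.filter_subset _ _)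
      fun q _ _ => sq_nonneg _).trans h.sq
  have h3 : gr3_W Q w p ^ 2 ≤ 2 * V ^ 2 := by
    have : 2 * V * ∑ q ∈ Q with q.1 = p, w q ^ 2 ≤ 2 * V * V :=
      mul_le_mul_of_nonneg_left h2 (by linarith)
    calc _ ≤ _ := h1
      _ ≤ 2 * V * V := by convert this
      _ = 2 * V ^ 2 := by ring
  have h4 : 1 ≤ 2 * V ^ 2 := by nlinarith
  by_contra hlt
  push Not at hlt
  nlinarith

/-- the products along a paired map. -/
private theorem gr3_prod {I : Type} [Fintype I] [DecidableEq I] (g : I → P0)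
    (hg : ∀ i, ∃ j, j ≠ i ∧ g j = g i) (W : P0 → ℝ) (B : ℝ) (hW0 : ∀ p, 0 ≤ W p)
    (hWB : ∀ p, W p ≤ B) (hB : 1 ≤ B) : ∃ l : I → I, g = g ∘ l ∧
      ∏ i, W (g i) ≤ B ^ Fintype.card I * ∏ c ∈ Finset.univ.image l, W (g c) ^ 2 := by
  have hex : ∀ p : Set.range g, ∃ j, g j = p := fun p => p.2
  choose f hf using hex
  obtain ⟨l, hl⟩ : ∃ l : I → I, ∀ i, l i = f ⟨g i, i, rfl⟩ := ⟨_, fun i => rfl⟩
  have hl1 : ∀ i, g (l i) = g i := fun i => by rw [hl, hf]
  have hl2 : ∀ i j, g i = g j → l i = l j := fun i j h => by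
    rw [hl, hl]
    exact congrArg f (Subtype.ext h)
  refine ⟨l, funext fun i => (hl1 i).symm, ?_⟩
  have hmaps : ∀ x ∈ (Finset.univ : Finset I), l x ∈ Finset.univ.image l :=
    fun x hx => Finset.mem_image_of_mem l hx
  rw [← Finset.prod_fiberwise_of_maps_to hmaps (fun i => W (g i))]
  have hcard : ∑ c ∈ Finset.univ.image l, (Finset.univ.filter fun i => l i = c).card =
      Fintype.card I := by
    rw [← Finset.card_univ]
    exact (Finset.card_eq_sum_card_fiberwise hmaps).symm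
  rw [← hcard, ← Finset.prod_pow_eq_pow_sum, ← Finset.prod_mul_distrib]
  refine Finset.prod_le_prod (fun c _ => Finset.prod_nonneg fun i _ => hW0 _) fun c hc => ?_
  have h1 : ∏ i ∈ Finset.univ.filter (fun i => l i = c), W (g i) =
      W (g c) ^ (Finset.univ.filter fun i => l i = c).card := by
    rw [← Finset.prod_const]
    refine Finset.prod_congr rfl fun i hi => ?_
    rw [← hl1 i, (Finset.mem_filter.1 hi).2]
  rw [h1]
  have h2 : 2 ≤ (Finset.univ.filter fun i => l i = c).card := by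
    obtain ⟨i, _, hi⟩ := Finset.mem_image.1 hc
    have hgc : g c = g i := by rw [← hi]; exact hl1 i
    have hlc : l c = c := by rw [hl2 c i hgc, hi]
    obtain ⟨j, hj1, hj2⟩ := hg c
    have hlj : l j = c := by rw [hl2 j c hj2, hlc]
    have : ({c, j} : Finset I) ⊆ Finset.univ.filter fun i => l i = c := by
      intro x hx
      rw [Finset.mem_insert, Finset.mem_singleton] at hx
      rw [Finset.mem_filter]
      rcases hx with rfl | rfl
      · exact ⟨Finset.mem_univ _, hlc⟩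
      · exact ⟨Finset.mem_univ _, hlj⟩
    calc 2 = ({c, j} : Finset I).card := (Finset.card_pair hj1.symm).symm
      _ ≤ _ := Finset.card_le_card this
  obtain ⟨k, hk⟩ := Nat.exists_eq_add_of_le h2
  rw [hk, pow_add, mul_comm (W (g c) ^ 2)]
  refine mul_le_mul_of_nonneg_right ?_ (sq_nonneg _)
  calc W (g c) ^ k ≤ B ^ k := pow_le_pow_left₀ (hW0 _) (hWB _) k
    _ ≤ B ^ (2 + k) := pow_le_pow_right₀ hB (by omega)

/-- the sum for a fixed leader map. -/
private theorem gr3_sum {I : Type} [Fintype I] [DecidableEq I] [DecidableEq P0] (PP : Finset P0)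
    (W : P0 → ℝ) (B : ℝ) (hB : 1 ≤ B) (hWB : ∑ p ∈ PP, W p ^ 2 ≤ B) (l : I → I) :
    ∑ g ∈ (Fintype.piFinset fun _ : I => PP) with g = g ∘ l,
      ∏ c ∈ Finset.univ.image l, W (g c) ^ 2 ≤ B ^ Fintype.card I := by
  obtain ⟨J, hJ⟩ : ∃ J : Finset I, J = Finset.univ.image l := ⟨_, rfl⟩
  rw [← hJ]
  have hlJ : ∀ i, l i ∈ J := fun i => by
    rw [hJ]; exact Finset.mem_image_of_mem l (Finset.mem_univ i)
  obtain ⟨S, hS⟩ : ∃ S : Finset (I → P0), S = (Fintype.piFinset fun _ : I => PP).filter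
    (fun g => g = g ∘ l) := ⟨_, rfl⟩
  rw [← hS]
  have h1 : ∀ g : I → P0, ∏ c ∈ J, W (g c) ^ 2 = ∏ c : J, W (g c) ^ 2 := fun g =>
    (Finset.prod_coe_sort J fun c => W (g c) ^ 2).symm
  have hinj : Set.InjOn (fun (g : I → P0) (c : J) => g c) S := by
    intro g hg g' hg' hgg
    rw [Finset.mem_coe, hS, Finset.mem_filter] at hg hg'
    funext i
    have h2 := congrFun hgg ⟨l i, hlJ i⟩
    have h3 : g i = g (l i) := congrFun hg.2 i
    have h4 : g' i = g' (l i) := congrFun hg'.2 i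
    rw [h3, h4]
    exact h2
  have h2 : ∑ g ∈ S, ∏ c ∈ J, W (g c) ^ 2 =
      ∑ h ∈ S.image (fun (g : I → P0) (c : J) => g c), ∏ c : J, W (h c) ^ 2 := by
    rw [Finset.sum_image hinj]
    exact Finset.sum_congr rfl fun g _ => h1 g
  rw [h2]
  have h3 : S.image (fun (g : I → P0) (c : J) => g c) ⊆ Fintype.piFinset fun _ : J => PP := by
    intro h hh
    obtain ⟨g, hg, rfl⟩ := Finset.mem_image.1 hh
    rw [hS, Finset.mem_filter, Fintype.mem_piFinset] at hg
    rw [Fintype.mem_piFinset]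
    exact fun c => hg.1 c
  have h4 : ∑ h ∈ S.image (fun (g : I → P0) (c : J) => g c), ∏ c : J, W (h c) ^ 2 ≤
      ∑ h ∈ Fintype.piFinset fun _ : J => PP, ∏ c : J, W (h c) ^ 2 :=
    Finset.sum_le_sum_of_subset_of_nonneg h3 fun h _ _ =>
      Finset.prod_nonneg fun c _ => sq_nonneg _
  have h5 : ∑ h ∈ Fintype.piFinset fun _ : J => PP, ∏ c : J, W (h c) ^ 2 =
      (∑ p ∈ PP, W p ^ 2) ^ J.card := by
    rw [← Finset.prod_univ_sum (t := fun _ : J => PP) (f := fun _ p => W p ^ 2),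
      Finset.prod_const, Finset.card_univ, Fintype.card_coe]
  rw [h5] at h4
  have h0 : 0 ≤ ∑ p ∈ PP, W p ^ 2 := Finset.sum_nonneg fun p _ => sq_nonneg _
  calc _ ≤ _ := h4
    _ ≤ B ^ J.card := pow_le_pow_left₀ h0 hWB _
    _ ≤ B ^ Fintype.card I := pow_le_pow_right₀ hB (by
        rw [← Finset.card_univ]; exact Finset.card_le_card (Finset.subset_univ J))

open Classical in
private theorem gr3_fib {Q : Finset (Ag P0)} {w : Ag P0 → ℝ} {V : ℝ} (h : Wt Q w V) (I : Type)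
    [Fintype I] : ∑ F ∈ Tu I Q with Pair F, wF w F ≤
      ∑ g ∈ (Fintype.piFinset fun _ : I => Q.image Prod.fst) with
        (∀ i, ∃ j, j ≠ i ∧ g j = g i), ∏ i, (2 * gr3_W Q w (g i)) := by
  have hmaps : ∀ F ∈ (Tu I Q).filter Pair, (fun i => (F i).1.1) ∈
      (Fintype.piFinset fun _ : I => Q.image Prod.fst).filter
        (fun g => ∀ i, ∃ j, j ≠ i ∧ g j = g i) := by
    intro F hF
    obtain ⟨h1, h2⟩ := Finset.mem_filter.1 hF
    rw [gr3_mem_Tu] at h1
    rw [Finset.mem_filter, Fintype.mem_piFinset]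
    exact ⟨fun i => Finset.mem_image_of_mem Prod.fst (h1 i), h2⟩
  rw [← Finset.sum_fiberwise_of_maps_to hmaps]
  refine Finset.sum_le_sum fun g _ => ?_
  have h1 : ∑ F ∈ ((Tu I Q).filter Pair).filter (fun F => (fun i => (F i).1.1) = g), wF w F ≤
      ∑ F ∈ Fintype.piFinset fun i => ((Q ×ˢ (Finset.univ : Finset Bool)).filter
        fun x => x.1.1 = g i), ∏ i, w (F i).1 := by
    refine Finset.sum_le_sum_of_subset_of_nonneg ?_ fun F _ _ =>
      Finset.prod_nonneg fun i _ => h.nonneg _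
    intro F hF
    obtain ⟨h1, h2⟩ := Finset.mem_filter.1 hF
    have h3 := gr3_mem_Tu.1 (Finset.mem_filter.1 h1).1
    rw [Fintype.mem_piFinset]
    intro i
    rw [Finset.mem_filter, Finset.mem_product]
    exact ⟨⟨h3 i, Finset.mem_univ _⟩, congrFun h2 i⟩
  refine h1.trans (le_of_eq ?_)
  rw [← Finset.prod_univ_sum (t := fun i => ((Q ×ˢ (Finset.univ : Finset Bool)).filter
        fun x => x.1.1 = g i)) (f := fun _ x => w x.1)]
  refine Finset.prod_congr rfl fun i _ => ?_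
  rw [Finset.sum_filter, Finset.sum_product]
  unfold gr3_W
  rw [Finset.sum_filter, Finset.mul_sum]
  refine Finset.sum_congr rfl fun q _ => ?_
  rw [Fintype.sum_bool]
  dsimp only
  ring

open Classical in
/-- Row R3. -/
theorem pair_sum (I : Type) [Fintype I] : ∃ C : ℝ, 1 ≤ C ∧ ∀ (P0 : Type) (Q : Finset (Ag P0))
    (w : Ag P0 → ℝ) (V : ℝ), Wt Q w V → ∑ F ∈ Tu I Q with Pair F, wF w F ≤ C * V ^ C := by
  obtain ⟨n, hn⟩ : ∃ n : ℕ, n = Fintype.card I := ⟨_, rfl⟩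
  obtain ⟨N, hN⟩ : ∃ N : ℕ, N = Fintype.card (I → I) := ⟨_, rfl⟩
  have hC1 : (0 : ℝ) ≤ 2 ^ n * N * 4 ^ n := by positivity
  have hC2 : (0 : ℝ) ≤ 4 * n := by positivity
  refine ⟨2 ^ n * N * 4 ^ n + 4 * n + 1, by linarith, fun P0 Q w V h => ?_⟩
  have hV := h.one
  obtain ⟨B, hB⟩ : ∃ B : ℝ, B = 2 * V ^ 2 := ⟨_, rfl⟩
  have hB1 : 1 ≤ B := by rw [hB]; nlinarith
  have hB0 : 0 ≤ B := by linarith
  obtain ⟨W, hW⟩ : ∃ W : P0 → ℝ, W = gr3_W Q w := ⟨_, rfl⟩
  have hW0 : ∀ p, 0 ≤ W p := fun p => by rw [hW]; exact gr3_W_nonneg h p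
  have hWB : ∀ p, W p ≤ B := fun p => by rw [hW, hB]; exact gr3_W_le h p
  have hWS : ∑ p ∈ Q.image Prod.fst, W p ^ 2 ≤ B := by rw [hW, hB]; exact gr3_W_sum h
  have h1 := gr3_fib h I
  rw [← hW] at h1
  have h2 : ∀ g : I → P0, (∀ i, ∃ j, j ≠ i ∧ g j = g i) → ∏ i, (2 * W (g i)) ≤
      2 ^ n * (B ^ n * ∑ l : I → I, if g = g ∘ l then
        ∏ c ∈ Finset.univ.image l, W (g c) ^ 2 else 0) := by
    intro g hg
    rw [Finset.prod_mul_distrib, Finset.prod_const, Finset.card_univ, ← hn]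
    refine mul_le_mul_of_nonneg_left ?_ (by positivity)
    obtain ⟨l, hl1, hl2⟩ := gr3_prod g hg W B hW0 hWB hB1
    rw [← hn] at hl2
    refine hl2.trans (mul_le_mul_of_nonneg_left ?_ (by positivity))
    have h3 : (if g = g ∘ l then ∏ c ∈ Finset.univ.image l, W (g c) ^ 2 else 0) ≤
        ∑ l : I → I, if g = g ∘ l then ∏ c ∈ Finset.univ.image l, W (g c) ^ 2 else 0 :=
      Finset.single_le_sum (f := fun l : I → I => if g = g ∘ l then
        ∏ c ∈ Finset.univ.image l, W (g c) ^ 2 else 0) (fun l _ => by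
          split_ifs
          · exact Finset.prod_nonneg fun c _ => sq_nonneg _
          · exact le_rfl) (Finset.mem_univ l)
    rw [if_pos hl1] at h3
    exact h3
  have h3 : ∑ g ∈ (Fintype.piFinset fun _ : I => Q.image Prod.fst) with
        (∀ i, ∃ j, j ≠ i ∧ g j = g i), ∏ i, (2 * W (g i)) ≤
      ∑ g ∈ (Fintype.piFinset fun _ : I => Q.image Prod.fst),
        2 ^ n * (B ^ n * ∑ l : I → I, if g = g ∘ l then
          ∏ c ∈ Finset.univ.image l, W (g c) ^ 2 else 0) := by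
    refine (Finset.sum_le_sum fun g hg => h2 g (Finset.mem_filter.1 hg).2).trans ?_
    refine Finset.sum_le_sum_of_subset_of_nonneg (Finset.filter_subset _ _) fun g _ _ => ?_
    refine mul_nonneg (by positivity) (mul_nonneg (by positivity) (Finset.sum_nonneg fun l _ => ?_))
    split_ifs
    · exact Finset.prod_nonneg fun c _ => sq_nonneg _
    · exact le_rfl
  have h4 : ∑ g ∈ (Fintype.piFinset fun _ : I => Q.image Prod.fst),
        2 ^ n * (B ^ n * ∑ l : I → I, if g = g ∘ l then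
          ∏ c ∈ Finset.univ.image l, W (g c) ^ 2 else 0) ≤ 2 ^ n * (B ^ n * (N * B ^ n)) := by
    rw [← Finset.mul_sum, ← Finset.mul_sum, Finset.sum_comm]
    refine mul_le_mul_of_nonneg_left (mul_le_mul_of_nonneg_left ?_ (by positivity))
      (by positivity)
    have h5 : ∀ l : I → I, ∑ g ∈ (Fintype.piFinset fun _ : I => Q.image Prod.fst),
        (if g = g ∘ l then ∏ c ∈ Finset.univ.image l, W (g c) ^ 2 else 0) ≤ B ^ n := by
      intro l
      rw [← Finset.sum_filter, hn]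
      exact gr3_sum (Q.image Prod.fst) W B hB1 hWS l
    refine (Finset.sum_le_sum fun l _ => h5 l).trans (le_of_eq ?_)
    rw [Finset.sum_const, Finset.card_univ, nsmul_eq_mul, hN]
  have h5 : 2 ^ n * (B ^ n * (N * B ^ n)) = 2 ^ n * N * 4 ^ n * V ^ (4 * n) := by
    rw [hB, mul_pow, ← pow_mul]
    have e1 : (4 : ℝ) ^ n = 2 ^ n * 2 ^ n := by rw [← mul_pow]; norm_num
    have e2 : V ^ (4 * n) = V ^ (2 * n) * V ^ (2 * n) := by rw [← pow_add]; congr 1; ring
    rw [e1, e2]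
    ring
  have h6 : V ^ (4 * n) ≤ V ^ ((2 : ℝ) ^ n * N * 4 ^ n + 4 * n + 1) := by
    rw [← Real.rpow_natCast]
    refine Real.rpow_le_rpow_of_exponent_le hV ?_
    push_cast
    linarith
  calc _ ≤ _ := h1
    _ ≤ _ := h3
    _ ≤ _ := h4
    _ = _ := h5
    _ ≤ (2 ^ n * N * 4 ^ n + 4 * n + 1) * V ^ ((2 : ℝ) ^ n * N * 4 ^ n + 4 * n + 1) :=
      mul_le_mul (by linarith) h6 (by positivity) (by positivity)

end B35
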