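import Pool.Agent.LibB35.GR10a
import Pool.Agent.LibB35.GR10b
import Pool.Agent.LibB35.GR3

/-! Row R10c: `comb` (cites R1, R2, R3, R7, R10a, R10b). MEDIUM, 60 min.
`EF_sum` (linearity): `expand` pointwise; `tm` is a measurable bounded function of `(τ, τ', ω)` (`meas`, `cj` is
continuous; bound: `size_est`), so all iterated integrals are linear: `integral_finset_sum` for `μ`, then for `τ'` and `τ`
(interval integrals; measurability of the inner integrals: `MeasureTheory.StronglyMeasurable.integral_prod_right`, and bounded on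
the interval; only the values for `τ, τ'` in the windows matter: `intervalIntegral.integral_congr`).
`EF_deg`: average of `deg_est` (the averages of a constant are the constant, `(v - u) T > 0`).
`EF_nondeg`: `norm_integral_le` with the bound of `nondeg_est` and `meas_U` (with `θ`), `wF ≥ 0`.
`comb`: split the sum over `Tu` into degenerate (`DD_mul`) and nondegenerate tuples. `card (Tu) ≤ (2 card Q)^(r+r')`. Degenerate
tuples are `Pair` (`pair_sum_type`), so `∑ wF ≤ C V^C` (`pair_sum`). For the tuples with `F.fst ∈ Bd (F.snd)`: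
`∑_F wF F ≤ ∑_e ∑_{q ∈ Bd e} ∏ w (q i)` (the map `F ↦ (F.snd, F.fst)` is injective, terms nonnegative). -/

open MeasureTheory Set Filter Topology

namespace B35

theorem GR10c_card_eq {P0 I : Type} [Fintype I] (Q : Finset (Ag P0)) :
    (Tu I Q).card = (Q.card * 2) ^ Fintype.card I := by
  classical
  unfold Tu
  rw [Fintype.card_piFinset, Finset.prod_const, Finset.card_univ, Finset.card_product,
    Finset.card_univ, Fintype.card_bool]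

theorem GR10c_card {P0 : Type} (r r' : ℕ) (Q : Finset (Ag P0)) :
    ((Tu (Fin r ⊕ Fin r') Q).card : ℝ) ≤ 2 ^ (r + r') * ((Q.card : ℝ) + 1) ^ (r + r') := by
  rw [GR10c_card_eq, Fintype.card_sum, Fintype.card_fin, Fintype.card_fin]
  push_cast
  rw [mul_pow, mul_comm]
  refine mul_le_mul_of_nonneg_left ?_ (by positivity)
  exact pow_le_pow_left₀ (by positivity) (by linarith) _

theorem GR10c_wF {P0 I : Type} [Fintype I] {w : Ag P0 → ℝ} (hw : ∀ q, 0 ≤ w q)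
    (F : I → Ag P0 × Bool) : 0 ≤ wF w F := Finset.prod_nonneg fun _ _ => hw _

open Classical in
theorem GR10c_Bd {P0 I : Type} [Fintype I] (Q : Finset (Ag P0)) {w : Ag P0 → ℝ}
    (hw : ∀ q, 0 ≤ w q) (Bd : (I → Bool) → Finset (I → Ag P0)) :
    ∑ F ∈ Tu I Q, (if (fun i => (F i).1) ∈ Bd (fun i => (F i).2) then wF w F else 0) ≤
      ∑ e : I → Bool, ∑ q ∈ Bd e, ∏ i, w (q i) := by
  classical
  rw [← Finset.sum_filter, ← Finset.sum_sigma (Finset.univ : Finset (I → Bool)) Bd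
    (fun x => ∏ i, w (x.2 i))]
  obtain ⟨φ, hφ⟩ : ∃ φ : (I → Ag P0 × Bool) → (Σ _ : I → Bool, I → Ag P0),
      φ = fun F => ⟨fun i => (F i).2, fun i => (F i).1⟩ := ⟨_, rfl⟩
  have hinj : Function.Injective φ := by
    intro F F' h
    rw [hφ] at h
    simp only [Sigma.mk.injEq, heq_eq_eq] at h
    funext i
    exact Prod.ext (congrFun h.2 i) (congrFun h.1 i)
  have h1 : ∑ F ∈ (Tu I Q).filter (fun F => (fun i => (F i).1) ∈ Bd (fun i => (F i).2)), wF w F =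
      ∑ x ∈ ((Tu I Q).filter (fun F => (fun i => (F i).1) ∈ Bd (fun i => (F i).2))).image φ,
        ∏ i, w (x.2 i) := by
    rw [Finset.sum_image (fun a _ b _ h => hinj h)]
    refine Finset.sum_congr rfl fun F _ => ?_
    rw [hφ]
    rfl
  rw [h1]
  refine Finset.sum_le_sum_of_subset_of_nonneg ?_ fun x _ _ =>
    Finset.prod_nonneg fun _ _ => hw _
  intro x hx
  obtain ⟨F, hF, rfl⟩ := Finset.mem_image.1 hx
  rw [Finset.mem_sigma, hφ]
  exact ⟨Finset.mem_univ _, (Finset.mem_filter.1 hF).2⟩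

theorem GR10c_num {V C₁ C₂ C₃ u N : ℝ} (hV : 1 ≤ V) (h₁ : 1 ≤ C₁) (h₂ : 1 ≤ C₂) (h₃ : 1 ≤ C₃)
    (hu : 0 < u) (hN : 1 ≤ N) : ∃ C : ℝ, C = (C₁ + C₂) * C₃ + N * (C₁ + C₂ * (1 + u) + 1) +
      C₁ + C₂ + C₃ ∧ 1 ≤ C ∧
      C₁ * V ^ C₁ * (C₃ * V ^ C₃) ≤ C * V ^ C ∧ C₂ * V ^ C₂ * (C₃ * V ^ C₃) ≤ C * V ^ C ∧
      C₂ * V ^ C₂ ≤ C * V ^ C ∧ N ≤ C * V ^ C ∧
      N * (C₁ * V ^ C₁ + C₂ * V ^ C₂ * (1 + u)) ≤ C * V ^ C := by
  obtain ⟨C, hC⟩ : ∃ C : ℝ, C = (C₁ + C₂) * C₃ + N * (C₁ + C₂ * (1 + u) + 1) + C₁ + C₂ + C₃ :=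
    ⟨_, rfl⟩
  have hV0 : 0 < V := by linarith
  have p1 : 0 < C₁ * C₃ := by positivity
  have p2 : 0 < C₂ * C₃ := by positivity
  have p3 : 0 < C₂ * (1 + u) := by positivity
  have p4 : C₁ ≤ N * C₁ := le_mul_of_one_le_left (by linarith) hN
  have p5 : C₂ * (1 + u) ≤ N * (C₂ * (1 + u)) := le_mul_of_one_le_left p3.le hN
  have e0 : C = C₁ * C₃ + C₂ * C₃ + N * C₁ + N * (C₂ * (1 + u)) + N + C₁ + C₂ + C₃ := by
    rw [hC]
    ring
  have hP : ∀ x : ℝ, x ≤ C → V ^ x ≤ V ^ C := fun x hx => Real.rpow_le_rpow_of_exponent_le hV hx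
  have hC0 : 0 < C := by linarith
  have hPC : 0 < V ^ C := Real.rpow_pos_of_pos hV0 _
  have hP1 : 1 ≤ V ^ C := Real.one_le_rpow hV hC0.le
  refine ⟨C, hC, by linarith, ?_, ?_, ?_, ?_, ?_⟩
  · calc C₁ * V ^ C₁ * (C₃ * V ^ C₃) = C₁ * C₃ * V ^ (C₁ + C₃) := by
          rw [Real.rpow_add hV0]
          ring
      _ ≤ C * V ^ C := mul_le_mul (by linarith) (hP _ (by linarith)) (by positivity) hC0.le
  · calc C₂ * V ^ C₂ * (C₃ * V ^ C₃) = C₂ * C₃ * V ^ (C₂ + C₃) := by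
          rw [Real.rpow_add hV0]
          ring
      _ ≤ C * V ^ C := mul_le_mul (by linarith) (hP _ (by linarith)) (by positivity) hC0.le
  · exact mul_le_mul (by linarith) (hP _ (by linarith)) (by positivity) hC0.le
  · calc N = N * 1 := (mul_one _).symm
      _ ≤ C * V ^ C := mul_le_mul (by linarith) hP1 zero_le_one hC0.le
  · have q1 : C₁ * V ^ C₁ ≤ C₁ * V ^ C :=
      mul_le_mul_of_nonneg_left (hP _ (by linarith)) (by linarith)
    have q2 : C₂ * V ^ C₂ * (1 + u) ≤ C₂ * (1 + u) * V ^ C := by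
      have q3 : V ^ C₂ ≤ V ^ C := hP _ (by linarith)
      calc C₂ * V ^ C₂ * (1 + u) = C₂ * (1 + u) * V ^ C₂ := by ring
        _ ≤ C₂ * (1 + u) * V ^ C := mul_le_mul_of_nonneg_left q3 p3.le
    calc N * (C₁ * V ^ C₁ + C₂ * V ^ C₂ * (1 + u))
        ≤ N * (C₁ * V ^ C + C₂ * (1 + u) * V ^ C) :=
          mul_le_mul_of_nonneg_left (by linarith) (by linarith)
      _ = (N * C₁ + N * (C₂ * (1 + u))) * V ^ C := by ring
      _ ≤ C * V ^ C := mul_le_mul_of_nonneg_right (by linarith) hPC.le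

/-- Row R10: the combinatorial theorem. -/
theorem comb (r r' : ℕ) {u v : ℝ} (hu : 0 < u) (huv : u < v) : ∃ C : ℝ, 1 ≤ C ∧
    ∀ (P0 Ω : Type) (_ : MeasurableSpace Ω)
    (μ : Measure Ω) (T : ℝ) (Q : Finset (Ag P0)) (w : Ag P0 → ℝ) (V ε ε' εD θ : ℝ)
    (Z : ℝ → Ω → Ag P0 → ℂ) (Mw : Ω → Ag P0 → ℂ) (l : Ω → P0 → ℝ) (m0 : Ag P0 → ℂ)
    (Bd : (Fin r ⊕ Fin r' → Bool) → Finset (Fin r ⊕ Fin r' → Ag P0)),
    HB μ u v T r r' Q w V ε ε' εD θ Z Mw l m0 Bd →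
    ‖(((1 / ((v - u) * T)) * ∫ τ in (u * T)..(v * T), (1 / ((v - u) * T)) *
      ∫ τ' in (u * T)..(v * T), ∫ ω, (∑ q ∈ Q, (Z τ ω q).re) ^ r *
        (∑ q ∈ Q, (Z τ' ω q).re) ^ r' ∂μ : ℝ) : ℂ) - DD Q m0 r * DD Q m0 r'‖ ≤
      C * V ^ C * (((Q.card : ℝ) + 1) ^ (r + r') * (ε' + εD) + ε + θ +
        ∑ e : Fin r ⊕ Fin r' → Bool, ∑ q ∈ Bd e, ∏ i, w (q i)) := by
  classical
  obtain ⟨C₁, hC₁, hdeg⟩ := EF_deg r r'
  obtain ⟨C₂, hC₂, hnon⟩ := EF_nondeg r r' hu huv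
  obtain ⟨C₃, hC₃, hpair⟩ := pair_sum (Fin r ⊕ Fin r')
  have hN1 : (1 : ℝ) ≤ 2 ^ (r + r') := one_le_pow₀ (by norm_num)
  refine ⟨(C₁ + C₂) * C₃ + 2 ^ (r + r') * (C₁ + C₂ * (1 + u) + 1) + C₁ + C₂ + C₃, ?_, ?_⟩
  · obtain ⟨C, hC, hC1, -⟩ := GR10c_num (V := 1) le_rfl hC₁ hC₂ hC₃ hu hN1
    rw [← hC]
    exact hC1
  intro P0 Ω _ μ T Q w V ε ε' εD θ Z Mw l m0 Bd h
  obtain ⟨C, hC, hC1, n1, n2, n3, n4, n5⟩ := GR10c_num h.wt.one hC₁ hC₂ hC₃ hu hN1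
  rw [← hC]
  have hw := h.wt.nonneg
  have hε := h.ε0.1
  have hε' := h.ε1.1
  have hεD := h.εD0
  have hθ := h.θ0.1
  have hθu := h.θ0.2
  have hV0 : 0 < V := by linarith [h.wt.one]
  obtain ⟨a₁, ha₁⟩ : ∃ a₁, a₁ = C₁ * V ^ C₁ := ⟨_, rfl⟩
  obtain ⟨a₂, ha₂⟩ : ∃ a₂, a₂ = C₂ * V ^ C₂ := ⟨_, rfl⟩
  obtain ⟨a₃, ha₃⟩ : ∃ a₃, a₃ = C₃ * V ^ C₃ := ⟨_, rfl⟩
  obtain ⟨A, hA⟩ : ∃ A, A = C * V ^ C := ⟨_, rfl⟩
  have ha₁0 : 0 ≤ a₁ := by rw [ha₁]; positivity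
  have ha₂0 : 0 ≤ a₂ := by rw [ha₂]; positivity
  have ha₃0 : 0 ≤ a₃ := by rw [ha₃]; positivity
  rw [← ha₁, ← ha₃, ← hA] at n1
  rw [← ha₂, ← ha₃, ← hA] at n2
  rw [← ha₂, ← hA] at n3
  rw [← hA] at n4
  rw [← ha₁, ← ha₂, ← hA] at n5
  rw [← hA]
  obtain ⟨K, hK⟩ : ∃ K : ℝ, K = ((Q.card : ℝ) + 1) ^ (r + r') := ⟨_, rfl⟩
  obtain ⟨B, hB⟩ : ∃ B : ℝ, B = ∑ e : Fin r ⊕ Fin r' → Bool, ∑ q ∈ Bd e, ∏ i, w (q i) := ⟨_, rfl⟩
  obtain ⟨N, hN⟩ : ∃ N : ℝ, N = 2 ^ (r + r') := ⟨_, rfl⟩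
  rw [← hN] at n4 n5 hN1
  rw [← hK, ← hB]
  have hK0 : 0 ≤ K := by rw [hK]; positivity
  have hB0 : 0 ≤ B := by
    rw [hB]
    exact Finset.sum_nonneg fun e _ => Finset.sum_nonneg fun q _ =>
      Finset.prod_nonneg fun _ _ => hw _
  have hcard : ((Tu (Fin r ⊕ Fin r') Q).card : ℝ) ≤ N * K := by
    rw [hN, hK]
    exact GR10c_card r r' Q
  have hSP : ∑ F ∈ Tu (Fin r ⊕ Fin r') Q, (if Pair F then wF w F else 0) ≤ a₃ := by
    have h1 := hpair P0 Q w V h.wt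
    rw [Finset.sum_filter] at h1
    rw [ha₃]
    exact h1
  have hSB : ∑ F ∈ Tu (Fin r ⊕ Fin r') Q,
      (if (fun i => (F i).1) ∈ Bd (fun i => (F i).2) then wF w F else 0) ≤ B := by
    have h1 := GR10c_Bd Q hw Bd
    rw [hB]
    refine h1.trans (le_of_eq (Finset.sum_congr ?_ fun _ _ => rfl))
    ext e
    exact iff_of_true (@Finset.mem_univ _ (_) e) (@Finset.mem_univ _ (_) e)
  have hDD := DD_mul Q m0 r r'
  rw [Finset.sum_filter] at hDD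
  have hpt : ∀ F ∈ Tu (Fin r ⊕ Fin r') Q,
      ‖EF μ u v T Z F - (if Deg (F ∘ Sum.inl) ∧ Deg (F ∘ Sum.inr) then tm (fun _ => m0) F
        else 0)‖ ≤ (a₁ * ε + a₂ * θ) * (if Pair F then wF w F else 0) +
        a₂ * (if (fun i => (F i).1) ∈ Bd (fun i => (F i).2) then wF w F else 0) +
        (a₁ * ε' + εD + a₂ * ε' + a₂ * ε' * θ) := by
    intro F hF
    have hwF := GR10c_wF hw F
    have m1 : 0 ≤ a₁ * ε := mul_nonneg ha₁0 hε
    have m2 : 0 ≤ a₂ * θ := mul_nonneg ha₂0 hθ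
    have m3 : 0 ≤ a₂ * ε' := mul_nonneg ha₂0 hε'
    have m4 : 0 ≤ a₂ * ε' * θ := mul_nonneg m3 hθ
    have m5 : 0 ≤ a₁ * ε' := mul_nonneg ha₁0 hε'
    have m6 : 0 ≤ a₁ * ε * wF w F := mul_nonneg m1 hwF
    have m7 : 0 ≤ a₂ * θ * wF w F := mul_nonneg m2 hwF
    have m8 : 0 ≤ a₂ * wF w F := mul_nonneg ha₂0 hwF
    have m9 : 0 ≤ (if (fun i => (F i).1) ∈ Bd (fun i => (F i).2) then wF w F else 0) := by
      split_ifs
      · exact hwF
      · exact le_rfl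
    have m10 := mul_nonneg ha₂0 m9
    by_cases hd : Deg (F ∘ Sum.inl) ∧ Deg (F ∘ Sum.inr)
    · rw [if_pos hd, if_pos (pair_sum_type hd.1 hd.2)]
      have h1 := hdeg P0 Ω _ μ u v T Q w V ε ε' εD θ Z Mw l m0 Bd h F hF hd.1 hd.2
      rw [← ha₁] at h1
      have h2 : a₁ * (ε * wF w F + ε') = a₁ * ε * wF w F + a₁ * ε' := by ring
      rw [h2] at h1
      have h3 : (a₁ * ε + a₂ * θ) * wF w F = a₁ * ε * wF w F + a₂ * θ * wF w F := by ring
      rw [h3]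
      linarith
    · rw [if_neg hd, sub_zero]
      have h1 := hnon P0 Ω _ μ T Q w V ε ε' εD θ Z Mw l m0 Bd h F hF hd
      rw [← ha₂] at h1
      by_cases hb : (fun i => (F i).1) ∈ Bd (fun i => (F i).2)
      · by_cases hp : Pair F
        · simp only [if_pos hb, if_pos hp] at h1 ⊢
          have h2 : εD + a₂ * (wF w F + ε') + a₂ * (wF w F + ε') * θ = εD + a₂ * wF w F + a₂ * ε' +
            a₂ * θ * wF w F + a₂ * ε' * θ := by ring
          rw [h2] at h1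
          have h3 : (a₁ * ε + a₂ * θ) * wF w F = a₁ * ε * wF w F + a₂ * θ * wF w F := by ring
          rw [h3]
          linarith
        · simp only [if_pos hb, if_neg hp] at h1 ⊢
          have h2 : εD + a₂ * (wF w F + ε') + 0 * θ = εD + a₂ * wF w F + a₂ * ε' := by ring
          rw [h2] at h1
          rw [mul_zero]
          linarith
      · by_cases hp : Pair F
        · simp only [if_neg hb, if_pos hp] at h1 ⊢
          have h2 : εD + 0 + a₂ * (wF w F + ε') * θ = εD +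
            a₂ * θ * wF w F + a₂ * ε' * θ := by ring
          rw [h2] at h1
          have h3 : (a₁ * ε + a₂ * θ) * wF w F = a₁ * ε * wF w F + a₂ * θ * wF w F := by ring
          rw [h3, mul_zero]
          linarith
        · simp only [if_neg hb, if_neg hp] at h1 ⊢
          rw [mul_zero, mul_zero]
          linarith
  have e1 : (a₁ * ε + a₂ * θ) * (∑ F ∈ Tu (Fin r ⊕ Fin r') Q, (if Pair F then wF w F else 0)) ≤
      A * ε + A * θ := by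
    calc (a₁ * ε + a₂ * θ) * (∑ F ∈ Tu (Fin r ⊕ Fin r') Q, (if Pair F then wF w F else 0))
        ≤ (a₁ * ε + a₂ * θ) * a₃ := mul_le_mul_of_nonneg_left hSP
          (add_nonneg (mul_nonneg ha₁0 hε) (mul_nonneg ha₂0 hθ))
      _ = (a₁ * a₃) * ε + (a₂ * a₃) * θ := by ring
      _ ≤ A * ε + A * θ := add_le_add (mul_le_mul_of_nonneg_right n1 hε)
          (mul_le_mul_of_nonneg_right n2 hθ)
  have e2 : a₂ * (∑ F ∈ Tu (Fin r ⊕ Fin r') Q,
      (if (fun i => (F i).1) ∈ Bd (fun i => (F i).2) then wF w F else 0)) ≤ A * B :=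
    (mul_le_mul_of_nonneg_left hSB ha₂0).trans (mul_le_mul_of_nonneg_right n3 hB0)
  have e3 : ((Tu (Fin r ⊕ Fin r') Q).card : ℝ) * (a₁ * ε' + εD + a₂ * ε' + a₂ * ε' * θ) ≤
      A * (K * (ε' + εD)) := by
    have t0 : 0 ≤ a₁ * ε' + εD + a₂ * ε' + a₂ * ε' * θ := by
      have m3 : 0 ≤ a₂ * ε' := mul_nonneg ha₂0 hε'
      have m4 : 0 ≤ a₂ * ε' * θ := mul_nonneg m3 hθ
      have m5 : 0 ≤ a₁ * ε' := mul_nonneg ha₁0 hε'
      linarith
    have t1 : a₁ * ε' + εD + a₂ * ε' + a₂ * ε' * θ ≤ (a₁ + a₂ * (1 + u)) * ε' + εD := by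
      have m3 : 0 ≤ a₂ * ε' := mul_nonneg ha₂0 hε'
      have m4 : a₂ * ε' * θ ≤ a₂ * ε' * u := mul_le_mul_of_nonneg_left hθu.le m3
      linarith
    calc ((Tu (Fin r ⊕ Fin r') Q).card : ℝ) * (a₁ * ε' + εD + a₂ * ε' + a₂ * ε' * θ)
        ≤ (N * K) * ((a₁ + a₂ * (1 + u)) * ε' + εD) := mul_le_mul hcard t1 t0
          (mul_nonneg (by linarith) hK0)
      _ = K * ((N * (a₁ + a₂ * (1 + u))) * ε' + N * εD) := by ring
      _ ≤ K * (A * ε' + A * εD) := mul_le_mul_of_nonneg_left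
          (add_le_add (mul_le_mul_of_nonneg_right n5 hε') (mul_le_mul_of_nonneg_right n4 hεD)) hK0
      _ = A * (K * (ε' + εD)) := by ring
  rw [EF_sum h, ← hDD, ← Finset.sum_sub_distrib]
  refine (norm_sum_le _ _).trans ((Finset.sum_le_sum hpt).trans ?_)
  rw [Finset.sum_add_distrib, Finset.sum_add_distrib, ← Finset.mul_sum, ← Finset.mul_sum,
    Finset.sum_const, nsmul_eq_mul]
  have e4 : A * (K * (ε' + εD) + ε + θ + B) = A * (K * (ε' + εD)) + A * ε + A * θ + A * B := by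
    ring
  rw [e4]
  linarith

end B35
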