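import Pool.Agent.LibB35.GB1
import Pool.Agent.LibB35.GR10c

/-! Row B (the block theorem; cites GQ2, GR10, IF). The geometric input of `comb`: `Ω = Dir → I`, `μ = Pm ν`, `P0 = GH.PG Γ`,
`Q = Cs μ0 (K' k)`, `w = wg μ0`, `T = 2 ^ k`, `Z τ η q = zl μ0 (X (mix ξ η)) (dl k) N (sc a L) τ q`, `Mw η q = mt (X (mix ξ η)) ..`,
`l η p = lp (X (mix ξ η)) p`, `m0 = mt μ0 ..`, `θ = C (bk k + 1)^(-1/2)`, `V = C k^C`, `ε = exp (-c k^(5/6)) + C k^C T^(-1/4)`,
`ε' = εD = C / T^A` with `A` so large that `T^(-A) (card Q + 1)^(r+r') ≤ exp (-k)`.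
B1 `hb_block`: the structure `HB`. `und`: if some cell detects (`R^(-3/2) ≤ |..|`) then `decor`: `∫ tm ∂μ` is a constant times
`∫ ∏ cj (zl ..)`, and for the cell `c`, `∫_η f (X (mix ξ η)) = ∫_η ∫_t f (X (upI (mix ξ η) (n, c) t)) ∂ν` (row S1 below, slices of the
product measure; `upI (mix n ξ η) (n, c) t = mix n ξ (upI η (n, c) t)`); otherwise `undet` with `lam j = sgn (e j) τ j / T`,
`Λ = max (v) (1/u)`.
B2 `block`: replace `Sg` by the sum of the `zl` (fact1): `|x^r y^r' - x'^r y'^r'| ≤ ..` with `|x - x'| ≤ C/T^A` and all sizes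
`≤ exp (C k)`; Fubini between `η` and `τ, τ'` (`meas_Sg`, bounded), `block_neg` (the `if` in `Dt.M` is true). -/

open MeasureTheory Set Filter Topology
open scoped ContDiff unitInterval

namespace B35

open BGS BR BE
open Pool.BGR (upI)

variable {Γ : Type} [Group Γ] [MulAction Γ Pl] {D : Set Pl} {P : Dt} {κ : ℝ} {ν : Measure I}
  {ρ : ℝ → ℝ}

private theorem B2_ev1 (B C c : ℝ) (hc : 0 < c) {s : ℝ} (hs : 0 < s) :
    ∀ᶠ k : ℕ in atTop, B + C * Real.log k ≤ c * (k : ℝ) ^ s := by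
  have h1 : (fun x : ℝ => B + C * Real.log x) =o[atTop] (fun x : ℝ => x ^ s) := by
    refine (Asymptotics.isLittleO_const_left.2 (Or.inr ?_)).add
      ((isLittleO_log_rpow_atTop hs).const_mul_left C)
    exact tendsto_norm_atTop_atTop.comp (tendsto_rpow_atTop hs)
  have h2 := h1.bound hc
  have h3 := tendsto_natCast_atTop_atTop.eventually h2
  filter_upwards [h3] with k hk
  rw [Real.norm_of_nonneg (by positivity : (0 : ℝ) ≤ (k : ℝ) ^ s)] at hk
  exact (Real.le_norm_self _).trans hk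

private theorem B2_num (n : ℕ) {Cw K' C Cf C1 c : ℝ} (hCw : 1 ≤ Cw) (hK' : 1 ≤ K') (hC : 1 ≤ C)
    (hCf : 0 ≤ Cf) (hC1 : 1 ≤ C1) (hc : 0 < c) {A : ℕ}
    (hA : n * (Cw * K' + 1) + 2 ≤ A * Real.log 2) :
    ∃ k0 : ℕ, ∀ k ≥ k0, ∀ q : ℝ, 0 ≤ q → q ≤ Real.exp (Cw * (K' * k)) →
      n * (q * (4 * (C * (k : ℝ) ^ C) ^ 2) + 1) ^ n * (Cf / (2 ^ k) ^ A) +
        C1 * (C * (k : ℝ) ^ C) ^ C1 * ((q + 1) ^ n * (C / (2 ^ k) ^ A + C / (2 ^ k) ^ A) +
          3 * Real.exp (-c * (k : ℝ) ^ (2 / 3 : ℝ))) ≤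
        Real.exp (-(min c 1 / 2) * (k : ℝ) ^ (2 / 3 : ℝ)) := by
  set c2 := min c 1 with hc2
  have hc20 : 0 < c2 := lt_min hc one_pos
  set B : ℝ := n * Cf * 4 ^ n + C1 * (2 * C + 3) with hB
  have hB0 : 0 < B := by
    have h1 : 0 ≤ n * Cf * 4 ^ n := by positivity
    have h2 : 0 < C1 * (2 * C + 3) := by positivity
    linarith
  set m : ℝ := 2 * n + C1 with hm
  obtain ⟨k1, hk1⟩ := eventually_atTop.1 (B2_ev1 (Real.log B + m * Real.log C) (m * C) (c2 / 2)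
    (by positivity) (show (0 : ℝ) < 2 / 3 by norm_num))
  refine ⟨max k1 1, fun k hk q hq0 hq => ?_⟩
  have e1 := hk1 k ((le_max_left _ _).trans hk)
  have hkR : (1 : ℝ) ≤ k := by exact_mod_cast (le_max_right _ _).trans hk
  have hk0 : (0 : ℝ) < k := by linarith
  have hC0 : 0 < C := by linarith
  set V : ℝ := C * (k : ℝ) ^ C with hV
  have hV1 : 1 ≤ V := by
    have h1 : 1 ≤ (k : ℝ) ^ C := Real.one_le_rpow hkR hC0.le
    nlinarith
  have hV0 : 0 < V := by linarith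
  have hVe : V = Real.exp (Real.log C + C * Real.log k) := by
    rw [Real.exp_add, Real.exp_log hC0, mul_comm C (Real.log k), Real.exp_mul,
      Real.exp_log hk0]
  have hX : 0 ≤ Real.log C + C * Real.log k := by
    have := Real.log_nonneg hC
    have := Real.log_nonneg hkR
    positivity
  -- the powers of `V`
  have hV2 : (4 * V ^ 2) ^ n ≤ 4 ^ n * Real.exp (m * (Real.log C + C * Real.log k)) := by
    rw [mul_pow, ← pow_mul]
    refine mul_le_mul_of_nonneg_left ?_ (by positivity)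
    rw [hVe, ← Real.exp_nat_mul]
    refine Real.exp_le_exp.2 ?_
    push_cast
    rw [hm]
    have : 0 ≤ C1 * (Real.log C + C * Real.log k) := by positivity
    nlinarith
  have hV3 : V ^ C1 ≤ Real.exp (m * (Real.log C + C * Real.log k)) := by
    rw [hVe, ← Real.exp_mul]
    refine Real.exp_le_exp.2 ?_
    rw [hm]
    have : 0 ≤ 2 * (n : ℝ) * (Real.log C + C * Real.log k) := by positivity
    nlinarith
  -- the number of geodesics
  have hq1 : q + 1 ≤ Real.exp ((Cw * K' + 1) * k) := by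
    have h1 : (2 : ℝ) ≤ Real.exp k := by
      have := Real.add_one_le_exp (k : ℝ)
      linarith
    have h2 : 1 ≤ Real.exp (Cw * (K' * k)) := Real.one_le_exp (by positivity)
    rw [show (Cw * K' + 1) * (k : ℝ) = Cw * (K' * k) + k by ring, Real.exp_add]
    nlinarith
  have hqn : (q + 1) ^ n ≤ Real.exp (n * ((Cw * K' + 1) * k)) := by
    rw [Real.exp_nat_mul]
    gcongr
  have hT : ((2 : ℝ) ^ k) ^ A = Real.exp (A * (k * Real.log 2)) := by
    rw [Real.exp_nat_mul, mul_comm (k : ℝ), Real.exp_mul, Real.exp_log two_pos,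
      Real.rpow_natCast]
  have hT0 : (0 : ℝ) < ((2 : ℝ) ^ k) ^ A := by positivity
  have hkk : (k : ℝ) ^ (2 / 3 : ℝ) ≤ k := by
    calc (k : ℝ) ^ (2 / 3 : ℝ) ≤ (k : ℝ) ^ (1 : ℝ) :=
          Real.rpow_le_rpow_of_exponent_le hkR (by norm_num)
      _ = k := Real.rpow_one _
  have hkk0 : 0 ≤ (k : ℝ) ^ (2 / 3 : ℝ) := by positivity
  have hqT : (q + 1) ^ n / (2 ^ k) ^ A ≤ Real.exp (-c2 * (k : ℝ) ^ (2 / 3 : ℝ)) := by
    rw [hT, div_le_iff₀ (Real.exp_pos _), ← Real.exp_add]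
    refine hqn.trans (Real.exp_le_exp.2 ?_)
    have h1 := mul_le_mul_of_nonneg_right hA hk0.le
    have h2 : c2 ≤ 1 := min_le_right _ _
    have h3 : c2 * (k : ℝ) ^ (2 / 3 : ℝ) ≤ 1 * k :=
      mul_le_mul h2 hkk hkk0 zero_le_one
    nlinarith
  have hcc : Real.exp (-c * (k : ℝ) ^ (2 / 3 : ℝ)) ≤ Real.exp (-c2 * (k : ℝ) ^ (2 / 3 : ℝ)) := by
    refine Real.exp_le_exp.2 (mul_le_mul_of_nonneg_right ?_ hkk0)
    have : c2 ≤ c := min_le_left _ _
    linarith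
  have h4V : 1 ≤ 4 * V ^ 2 := by nlinarith
  have hbig : (q * (4 * V ^ 2) + 1) ^ n ≤ (q + 1) ^ n * (4 * V ^ 2) ^ n := by
    rw [← mul_pow]
    have : q * (4 * V ^ 2) + 1 ≤ (q + 1) * (4 * V ^ 2) := by nlinarith
    gcongr
  set E : ℝ := Real.exp (m * (Real.log C + C * Real.log k)) with hE
  set e : ℝ := Real.exp (-c2 * (k : ℝ) ^ (2 / 3 : ℝ)) with he
  have hE0 : 0 < E := Real.exp_pos _
  have he0 : 0 < e := Real.exp_pos _
  calc n * (q * (4 * V ^ 2) + 1) ^ n * (Cf / (2 ^ k) ^ A) +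
        C1 * V ^ C1 * ((q + 1) ^ n * (C / (2 ^ k) ^ A + C / (2 ^ k) ^ A) +
          3 * Real.exp (-c * (k : ℝ) ^ (2 / 3 : ℝ)))
      ≤ n * ((q + 1) ^ n * (4 ^ n * E)) * (Cf / (2 ^ k) ^ A) +
        C1 * E * ((q + 1) ^ n * (C / (2 ^ k) ^ A + C / (2 ^ k) ^ A) + 3 * e) := by
        refine add_le_add ?_ ?_
        · have h1 : (q * (4 * V ^ 2) + 1) ^ n ≤ (q + 1) ^ n * (4 ^ n * E) :=
            hbig.trans (mul_le_mul_of_nonneg_left hV2 (by positivity))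
          gcongr
        · gcongr
    _ = (n * Cf * 4 ^ n * E) * ((q + 1) ^ n / (2 ^ k) ^ A) +
        C1 * E * (2 * C * ((q + 1) ^ n / (2 ^ k) ^ A) + 3 * e) := by
        ring
    _ ≤ (n * Cf * 4 ^ n * E) * e + C1 * E * (2 * C * e + 3 * e) := by
        gcongr
    _ = B * E * e := by
        rw [hB]
        ring
    _ ≤ Real.exp (-(c2 / 2) * (k : ℝ) ^ (2 / 3 : ℝ)) := by
        have h1 : B * E * e = Real.exp (Real.log B + m * (Real.log C + C * Real.log k) +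
            -c2 * (k : ℝ) ^ (2 / 3 : ℝ)) := by
          rw [Real.exp_add, Real.exp_add, Real.exp_log hB0]
        rw [h1]
        refine Real.exp_le_exp.2 ?_
        linarith

private theorem B2_ii {f : ℝ → ℝ} (hf : Measurable f) {B a b : ℝ} (hab : a ≤ b)
    (hB : ∀ τ, |f τ| ≤ B) : IntervalIntegrable f volume a b := by
  rw [intervalIntegrable_iff_integrableOn_Ioc_of_le hab]
  exact Integrable.of_bound hf.aestronglyMeasurable B (Eventually.of_forall hB)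

private theorem B2_swap {Ω : Type} [MeasurableSpace Ω] {μ : Measure Ω} [IsProbabilityMeasure μ]
    {g h : Ω → ℝ → ℝ} (hg : Measurable fun x : Ω × ℝ => g x.1 x.2)
    (hh : Measurable fun x : Ω × ℝ => h x.1 x.2) {a b Bg Bh : ℝ} (hab : a ≤ b)
    (hgB : ∀ z τ, |g z τ| ≤ Bg) (hhB : ∀ z τ, |h z τ| ≤ Bh) :
    ∫ z, (∫ τ in a..b, g z τ) * (∫ τ in a..b, h z τ) ∂μ =
      ∫ τ in a..b, ∫ τ' in a..b, ∫ z, g z τ * h z τ' ∂μ := by
  simp only [intervalIntegral.integral_of_le hab]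
  set l : Measure ℝ := volume.restrict (Ioc a b) with hl
  have hH : StronglyMeasurable fun z => ∫ τ', h z τ' ∂l :=
    hh.stronglyMeasurable.integral_prod_right'
  have hHB : ∀ z, |∫ τ', h z τ' ∂l| ≤ Bh * l.real univ := by
    intro z
    have h1 := norm_integral_le_of_norm_le_const (μ := l) (f := fun τ' => h z τ') (C := Bh)
      (Eventually.of_forall (hhB z))
    rwa [Real.norm_eq_abs] at h1
  have i1 : Integrable (Function.uncurry fun z τ => g z τ * ∫ τ', h z τ' ∂l) (μ.prod l) := by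
    refine Integrable.of_bound (hg.mul (hH.measurable.comp measurable_fst)).aestronglyMeasurable
      (Bg * (Bh * l.real univ)) (Eventually.of_forall fun x => ?_)
    have h1 := hgB x.1 x.2
    have h2 := hHB x.1
    simp only [Function.uncurry]
    rw [Real.norm_eq_abs, abs_mul]
    exact mul_le_mul h1 h2 (abs_nonneg _) ((abs_nonneg _).trans h1)
  have i2 : ∀ τ, Integrable (Function.uncurry fun z τ' => g z τ * h z τ') (μ.prod l) := by
    intro τ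
    have m1 : Measurable fun x : Ω × ℝ => g x.1 τ :=
      hg.comp (measurable_fst.prodMk measurable_const)
    refine Integrable.of_bound (m1.mul hh).aestronglyMeasurable
      (Bg * Bh) (Eventually.of_forall fun x => ?_)
    have h1 := hgB x.1 τ
    have h2 := hhB x.1 x.2
    simp only [Function.uncurry]
    rw [Real.norm_eq_abs, abs_mul]
    exact mul_le_mul h1 h2 (abs_nonneg _) ((abs_nonneg _).trans h1)
  calc ∫ z, (∫ τ, g z τ ∂l) * (∫ τ, h z τ ∂l) ∂μ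
      = ∫ z, ∫ τ, g z τ * (∫ τ', h z τ' ∂l) ∂l ∂μ := by
        refine integral_congr_ae (Eventually.of_forall fun z => ?_)
        try dsimp only
        rw [integral_mul_const]
    _ = ∫ τ, ∫ z, g z τ * (∫ τ', h z τ' ∂l) ∂μ ∂l := integral_integral_swap i1
    _ = ∫ τ, ∫ τ', ∫ z, g z τ * h z τ' ∂μ ∂l ∂l := by
        refine integral_congr_ae (Eventually.of_forall fun τ => ?_)
        try dsimp only
        rw [← integral_integral_swap (i2 τ)]
        refine integral_congr_ae (Eventually.of_forall fun z => ?_)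
        try dsimp only
        rw [integral_const_mul]

private theorem B2_pow {x y B δ : ℝ} (hB : 0 ≤ B) (hδ : δ ≤ 1) (hy : |y| ≤ B)
    (hxy : |x - y| ≤ δ) (n : ℕ) : |x ^ n - y ^ n| ≤ n * (B + 1) ^ n * δ ∧ |x ^ n| ≤ (B + 1) ^ n ∧
      |y ^ n| ≤ (B + 1) ^ n := by
  have hx : |x| ≤ B + 1 := by
    have h1 : |x| ≤ |x - y| + |y| := by
      have := abs_add_le (x - y) y
      rwa [sub_add_cancel] at this
    linarith
  have hy' : |y| ≤ B + 1 := by linarith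
  have hδ0 : 0 ≤ δ := (abs_nonneg _).trans hxy
  refine ⟨?_, ?_, ?_⟩
  · refine (abs_pow_sub_pow_le x y n).trans ?_
    have h1 : (max |x| |y|) ^ (n - 1) ≤ (B + 1) ^ n := by
      calc (max |x| |y|) ^ (n - 1) ≤ (B + 1) ^ (n - 1) := by
            gcongr
            exact max_le hx hy'
        _ ≤ (B + 1) ^ n := pow_le_pow_right₀ (by linarith) (Nat.sub_le _ _)
    calc |x - y| * n * (max |x| |y|) ^ (n - 1) ≤ δ * n * (B + 1) ^ n := by
          gcongr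
      _ = n * (B + 1) ^ n * δ := by ring
  · rw [abs_pow]
    gcongr
  · rw [abs_pow]
    gcongr

private theorem B2_glob {Ω : Type} [MeasurableSpace Ω] {μ : Measure Ω} [IsProbabilityMeasure μ]
    {F G : Ω → ℝ → ℝ} (hF : Measurable fun x : Ω × ℝ => F x.1 x.2)
    (hG : Measurable fun x : Ω × ℝ => G x.1 x.2) {a b B δ : ℝ} (hab : a < b) (hB : 0 ≤ B)
    (hδ : δ ≤ 1) (hFG : ∀ z τ, |F z τ - G z τ| ≤ δ) (hGB : ∀ z τ, |G z τ| ≤ B) (r r' : ℕ) :
    |∫ z, (1 / (b - a) * ∫ τ in a..b, F z τ ^ r) * (1 / (b - a) * ∫ τ in a..b, F z τ ^ r') ∂μ -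
      1 / (b - a) * ∫ τ in a..b, 1 / (b - a) * ∫ τ' in a..b,
        ∫ z, G z τ ^ r * G z τ' ^ r' ∂μ| ≤ (((r + r' : ℕ) : ℝ)) * (B + 1) ^ (r + r') * δ := by
  have hl : 0 < b - a := by linarith
  -- measurability
  have mF : ∀ n : ℕ, Measurable fun x : Ω × ℝ => F x.1 x.2 ^ n := fun n => hF.pow_const n
  have mG : ∀ n : ℕ, Measurable fun x : Ω × ℝ => G x.1 x.2 ^ n := fun n => hG.pow_const n
  have bF : ∀ (n : ℕ) (z : Ω) (τ : ℝ), |F z τ ^ n| ≤ (B + 1) ^ n := fun n z τ =>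
    (B2_pow hB hδ (hGB z τ) (hFG z τ) n).2.1
  have bG : ∀ (n : ℕ) (z : Ω) (τ : ℝ), |G z τ ^ n| ≤ (B + 1) ^ n := fun n z τ =>
    (B2_pow hB hδ (hGB z τ) (hFG z τ) n).2.2
  have bFG : ∀ (n : ℕ) (z : Ω) (τ : ℝ), |F z τ ^ n - G z τ ^ n| ≤ n * (B + 1) ^ n * δ :=
    fun n z τ => (B2_pow hB hδ (hGB z τ) (hFG z τ) n).1
  have iF : ∀ (n : ℕ) (z : Ω), IntervalIntegrable (fun τ => F z τ ^ n) volume a b := fun n z =>
    B2_ii ((mF n).comp measurable_prodMk_left) hab.le (bF n z)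
  have iG : ∀ (n : ℕ) (z : Ω), IntervalIntegrable (fun τ => G z τ ^ n) volume a b := fun n z =>
    B2_ii ((mG n).comp measurable_prodMk_left) hab.le (bG n z)
  have SF : ∀ n : ℕ, Measurable fun z => 1 / (b - a) * ∫ τ in a..b, F z τ ^ n := by
    intro n
    simp only [intervalIntegral.integral_of_le hab.le]
    exact ((mF n).stronglyMeasurable.integral_prod_right' (ν := volume.restrict
      (Ioc a b))).measurable.const_mul _
  have SG : ∀ n : ℕ, Measurable fun z => 1 / (b - a) * ∫ τ in a..b, G z τ ^ n := by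
    intro n
    simp only [intervalIntegral.integral_of_le hab.le]
    exact ((mG n).stronglyMeasurable.integral_prod_right' (ν := volume.restrict
      (Ioc a b))).measurable.const_mul _
  have av : ∀ (f : ℝ → ℝ) (C : ℝ), (∀ τ, |f τ| ≤ C) →
      |1 / (b - a) * ∫ τ in a..b, f τ| ≤ C := by
    intro f C hf
    have h1 : ‖∫ τ in a..b, f τ‖ ≤ C * |b - a| :=
      intervalIntegral.norm_integral_le_of_norm_le_const fun τ _ => hf τ
    rw [abs_of_pos hl] at h1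
    rw [abs_mul, abs_of_pos (by positivity : 0 < 1 / (b - a)), one_div, ← div_eq_inv_mul,
      div_le_iff₀ hl]
    exact h1
  have AF : ∀ (n : ℕ) (z : Ω), |1 / (b - a) * ∫ τ in a..b, F z τ ^ n| ≤ (B + 1) ^ n :=
    fun n z => av _ _ (bF n z)
  have AG : ∀ (n : ℕ) (z : Ω), |1 / (b - a) * ∫ τ in a..b, G z τ ^ n| ≤ (B + 1) ^ n :=
    fun n z => av _ _ (bG n z)
  have AFG : ∀ (n : ℕ) (z : Ω), |1 / (b - a) * (∫ τ in a..b, F z τ ^ n) -
      1 / (b - a) * ∫ τ in a..b, G z τ ^ n| ≤ n * (B + 1) ^ n * δ := by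
    intro n z
    rw [← mul_sub, ← intervalIntegral.integral_sub (iF n z) (iG n z)]
    exact av _ _ (bFG n z)
  -- the swap
  have e1 : 1 / (b - a) * ∫ τ in a..b, 1 / (b - a) * ∫ τ' in a..b,
        ∫ z, G z τ ^ r * G z τ' ^ r' ∂μ =
      ∫ z, (1 / (b - a) * ∫ τ in a..b, G z τ ^ r) *
        (1 / (b - a) * ∫ τ in a..b, G z τ ^ r') ∂μ := by
    rw [intervalIntegral.integral_const_mul, ← B2_swap (mG r) (mG r') hab.le (bG r) (bG r'),
      ← integral_const_mul, ← integral_const_mul]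
    refine integral_congr_ae (Eventually.of_forall fun z => ?_)
    try dsimp only
    ring
  have J : ∀ {f g : Ω → ℝ} (n n' : ℕ), Measurable f → Measurable g →
      (∀ z, |f z| ≤ (B + 1) ^ n) → (∀ z, |g z| ≤ (B + 1) ^ n') →
      Integrable (fun z => f z * g z) μ := by
    intro f g n n' hf hg h1 h2
    refine Integrable.of_bound (hf.mul hg).aestronglyMeasurable ((B + 1) ^ n * (B + 1) ^ n')
      (Eventually.of_forall fun z => ?_)
    rw [Real.norm_eq_abs, abs_mul]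
    exact mul_le_mul (h1 z) (h2 z) (abs_nonneg _) (by positivity)
  rw [e1, ← integral_sub (J r r' (SF r) (SF r') (AF r) (AF r'))
    (J r r' (SG r) (SG r') (AG r) (AG r'))]
  have h2 : ∀ z, ‖(1 / (b - a) * ∫ τ in a..b, F z τ ^ r) *
        (1 / (b - a) * ∫ τ in a..b, F z τ ^ r') -
      (1 / (b - a) * ∫ τ in a..b, G z τ ^ r) * (1 / (b - a) * ∫ τ in a..b, G z τ ^ r')‖ ≤
      (((r + r' : ℕ) : ℝ)) * (B + 1) ^ (r + r') * δ := by
    intro z
    have q1 := AFG r z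
    have q2 := AFG r' z
    have q3 := AF r' z
    have q4 := AG r z
    rw [Real.norm_eq_abs]
    generalize (1 / (b - a) * ∫ τ in a..b, F z τ ^ r) = x at *
    generalize (1 / (b - a) * ∫ τ in a..b, F z τ ^ r') = x' at *
    generalize (1 / (b - a) * ∫ τ in a..b, G z τ ^ r) = y at *
    generalize (1 / (b - a) * ∫ τ in a..b, G z τ ^ r') = y' at *
    have hδ0 : 0 ≤ δ := (abs_nonneg _).trans (hFG z 0)
    calc |x * x' - y * y'| = |(x - y) * x' + y * (x' - y')| := by ring_nf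
      _ ≤ |(x - y) * x'| + |y * (x' - y')| := abs_add_le _ _
      _ ≤ (r * (B + 1) ^ r * δ) * (B + 1) ^ r' + (B + 1) ^ r * (r' * (B + 1) ^ r' * δ) := by
          rw [abs_mul, abs_mul]
          gcongr
      _ = (((r + r' : ℕ) : ℝ)) * (B + 1) ^ (r + r') * δ := by
          push_cast
          ring
  have h3 := norm_integral_le_of_norm_le_const (μ := μ) (Eventually.of_forall h2)
  rw [probReal_univ, mul_one] at h3
  exact h3

private theorem B2_abs {Ω : Type} [MeasurableSpace Ω] {μ : Measure Ω} [IsProbabilityMeasure μ]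
    {F G : Ω → ℝ → ℝ} (hF : Measurable fun x : Ω × ℝ => F x.1 x.2)
    (hG : Measurable fun x : Ω × ℝ => G x.1 x.2) {u v T B δ : ℝ} (huv : u < v) (hT : 0 < T)
    (hB : 0 ≤ B) (hδ0 : 0 ≤ δ) (hδ : δ ≤ 1)
    (hFG : ∀ z τ, u * T ≤ τ → τ ≤ v * T → |F z τ - G z τ| ≤ δ)
    (hGB : ∀ z τ, u * T ≤ τ → τ ≤ v * T → |G z τ| ≤ B) (r r' : ℕ) :
    |∫ z, (1 / ((v - u) * T) * ∫ τ in (u * T)..(v * T), F z τ ^ r) *
        (1 / ((v - u) * T) * ∫ τ in (u * T)..(v * T), F z τ ^ r') ∂μ -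
      1 / ((v - u) * T) * ∫ τ in (u * T)..(v * T), 1 / ((v - u) * T) *
        ∫ τ' in (u * T)..(v * T), ∫ z, G z τ ^ r * G z τ' ^ r' ∂μ| ≤
      (((r + r' : ℕ) : ℝ)) * (B + 1) ^ (r + r') * δ := by
  have hab : u * T < v * T := mul_lt_mul_of_pos_right huv hT
  classical
  have hS : MeasurableSet (Icc (u * T) (v * T)) := measurableSet_Icc
  let F' : Ω → ℝ → ℝ := fun z τ => if τ ∈ Icc (u * T) (v * T) then F z τ else 0
  let G' : Ω → ℝ → ℝ := fun z τ => if τ ∈ Icc (u * T) (v * T) then G z τ else 0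
  have hSS : MeasurableSet {x : Ω × ℝ | x.2 ∈ Icc (u * T) (v * T)} := measurable_snd hS
  have h := B2_glob (μ := μ) (F := F') (G := G') (hF.ite hSS measurable_const)
    (hG.ite hSS measurable_const) hab hB hδ (fun z τ => by
      by_cases ht : τ ∈ Icc (u * T) (v * T)
      · simp only [F', G', if_pos ht]
        exact hFG z τ ht.1 ht.2
      · simp only [F', G', if_neg ht]
        simpa using hδ0) (fun z τ => by
      by_cases ht : τ ∈ Icc (u * T) (v * T)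
      · simp only [G', if_pos ht]
        exact hGB z τ ht.1 ht.2
      · simp only [G', if_neg ht]
        simpa using hB) r r'
  have cF : ∀ (n : ℕ) (z : Ω), ∫ τ in (u * T)..(v * T), F' z τ ^ n =
      ∫ τ in (u * T)..(v * T), F z τ ^ n := by
    intro n z
    refine intervalIntegral.integral_congr fun τ ht => ?_
    rw [uIcc_of_le hab.le] at ht
    simp only [F', if_pos ht]
  have cG : (∫ τ in (u * T)..(v * T), 1 / (v * T - u * T) *
        ∫ τ' in (u * T)..(v * T), ∫ z, G' z τ ^ r * G' z τ' ^ r' ∂μ) =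
      ∫ τ in (u * T)..(v * T), 1 / (v * T - u * T) *
        ∫ τ' in (u * T)..(v * T), ∫ z, G z τ ^ r * G z τ' ^ r' ∂μ := by
    refine intervalIntegral.integral_congr fun τ ht => ?_
    rw [uIcc_of_le hab.le] at ht
    try dsimp only
    congr 1
    refine intervalIntegral.integral_congr fun τ' ht' => ?_
    rw [uIcc_of_le hab.le] at ht'
    simp only [G', if_pos ht, if_pos ht']
  simp only [cF, cG] at h
  rw [← sub_mul] at h
  exact h

private theorem B2_mix (n : ℕ) (ξ : Dir → I) :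
    Measurable fun x : (Dir → I) × ℝ => mix n ξ x.1 := by
  have h1 : Measurable fun x : (Dir → I) × ℝ => ((ξ, x.1) : (Dir → I) × (Dir → I)) :=
    measurable_const.prodMk measurable_fst
  exact (meas_mix n).comp h1

private theorem B2_tri {z w : ℂ} {x τ s : ℝ}
    (h : ‖z - w * Complex.exp (-(Complex.I * τ * (s : ℂ)))‖ ≤ x) : ‖z‖ ≤ ‖w‖ + x := by
  have h1 : ‖w * Complex.exp (-(Complex.I * τ * (s : ℂ)))‖ = ‖w‖ := by
    rw [norm_mul, show -(Complex.I * τ * (s : ℂ)) = ((-(τ * s) : ℝ) : ℂ) * Complex.I by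
      push_cast; ring, Complex.norm_exp_ofReal_mul_I, mul_one]
  calc ‖z‖ = ‖w * Complex.exp (-(Complex.I * τ * (s : ℂ))) +
        (z - w * Complex.exp (-(Complex.I * τ * (s : ℂ))))‖ := by
        rw [add_sub_cancel]
    _ ≤ ‖w‖ + x := by
        refine (norm_add_le _ _).trans ?_
        rw [h1]
        linarith

private theorem B2_size {z m m0 : ℂ} {V w ε ε' : ℝ} (hV : 1 ≤ V) (hw0 : 0 ≤ w) (hw : w ≤ V)
    (hε : ε ≤ 1) (hε' : ε' ≤ 1) (h1 : ‖z‖ ≤ ‖m‖ + (ε * w + ε'))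
    (h2 : ‖m - m0‖ ≤ ε * w) (h3 : ‖m0‖ ≤ V * w) : ‖z‖ ≤ 4 * V ^ 2 := by
  have h4 : ‖m‖ ≤ ‖m0‖ + ‖m - m0‖ := by
    have := norm_add_le m0 (m - m0)
    rwa [add_sub_cancel] at this
  have h5 : ε * w ≤ V := by nlinarith
  have h6 : V * w ≤ V ^ 2 := by nlinarith
  nlinarith

private theorem B2_fin {x y B E : ℝ} {z : ℂ} (h1 : |x - y| ≤ B)
    (h2 : ‖((y : ℝ) : ℂ) - z‖ ≤ E) : ‖((x : ℝ) : ℂ) - z‖ ≤ B + E := by
  have h3 : ((x : ℝ) : ℂ) - z = ((x - y : ℝ) : ℂ) + (((y : ℝ) : ℂ) - z) := by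
    push_cast
    ring
  rw [h3]
  refine (norm_add_le _ _).trans (add_le_add ?_ h2)
  rw [Complex.norm_real]
  exact h1

private theorem B2_meas (hP : OkD Γ D P) (N : ℕ) {b : ℝ → ℂ} {ρ M : ℝ} (hb : Amp b ρ M)
    (n : ℕ) (ξ : Dir → I) (hcv : ∀ (η : Dir → I) (z : Pl), curv (P.X Γ D (mix n ξ η)) z < 0) :
    Measurable fun x : (Dir → I) × ℝ => Sg (Γ := Γ) D (P.X Γ D (mix n ξ x.1)) N b x.2 := by
  have h1 := meas_Sg hP N hb
  have h2 : Measurable fun x : (Dir → I) × ℝ =>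
      ((⟨mix n ξ x.1, hcv x.1⟩, x.2) :
        {ξ : Dir → I // ∀ z, curv (P.X Γ D ξ) z < 0} × ℝ) :=
    Measurable.prodMk (Measurable.subtype_mk (B2_mix n ξ)) measurable_snd
  generalize hF : (fun m t => Sg (Γ := Γ) D m N b t : (Pl → Co) → ℝ → ℝ) = F
  have e1 : (fun x : (Dir → I) × ℝ => Sg (Γ := Γ) D (P.X Γ D (mix n ξ x.1)) N b x.2) =
      fun x : (Dir → I) × ℝ => F (P.X Γ D (mix n ξ x.1)) x.2 := by
    rw [← hF]
  have e2 : (fun q : {ξ : Dir → I // ∀ z, curv (P.X Γ D ξ) z < 0} × ℝ =>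
      Sg (Γ := Γ) D (P.X Γ D q.1.1) N b q.2) = fun q => F (P.X Γ D q.1.1) q.2 := by
    rw [← hF]
  rw [e2] at h1
  rw [e1]
  have h3 := h1.comp h2
  exact h3

private theorem B2_core {P0 Ω : Type} [MeasurableSpace Ω] {μ : Measure Ω} {u v T : ℝ} {r r' : ℕ}
    {Q : Finset (Ag P0)} {w : Ag P0 → ℝ} {V ε ε' εD θ : ℝ} {Z : ℝ → Ω → Ag P0 → ℂ}
    {Mw : Ω → Ag P0 → ℂ} {l : Ω → P0 → ℝ} {m0 : Ag P0 → ℂ}
    {Bd : (Fin r ⊕ Fin r' → Bool) → Finset (Fin r ⊕ Fin r' → Ag P0)}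
    (h : HB μ u v T r r' Q w V ε ε' εD θ Z Mw l m0 Bd) {F : Ω → ℝ → ℝ}
    (mF : Measurable fun x : Ω × ℝ => F x.1 x.2) {δ E : ℝ} (hδ : δ ≤ 1)
    (hFG : ∀ z τ, u * T ≤ τ → τ ≤ v * T → |F z τ - ∑ q ∈ Q, (Z τ z q).re| ≤ δ)
    (hcm : ‖(((1 / ((v - u) * T)) * ∫ τ in (u * T)..(v * T), (1 / ((v - u) * T)) *
      ∫ τ' in (u * T)..(v * T), ∫ z, (∑ q ∈ Q, (Z τ z q).re) ^ r *
        (∑ q ∈ Q, (Z τ' z q).re) ^ r' ∂μ : ℝ) : ℂ) - DD Q m0 r * DD Q m0 r'‖ ≤ E) :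
    ‖((∫ z, (1 / ((v - u) * T) * ∫ τ in (u * T)..(v * T), F z τ ^ r) *
        (1 / ((v - u) * T) * ∫ τ in (u * T)..(v * T), F z τ ^ r') ∂μ : ℝ) : ℂ) -
      DD Q m0 r * DD Q m0 r'‖ ≤
      ((r + r' : ℕ) : ℝ) * ((Q.card : ℝ) * (4 * V ^ 2) + 1) ^ (r + r') * δ + E := by
  have hμ : IsProbabilityMeasure μ := h.prob
  have hT : 0 < T := by
    have := h.T_pos
    linarith
  have hV1 : 1 ≤ V := h.wt.one
  have mG : Measurable fun x : Ω × ℝ => ∑ q ∈ Q, (Z x.2 x.1 q).re := by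
    refine Finset.measurable_sum _ fun q _ => ?_
    exact Complex.measurable_re.comp ((h.meas q).comp measurable_swap)
  have bG : ∀ (z : Ω) (τ : ℝ), u * T ≤ τ → τ ≤ v * T →
      |∑ q ∈ Q, (Z τ z q).re| ≤ (Q.card : ℝ) * (4 * V ^ 2) := by
    intro z τ h1 h2
    refine (Finset.abs_sum_le_sum_abs _ _).trans ?_
    rw [← nsmul_eq_mul]
    refine Finset.sum_le_card_nsmul _ _ _ fun q hq => ?_
    refine (Complex.abs_re_le_norm _).trans ?_
    have e1 := h.app τ h1 h2 z q hq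
    exact B2_size hV1 (h.wt.nonneg q) (h.wt.le q) h.ε0.2 h.ε1.2 (B2_tri e1) (h.par z q hq)
      (h.m0 q hq)
  have huT : u * T ≤ v * T := (mul_lt_mul_of_pos_right h.uv hT).le
  have hne : Nonempty Ω := nonempty_of_isProbabilityMeasure μ
  have hδ0 : 0 ≤ δ := by
    obtain ⟨z⟩ := hne
    exact (abs_nonneg _).trans (hFG z (u * T) le_rfl huT)
  exact B2_fin (B2_abs (μ := μ) mF mG h.uv hT (by positivity) hδ0 hδ hFG bG r r') hcm

/-- Row B2: the block theorem. -/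
theorem block (hP : OkD Γ D P) (hν : Den ν ρ) (hκ : 0 < κ) {a : ℝ → ℂ} (ha : FG33.IsAmp a)
    {R : ℝ} (hR : 1 ≤ R) (hR' : ∀ s, R < |s| → a s = 0) {u v : ℝ} (hu : 0 < u) (huv : u < v)
    {K : ℝ} (hK : 1 ≤ K) {K' : ℝ} (hK' : 4 * R * K ≤ K') (N r r' : ℕ) :
    ∃ (c : ℝ) (k0 : ℕ), 0 < c ∧ ∀ k ≥ k0, ∀ ξ ∈ P.B Γ D κ k, ∀ L : ℝ, 1 ≤ L → L ≤ K * k →
      ‖((∫ η, P.M Γ D N a r u v k L (mix (bk k) ξ η) * P.M Γ D N a r' u v k L (mix (bk k) ξ η)
          ∂Pm ν : ℝ) : ℂ) -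
        DD (Cs (Γ := Γ) (P.X0 Γ D k ξ) (K' * k)) (mt (P.X0 Γ D k ξ) (GWin.sc a L)) r *
          DD (Cs (Γ := Γ) (P.X0 Γ D k ξ) (K' * k)) (mt (P.X0 Γ D k ξ) (GWin.sc a L)) r'‖ ≤
        Real.exp (-c * (k : ℝ) ^ (2 / 3 : ℝ)) := by
  obtain ⟨Cw, kw, hCw, hw⟩ := wts (Γ := Γ) hP hκ
  have hl2 : 0 < Real.log 2 := Real.log_pos (by norm_num)
  have hK'1 : 1 ≤ K' := by nlinarith
  have hK'0 : 0 < K' := by linarith
  obtain ⟨A, hA⟩ := exists_nat_ge (((r + r' : ℕ) * (Cw * K' + 1) + 2) / Real.log 2 + 1)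
  have hA1 : ((r + r' : ℕ) : ℝ) * (Cw * K' + 1) + 2 ≤ A * Real.log 2 := by
    have h1 : (((r + r' : ℕ) : ℝ) * (Cw * K' + 1) + 2) / Real.log 2 ≤ A := by linarith
    rwa [div_le_iff₀ hl2] at h1
  have hA2 : 1 ≤ A := by
    have h1 : 0 ≤ (((r + r' : ℕ) : ℝ) * (Cw * K' + 1) + 2) / Real.log 2 := by positivity
    have h2 : (1 : ℝ) ≤ A := by linarith
    exact_mod_cast h2
  obtain ⟨c, C, kh, hc, hC, hhb⟩ := hb_block hP hν hκ ha hR hR' hu huv hK hK' N A r r' hA2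
  obtain ⟨C1, hC1, hcomb⟩ := comb r r' hu huv
  obtain ⟨Cf, kf, hf⟩ := fact1 hP hκ ha hR hR' hu huv hK hK' N A
  obtain ⟨kn, hneg⟩ := block_neg hP hκ
  obtain ⟨M, hM, hamp⟩ := amp_sc ha (by linarith : (0 : ℝ) ≤ R) hR' 4
  obtain ⟨k1, hk1⟩ := B2_num (r + r') hCw hK'1 hC (abs_nonneg Cf) hC1 hc hA1
  obtain ⟨k2, hk2⟩ := exists_nat_ge |Cf|
  refine ⟨min c 1 / 2, max (max (max kw kh) (max kf kn)) (max k1 (max k2 1)), by
    have := lt_min hc one_pos
    linarith, ?_⟩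
  intro k hk ξ hξ L hL hLk
  simp only [ge_iff_le, max_le_iff] at hk
  obtain ⟨⟨⟨hkw, hkh⟩, hkf, hkn⟩, hkk1, hkk2, hkk3⟩ := hk
  have hkR : (1 : ℝ) ≤ k := by exact_mod_cast hkk3
  have hk0 : (0 : ℝ) < k := by linarith
  obtain ⟨Bd, hHB, hBd⟩ := hhb k hkh ξ hξ L hL hLk
  have hcm := hcomb _ _ _ _ _ _ _ _ _ _ _ _ _ _ _ _ _ hHB
  -- the number of geodesics and the bounds
  have hcard : ((Cs (Γ := Γ) (P.X0 Γ D k ξ) (K' * k)).card : ℝ) ≤
      Real.exp (Cw * (K' * k)) := by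
    refine ((hw k hkw ξ hξ).2.2 (K' * k) ?_).2.1
    nlinarith
  have hδ : |Cf| / (2 ^ k : ℝ) ^ A ≤ 1 := by
    rw [div_le_one (by positivity)]
    have h1 : (k : ℝ) ≤ 2 ^ k := by
      have := Nat.lt_two_pow_self (n := k)
      exact_mod_cast this.le
    have h2 : (2 ^ k : ℝ) ≤ (2 ^ k : ℝ) ^ A := le_self_pow₀ (one_le_pow₀ one_le_two) (by omega)
    have h3 : (k2 : ℝ) ≤ k := by exact_mod_cast hkk2
    linarith
  -- the geometric side
  have hcv : ∀ (η : Dir → I) (z : Pl), curv (P.X Γ D (mix (bk k) ξ η)) z < 0 := by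
    intro η z
    have h1 := hneg k hkn ξ hξ η z
    have h2 : 0 < (κ / 2) ^ 2 := by positivity
    linarith
  have hF : ∃ F : (Dir → I) → ℝ → ℝ, ∀ η τ,
      Sg (Γ := Γ) D (P.X Γ D (mix (bk k) ξ η)) N (GWin.sc a L) τ = F η τ := ⟨_, fun _ _ => rfl⟩
  obtain ⟨F, hF⟩ := hF
  have mF : Measurable fun x : (Dir → I) × ℝ => F x.1 x.2 := by
    have h1 := B2_meas hP N (hamp L hL).1.amp (bk k) ξ hcv
    simpa only [hF] using h1
  have bFG := fun (η : Dir → I) (τ : ℝ) (h1 : u * 2 ^ k ≤ τ) (h2 : τ ≤ v * 2 ^ k) =>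
    hf k hkf ξ hξ η L hL hLk τ h1 h2
  simp only [hF] at bFG
  have hM : ∀ (n : ℕ) (η : Dir → I), P.M Γ D N a n u v k L (mix (bk k) ξ η) =
      1 / ((v - u) * 2 ^ k) * ∫ τ in (u * 2 ^ k)..(v * 2 ^ k), F η τ ^ n := by
    intro n η
    rw [Dt.M, if_pos (hcv η)]
    simp only [hF]
  simp only [hM]
  have hfin := B2_core hHB mF (δ := |Cf| / (2 ^ k : ℝ) ^ A) hδ (fun η τ h1 h2 =>
    (bFG η τ h1 h2).trans (by gcongr; exact le_abs_self _)) hcm
  refine hfin.trans ((le_trans ?_ (hk1 k hkk1 _ (Nat.cast_nonneg _) hcard)))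
  refine add_le_add le_rfl (mul_le_mul_of_nonneg_left ?_ ?_)
  · linarith only [hBd]
  · positivity

end B35
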