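import Pool.Agent.LibB35.GA

/-! Rows R1, R2, R7 (algebra). Independent statements; only finite sums and products. SHORT/MEDIUM.
R1 `expand`: `(z q).re = ∑ e : Bool, (1/2) * cj e (z q)` in `ℂ` (`Complex.re_eq_add_conj`), so
`((∑ q ∈ Q, (z q).re : ℝ) : ℂ) = ∑ x ∈ Q ×ˢ univ, (1/2) * cj x.2 (z x.1)`; powers as products over `Fin r`,
`Fin r'` (`Finset.prod_const`, `Fintype.prod_sum_type`), then `Finset.prod_univ_sum`.
R2 `deg_pair`: if `i` is the only index with its primitive class, `Deg` at `p = (F i).1.1` gives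
`sgn * (n + 1) = 0`. R2b: `Tu` of a sum type, `deg_iff`. R7 `DD_mul`: `Fintype.sum` over
`Fin r ⊕ Fin r' → α ≃ (Fin r → α) × (Fin r' → α)` (`Equiv.sumArrowEquivProdArrow`), the product splits
(`Fintype.prod_sum_type`), `Finset.sum_mul_sum` / `Finset.sum_product`. -/

open MeasureTheory Set Filter Topology

namespace B35

variable {P0 : Type}

private theorem gr1_mem_Tu {I : Type} [Fintype I] {Q : Finset (Ag P0)} {F : I → Ag P0 × Bool} :
    F ∈ Tu I Q ↔ ∀ i, (F i).1 ∈ Q := by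
  unfold Tu
  simp only [Fintype.mem_piFinset, Finset.mem_product, Finset.mem_univ, and_true]

private theorem gr1_factor (Q : Finset (Ag P0)) (z : Ag P0 → ℂ) :
    ∑ x ∈ Q ×ˢ (Finset.univ : Finset Bool), (1 / 2 : ℂ) * cj x.2 (z x.1) =
      ((∑ q ∈ Q, (z q).re : ℝ) : ℂ) := by
  rw [Finset.sum_product, Complex.ofReal_sum]
  refine Finset.sum_congr rfl fun q _ => ?_
  rw [Fintype.sum_bool, Complex.re_eq_add_conj]
  simp only [cj, if_true, Bool.false_eq_true, if_false]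
  ring

/-- Row R1. -/
theorem expand (Q : Finset (Ag P0)) (z z' : Ag P0 → ℂ) (r r' : ℕ) :
    ((((∑ q ∈ Q, (z q).re) ^ r * (∑ q ∈ Q, (z' q).re) ^ r' : ℝ)) : ℂ) =
      ∑ F ∈ Tu (Fin r ⊕ Fin r') Q, tm (Sum.elim (fun _ => z) (fun _ => z')) F := by
  classical
  have h := Finset.prod_univ_sum (ι := Fin r ⊕ Fin r')
    (t := fun _ : Fin r ⊕ Fin r' => Q ×ˢ (Finset.univ : Finset Bool))
    (f := fun i x => (1 / 2 : ℂ) *
      cj x.2 (Sum.elim (fun _ : Fin r => z) (fun _ : Fin r' => z') i x.1))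
  have h2 : ∏ i : Fin r ⊕ Fin r', ∑ x ∈ Q ×ˢ (Finset.univ : Finset Bool), (1 / 2 : ℂ) *
      cj x.2 (Sum.elim (fun _ : Fin r => z) (fun _ : Fin r' => z') i x.1) =
      ((((∑ q ∈ Q, (z q).re) ^ r * (∑ q ∈ Q, (z' q).re) ^ r' : ℝ)) : ℂ) := by
    rw [Fintype.prod_sum_type]
    simp only [Sum.elim_inl, Sum.elim_inr, gr1_factor, Finset.prod_const, Finset.card_univ,
      Fintype.card_fin]
    push_cast
    rfl
  rw [← h2, h]
  refine Finset.sum_congr (Finset.ext fun F => ?_) fun _ _ => rfl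
  rw [gr1_mem_Tu]
  simp only [Fintype.mem_piFinset, Finset.mem_product, Finset.mem_univ, and_true]

/-- Row R2. -/
theorem deg_pair {I : Type} [Fintype I] {F : I → Ag P0 × Bool} (h : Deg F) : Pair F := by
  classical
  intro i
  by_contra hne
  push Not at hne
  have h1 := h (F i).1.1
  have h2 : (Finset.univ.filter fun j => (F j).1.1 = (F i).1.1) = {i} := by
    ext j
    simp only [Finset.mem_filter, Finset.mem_univ, true_and, Finset.mem_singleton]
    constructor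
    · intro hj
      by_contra hji
      exact hne j hji hj
    · rintro rfl
      rfl
  have h3 : ∑ j with (F j).1.1 = (F i).1.1, sgn (F j).2 * (((F j).1.2.1 : ℝ) + 1) =
      sgn (F i).2 * (((F i).1.2.1 : ℝ) + 1) := by
    rw [h2, Finset.sum_singleton]
  have h4 : sgn (F i).2 * (((F i).1.2.1 : ℝ) + 1) = 0 := by
    rw [← h3]
    convert h1
  rcases mul_eq_zero.1 h4 with h5 | h5
  · unfold sgn at h5
    split_ifs at h5 <;> norm_num at h5
  · have : (0 : ℝ) ≤ ((F i).1.2.1 : ℝ) := Nat.cast_nonneg _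
    linarith

theorem pair_sum_type {r r' : ℕ} {F : Fin r ⊕ Fin r' → Ag P0 × Bool}
    (h : Deg (F ∘ Sum.inl)) (h' : Deg (F ∘ Sum.inr)) : Pair F := by
  rintro (a | a)
  · obtain ⟨b, hb, hb'⟩ := deg_pair h a
    exact ⟨Sum.inl b, fun hh => hb (Sum.inl_injective hh), hb'⟩
  · obtain ⟨b, hb, hb'⟩ := deg_pair h' a
    exact ⟨Sum.inr b, fun hh => hb (Sum.inr_injective hh), hb'⟩

open Classical in
/-- Row R7. -/
theorem DD_mul (Q : Finset (Ag P0)) (M : Ag P0 → ℂ) (r r' : ℕ) :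
    ∑ F ∈ Tu (Fin r ⊕ Fin r') Q with Deg (F ∘ Sum.inl) ∧ Deg (F ∘ Sum.inr),
      tm (fun _ => M) F = DD Q M r * DD Q M r' := by
  unfold DD
  rw [Finset.sum_mul_sum, ← Finset.sum_product']
  refine Finset.sum_nbij' (fun F => (F ∘ Sum.inl, F ∘ Sum.inr)) (fun p => Sum.elim p.1 p.2)
    ?_ ?_ ?_ ?_ ?_
  · intro F hF
    rw [Finset.mem_filter] at hF
    obtain ⟨h1, h2, h3⟩ := hF
    rw [gr1_mem_Tu] at h1
    rw [Finset.mem_product, Finset.mem_filter, Finset.mem_filter]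
    refine ⟨⟨?_, h2⟩, ?_, h3⟩
    · rw [gr1_mem_Tu]
      exact fun a => h1 (Sum.inl a)
    · rw [gr1_mem_Tu]
      exact fun a => h1 (Sum.inr a)
  · rintro ⟨A, B⟩ hp
    rw [Finset.mem_product, Finset.mem_filter, Finset.mem_filter] at hp
    obtain ⟨⟨h1, h2⟩, h3, h4⟩ := hp
    rw [Finset.mem_filter]
    refine ⟨?_, ?_, ?_⟩
    · rw [gr1_mem_Tu] at h1 h3 ⊢
      rintro (a | a)
      · exact h1 a
      · exact h3 a
    · exact h2
    · exact h4
  · intro F _
    funext i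
    rcases i with a | a <;> rfl
  · rintro ⟨A, B⟩ _
    rfl
  · intro F _
    unfold tm
    rw [Fintype.prod_sum_type]
    rfl

end B35
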