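import Pool.Agent.LibB35.GQ2d
import Pool.Agent.LibB35.GR1
import Pool.Agent.LibB35.GR3

/-! Row B3: SHORT, 30 min. -/

open MeasureTheory Set Filter Topology
open scoped ContDiff unitInterval

namespace B35

open BGS BR BE
open Pool.BGR (upI)

variable {Γ : Type} [Group Γ] [MulAction Γ Pl] {D : Set Pl} {P : Dt} {κ : ℝ} {ν : Measure I}
  {ρ : ℝ → ℝ}

theorem GB3_Cs_mem {μ : Pl → Co} {t : ℝ} {q : Cg Γ} (h : q ∈ Cs (Γ := Γ) μ t) : ln μ q ≤ t := by
  unfold Cs at h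
  split_ifs at h with hf
  · rw [Finite.mem_toFinset] at h
    exact h
  · simp at h

theorem GB3_Cs_sub {μ : Pl → Co} {t t' : ℝ} (htt : t ≤ t') (hf : {q : Cg Γ | ln μ q ≤ t'}.Finite) :
    Cs (Γ := Γ) μ t ⊆ Cs μ t' := by
  intro q hq
  have h1 := GB3_Cs_mem hq
  unfold Cs
  rw [dif_pos hf, Finite.mem_toFinset]
  exact h1.trans htt

theorem GB3_norm {P0 : Type} {Q : Finset (Ag P0)} {w : Ag P0 → ℝ} {M : Ag P0 → ℂ} {C : ℝ}
    (hM : ∀ q ∈ Q, ‖M q‖ ≤ C * w q) {r : ℕ}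
    {F : Fin r → Ag P0 × Bool} (hF : F ∈ Tu (Fin r) Q) :
    ‖tm (fun _ => M) F‖ ≤ C ^ r * wF w F := by
  unfold Tu at hF
  replace hF := (@Fintype.mem_piFinset _ (_) _ _ _ _).1 hF
  unfold tm wF
  rw [norm_prod]
  calc ∏ i, ‖(1 / 2 : ℂ) * cj (F i).2 (M (F i).1)‖ ≤ ∏ i, (C * w (F i).1) := by
        refine Finset.prod_le_prod (fun i _ => norm_nonneg _) fun i _ => ?_
        have h1 : ‖cj (F i).2 (M (F i).1)‖ = ‖M (F i).1‖ := by
          unfold cj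
          split_ifs
          · rfl
          · exact RCLike.norm_conj _
        have h2 := hM (F i).1 (Finset.mem_product.1 (hF i)).1
        have h3 : 0 ≤ ‖M (F i).1‖ := norm_nonneg _
        rw [norm_mul, h1]
        have h4 : ‖(1 / 2 : ℂ)‖ = 1 / 2 := by norm_num
        rw [h4]
        linarith
    _ = C ^ r * ∏ i, w (F i).1 := by
        rw [Finset.prod_mul_distrib, Finset.prod_const, Finset.card_univ, Fintype.card_fin]

/-- Row B3: the diagonal moments are bounded by a power of `k` (`deg_pair`, `pair_sum`, `wts`). -/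
theorem DD_le (hP : OkD Γ D P) (hκ : 0 < κ) {a : ℝ → ℂ} (ha : FG33.IsAmp a) (K K' : ℝ) (r : ℕ) :
    ∃ (C : ℝ) (k0 : ℕ), ∀ k ≥ k0, ∀ ξ ∈ P.B Γ D κ k, ∀ L : ℝ, 1 ≤ L → L ≤ K * k →
      ‖DD (Cs (Γ := Γ) (P.X0 Γ D k ξ) (K' * k)) (mt (P.X0 Γ D k ξ) (GWin.sc a L)) r‖ ≤
        C * (k : ℝ) ^ C := by
  classical
  obtain ⟨c3, C3, k3, hc3, H3⟩ := fact3 hP hκ ha K K'
  obtain ⟨C1, k1, hC1, H1⟩ := wts hP hκ
  obtain ⟨Cp, hCp, Hp⟩ := pair_sum (Fin r)
  set A : ℝ := max C3 0 ^ r * (Cp * (C1 * (1 + |K'|) ^ C1) ^ Cp) with hA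
  have hK1 : 1 ≤ 1 + |K'| := by linarith [abs_nonneg K']
  have hA0 : 0 ≤ A := by positivity
  refine ⟨max A (C1 * Cp), max (max k3 k1) 1, fun k hk ξ hξ L hL1 hL2 => ?_⟩
  have hk3 : k3 ≤ k := le_trans (le_trans (le_max_left _ _) (le_max_left _ _)) hk
  have hk1 : k1 ≤ k := le_trans (le_trans (le_max_right _ _) (le_max_left _ _)) hk
  have hk0 : 1 ≤ k := le_trans (le_max_right _ _) hk
  have hkr : (1 : ℝ) ≤ k := by exact_mod_cast hk0
  obtain ⟨hw, hlp, hCs⟩ := H1 k hk1 ξ hξ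
  set μ0 := P.X0 Γ D k ξ with hμ0
  set Q := Cs (Γ := Γ) μ0 (K' * k) with hQ
  set t : ℝ := (1 + |K'|) * k with ht
  have ht1 : 1 ≤ t := by
    rw [ht]
    nlinarith
  have hKt : K' * k ≤ t := by
    rw [ht]
    have : K' ≤ 1 + |K'| := by linarith [le_abs_self K']
    gcongr
  obtain ⟨hfin, -, hsq⟩ := hCs t ht1
  have hsub := GB3_Cs_sub hKt hfin
  set V : ℝ := C1 * t ^ C1 with hV
  have htC : t ≤ t ^ C1 := by
    calc t = t ^ (1 : ℝ) := (Real.rpow_one t).symm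
      _ ≤ t ^ C1 := Real.rpow_le_rpow_of_exponent_le ht1 hC1
  have h1t : (1 : ℝ) ≤ t ^ C1 := ht1.trans htC
  have hwt : Wt Q (wg μ0) V := by
    constructor
    · rw [hV]
      nlinarith
    · exact fun q => (hw q).1
    · intro q
      refine (hw q).2.trans ?_
      rw [hV]
      nlinarith
    · exact (Finset.sum_le_sum_of_subset_of_nonneg hsub fun q _ _ => sq_nonneg _).trans hsq
    · intro q hq
      have h2 : ((q.2.1 : ℝ) + 1) * lp μ0 q.1 ≤ K' * k := GB3_Cs_mem hq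
      have h3 : ((q.2.1 : ℝ) + 1) * C1⁻¹ ≤ t := by
        refine le_trans ?_ (h2.trans hKt)
        gcongr
        exact hlp q.1
      have hC10 : 0 < C1 := by linarith
      have h4 : (q.2.1 : ℝ) + 1 ≤ C1 * t := by
        rw [← div_eq_mul_inv, div_le_iff₀ hC10] at h3
        linarith
      refine h4.trans ?_
      rw [hV]
      gcongr
  have hsum := Hp (GH.PG Γ) Q (wg μ0) V hwt
  have hM : ∀ q ∈ Q, ‖mt μ0 (GWin.sc a L) q‖ ≤ max C3 0 * wg μ0 q := fun q hq =>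
    ((H3 k hk3 ξ hξ ξ L hL1 hL2 q hq).2).trans
      (mul_le_mul_of_nonneg_right (le_max_left _ _) (hw q).1)
  have hV1 : V ^ Cp ≤ (C1 * (1 + |K'|) ^ C1) ^ Cp * (k : ℝ) ^ (C1 * Cp) := by
    have h5 : V = C1 * (1 + |K'|) ^ C1 * (k : ℝ) ^ C1 := by
      rw [hV, ht, Real.mul_rpow (by linarith) (by linarith)]
      ring
    rw [h5, Real.mul_rpow (by positivity) (by positivity), ← Real.rpow_mul (by linarith)]
  calc ‖DD Q (mt μ0 (GWin.sc a L)) r‖ ≤
      ∑ F ∈ Tu (Fin r) Q with Deg F, ‖tm (fun _ => mt μ0 (GWin.sc a L)) F‖ := norm_sum_le _ _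
    _ ≤ ∑ F ∈ Tu (Fin r) Q with Deg F, max C3 0 ^ r * wF (wg μ0) F :=
        Finset.sum_le_sum fun F hF =>
          GB3_norm hM (Finset.mem_filter.1 hF).1
    _ ≤ ∑ F ∈ Tu (Fin r) Q with Pair F, max C3 0 ^ r * wF (wg μ0) F := by
        refine Finset.sum_le_sum_of_subset_of_nonneg ?_ fun F _ _ => ?_
        · intro F hF
          rw [Finset.mem_filter] at hF ⊢
          exact ⟨hF.1, deg_pair hF.2⟩
        · exact mul_nonneg (by positivity) (Finset.prod_nonneg fun i _ => (hw _).1)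
    _ = max C3 0 ^ r * ∑ F ∈ Tu (Fin r) Q with Pair F, wF (wg μ0) F := (Finset.mul_sum _ _ _).symm
    _ ≤ max C3 0 ^ r * (Cp * ((C1 * (1 + |K'|) ^ C1) ^ Cp * (k : ℝ) ^ (C1 * Cp))) := by
        refine mul_le_mul_of_nonneg_left (hsum.trans ?_) (by positivity)
        gcongr
    _ = A * (k : ℝ) ^ (C1 * Cp) := by
        rw [hA]
        ring
    _ ≤ max A (C1 * Cp) * (k : ℝ) ^ (max A (C1 * Cp)) := by
        refine mul_le_mul (le_max_left _ _) (Real.rpow_le_rpow_of_exponent_le hkr (le_max_right _ _))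
          (by positivity) (hA0.trans (le_max_left _ _))

end B35
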