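import Pool.Agent.LibB35.GB2
import Pool.Agent.LibB35.GB3

/-! Row B4: SHORT, 30 min. -/

open MeasureTheory Set Filter Topology
open scoped ContDiff unitInterval

namespace B35

open BGS BR BE
open Pool.BGR (upI)

variable {Γ : Type} [Group Γ] [MulAction Γ Pl] {D : Set Pl} {P : Dt} {κ : ℝ} {ν : Measure I}
  {ρ : ℝ → ℝ}

theorem GB4_DD0 {P0 : Type} (Q : Finset (Ag P0)) (M : Ag P0 → ℂ) : DD Q M 0 = 1 := by
  classical
  unfold DD
  have h1 : Tu (Fin 0) Q = {Fin.elim0} := by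
    ext F
    rw [Finset.mem_singleton]
    unfold Tu
    refine ⟨fun _ => Subsingleton.elim _ _, fun _ => ?_⟩
    exact (@Fintype.mem_piFinset _ (_) _ _ _ _).2 fun i => i.elim0
  have h2 : @Deg P0 (Fin 0) _ Fin.elim0 := by
    intro p
    simp
  rw [h1, Finset.filter_singleton, if_pos h2, Finset.sum_singleton]
  unfold tm
  simp

theorem GB4_M0 {D : Set Pl} {P : Dt} {ξ : Dir → I} (h : ∀ z, curv (P.X Γ D ξ) z < 0)
    (N : ℕ) (a : ℝ → ℂ) {u v : ℝ} (huv : u < v) (k : ℕ) (L : ℝ) :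
    P.M Γ D N a 0 u v k L ξ = 1 := by
  unfold Dt.M
  rw [if_pos h]
  have h2 : (0 : ℝ) < 2 ^ k := by positivity
  have h3 : 0 < v - u := by linarith
  simp only [pow_zero]
  rw [intervalIntegral.integral_const, smul_eq_mul, mul_one, ← sub_mul]
  field_simp

theorem GB4_num (C c : ℝ) (hc : 0 < c) : ∀ᶠ k : ℕ in atTop,
    2 * (C * (k : ℝ) ^ C) + 2 ≤ Real.exp (c * (k : ℝ) ^ (2 / 3 : ℝ)) := by
  have h1 : Tendsto (fun k : ℕ => (k : ℝ) ^ (2 / 3 : ℝ)) atTop atTop :=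
    (tendsto_rpow_atTop (by norm_num)).comp tendsto_natCast_atTop_atTop
  have h2 : ∀ᶠ x : ℝ in atTop, 2 * (C * x ^ (3 / 2 * C)) + 2 ≤ Real.exp (c * x) := by
    have h3 := (isLittleO_rpow_exp_pos_mul_atTop (3 / 2 * C) hc).def (c := 1 / (4 * (|C| + 1)))
      (by positivity)
    have h4 : Tendsto (fun x : ℝ => Real.exp (c * x)) atTop atTop :=
      Real.tendsto_exp_atTop.comp (tendsto_id.const_mul_atTop hc)
    filter_upwards [h3, h4.eventually_ge_atTop 4, eventually_gt_atTop 0] with x h5 h6 h7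
    rw [Real.norm_of_nonneg (by positivity), Real.norm_of_nonneg (by positivity)] at h5
    have h8 : C * x ^ (3 / 2 * C) ≤ (|C| + 1) * x ^ (3 / 2 * C) := by
      refine mul_le_mul_of_nonneg_right ?_ (by positivity)
      linarith [le_abs_self C]
    have h9 : (|C| + 1) * x ^ (3 / 2 * C) ≤ 1 / 4 * Real.exp (c * x) := by
      have h10 := mul_le_mul_of_nonneg_left h5 (show 0 ≤ |C| + 1 by positivity)
      have h11 : (|C| + 1) * (1 / (4 * (|C| + 1)) * Real.exp (c * x)) =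
          1 / 4 * Real.exp (c * x) := by
        field_simp
      rwa [h11] at h10
    linarith
  filter_upwards [h1.eventually h2] with k hk
  have h3 : ((k : ℝ) ^ (2 / 3 : ℝ)) ^ (3 / 2 * C) = (k : ℝ) ^ C := by
    rw [← Real.rpow_mul (Nat.cast_nonneg k)]
    congr 1
    ring
  rwa [h3] at hk

/-- Row B4: the variance over a block (from `block` with `(r, r)` and `(r, 0)`, `DD_le`, `P.M .. 0 .. = 1`,
`DD .. 0 = 1`). -/
theorem var_block (hP : OkD Γ D P) (hν : Den ν ρ) (hκ : 0 < κ) {a : ℝ → ℂ} (ha : FG33.IsAmp a)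
    {u v : ℝ} (hu : 0 < u) (huv : u < v) (K : ℝ) (N r : ℕ) :
    ∃ (c : ℝ) (k0 : ℕ), 0 < c ∧ ∀ k ≥ k0, ∀ ξ ∈ P.B Γ D κ k, ∀ L : ℝ, 1 ≤ L → L ≤ K * k →
      |(∫ η, P.M Γ D N a r u v k L (mix (bk k) ξ η) ^ 2 ∂Pm ν) -
        (∫ η, P.M Γ D N a r u v k L (mix (bk k) ξ η) ∂Pm ν) ^ 2| ≤
        Real.exp (-c * (k : ℝ) ^ (2 / 3 : ℝ)) := by
  obtain ⟨R, hR, hR'⟩ : ∃ R : ℝ, 1 ≤ R ∧ ∀ s, R < |s| → a s = 0 := by
    obtain ⟨R, hR⟩ := ha.supp.isCompact.isBounded.subset_closedBall 0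
    refine ⟨max R 1, le_max_right _ _, fun s hs => ?_⟩
    by_contra h1
    have h2 := hR (subset_tsupport a (Function.mem_support.2 h1))
    rw [Metric.mem_closedBall, dist_zero_right, Real.norm_eq_abs] at h2
    exact absurd (lt_of_le_of_lt (le_max_left R 1) hs) (not_lt.2 h2)
  obtain ⟨c1, k1, hc1, H1⟩ := block hP hν hκ ha hR hR' hu huv (le_max_right K 1)
    (K' := 4 * R * max K 1) le_rfl N r r
  obtain ⟨c2, k2, hc2, H2⟩ := block hP hν hκ ha hR hR' hu huv (le_max_right K 1)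
    (K' := 4 * R * max K 1) le_rfl N r 0
  obtain ⟨C, k3, H3⟩ := DD_le hP hκ ha K (4 * R * max K 1) r
  obtain ⟨k4, H4⟩ := block_neg hP hκ
  set c := min c1 c2 with hc
  have hc0 : 0 < c := lt_min hc1 hc2
  obtain ⟨k5, H5⟩ := eventually_atTop.1 (GB4_num C (c / 2) (by positivity))
  refine ⟨c / 2, max (max (max k1 k2) (max k3 k4)) k5, by positivity, fun k hk ξ hξ L hL1 hL2 => ?_⟩
  simp only [ge_iff_le, max_le_iff] at hk
  obtain ⟨⟨⟨hk1, hk2⟩, hk3, hk4⟩, hk5⟩ := hk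
  have hL2' : L ≤ max K 1 * k := hL2.trans (by gcongr; exact le_max_left _ _)
  have e1 := H1 k hk1 ξ hξ L hL1 hL2'
  have e2 := H2 k hk2 ξ hξ L hL1 hL2'
  have e3 := H3 k hk3 ξ hξ L hL1 hL2
  have e5 := H5 k hk5
  have hM0 : ∀ η : Dir → I, P.M Γ D N a 0 u v k L (mix (bk k) ξ η) = 1 := fun η => by
    refine GB4_M0 (fun z => (H4 k hk4 ξ hξ η z).trans_lt ?_) N a huv k L
    have : 0 < (κ / 2) ^ 2 := by positivity
    linarith
  simp only [hM0, mul_one, GB4_DD0] at e2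
  set x := ∫ η, P.M Γ D N a r u v k L (mix (bk k) ξ η) ∂Pm ν with hx
  have hy : ∫ η, P.M Γ D N a r u v k L (mix (bk k) ξ η) * P.M Γ D N a r u v k L (mix (bk k) ξ η)
      ∂Pm ν = ∫ η, P.M Γ D N a r u v k L (mix (bk k) ξ η) ^ 2 ∂Pm ν := by
    congr 1
    funext η
    rw [sq]
  rw [hy] at e1
  set y := ∫ η, P.M Γ D N a r u v k L (mix (bk k) ξ η) ^ 2 ∂Pm ν with hyd
  set DD0 := DD (Cs (Γ := Γ) (P.X0 Γ D k ξ) (4 * R * max K 1 * k))
    (mt (P.X0 Γ D k ξ) (GWin.sc a L)) r with hDD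
  set X := (k : ℝ) ^ (2 / 3 : ℝ) with hX
  have hX0 : 0 ≤ X := by positivity
  set E := Real.exp (-c * X) with hE
  have hE1 : E ≤ 1 := by
    rw [hE]
    refine Real.exp_le_one_iff.2 ?_
    nlinarith
  have hE0 : 0 < E := Real.exp_pos _
  have f1 : ‖((y : ℝ) : ℂ) - DD0 * DD0‖ ≤ E := by
    refine e1.trans (Real.exp_le_exp.2 ?_)
    have : c ≤ c1 := min_le_left _ _
    nlinarith
  have f2 : ‖((x : ℝ) : ℂ) - DD0‖ ≤ E := by
    refine e2.trans (Real.exp_le_exp.2 ?_)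
    have : c ≤ c2 := min_le_right _ _
    nlinarith
  have f3 : ‖((y - x ^ 2 : ℝ) : ℂ)‖ ≤ E + E * (2 * (C * (k : ℝ) ^ C) + 1) := by
    have g1 : ((y - x ^ 2 : ℝ) : ℂ) = (((y : ℝ) : ℂ) - DD0 * DD0) -
        (((x : ℝ) : ℂ) - DD0) * ((((x : ℝ) : ℂ) - DD0) + 2 * DD0) := by
      push_cast
      ring
    rw [g1]
    refine (norm_sub_le _ _).trans (add_le_add f1 ?_)
    rw [norm_mul]
    refine mul_le_mul f2 ?_ (norm_nonneg _) hE0.le
    refine (norm_add_le _ _).trans ?_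
    have g2 : ‖2 * DD0‖ = 2 * ‖DD0‖ := by
      rw [norm_mul]
      norm_num
    rw [g2]
    linarith
  rw [Complex.norm_real, Real.norm_eq_abs] at f3
  refine f3.trans ?_
  have g3 : Real.exp (-(c / 2) * X) = E * Real.exp (c / 2 * X) := by
    rw [hE, ← Real.exp_add]
    congr 1
    ring
  rw [g3]
  calc E + E * (2 * (C * (k : ℝ) ^ C) + 1) = E * (2 * (C * (k : ℝ) ^ C) + 2) := by ring
    _ ≤ E * Real.exp (c / 2 * X) := mul_le_mul_of_nonneg_left e5 hE0.le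

end B35
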