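import Pool.Agent.LibB35.GA

/-! Rows R4, R5 (algebra and inequalities for finite products). SHORT/MEDIUM, 40 min.
R4 `phase`: `cj e (exp (-(i x))) = exp (-(i sgn e x))` for real `x`; so the product is `exp (-(i S))` with
`S = ∑ i, sgn (F i).2 * (τ i * ((n i + 1) * l (p i)))`; split over `Fin r ⊕ Fin r'` (`τ` is constant on each part) and
regroup by the primitive class (`Finset.sum_fiberwise`): `S = τ₁ ∑_p l p * 0 + τ₂ ∑_p l p * 0 = 0`.
R5 `prod_close`: `‖∏ a - ∏ b‖ ≤ ∏ (B + d) - ∏ B` if `‖b i‖ ≤ B i`, `‖a i - b i‖ ≤ d i` (induction on the finset).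
R5b: with `B i = V w i`, `d i = 2 ε w i + ε'`, `0 ≤ w i ≤ V`, `ε, ε' ≤ 1 ≤ V`:
`∏ (V w i + (2 ε w i + ε')) - ∏ V w i ≤ C V^C (ε ∏ w i + ε')`: first `∏ (x i + ε') ≤ ∏ x i + ε' n (3V² + 1)^n`, `x i = (V + 2 ε) w i`, then
`(V + 2ε)^n - V^n ≤ 2 ε n (3 V)^n`. R5c: `∏ ((V + 2 ε) w i + ε') ≤ C V^C (∏ w i + ε')`. -/

open MeasureTheory Set Filter Topology

namespace B35

variable {P0 : Type}

private theorem GR4_sum {I : Type} [Fintype I] {G : I → Ag P0 × Bool} (h : Deg G) (l : P0 → ℝ) :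
    ∑ i, sgn (G i).2 * ((((G i).1.2.1 : ℝ) + 1) * l (G i).1.1) = 0 := by
  classical
  have h1 : ∀ i ∈ (Finset.univ : Finset I), (G i).1.1 ∈ Finset.univ.image fun i => (G i).1.1 :=
    fun i _ => Finset.mem_image_of_mem _ (Finset.mem_univ i)
  rw [← Finset.sum_fiberwise_of_maps_to h1]
  refine Finset.sum_eq_zero fun p _ => ?_
  have h2 : ∀ i ∈ Finset.univ.filter (fun i => (G i).1.1 = p),
      sgn (G i).2 * ((((G i).1.2.1 : ℝ) + 1) * l (G i).1.1) =
        (sgn (G i).2 * (((G i).1.2.1 : ℝ) + 1)) * l p := by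
    intro i hi
    rw [(Finset.mem_filter.1 hi).2]
    ring
  rw [Finset.sum_congr rfl h2, ← Finset.sum_mul]
  have h3 := h p
  have h4 : ∑ i with (G i).1.1 = p, sgn (G i).2 * (((G i).1.2.1 : ℝ) + 1) = 0 := by
    rw [← h3]
  rw [h4, zero_mul]

private theorem GR4_cj (e : Bool) (x : ℝ) :
    cj e (Complex.exp (-(Complex.I * x))) = Complex.exp (-(Complex.I * ((sgn e * x : ℝ) : ℂ))) := by
  unfold cj sgn
  cases e
  · simp only [Bool.false_eq_true, if_false]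
    rw [← Complex.exp_conj]
    congr 1
    simp
  · simp

/-- Row R4. -/
theorem phase {r r' : ℕ} {F : Fin r ⊕ Fin r' → Ag P0 × Bool} (h : Deg (F ∘ Sum.inl))
    (h' : Deg (F ∘ Sum.inr)) (l : P0 → ℝ) (τ τ' : ℝ) :
    ∏ i, cj (F i).2 (Complex.exp (-(Complex.I * (Sum.elim (fun _ => τ) (fun _ => τ') i : ℝ) *
      ((((F i).1.2.1 + 1) * l (F i).1.1 : ℝ) : ℂ)))) = 1 := by
  have e1 : ∀ i : Fin r ⊕ Fin r', cj (F i).2 (Complex.exp (-(Complex.I *
      (Sum.elim (fun _ => τ) (fun _ => τ') i : ℝ) *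
      ((((F i).1.2.1 + 1) * l (F i).1.1 : ℝ) : ℂ)))) =
      Complex.exp (-(Complex.I * ((sgn (F i).2 * ((Sum.elim (fun _ => τ) (fun _ => τ') i : ℝ) *
        (((F i).1.2.1 + 1) * l (F i).1.1)) : ℝ) : ℂ))) := by
    intro i
    rw [← GR4_cj]
    congr 2
    push_cast
    ring
  rw [Finset.prod_congr rfl fun i _ => e1 i, ← Complex.exp_sum]
  rw [Finset.sum_neg_distrib, ← Finset.mul_sum, ← Complex.ofReal_sum]
  have e2 : ∑ i : Fin r ⊕ Fin r', sgn (F i).2 * ((Sum.elim (fun _ => τ) (fun _ => τ') i : ℝ) *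
        (((F i).1.2.1 + 1) * l (F i).1.1)) = 0 := by
    rw [Fintype.sum_sum_type]
    simp only [Sum.elim_inl, Sum.elim_inr]
    have h1 := GR4_sum h l
    have h2 := GR4_sum h' l
    simp only [Function.comp_apply] at h1 h2
    have e3 : ∑ i : Fin r, sgn (F (Sum.inl i)).2 * (τ *
        (((F (Sum.inl i)).1.2.1 + 1) * l (F (Sum.inl i)).1.1)) = 0 := by
      have : ∀ i : Fin r, sgn (F (Sum.inl i)).2 * (τ *
        (((F (Sum.inl i)).1.2.1 + 1) * l (F (Sum.inl i)).1.1)) = τ * (sgn (F (Sum.inl i)).2 *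
        (((F (Sum.inl i)).1.2.1 + 1) * l (F (Sum.inl i)).1.1)) := fun i => by ring
      rw [Finset.sum_congr rfl fun i _ => this i, ← Finset.mul_sum, h1, mul_zero]
    have e4 : ∑ i : Fin r', sgn (F (Sum.inr i)).2 * (τ' *
        (((F (Sum.inr i)).1.2.1 + 1) * l (F (Sum.inr i)).1.1)) = 0 := by
      have : ∀ i : Fin r', sgn (F (Sum.inr i)).2 * (τ' *
        (((F (Sum.inr i)).1.2.1 + 1) * l (F (Sum.inr i)).1.1)) = τ' * (sgn (F (Sum.inr i)).2 *
        (((F (Sum.inr i)).1.2.1 + 1) * l (F (Sum.inr i)).1.1)) := fun i => by ring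
      rw [Finset.sum_congr rfl fun i _ => this i, ← Finset.mul_sum, h2, mul_zero]
    rw [e3, e4, add_zero]
  rw [e2, Complex.ofReal_zero, mul_zero, neg_zero, Complex.exp_zero]

theorem cj_mul (e : Bool) (z w : ℂ) : cj e (z * w) = cj e z * cj e w := by
  unfold cj
  cases e
  · simp
  · simp

theorem cj_sub (e : Bool) (z w : ℂ) : cj e (z - w) = cj e z - cj e w := by
  unfold cj
  cases e
  · simp
  · simp

theorem cj_norm (e : Bool) (z : ℂ) : ‖cj e z‖ = ‖z‖ := by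
  unfold cj
  cases e
  · simp
  · simp

/-- Row R5. -/
theorem prod_close {I : Type} (s : Finset I) (a b : I → ℂ) (B d : I → ℝ)
    (hb : ∀ i ∈ s, ‖b i‖ ≤ B i) (hd : ∀ i ∈ s, ‖a i - b i‖ ≤ d i) :
    ‖∏ i ∈ s, a i - ∏ i ∈ s, b i‖ ≤ ∏ i ∈ s, (B i + d i) - ∏ i ∈ s, B i := by
  classical
  induction s using Finset.induction_on with
  | empty => simp
  | insert j s hj ih =>
    have hb' : ∀ i ∈ s, ‖b i‖ ≤ B i := fun i hi => hb i (Finset.mem_insert_of_mem hi)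
    have hd' : ∀ i ∈ s, ‖a i - b i‖ ≤ d i := fun i hi => hd i (Finset.mem_insert_of_mem hi)
    have ih' := ih hb' hd'
    have hbj := hb j (Finset.mem_insert_self j s)
    have hdj := hd j (Finset.mem_insert_self j s)
    rw [Finset.prod_insert hj, Finset.prod_insert hj, Finset.prod_insert hj,
      Finset.prod_insert hj]
    have hA : ‖∏ i ∈ s, a i‖ ≤ ∏ i ∈ s, (B i + d i) := by
      rw [norm_prod]
      refine Finset.prod_le_prod (fun i _ => norm_nonneg _) fun i hi => ?_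
      have h1 : a i = b i + (a i - b i) := by ring
      calc ‖a i‖ = ‖b i + (a i - b i)‖ := by rw [← h1]
        _ ≤ ‖b i‖ + ‖a i - b i‖ := norm_add_le _ _
        _ ≤ B i + d i := add_le_add (hb' i hi) (hd' i hi)
    have e : a j * ∏ i ∈ s, a i - b j * ∏ i ∈ s, b i =
        (a j - b j) * ∏ i ∈ s, a i + b j * (∏ i ∈ s, a i - ∏ i ∈ s, b i) := by ring
    rw [e]
    refine (norm_add_le _ _).trans ?_
    rw [norm_mul, norm_mul]
    have h2 : ‖a j - b j‖ * ‖∏ i ∈ s, a i‖ ≤ d j * ∏ i ∈ s, (B i + d i) :=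
      mul_le_mul hdj hA (norm_nonneg _) ((norm_nonneg _).trans hdj)
    have h3 : ‖b j‖ * ‖∏ i ∈ s, a i - ∏ i ∈ s, b i‖ ≤
        B j * (∏ i ∈ s, (B i + d i) - ∏ i ∈ s, B i) :=
      mul_le_mul hbj ih' (norm_nonneg _) ((norm_nonneg _).trans hbj)
    calc ‖a j - b j‖ * ‖∏ i ∈ s, a i‖ + ‖b j‖ * ‖∏ i ∈ s, a i - ∏ i ∈ s, b i‖
        ≤ d j * ∏ i ∈ s, (B i + d i) + B j * (∏ i ∈ s, (B i + d i) - ∏ i ∈ s, B i) :=
          add_le_add h2 h3
      _ = _ := by ring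

private theorem GR4_add {I : Type} (s : Finset I) (x : I → ℝ) {e M : ℝ} (he : 0 ≤ e) (hM : 1 ≤ M)
    (hx0 : ∀ i ∈ s, 0 ≤ x i) (hx : ∀ i ∈ s, x i + e ≤ M) :
    ∏ i ∈ s, (x i + e) ≤ ∏ i ∈ s, x i + e * s.card * M ^ s.card ∧
      ∏ i ∈ s, (x i + e) ≤ M ^ s.card := by
  classical
  induction s using Finset.induction_on with
  | empty => simp
  | insert j s hj ih =>
    obtain ⟨h1, h2⟩ := ih (fun i hi => hx0 i (Finset.mem_insert_of_mem hi))
      (fun i hi => hx i (Finset.mem_insert_of_mem hi))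
    have hj0 := hx0 j (Finset.mem_insert_self j s)
    have hjM := hx j (Finset.mem_insert_self j s)
    rw [Finset.prod_insert hj, Finset.prod_insert hj, Finset.card_insert_of_notMem hj]
    have hP0 : 0 ≤ ∏ i ∈ s, (x i + e) := Finset.prod_nonneg fun i hi =>
      add_nonneg (hx0 i (Finset.mem_insert_of_mem hi)) he
    have hMk : 0 < M ^ s.card := by positivity
    constructor
    · have hxM : x j ≤ M := by linarith
      have a1 : x j * ∏ i ∈ s, (x i + e) ≤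
          x j * (∏ i ∈ s, x i + e * s.card * M ^ s.card) := mul_le_mul_of_nonneg_left h1 hj0
      have a2 : e * ∏ i ∈ s, (x i + e) ≤ e * M ^ s.card := mul_le_mul_of_nonneg_left h2 he
      have a3 : x j * (e * s.card * M ^ s.card) ≤ M * (e * s.card * M ^ s.card) :=
        mul_le_mul_of_nonneg_right hxM (by positivity)
      have a4 : e * M ^ s.card ≤ e * (M * M ^ s.card) := by
        apply mul_le_mul_of_nonneg_left _ he
        nlinarith
      push_cast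
      calc (x j + e) * ∏ i ∈ s, (x i + e) = x j * ∏ i ∈ s, (x i + e) +
            e * ∏ i ∈ s, (x i + e) := by ring
        _ ≤ x j * ∏ i ∈ s, x i + M * (e * s.card * M ^ s.card) + e * (M * M ^ s.card) := by
            linarith
        _ = _ := by ring
    · rw [pow_succ, mul_comm (M ^ s.card) M]
      exact mul_le_mul hjM h2 hP0 (by linarith)

private theorem GR4_pow {V t : ℝ} (hV : 1 ≤ V) (ht : 0 ≤ t) (ht2 : t ≤ 2) (n : ℕ) :
    (V + t) ^ n - V ^ n ≤ t * n * (3 * V) ^ n ∧ (V + t) ^ n ≤ (3 * V) ^ n := by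
  have h3 : V + t ≤ 3 * V := by linarith
  induction n with
  | zero => simp
  | succ n ih =>
    obtain ⟨h1, h2⟩ := ih
    have hp : 0 < (3 * V) ^ n := by positivity
    have hV0 : 0 ≤ V ^ n := by positivity
    have hVn : V ^ n ≤ (3 * V) ^ n := pow_le_pow_left₀ (by linarith) (by linarith) n
    constructor
    · have e : (V + t) ^ (n + 1) - V ^ (n + 1) = (V + t) * ((V + t) ^ n - V ^ n) + t * V ^ n := by
        ring
      rw [e]
      have a1 : (V + t) * ((V + t) ^ n - V ^ n) ≤ (3 * V) * (t * n * (3 * V) ^ n) := by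
        have b1 : (V + t) * ((V + t) ^ n - V ^ n) ≤ (V + t) * (t * n * (3 * V) ^ n) :=
          mul_le_mul_of_nonneg_left h1 (by linarith)
        have b2 : (V + t) * (t * n * (3 * V) ^ n) ≤ (3 * V) * (t * n * (3 * V) ^ n) :=
          mul_le_mul_of_nonneg_right h3 (by positivity)
        linarith
      have a2 : t * V ^ n ≤ t * ((3 * V) * (3 * V) ^ n) := by
        apply mul_le_mul_of_nonneg_left _ ht
        nlinarith
      push_cast
      calc (V + t) * ((V + t) ^ n - V ^ n) + t * V ^ n ≤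
            (3 * V) * (t * n * (3 * V) ^ n) + t * ((3 * V) * (3 * V) ^ n) := add_le_add a1 a2
        _ = _ := by ring
    · rw [pow_succ, pow_succ]
      exact mul_le_mul h2 h3 (by linarith) hp.le

theorem prod_num (I : Type) [Fintype I] : ∃ C : ℝ, 1 ≤ C ∧ ∀ (V ε ε' : ℝ) (w : I → ℝ), 1 ≤ V →
    0 ≤ ε → ε ≤ 1 → 0 ≤ ε' → ε' ≤ 1 → (∀ i, 0 ≤ w i ∧ w i ≤ V) →
    ∏ i, (V * w i + (2 * ε * w i + ε')) - ∏ i, V * w i ≤ C * V ^ C * (ε * ∏ i, w i + ε') ∧
    ∏ i, (V * w i + (2 * ε * w i + ε')) ≤ C * V ^ C * (∏ i, w i + ε') := by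
  classical
  obtain ⟨n, hn⟩ : ∃ n : ℕ, n = Fintype.card I := ⟨_, rfl⟩
  obtain ⟨C, hC⟩ : ∃ C : ℝ, C = 2 * ((n : ℝ) + 1) * 4 ^ n + 2 * n + 1 := ⟨_, rfl⟩
  have hn0 : (0 : ℝ) ≤ n := Nat.cast_nonneg n
  have h4 : (1 : ℝ) ≤ 4 ^ n := one_le_pow₀ (by norm_num)
  have hC1 : 1 ≤ C := by
    rw [hC]
    have : 0 ≤ 2 * ((n : ℝ) + 1) * 4 ^ n := by positivity
    linarith
  refine ⟨C, hC1, fun V ε ε' w hV hε hε1 hε' hε'1 hw => ?_⟩
  have hV0 : 0 < V := by linarith
  have hVn : V ^ n ≤ V ^ C := by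
    rw [← Real.rpow_natCast]
    apply Real.rpow_le_rpow_of_exponent_le hV
    rw [hC]
    have : 0 ≤ 2 * ((n : ℝ) + 1) * 4 ^ n := by positivity
    linarith
  have hV2n : (V ^ 2) ^ n ≤ V ^ C := by
    rw [← pow_mul, ← Real.rpow_natCast]
    apply Real.rpow_le_rpow_of_exponent_le hV
    rw [hC]
    have : 0 ≤ 2 * ((n : ℝ) + 1) * 4 ^ n := by positivity
    push_cast
    linarith
  have h34 : (3 : ℝ) ^ n ≤ 4 ^ n := pow_le_pow_left₀ (by norm_num) (by norm_num) n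
  have hW0 : 0 ≤ ∏ i, w i := Finset.prod_nonneg fun i _ => (hw i).1
  -- the products
  have e1 : ∀ i, V * w i + (2 * ε * w i + ε') = (V + 2 * ε) * w i + ε' := fun i => by ring
  have hM1 : (1 : ℝ) ≤ 4 * V ^ 2 := by nlinarith
  have hadd := GR4_add Finset.univ (fun i => (V + 2 * ε) * w i) hε' hM1
    (fun i _ => mul_nonneg (by linarith) (hw i).1) (fun i _ => by
      have h1 := (hw i).2
      have h2 : (V + 2 * ε) * w i ≤ (3 * V) * V :=
        mul_le_mul (by linarith) h1 (hw i).1 (by linarith)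
      nlinarith)
  rw [Finset.card_univ, ← hn] at hadd
  have e2 : ∏ i, (V + 2 * ε) * w i = (V + 2 * ε) ^ n * ∏ i, w i := by
    rw [Finset.prod_mul_distrib, Finset.prod_const, Finset.card_univ, hn]
  have e3 : ∏ i, V * w i = V ^ n * ∏ i, w i := by
    rw [Finset.prod_mul_distrib, Finset.prod_const, Finset.card_univ, hn]
  have h5 := hadd.1
  rw [e2] at h5
  have hpow := GR4_pow hV (t := 2 * ε) (by linarith) (by linarith) n
  -- the constants
  have c1 : 2 * n * (3 * V) ^ n ≤ C * V ^ C := by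
    rw [mul_pow, ← mul_assoc]
    refine mul_le_mul ?_ hVn (by positivity) (by linarith)
    rw [hC]
    nlinarith
  have c2 : (3 * V) ^ n ≤ C * V ^ C := by
    rw [mul_pow]
    refine mul_le_mul ?_ hVn (by positivity) (by linarith)
    rw [hC]
    nlinarith
  have c3 : n * (4 * V ^ 2) ^ n ≤ C * V ^ C := by
    rw [mul_pow, ← mul_assoc]
    refine mul_le_mul ?_ hV2n (by positivity) (by linarith)
    rw [hC]
    nlinarith
  simp only [e1]
  rw [e3]
  have d1 : ((V + 2 * ε) ^ n - V ^ n) * ∏ i, w i ≤ (C * V ^ C) * (ε * ∏ i, w i) := by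
    calc ((V + 2 * ε) ^ n - V ^ n) * ∏ i, w i ≤ (2 * ε * n * (3 * V) ^ n) * ∏ i, w i :=
          mul_le_mul_of_nonneg_right hpow.1 hW0
      _ = (2 * n * (3 * V) ^ n) * (ε * ∏ i, w i) := by ring
      _ ≤ _ := mul_le_mul_of_nonneg_right c1 (mul_nonneg hε hW0)
  have d2 : (V + 2 * ε) ^ n * ∏ i, w i ≤ (C * V ^ C) * ∏ i, w i :=
    mul_le_mul_of_nonneg_right (hpow.2.trans c2) hW0
  have d3 : ε' * n * (4 * V ^ 2) ^ n ≤ (C * V ^ C) * ε' := by
    calc ε' * n * (4 * V ^ 2) ^ n = (n * (4 * V ^ 2) ^ n) * ε' := by ring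
      _ ≤ _ := mul_le_mul_of_nonneg_right c3 hε'
  constructor
  · have e4 : (V + 2 * ε) ^ n * ∏ i, w i + ε' * n * (4 * V ^ 2) ^ n - V ^ n * ∏ i, w i =
        ((V + 2 * ε) ^ n - V ^ n) * ∏ i, w i + ε' * n * (4 * V ^ 2) ^ n := by ring
    rw [mul_add]
    linarith
  · rw [mul_add]
    linarith

end B35
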