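import Pool.Agent.LibB35.GQ2d
import Pool.Agent.LibB35.GR1
import Pool.Agent.LibB35.GR3
import Pool.Agent.LibB35.GR4

/-! Row GL1 (cites fact3, deg_pair, pair_sum, prod_close, prod_num, wts): the diagonal moments of the base metric and of the
metric itself. SHORT/MEDIUM, 40 min. Plan: `mix n ξ ξ = ξ`; for `F ∈ Tu (Fin r) Q`, `Deg F`: `‖tm M F - tm M' F‖ ≤ ∏ (C w + e w) - ∏ C w
≤ C' k^C' exp (-c k^(5/6)) ∏ w` (`prod_close`, `prod_num` with `ε' = 0`, `V = C k^C`), sum with `deg_pair`, `pair_sum`. -/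

open MeasureTheory Set Filter Topology
open scoped ContDiff unitInterval

namespace B35

open BGS BR BE

variable {Γ : Type} [Group Γ] [MulAction Γ Pl] {D : Set Pl} {P : Dt} {κ : ℝ}

private theorem GL1_mix (n : ℕ) (ξ : Dir → I) : mix n ξ ξ = ξ := by
  funext d
  simp [mix]

private theorem GL1_mem {P0 J : Type} [Fintype J] {Q : Finset (Ag P0)} {F : J → Ag P0 × Bool}
    (hF : F ∈ Tu J Q) (i : J) : (F i).1 ∈ Q := by
  classical
  unfold Tu at hF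
  have h1 := Fintype.mem_piFinset.1 hF i
  exact (Finset.mem_product.1 h1).1

/-- Two families of terms that are close. -/
private theorem GL1_tm {P0 : Type} (r : ℕ) : ∃ C : ℝ, 1 ≤ C ∧ ∀ (V ε : ℝ) (w : Ag P0 → ℝ)
    (Q : Finset (Ag P0)) (M M' : Ag P0 → ℂ), 1 ≤ V → 0 ≤ ε → ε ≤ 1 → (∀ q, 0 ≤ w q ∧ w q ≤ V) →
    (∀ q ∈ Q, ‖M' q‖ ≤ V * w q) → (∀ q ∈ Q, ‖M q - M' q‖ ≤ ε * w q) → ∀ F ∈ Tu (Fin r) Q,
    ‖tm (fun _ => M) F - tm (fun _ => M') F‖ ≤ C * V ^ C * (ε * wF w F) := by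
  obtain ⟨C, hC, hpn⟩ := prod_num (Fin r)
  refine ⟨C, hC, fun V ε w Q M M' hV hε hε1 hw hM' hMM F hF => ?_⟩
  have hFQ : ∀ i, (F i).1 ∈ Q := GL1_mem hF
  have h1 := (hpn V ε 0 (fun i => w (F i).1) hV hε hε1 le_rfl zero_le_one
    (fun i => hw (F i).1)).1
  have h2 := prod_close (Finset.univ : Finset (Fin r))
    (fun i => (1 / 2 : ℂ) * cj (F i).2 (M (F i).1))
    (fun i => (1 / 2 : ℂ) * cj (F i).2 (M' (F i).1))
    (fun i => V * w (F i).1) (fun i => 2 * ε * w (F i).1 + 0) (fun i _ => ?_) (fun i _ => ?_)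
  · unfold tm wF
    refine h2.trans (h1.trans ?_)
    rw [add_zero]
  · have h3 := hM' _ (hFQ i)
    have h4 : ‖(1 / 2 : ℂ)‖ = 1 / 2 := by norm_num
    rw [norm_mul, cj_norm, h4]
    have h5 := norm_nonneg (M' (F i).1)
    linarith
  · have h3 := hMM _ (hFQ i)
    have h4 : ‖(1 / 2 : ℂ)‖ = 1 / 2 := by norm_num
    rw [← mul_sub, ← cj_sub, norm_mul, cj_norm, h4]
    have h5 := norm_nonneg (M (F i).1 - M' (F i).1)
    have h6 := mul_nonneg hε (hw (F i).1).1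
    linarith

private theorem GL1_small {A c S : ℝ} (hc : 0 < c) : ∀ᶠ k : ℕ in atTop,
    A * (k : ℝ) ^ S * Real.exp (-c * (k : ℝ) ^ (5 / 6 : ℝ)) ≤
      Real.exp (-(c / 2) * (k : ℝ) ^ (5 / 6 : ℝ)) := by
  have h1 := tendsto_rpow_mul_exp_neg_mul_atTop_nhds_zero (S * (6 / 5)) (c / 2) (by positivity)
  have h2 : Tendsto (fun k : ℕ => (k : ℝ) ^ (5 / 6 : ℝ)) atTop atTop :=
    (tendsto_rpow_atTop (by norm_num)).comp tendsto_natCast_atTop_atTop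
  have h3 := (h1.comp h2).const_mul A
  rw [mul_zero] at h3
  filter_upwards [h3.eventually_le_const (zero_lt_one), eventually_ge_atTop 1] with k hk hk1
  have hk0 : (0 : ℝ) ≤ k := Nat.cast_nonneg k
  have h4 : ((k : ℝ) ^ (5 / 6 : ℝ)) ^ (S * (6 / 5)) = (k : ℝ) ^ S := by
    rw [← Real.rpow_mul hk0]
    congr 1
    ring
  have h5 : Real.exp (-c * (k : ℝ) ^ (5 / 6 : ℝ)) = Real.exp (-(c / 2) * (k : ℝ) ^ (5 / 6 : ℝ)) *
      Real.exp (-(c / 2) * (k : ℝ) ^ (5 / 6 : ℝ)) := by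
    rw [← Real.exp_add]
    congr 1
    ring
  have h6 : A * ((k : ℝ) ^ S * Real.exp (-(c / 2) * (k : ℝ) ^ (5 / 6 : ℝ))) ≤ 1 := by
    have h7 := hk
    simp only [Function.comp_apply] at h7
    rwa [h4] at h7
  rw [h5]
  have h8 := mul_le_mul_of_nonneg_right h6
    (Real.exp_pos (-(c / 2) * (k : ℝ) ^ (5 / 6 : ℝ))).le
  linarith

theorem DD_close (hP : OkD Γ D P) (hκ : 0 < κ) {a : ℝ → ℂ} (ha : FG33.IsAmp a) (K K' : ℝ) (r : ℕ) :
    ∃ (c : ℝ) (k0 : ℕ), 0 < c ∧ ∀ k ≥ k0, ∀ ξ ∈ P.B Γ D κ k, ∀ L : ℝ, 1 ≤ L → L ≤ K * k →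
      ‖DD (Cs (Γ := Γ) (P.X0 Γ D k ξ) (K' * k)) (mt (P.X0 Γ D k ξ) (GWin.sc a L)) r -
        DD (Cs (Γ := Γ) (P.X0 Γ D k ξ) (K' * k)) (mt (P.X Γ D ξ) (GWin.sc a L)) r‖ ≤
        Real.exp (-c * (k : ℝ) ^ (5 / 6 : ℝ)) := by
  classical
  obtain ⟨c, Cf, k1, hc, hf⟩ := fact3 hP hκ ha K K'
  obtain ⟨C0, k2, hC0, hw⟩ := wts hP hκ
  obtain ⟨C1, hC1, hps'⟩ := pair_sum (Fin r)
  have hps := hps' (GH.PG Γ)
  obtain ⟨C2, hC2, htm⟩ := GL1_tm (P0 := GH.PG Γ) r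
  set K2 : ℝ := max K' 1 with hK2
  have hK21 : 1 ≤ K2 := le_max_right _ _
  have hK2' : K' ≤ K2 := le_max_left _ _
  set A : ℝ := C0 * K2 ^ C0 + C0 * K2 + C0 + |Cf| with hA
  have hA1 : 1 ≤ A := by
    have h1 : 0 ≤ C0 * K2 ^ C0 := by positivity
    have h2 : 0 ≤ C0 * K2 := by positivity
    have h3 := abs_nonneg Cf
    linarith
  obtain ⟨k3, hk3⟩ := eventually_atTop.1 (GL1_small (A := C2 * C1 * A ^ (C1 + C2)) (c := c)
    (S := C0 * (C1 + C2)) hc)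
  refine ⟨c / 2, max (max k1 k2) (max k3 1), by positivity, fun k hk ξ hξ L hL1 hL => ?_⟩
  have hk1' : k1 ≤ k := (le_max_left _ _).trans ((le_max_left _ _).trans hk)
  have hk2' : k2 ≤ k := (le_max_right _ _).trans ((le_max_left _ _).trans hk)
  have hk3' : k3 ≤ k := (le_max_left _ _).trans ((le_max_right _ _).trans hk)
  have hk1 : 1 ≤ k := (le_max_right _ _).trans ((le_max_right _ _).trans hk)
  have hkR : (1 : ℝ) ≤ k := by exact_mod_cast hk1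
  have hk0 : (0 : ℝ) ≤ k := by linarith
  obtain ⟨hw1, hw2, hw3⟩ := hw k hk2' ξ hξ
  have hF := hf k hk1' ξ hξ ξ L hL1 hL
  rw [GL1_mix] at hF
  set Q : Finset (Cg Γ) := Cs (Γ := Γ) (P.X0 Γ D k ξ) (K' * k) with hQ
  set w : Cg Γ → ℝ := wg (P.X0 Γ D k ξ) with hwd
  set V : ℝ := A * (k : ℝ) ^ C0 with hV
  have hkC : (k : ℝ) ≤ (k : ℝ) ^ C0 := by
    have h1 := Real.rpow_le_rpow_of_exponent_le hkR hC0
    rwa [Real.rpow_one] at h1
  have hkC1 : 1 ≤ (k : ℝ) ^ C0 := hkR.trans hkC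
  have p1 : 0 ≤ C0 * K2 ^ C0 := by positivity
  have p2 : 0 ≤ C0 * K2 := by positivity
  have p3 := abs_nonneg Cf
  have p4 : 0 ≤ C0 := by linarith
  have q0 : A ≤ V := le_mul_of_one_le_right (by linarith) hkC1
  have hV1 : 1 ≤ V := hA1.trans q0
  have q1 : C0 ≤ V := le_trans (by linarith) q0
  have q2 : |Cf| ≤ V := le_trans (by linarith) q0
  have q3 : C0 * K2 * k ≤ V := by
    calc C0 * K2 * k ≤ (C0 * K2) * (k : ℝ) ^ C0 := mul_le_mul_of_nonneg_left hkC p2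
      _ ≤ A * (k : ℝ) ^ C0 := mul_le_mul_of_nonneg_right (by linarith) (by linarith)
  have q4 : C0 * (K2 * k) ^ C0 ≤ V := by
    rw [Real.mul_rpow (by linarith) hk0]
    calc C0 * (K2 ^ C0 * (k : ℝ) ^ C0) = (C0 * K2 ^ C0) * (k : ℝ) ^ C0 := by ring
      _ ≤ A * (k : ℝ) ^ C0 := mul_le_mul_of_nonneg_right (by linarith) (by linarith)
  have ht1 : 1 ≤ K2 * k := by nlinarith
  have htt : K' * k ≤ K2 * k := mul_le_mul_of_nonneg_right hK2' hk0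
  obtain ⟨hfin, -, hsq⟩ := hw3 (K2 * k) ht1
  have hfin' : {q : Cg Γ | ln (P.X0 Γ D k ξ) q ≤ K' * k}.Finite :=
    hfin.subset fun q hq => le_trans hq htt
  have hmQ : ∀ q, q ∈ Q ↔ ln (P.X0 Γ D k ξ) q ≤ K' * k := by
    intro q
    rw [hQ, Cs, dif_pos hfin', Set.Finite.mem_toFinset]
    rfl
  have hQs : Q ⊆ Cs (Γ := Γ) (P.X0 Γ D k ξ) (K2 * k) := by
    intro q hq
    rw [Cs, dif_pos hfin, Set.Finite.mem_toFinset]
    exact le_trans ((hmQ q).1 hq) htt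
  have hWt : Wt Q w V := by
    refine ⟨hV1, fun q => (hw1 q).1, fun q => (hw1 q).2.trans q1, ?_, fun q hq => ?_⟩
    · exact (Finset.sum_le_sum_of_subset_of_nonneg hQs fun q _ _ => sq_nonneg _).trans
        (hsq.trans q4)
    · have h1 : ((q.2.1 : ℝ) + 1) * lp (P.X0 Γ D k ξ) q.1 ≤ K2 * k := ((hmQ q).1 hq).trans htt
      have h2 := hw2 q.1
      have h3 : ((q.2.1 : ℝ) + 1) * C0⁻¹ ≤ K2 * k :=
        (mul_le_mul_of_nonneg_left h2 (by positivity)).trans h1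
      have h4 : (q.2.1 : ℝ) + 1 ≤ C0 * K2 * k := by
        have hC0' : 0 < C0 := by linarith
        rw [← div_eq_mul_inv, div_le_iff₀ hC0'] at h3
        linarith
      exact h4.trans q3
  set ε : ℝ := Real.exp (-c * (k : ℝ) ^ (5 / 6 : ℝ)) with hε
  have hε0 : 0 ≤ ε := (Real.exp_pos _).le
  have hε1 : ε ≤ 1 := by
    rw [hε, Real.exp_le_one_iff]
    have : 0 ≤ (k : ℝ) ^ (5 / 6 : ℝ) := by positivity
    nlinarith
  have hterm : ∀ F ∈ Tu (Fin r) Q,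
      ‖tm (fun _ => mt (P.X0 Γ D k ξ) (GWin.sc a L)) F -
        tm (fun _ => mt (P.X Γ D ξ) (GWin.sc a L)) F‖ ≤ C2 * V ^ C2 * (ε * wF w F) := by
    intro F hF'
    rw [norm_sub_rev]
    refine htm V ε w Q _ _ hV1 hε0 hε1 (fun q => ⟨(hw1 q).1, (hw1 q).2.trans q1⟩) (fun q hq => ?_)
      (fun q hq => (hF q hq).1) F hF'
    refine (hF q hq).2.trans (mul_le_mul_of_nonneg_right ?_ (hw1 q).1)
    exact (le_abs_self Cf).trans q2
  have hwF : ∀ F : Fin r → Ag (GH.PG Γ) × Bool, 0 ≤ wF w F := fun F =>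
    Finset.prod_nonneg fun i _ => (hw1 _).1
  have hC2V : 0 ≤ C2 * V ^ C2 := by positivity
  have hmain : ‖DD Q (mt (P.X0 Γ D k ξ) (GWin.sc a L)) r - DD Q (mt (P.X Γ D ξ) (GWin.sc a L)) r‖ ≤
      C2 * V ^ C2 * (ε * (C1 * V ^ C1)) := by
    unfold DD
    rw [← Finset.sum_sub_distrib]
    refine (norm_sum_le _ _).trans ?_
    calc ∑ F ∈ (Tu (Fin r) Q).filter Deg,
          ‖tm (fun _ => mt (P.X0 Γ D k ξ) (GWin.sc a L)) F -
            tm (fun _ => mt (P.X Γ D ξ) (GWin.sc a L)) F‖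
        ≤ ∑ F ∈ (Tu (Fin r) Q).filter Deg, C2 * V ^ C2 * (ε * wF w F) :=
          Finset.sum_le_sum fun F hF' => hterm F (Finset.mem_filter.1 hF').1
      _ ≤ ∑ F ∈ (Tu (Fin r) Q).filter Pair, C2 * V ^ C2 * (ε * wF w F) := by
          refine Finset.sum_le_sum_of_subset_of_nonneg ?_ fun F _ _ =>
            mul_nonneg hC2V (mul_nonneg hε0 (hwF F))
          intro F hF'
          rw [Finset.mem_filter] at hF' ⊢
          exact ⟨hF'.1, deg_pair hF'.2⟩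
      _ = C2 * V ^ C2 * (ε * ∑ F ∈ (Tu (Fin r) Q).filter Pair, wF w F) := by
          rw [Finset.mul_sum, Finset.mul_sum]
      _ ≤ C2 * V ^ C2 * (ε * (C1 * V ^ C1)) :=
          mul_le_mul_of_nonneg_left (mul_le_mul_of_nonneg_left (hps Q w V hWt) hε0) hC2V
  refine hmain.trans ?_
  have hA0 : 0 < A := by linarith
  have hV0 : 0 < V := by linarith
  have hVV : V ^ C2 * V ^ C1 = A ^ (C1 + C2) * (k : ℝ) ^ (C0 * (C1 + C2)) := by
    rw [← Real.rpow_add hV0, hV, Real.mul_rpow hA0.le (by positivity), ← Real.rpow_mul hk0,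
      add_comm C2 C1]
  have h9 : C2 * V ^ C2 * (ε * (C1 * V ^ C1)) =
      C2 * C1 * A ^ (C1 + C2) * (k : ℝ) ^ (C0 * (C1 + C2)) * ε := by
    calc C2 * V ^ C2 * (ε * (C1 * V ^ C1)) = C2 * C1 * (V ^ C2 * V ^ C1) * ε := by ring
      _ = _ := by
        rw [hVV]
        ring
  rw [h9]
  have h10 := hk3 k hk3'
  rw [← hε] at h10
  exact h10

end B35
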