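import Pool.Agent.LibB35.GA
import Pool.Agent.LibSW35.Mom

/-! Row GL2: the diagonal moments are Gaussian. MEDIUM, 50 min. No geometry. Plan. Let `PP` be the finite type of the
`p ∈ Q.image Prod.fst`. (i) `DD Q M r = ∫ θ : PP → ℝ, (∑ q ∈ Q, (M q * ex (2π (n+1) θ p)).re) ^ r` over the torus: `pow_expand`, `torus_mono`
(LibGW18/Tor; the identity `e3` in the proof of `time_torus2`, LibSW35/Tor), with `c = M`, `k q = q.2.1 + 1`, `π q = q.1`: `cf2` is `(1/2) cj`,
`expo = 0` for all `p` is `Deg`. (ii) Put together the two orientations: `∑ q ∈ Q, .. = ∑_{(p, n)} (2 M (p, n, true) ex ..).re`, and apply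
`ind_moments` as in the proof of `moments_fin2` (LibSW35/Mom: h2, h3, h4; `un_var`): the variance is `∑_{(p,n)} ‖2 M‖² / 2 = ∑ q ∈ Q, ‖M q‖²`,
the size of one summand is `∑_{q.1 = p} ‖M q‖ ≤ a`. -/

open MeasureTheory Set Filter Topology Mes

namespace B35

/-- The moments over the torus. -/
theorem GL2_torus {r : ℕ} {C : ℝ} (hC : ∀ (Ω : Type) [MeasurableSpace Ω] (μ : Measure Ω)
    [IsProbabilityMeasure μ] (ι : Type) (Y : ι → Ω → ℝ) (a : ℝ), ProbabilityTheory.iIndepFun Y μ →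
    (∀ i, Measurable (Y i)) → (∀ i ω, |Y i ω| ≤ a) → 0 ≤ a → a ≤ 1 →
    (∀ i, ∫ ω, Y i ω ∂μ = 0) → ∀ s : Finset ι,
    |(∫ ω, (∑ i ∈ s, Y i ω) ^ r ∂μ) - gaussMom (∑ i ∈ s, ∫ ω, Y i ω ^ 2 ∂μ) r| ≤
      C * (1 + √(∑ i ∈ s, ∫ ω, Y i ω ^ 2 ∂μ)) ^ r * a)
    {ι P : Type} [Fintype P] [DecidableEq P] (S : Finset ι) (π : ι → P) (k : ι → ℤ) (c : ι → ℂ)
    (a : ℝ) (ha0 : 0 ≤ a) (ha1 : a ≤ 1) (hk : ∀ q ∈ S, 1 ≤ k q)
    (hinj : ∀ q ∈ S, ∀ q' ∈ S, π q = π q' → k q = k q' → q = q')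
    (ha : ∀ p, ∑ q ∈ S with π q = p, ‖c q‖ ≤ a) :
    |(∫ θ : P → ℝ, (∑ q ∈ S, (c q * GWin.ex (2 * Real.pi * (k q * θ (π q)))).re) ^ r
        ∂(Measure.pi fun _ => GWin.un)) - gaussMom (∑ q ∈ S, ‖c q‖ ^ 2 / 2) r| ≤
      C * (1 + √(∑ q ∈ S, ‖c q‖ ^ 2 / 2)) ^ r * a := by
  obtain ⟨y, hy⟩ : ∃ y : P → ℝ → ℝ, ∀ p t, y p t =
      ∑ q ∈ S with π q = p, (c q * GWin.ex (2 * Real.pi * (k q * t))).re := ⟨_, fun _ _ => rfl⟩
  have hyc : ∀ p, Continuous (y p) := by
    intro p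
    have : y p = fun t => ∑ q ∈ S with π q = p, (c q * GWin.ex (2 * Real.pi * (k q * t))).re := by
      funext t
      exact hy p t
    rw [this]
    refine continuous_finsetSum _ fun q _ => ?_
    exact Complex.continuous_re.comp (continuous_const.mul (GWin.ex_cont.comp (by fun_prop)))
  have hev : ∀ (p : P) (g : ℝ → ℝ), Continuous g →
      ∫ θ : P → ℝ, g (θ p) ∂(Measure.pi fun _ => GWin.un) = ∫ t, g t ∂GWin.un := by
    intro p g hg
    have h2 := (measurePreserving_eval (fun _ : P => GWin.un) p).map_eq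
    have h3 := integral_map (μ := Measure.pi fun _ : P => GWin.un) (φ := Function.eval p)
      (measurable_pi_apply p).aemeasurable (f := g) (by
        rw [h2]
        exact hg.aestronglyMeasurable)
    rw [h2] at h3
    rw [h3]
  have h2 := hC (P → ℝ) (Measure.pi fun _ => GWin.un) P (fun p θ => y p (θ p)) a
    (ProbabilityTheory.iIndepFun_pi fun p => (hyc p).aemeasurable)
    (fun p => (hyc p).measurable.comp (measurable_pi_apply p))
    (fun p θ => by
      rw [hy]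
      refine (Finset.abs_sum_le_sum_abs _ _).trans (le_trans ?_ (ha p))
      refine Finset.sum_le_sum fun q _ => ?_
      refine (Complex.abs_re_le_norm _).trans ?_
      rw [norm_mul, GWin.ex_norm, mul_one]) ha0 ha1
    (fun p => by
      rw [hev p (y p) (hyc p)]
      simp_rw [hy]
      have hre : ∀ q, Integrable (fun t => (c q * GWin.ex (2 * Real.pi * (k q * t))).re) GWin.un := by
        intro q
        refine Integrable.of_bound (C := ‖c q‖) ?_ (Eventually.of_forall fun t => ?_)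
        · exact (Complex.continuous_re.comp (continuous_const.mul
            (GWin.ex_cont.comp (by fun_prop)))).aestronglyMeasurable
        · refine le_trans (Complex.abs_re_le_norm _) ?_
          rw [norm_mul, GWin.ex_norm, mul_one]
      rw [integral_finsetSum _ fun q _ => hre q]
      refine Finset.sum_eq_zero fun q hq => ?_
      have h3 := hk q (Finset.mem_filter.1 hq).1
      have h4 := GWin.un_re (c q) (k q)
      rw [if_neg (by omega)] at h4
      exact h4) Finset.univ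
  have h3 : ∀ θ : P → ℝ, ∑ p, y p (θ p) =
      ∑ q ∈ S, (c q * GWin.ex (2 * Real.pi * (k q * θ (π q)))).re := by
    intro θ
    rw [← Finset.sum_fiberwise S π]
    refine Finset.sum_congr rfl fun p _ => ?_
    rw [hy]
    refine Finset.sum_congr rfl fun q hq => ?_
    rw [(Finset.mem_filter.1 hq).2]
  have h4 : ∑ p, ∫ θ : P → ℝ, y p (θ p) ^ 2 ∂(Measure.pi fun _ => GWin.un) =
      ∑ q ∈ S, ‖c q‖ ^ 2 / 2 := by
    rw [← Finset.sum_fiberwise S π]
    refine Finset.sum_congr rfl fun p _ => ?_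
    rw [hev p (fun t => y p t ^ 2) ((hyc p).pow 2)]
    simp_rw [hy]
    refine GWin.un_var _ k c (fun q hq => hk q (Finset.mem_filter.1 hq).1) fun q hq q' hq' h5 => ?_
    have h6 := Finset.mem_filter.1 hq
    have h7 := Finset.mem_filter.1 hq'
    exact hinj q h6.1 q' h7.1 (h6.2.trans h7.2.symm) h5
  simp_rw [h3] at h2
  rw [h4] at h2
  exact h2

/-- The power of a trigonometric sum over the torus. -/
theorem GL2_expand {ι P : Type} [Fintype P] [DecidableEq P] (S : Finset ι) (π : ι → P) (k : ι → ℤ)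
    (c : ι → ℂ) (r : ℕ) :
    ((∫ θ : P → ℝ, (∑ q ∈ S, (c q * GWin.ex (2 * Real.pi * (k q * θ (π q)))).re) ^ r
      ∂(Measure.pi fun _ => GWin.un) : ℝ) : ℂ) =
      ∑ f ∈ Fintype.piFinset (fun _ : Fin r => S ×ˢ (Finset.univ : Finset Bool)),
        (∏ t, GWin.cf2 c (f t)) * (if ∀ p, GWin.expo π k f p = 0 then 1 else 0) := by
  rw [← integral_complex_ofReal]
  simp_rw [GWin.pow_expand]
  rw [integral_finsetSum]
  · refine Finset.sum_congr rfl fun f _ => ?_
    rw [integral_const_mul, GWin.torus_mono]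
  · intro f _
    refine Integrable.const_mul ?_ _
    refine Integrable.of_bound ?_ 1 (Eventually.of_forall fun θ => by rw [GWin.ex_norm])
    refine (GWin.ex_cont.comp ?_).aestronglyMeasurable
    fun_prop

theorem GL2_mem {P0 : Type} {I : Type} [Fintype I] {Q : Finset (Ag P0)} {F : I → Ag P0 × Bool} :
    F ∈ Tu I Q ↔ ∀ i, (F i).1 ∈ Q := by
  unfold Tu
  simp [Fintype.mem_piFinset]

theorem GL2_split {P0 β : Type} [AddCommMonoid β] (Q : Finset (Ag P0))
    (hQ : ∀ p n, (p, n, true) ∈ Q ↔ (p, n, false) ∈ Q) (f : Ag P0 → β)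
    (hf : ∀ p n, f (p, n, false) = f (p, n, true)) :
    ∑ q ∈ Q, f q = ∑ q ∈ Q with q.2.2 = true, (f q + f q) := by
  rw [← Finset.sum_filter_add_sum_filter_not Q (fun q => q.2.2 = true), Finset.sum_add_distrib]
  congr 1
  refine Finset.sum_nbij' (fun q => (q.1, q.2.1, true)) (fun q => (q.1, q.2.1, false)) ?_ ?_ ?_ ?_ ?_
  · rintro ⟨p, n, o⟩ hq
    obtain ⟨h1, h2⟩ := Finset.mem_filter.1 hq
    have h3 : o = false := by simpa using h2
    subst h3
    exact Finset.mem_filter.2 ⟨(hQ p n).2 h1, rfl⟩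
  · rintro ⟨p, n, o⟩ hq
    obtain ⟨h1, h2⟩ := Finset.mem_filter.1 hq
    have h3 : o = true := h2
    subst h3
    exact Finset.mem_filter.2 ⟨(hQ p n).1 h1, by simp⟩
  · rintro ⟨p, n, o⟩ hq
    obtain ⟨h1, h2⟩ := Finset.mem_filter.1 hq
    have h3 : o = false := by simpa using h2
    subst h3
    rfl
  · rintro ⟨p, n, o⟩ hq
    obtain ⟨h1, h2⟩ := Finset.mem_filter.1 hq
    have h3 : o = true := h2
    subst h3
    rfl
  · rintro ⟨p, n, o⟩ hq
    obtain ⟨h1, h2⟩ := Finset.mem_filter.1 hq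
    have h3 : o = false := by simpa using h2
    subst h3
    exact hf p n

open Classical in
/-- The primitive geodesic of `q`, as an element of a finite type. -/
noncomputable def GL2_pi {P0 : Type} (Q : Finset (Ag P0)) (q : Ag P0) :
    Option {p // p ∈ Q.image Prod.fst} :=
  if h : q.1 ∈ Q.image Prod.fst then some ⟨q.1, h⟩ else none

theorem GL2_pi_eq {P0 : Type} {Q : Finset (Ag P0)} {q : Ag P0} (hq : q ∈ Q)
    (x : {p // p ∈ (open Classical in Q.image Prod.fst)}) : GL2_pi Q q = some x ↔ q.1 = x.1 := by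
  classical
  have h : q.1 ∈ Q.image Prod.fst := Finset.mem_image_of_mem _ hq
  unfold GL2_pi
  rw [dif_pos h, Option.some.injEq]
  exact Subtype.ext_iff

theorem GL2_pi_ne {P0 : Type} {Q : Finset (Ag P0)} {q : Ag P0} (hq : q ∈ Q) :
    GL2_pi Q q ≠ none := by
  classical
  have h : q.1 ∈ Q.image Prod.fst := Finset.mem_image_of_mem _ hq
  unfold GL2_pi
  rw [dif_pos h]
  exact Option.some_ne_none _

open Classical in
theorem GL2_deg {P0 : Type} {Q : Finset (Ag P0)} {r : ℕ} {F : Fin r → Ag P0 × Bool}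
    (hF : ∀ i, (F i).1 ∈ Q) :
    (∀ p, GWin.expo (GL2_pi Q) (fun q => (q.2.1 : ℤ) + 1) F p = 0) ↔ Deg F := by
  have key : ∀ x : {p // p ∈ Q.image Prod.fst},
      ((GWin.expo (GL2_pi Q) (fun q => (q.2.1 : ℤ) + 1) F (some x) : ℤ) : ℝ) =
        ∑ i with (F i).1.1 = x.1, sgn (F i).2 * ((F i).1.2.1 + 1) := by
    intro x
    unfold GWin.expo
    rw [Finset.sum_filter]
    push_cast
    refine Finset.sum_congr rfl fun i _ => ?_
    have h1 := GL2_pi_eq (hF i) x
    by_cases h2 : (F i).1.1 = x.1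
    · rw [if_pos h2, if_pos (h1.2 h2)]
      unfold GWin.sg sgn
      split_ifs <;> simp
    · rw [if_neg h2, if_neg fun h3 => h2 (h1.1 h3)]
  constructor
  · intro h p
    by_cases hp : p ∈ Q.image Prod.fst
    · have h1 := key ⟨p, hp⟩
      rw [h (some ⟨p, hp⟩), Int.cast_zero] at h1
      exact h1.symm
    · refine Finset.sum_eq_zero fun i hi => ?_
      exfalso
      apply hp
      have h1 := (Finset.mem_filter.1 hi).2
      rw [← h1]
      exact Finset.mem_image_of_mem _ (hF i)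
  · intro h p
    rcases p with _ | x
    · unfold GWin.expo
      exact Finset.sum_eq_zero fun i _ => if_neg (GL2_pi_ne (hF i))
    · have h1 := key x
      rw [h x.1] at h1
      exact_mod_cast h1

open Classical in
theorem GL2_DD {P0 : Type} (Q : Finset (Ag P0)) (M : Ag P0 → ℂ) (r : ℕ) :
    DD Q M r = ((∫ θ : Option {p // p ∈ Q.image Prod.fst} → ℝ,
      (∑ q ∈ Q, (M q * GWin.ex (2 * Real.pi * ((((q.2.1 : ℤ) + 1 : ℤ) : ℝ) * θ (GL2_pi Q q)))).re) ^ r
      ∂(Measure.pi fun _ => GWin.un) : ℝ) : ℂ) := by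
  rw [GL2_expand Q (GL2_pi Q) (fun q => (q.2.1 : ℤ) + 1) M r]
  unfold DD
  rw [Finset.sum_filter]
  have hTu : Tu (Fin r) Q =
      Fintype.piFinset (fun _ : Fin r => Q ×ˢ (Finset.univ : Finset Bool)) := by
    ext F
    rw [GL2_mem]
    simp [Fintype.mem_piFinset]
  rw [hTu]
  refine Finset.sum_congr rfl fun F hF => ?_
  have hF' : ∀ i, (F i).1 ∈ Q := by
    rw [← hTu] at hF
    exact GL2_mem.1 hF
  have h1 := GL2_deg hF'
  have h2 : tm (fun _ => M) F = ∏ t, GWin.cf2 M (F t) := by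
    unfold tm
    refine Finset.prod_congr rfl fun i _ => ?_
    unfold GWin.cf2 cj
    split_ifs <;> ring
  by_cases h : Deg F
  · rw [if_pos h, if_pos (h1.2 h), mul_one, h2]
  · rw [if_neg h, if_neg fun h3 => h (h1.1 h3), mul_zero]

open Classical in
theorem DD_gauss (r : ℕ) : ∃ C : ℝ, 0 ≤ C ∧ ∀ (P0 : Type) (Q : Finset (Ag P0)) (M : Ag P0 → ℂ)
    (a : ℝ), (∀ p n, (p, n, true) ∈ Q ↔ (p, n, false) ∈ Q) →
    (∀ p n, M (p, n, false) = M (p, n, true)) → 0 ≤ a → a ≤ 1 →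
    (∀ p, ∑ q ∈ Q with q.1 = p, ‖M q‖ ≤ a) →
    ‖DD Q M r - (gaussMom (∑ q ∈ Q, ‖M q‖ ^ 2) r : ℂ)‖ ≤
      C * (1 + √(∑ q ∈ Q, ‖M q‖ ^ 2)) ^ r * a := by
  obtain ⟨C, hC0, hC⟩ := GWin.ind_moments r
  refine ⟨C, hC0, fun P0 Q M a hQ hM ha0 ha1 ha => ?_⟩
  have h1 := GL2_torus hC (Q.filter fun q => q.2.2 = true) (GL2_pi Q) (fun q => (q.2.1 : ℤ) + 1)
    (fun q => 2 * M q) a ha0 ha1 (fun q _ => by omega)
    (fun q hq q' hq' h2 h3 => by
      obtain ⟨h4, h5⟩ := Finset.mem_filter.1 hq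
      obtain ⟨h6, h7⟩ := Finset.mem_filter.1 hq'
      have h8 : q'.1 ∈ Q.image Prod.fst := Finset.mem_image_of_mem _ h6
      have h9 : GL2_pi Q q' = some ⟨q'.1, h8⟩ := (GL2_pi_eq h6 ⟨q'.1, h8⟩).2 rfl
      have h10 : q.1 = q'.1 := (GL2_pi_eq h4 ⟨q'.1, h8⟩).1 (h2.trans h9)
      have h11 : q.2.1 = q'.2.1 := by
        have h12 : (q.2.1 : ℤ) + 1 = (q'.2.1 : ℤ) + 1 := h3
        omega
      exact Prod.ext h10 (Prod.ext h11 (h5.trans h7.symm)))
    (fun p => by
      have h2 : ∑ q ∈ Q.filter (fun q => q.2.2 = true) with GL2_pi Q q = p, ‖(2 : ℂ) * M q‖ =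
          ∑ q ∈ Q, if GL2_pi Q q = p then ‖M q‖ else 0 := by
        rw [GL2_split Q hQ (fun q => if GL2_pi Q q = p then ‖M q‖ else 0)
          (fun p' n => by
            rw [hM]
            rfl), Finset.sum_filter]
        refine Finset.sum_congr rfl fun q _ => ?_
        rw [norm_mul, Complex.norm_ofNat]
        split_ifs <;> ring
      rw [h2]
      rcases p with _ | x
      · refine le_trans (le_of_eq (Finset.sum_eq_zero fun q hq => ?_)) ha0
        exact if_neg (GL2_pi_ne hq)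
      · refine le_trans (le_of_eq ?_) (ha x.1)
        rw [Finset.sum_filter]
        refine Finset.sum_congr rfl fun q hq => ?_
        have h3 := GL2_pi_eq hq x
        by_cases h4 : q.1 = x.1
        · rw [if_pos h4, if_pos (h3.2 h4)]
        · rw [if_neg h4, if_neg fun h5 => h4 (h3.1 h5)])
  have h2 : ∑ q ∈ Q with q.2.2 = true, ‖(2 : ℂ) * M q‖ ^ 2 / 2 = ∑ q ∈ Q, ‖M q‖ ^ 2 := by
    rw [GL2_split Q hQ (fun q => ‖M q‖ ^ 2) (fun p n => by rw [hM])]
    refine Finset.sum_congr rfl fun q _ => ?_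
    rw [norm_mul, Complex.norm_ofNat]
    ring
  have h3 : ∀ θ : Option {p // p ∈ Q.image Prod.fst} → ℝ,
      ∑ q ∈ Q with q.2.2 = true,
        ((2 : ℂ) * M q * GWin.ex (2 * Real.pi * ((((q.2.1 : ℤ) + 1 : ℤ) : ℝ) * θ (GL2_pi Q q)))).re =
      ∑ q ∈ Q, (M q * GWin.ex (2 * Real.pi * ((((q.2.1 : ℤ) + 1 : ℤ) : ℝ) * θ (GL2_pi Q q)))).re := by
    intro θ
    rw [GL2_split Q hQ (fun q => (M q * GWin.ex (2 * Real.pi *
      ((((q.2.1 : ℤ) + 1 : ℤ) : ℝ) * θ (GL2_pi Q q)))).re) (fun p n => by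
        rw [hM]
        rfl)]
    refine Finset.sum_congr rfl fun q _ => ?_
    rw [← Complex.add_re]
    congr 1
    ring
  rw [h2] at h1
  simp_rw [h3] at h1
  rw [GL2_DD, ← Complex.ofReal_sub, Complex.norm_real, Real.norm_eq_abs]
  exact h1

/-- Elements of `Q` with `M q = 0` do not contribute (`r` arbitrary). -/
theorem DD_supp {P0 : Type} {Q Q' : Finset (Ag P0)} {M : Ag P0 → ℂ} (h : Q ⊆ Q')
    (h0 : ∀ q ∈ Q', q ∉ Q → M q = 0) (r : ℕ) : DD Q' M r = DD Q M r := by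
  classical
  unfold DD
  symm
  refine Finset.sum_subset ?_ ?_
  · intro F hF
    obtain ⟨h1, h2⟩ := Finset.mem_filter.1 hF
    exact Finset.mem_filter.2 ⟨GL2_mem.2 fun i => h (GL2_mem.1 h1 i), h2⟩
  · intro F hF hF'
    obtain ⟨h1, h2⟩ := Finset.mem_filter.1 hF
    have h3 : ¬ ∀ i, (F i).1 ∈ Q := fun h4 => hF' (Finset.mem_filter.2 ⟨GL2_mem.2 h4, h2⟩)
    push Not at h3
    obtain ⟨i, hi⟩ := h3
    unfold tm
    refine Finset.prod_eq_zero (Finset.mem_univ i) ?_
    show 1 / 2 * cj (F i).2 (M (F i).1) = 0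
    rw [h0 _ (GL2_mem.1 h1 i) hi]
    unfold cj
    split_ifs <;> simp

theorem DD_zero {P0 : Type} (Q : Finset (Ag P0)) (M : Ag P0 → ℂ) : DD Q M 0 = 1 := by
  classical
  unfold DD
  have h1 : (Tu (Fin 0) Q).filter Deg = {Fin.elim0} := by
    ext F
    rw [Finset.mem_filter, Finset.mem_singleton, GL2_mem]
    constructor
    · intro _
      exact Subsingleton.elim _ _
    · intro _
      exact ⟨fun i => i.elim0, fun p => Finset.sum_eq_zero fun i _ => i.elim0⟩
  have h2 : ∀ F : Fin 0 → Ag P0 × Bool, tm (fun _ => M) F = 1 := fun F => by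
    unfold tm
    exact Finset.prod_of_isEmpty _
  rw [Finset.sum_congr rfl fun F _ => h2 F, Finset.sum_const, nsmul_eq_mul, mul_one]
  convert Nat.cast_one
  rw [h1]
  exact Finset.card_singleton _

end B35
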