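import Pool.Agent.LibB35.GQ1a

/-! Rows Q1 (dictionary between `Cg Γ` and the classes). SHORT/MEDIUM. `GD.grpData` (with `curv_bounds`) gives the
`GH.GrpData` of `tl μ`, `trg μ`.
Q1a `cls_q`: `gpr q` is primitive (`GH.rep_prim`; the inverse as in `GH.ellp_inv`), so `≠ 1` (`GH.prim_ne`); `GD.axis_exists` for
`gpr q`, so the `if` in `ax` is true; `tl` of the inverse: `.inv`; `GD.axis_pow` with `k = n + 1`, `GD.trg_eq`; `cent`: `GH.root_prim`
(`Subgroup.mem_zpowers_iff`), `gel q ≠ 1` by `GH.one_of_pow`.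
Q1b `cls_uni`: existence `GH.main_surj` (orientation `true`: `rep p ^ n`, `false`: its inverse `= (rep p)⁻¹ ^ n`), uniqueness
`GH.main_inj` with exponents `± n` (as in `GH.dict`).
Q1c `sum_cls`: `Finset.sum_comm`/`sum_fiberwise` with Q1b. Q1d `ln_le`: `displ_ge` (LibBR73/AN9) with Q1a (`tl`/`ln`).
Q1e `Sg_eq`: `IKN = 0` outside `near Γ D m ρ` (`TR.Kx_int_zero`; better: outside `S` by the same proof, `Kx_zero`), then
`finsum_mem_eq_sum_of_inter_support_eq` or as in `AN11`. Q1f: `Sh_fin`. -/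

open MeasureTheory Set Filter Topology
open scoped ContDiff unitInterval

namespace B35

open BGS BR

variable {Γ : Type} [Group Γ] [MulAction Γ Pl] {D : Set Pl} {μ : Pl → Co}

/-- Row Q1e. -/
theorem Sg_eq (hX : Surface Γ D) (hO : Ori Γ) (m' : Mt Γ D) (N : ℕ) {b : ℝ → ℂ} {ρ M : ℝ}
    (hρ : 0 ≤ ρ) (hb : Amp b ρ M) (τ : ℝ) {S : Finset Γ} (h1 : (1 : Γ) ∉ S)
    (hS : ∀ γ : Γ, γ ≠ 1 → (∃ x ∈ closure D, BR.ds m'.1.1 x (γ • x) ≤ ρ) → γ ∈ S) :
    Sg (Γ := Γ) D m'.1.1 N b τ = ∑ γ ∈ S, IKN D m'.1.1 N (osc b τ) γ := by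
  have hz : ∀ γ : Γ, γ ≠ 1 → γ ∉ S → IKN D m'.1.1 N (osc b τ) γ = 0 := by
    intro γ hγ hγS
    unfold IKN
    refine setIntegral_eq_zero_of_forall_eq_zero fun x hx => ?_
    have hv : ρ < eu (Vx m'.1.1 x (γ • x)) := by
      by_contra h2
      exact hγS (hS γ hγ ⟨x, subset_closure hx, not_lt.1 h2⟩)
    have h2 : KK (Gx m'.1.1 x) N (osc b τ) (Vx m'.1.1 x (γ • x)) =
        ∑ j ∈ Finset.range (N + 1), TR.tj m'.1.1 (osc b τ) γ j x := rfl
    rw [h2, Finset.sum_eq_zero, zero_mul]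
    intro j _
    exact TR.tj_zero m'.1.1 (osc_smooth hb τ) hρ (TR.osc_supp hb τ) γ j hv
  unfold Sg
  refine finsum_mem_eq_sum_of_inter_support_eq _ ?_
  ext γ
  constructor
  · rintro ⟨h2, h3⟩
    refine ⟨?_, h3⟩
    by_contra h4
    exact h3 (hz γ h2 h4)
  · rintro ⟨h2, h3⟩
    refine ⟨?_, h3⟩
    rintro rfl
    exact h1 h2

/-- Row Q1f. -/
theorem S_fin (hX : Surface Γ D) (hO : Ori Γ) (hm : HM Γ μ) {ρ : ℝ} (hρ : 0 ≤ ρ) :
    ∃ S : Finset Γ, (1 : Γ) ∉ S ∧ ∀ γ : Γ, γ ∈ S ↔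
      γ ≠ 1 ∧ ∃ x ∈ closure D, BR.ds μ x (γ • x) ≤ ρ := by
  obtain ⟨C, hC⟩ := Sh_fin (D := D) hX hO hm
  have hfin := (hC ρ hρ).1
  refine ⟨hfin.toFinset, ?_, fun γ => ?_⟩
  · rw [hfin.mem_toFinset]
    exact fun h => h.1 rfl
  · rw [hfin.mem_toFinset]
    rfl

/-- Row Q1g. The geodesic of the inverse: the same length, weight. -/
theorem ln_or (μ : Pl → Co) (p : GH.PG Γ) (n : ℕ) (o : Bool) :
    ln μ (p, n, o) = ln μ (p, n, true) := rfl

theorem wg_or (hX : Surface Γ D) (hO : Ori Γ) (hm : HM Γ μ) (p : GH.PG Γ) (n : ℕ) (o : Bool) :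
    wg μ (p, n, o) = wg μ (p, n, true) := by
  obtain ⟨a, b, ha, -, hk⟩ := curv_bounds hX hm
  have hG := GD.grpData hX hO hm ha fun z => (hk z).2
  cases o with
  | true => rfl
  | false =>
    have h1 : gel (p, n, false) = (gel (p, n, true))⁻¹ := by
      show ((GH.rep p)⁻¹) ^ (n + 1) = (GH.rep p ^ (n + 1))⁻¹
      rw [inv_pow]
    unfold wg
    rw [h1, (hG.inv _).2]

/-- Row Q1h. Finiteness. -/
theorem Cs_mem (hX : Surface Γ D) (hO : Ori Γ) (hm : HM Γ μ) {t : ℝ} {q : Cg Γ} :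
    q ∈ Cs μ t ↔ ln μ q ≤ t := by
  obtain ⟨a, b, ha, -, hk⟩ := curv_bounds hX hm
  have hG := GD.grpData hX hO hm ha fun z => (hk z).2
  have hok := GH.ok_geo hG
  have hlen : ∀ p : GH.PG Γ, (GH.geo (BGM.tl μ) (GD.trg μ) (Γ := Γ)).len p = lp μ p :=
    fun _ => rfl
  have hpos : ∀ p : GH.PG Γ, 0 < lp μ p := fun p => hok.pos p
  have hF : {p : GH.PG Γ | lp μ p ≤ t}.Finite := hok.fin t
  have hfin : {q : Cg Γ | ln μ q ≤ t}.Finite := by
    refine (hF.biUnion (t := fun p => (fun x : ℕ × Bool => ((p, x) : Cg Γ)) ''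
      ((Set.Iic ⌊t / lp μ p⌋₊) ×ˢ (Set.univ : Set Bool))) fun p _ => ?_).subset ?_
    · exact ((Set.finite_Iic _).prod Set.finite_univ).image _
    · rintro ⟨p, n, o⟩ hq
      have h1 : ((n : ℝ) + 1) * lp μ p ≤ t := hq
      have h2 := hpos p
      have h3 : (0 : ℝ) ≤ n := Nat.cast_nonneg n
      refine Set.mem_biUnion (show p ∈ {p : GH.PG Γ | lp μ p ≤ t} from ?_) ?_
      · show lp μ p ≤ t
        nlinarith
      · refine ⟨(n, o), ⟨?_, Set.mem_univ _⟩, rfl⟩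
        show n ≤ ⌊t / lp μ p⌋₊
        refine Nat.le_floor ?_
        rw [le_div_iff₀ h2]
        nlinarith
  unfold Cs
  rw [dif_pos hfin, hfin.mem_toFinset]
  rfl

/-- Row Q1i. Amplitudes. `sc a L` and its derivatives: `iteratedDeriv k (sc a L) t = (2 / L) (1 / L) ^ k a^(k) (t / L)`. -/
theorem amp_sc {a : ℝ → ℂ} (ha : FG33.IsAmp a) {R : ℝ} (hR : 0 ≤ R) (hR' : ∀ s, R < |s| → a s = 0)
    (n : ℕ) : ∃ M : ℝ, 1 ≤ M ∧ ∀ L : ℝ, 1 ≤ L → BE73.AmpN n (GWin.sc a L) (R * L) M ∧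
      BE73.AmpN n (GWin.sc a L) (R * L + 1) M ∧
      (∀ s t, ‖GWin.sc a L s - GWin.sc a L t‖ ≤ M * |s - t|) := by
  have h1 : ∀ j : ℕ, ∃ B : ℝ, ∀ t, ‖iteratedDeriv j a t‖ ≤ B := by
    intro j
    have hc : Continuous (iteratedDeriv j a) :=
      ha.smooth.continuous_iteratedDeriv j (by exact_mod_cast le_top)
    have hs : HasCompactSupport (iteratedDeriv j a) := by
      have h2 := ha.supp.iteratedFDeriv (𝕜 := ℝ) j
      have h3 : iteratedDeriv j a = fun t => iteratedFDeriv ℝ j a t (fun _ => 1) := by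
        ext t; rw [iteratedDeriv_eq_iteratedFDeriv]
      rw [h3]
      exact h2.comp_left (g := fun m => m (fun _ => (1 : ℝ))) (by simp)
    obtain ⟨x, hx⟩ := hc.norm.exists_forall_ge_of_hasCompactSupport hs.norm
    exact ⟨_, hx⟩
  choose B hB using h1
  have hB0 : ∀ j, 0 ≤ B j := fun j => (norm_nonneg _).trans (hB j 0)
  obtain ⟨M, hM⟩ : ∃ M, M = 2 * ∑ j ∈ Finset.range (n + 5), B j + 1 := ⟨_, rfl⟩
  have hsum : 0 ≤ ∑ j ∈ Finset.range (n + 5), B j := Finset.sum_nonneg fun j _ => hB0 j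
  refine ⟨M, by linarith, fun L hL => ?_⟩
  have hL0 : 0 < L := by linarith
  have hbd : ∀ j < n + 5, ∀ t, ‖iteratedDeriv j (GWin.sc a L) t‖ ≤ M := by
    intro j hj t
    have e1 : GWin.sc a L = fun t => ((2 / L : ℝ) : ℂ) * (fun s => a (L⁻¹ * s)) t := by
      ext t
      unfold GWin.sc
      rw [div_eq_inv_mul t L]
    have e2 : iteratedDeriv j (GWin.sc a L) t = ((2 / L : ℝ) : ℂ) * ((L⁻¹ ^ j : ℝ) •
        iteratedDeriv j a (L⁻¹ * t)) := by
      have hcd : ContDiff ℝ j a := ha.smooth.of_le (by exact_mod_cast le_top)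
      rw [e1, iteratedDeriv_const_mul]
      · congr 1
        have := congrFun (iteratedDeriv_comp_const_smul hcd L⁻¹) t
        simpa only [smul_eq_mul] using this
      · exact (hcd.comp (contDiff_const.mul contDiff_id)).contDiffAt
    rw [e2, norm_mul, norm_smul, Complex.norm_real, Real.norm_of_nonneg (by positivity),
      Real.norm_of_nonneg (by positivity)]
    have h2 : 2 / L ≤ 2 := by rw [div_le_iff₀ hL0]; linarith
    have h3 : L⁻¹ ^ j ≤ 1 := pow_le_one₀ (by positivity) (inv_le_one_of_one_le₀ hL)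
    have h4 := hB j (L⁻¹ * t)
    have h5 : B j ≤ ∑ j ∈ Finset.range (n + 5), B j :=
      Finset.single_le_sum (fun j _ => hB0 j) (Finset.mem_range.2 hj)
    calc 2 / L * (L⁻¹ ^ j * ‖iteratedDeriv j a (L⁻¹ * t)‖) ≤ 2 * (1 * B j) := by gcongr
      _ ≤ _ := by linarith
  have hsm : ContDiff ℝ ∞ (GWin.sc a L) := by
    unfold GWin.sc
    exact contDiff_const.mul (ha.smooth.comp (contDiff_id.div_const L))
  have hconj : ∀ t, GWin.sc a L (-t) = (starRingEnd ℂ) (GWin.sc a L t) := by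
    intro t
    unfold GWin.sc
    rw [map_mul, Complex.conj_ofReal, ← ha.herm, neg_div]
  have hsupp : ∀ t, R * L < |t| → GWin.sc a L t = 0 := by
    intro t ht
    unfold GWin.sc
    rw [hR', mul_zero]
    rw [abs_div, abs_of_pos hL0, lt_div_iff₀ hL0]
    exact ht
  refine ⟨⟨⟨hsm, hconj, hsupp, fun k hk t => hbd k (by omega) t⟩, fun k hk t =>
    hbd k (by omega) t⟩, ⟨⟨hsm, hconj, fun t ht => hsupp t (by linarith), fun k hk t =>
    hbd k (by omega) t⟩, fun k hk t => hbd k (by omega) t⟩, fun s t => ?_⟩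
  have h6 := Convex.norm_image_sub_le_of_norm_deriv_le (f := GWin.sc a L) (C := M)
    (s := Set.univ) (x := t) (y := s) (fun x _ => hsm.differentiable (by simp) x)
    (fun x _ => by
      have := hbd 1 (by omega) x
      rwa [iteratedDeriv_one] at this) convex_univ (Set.mem_univ _) (Set.mem_univ _)
  exact h6

end B35
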