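import Pool.Agent.LibB35.GL2
import Pool.Agent.LibB35.GQ1b
import Pool.Agent.LibGWa.U5
import Pool.Agent.LibSR85Z.Z1

/-! Row GL3 (cites GL2, Q1): the diagonal moments of one metric tend to the Gaussian moments. MEDIUM, 50 min.
Plan. `G = GH.geo (BGM.tl μ) (GD.trg μ)`, `GH.ok_geo (GD.grpData ..)`, `hSR = SR85Z.sumrule hX hO m'`. `GWin.amp G a L p n = 2 * mt μ (sc a L) (p, n, o)`
(`wg_or`, `ln_or`; `len p = lp μ p`, `tw p (n+1) = trg (rep p ^ (n+1)) - 2`). With `Q0 = Cs μ (R L)`: `DD_supp` (for `ln μ q > R L` the amplitude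
vanishes), `DD_gauss` with `a = C1 / L` (`GWin.amp_sum_le`: `∑_n ‖amp‖ ≤ C1 / L`), the variance is `GWin.Vr G a R L` (`Sf_sum`, see `osc_moments` e2 in
LibGWa/U5) and tends to `vg a` (`GWin.Vr_tendsto`), `gaussMom_cont`. -/

open MeasureTheory Set Filter Topology Mes
open scoped ContDiff unitInterval

namespace B35

open BGS BR

variable {Γ : Type} [Group Γ] [MulAction Γ Pl] {D : Set Pl}

private theorem GL3_mt (hX : Surface Γ D) (hO : Ori Γ) {μ : Pl → Co} (hm : HM Γ μ) (a : ℝ → ℂ)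
    (L : ℝ) (p : GH.PG Γ) (n : ℕ) (o : Bool) :
    mt μ (GWin.sc a L) (p, n, o) = 1 / 2 * GWin.amp (GH.geo (BGM.tl μ) (GD.trg μ)) a L p n := by
  have h1 : wg μ (p, n, true) = BGM.tl μ (GH.rep p) / √(GD.trg μ (GH.rep p ^ (n + 1)) - 2) := by
    unfold wg lp gel gpr
    rw [if_pos rfl]
  unfold mt
  rw [wg_or hX hO hm, ln_or, h1]
  unfold ln lp GWin.sc GWin.amp
  show ((BGM.tl μ (GH.rep p) / √(GD.trg μ (GH.rep p ^ (n + 1)) - 2) : ℝ) : ℂ) *
    (((2 / L : ℝ) : ℂ) * a (((n : ℝ) + 1) * BGM.tl μ (GH.rep p) / L)) =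
    1 / 2 * (((4 / L * (BGM.tl μ (GH.rep p) / √(GD.trg μ (GH.rep p ^ (n + 1)) - 2)) : ℝ) : ℂ) *
      a (((n : ℝ) + 1) * BGM.tl μ (GH.rep p) / L))
  push_cast
  ring

private theorem GL3_norm (hX : Surface Γ D) (hO : Ori Γ) {μ : Pl → Co} (hm : HM Γ μ) (a : ℝ → ℂ)
    (L : ℝ) (p : GH.PG Γ) (n : ℕ) (o : Bool) :
    ‖mt μ (GWin.sc a L) (p, n, o)‖ = 1 / 2 * ‖GWin.amp (GH.geo (BGM.tl μ) (GD.trg μ)) a L p n‖ := by
  rw [GL3_mt hX hO hm, norm_mul]
  congr 1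
  norm_num

open Classical in
private theorem GL3_sub {G : GWin.Geo} {κ : ℝ} (h : GWin.Ok G κ) {t : ℝ} {p : G.P} {n : ℕ}
    (hq : ((n : ℝ) + 1) * G.len p ≤ t) : p ∈ GWin.ball G t ∧ n ∈ Finset.range (GWin.KK G t) := by
  have h1 := h.pos p
  have h2 : (0 : ℝ) ≤ n := Nat.cast_nonneg n
  constructor
  · rw [GWin.mem_ball h]
    nlinarith
  · rw [Finset.mem_range]
    have h3 := GWin.KK_spec h t p
    have h4 : ((n : ℝ) + 1) * G.len p < ((GWin.KK G t : ℝ) + 1) * G.len p := hq.trans_lt h3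
    have h5 := lt_of_mul_lt_mul_right h4 h1.le
    have h6 : (n : ℝ) < GWin.KK G t := by linarith
    exact_mod_cast h6

open Classical in
private theorem GL3_sum {G : GWin.Geo} {κ : ℝ} (h : GWin.Ok G κ) {t : ℝ}
    {Q : Finset (G.P × ℕ × Bool)} (hQ : ∀ q, q ∈ Q ↔ ((q.2.1 : ℝ) + 1) * G.len q.1 ≤ t)
    (F : G.P → ℕ → ℝ) (hF : ∀ (p : G.P) (n : ℕ), t < ((n : ℝ) + 1) * G.len p → F p n = 0) :
    ∑ q ∈ Q, F q.1 q.2.1 =
      ∑ p ∈ GWin.ball G t, ∑ n ∈ Finset.range (GWin.KK G t), 2 * F p n := by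
  have h1 : Q ⊆ GWin.ball G t ×ˢ (Finset.range (GWin.KK G t) ×ˢ (Finset.univ : Finset Bool)) := by
    intro q hq
    have h2 := GL3_sub h ((hQ q).1 hq)
    rw [Finset.mem_product, Finset.mem_product]
    exact ⟨h2.1, h2.2, Finset.mem_univ _⟩
  rw [Finset.sum_subset h1 fun q _ hq => hF _ _ (not_le.1 fun h2 => hq ((hQ q).2 h2)),
    Finset.sum_product]
  refine Finset.sum_congr rfl fun p _ => ?_
  rw [Finset.sum_product]
  refine Finset.sum_congr rfl fun n _ => ?_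
  show ∑ _o : Bool, F p n = _
  rw [Finset.sum_const, Finset.card_univ, Fintype.card_bool, nsmul_eq_mul]
  norm_num

theorem DD_lim (hX : Surface Γ D) (hO : Ori Γ) (m' : Mt Γ D) {a : ℝ → ℂ} (ha : FG33.IsAmp a) {R : ℝ}
    (hR : 0 ≤ R) (hR' : ∀ s, R < |s| → a s = 0) (r : ℕ) {ε : ℝ} (hε : 0 < ε) : ∃ Λ : ℝ,
    ∀ L : ℝ, Λ ≤ L → ∀ Q : Finset (Cg Γ), (∀ q : Cg Γ, ln m'.1.1 q ≤ R * L → q ∈ Q) →
      ‖DD Q (mt m'.1.1 (GWin.sc a L)) r - (gaussMom (GWin.vg a) r : ℂ)‖ ≤ ε := by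
  classical
  obtain ⟨μ, hμ⟩ : ∃ μ : Pl → Co, μ = m'.1.1 := ⟨_, rfl⟩
  have hm : HM Γ μ := hμ ▸ hm_of_Mt m'
  have hSR : GWin.SumRule (GH.geo (BGM.tl μ) (GD.trg μ) (Γ := Γ)) := hμ ▸ SR85Z.sumrule hX hO m'
  rw [← hμ]
  obtain ⟨a', b', ha', -, hk⟩ := curv_bounds hX hm
  have h := GH.ok_geo (GD.grpData hX hO hm ha' fun z => (hk z).2)
  obtain ⟨G, hG⟩ : ∃ G : GWin.Geo, G = GH.geo (BGM.tl μ) (GD.trg μ) (Γ := Γ) := ⟨_, rfl⟩
  obtain ⟨A, hA⟩ : ∃ A, ∀ s, ‖a s‖ ≤ A := by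
    obtain ⟨x, hx⟩ := ha.smooth.continuous.norm.exists_forall_ge_of_hasCompactSupport ha.supp.norm
    exact ⟨_, hx⟩
  have haR : ∀ s, R ≤ s → a s = 0 := by
    intro s hs
    have h1 : Tendsto a (𝓝[>] s) (𝓝 (a s)) :=
      (ha.smooth.continuous.tendsto s).mono_left nhdsWithin_le_nhds
    have h2 : Tendsto a (𝓝[>] s) (𝓝 0) := by
      refine tendsto_const_nhds.congr' ?_
      filter_upwards [self_mem_nhdsWithin] with t ht
      have h3 : s < t := ht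
      refine (hR' t ?_).symm
      rw [abs_of_pos (by linarith)]
      linarith
    exact tendsto_nhds_unique h1 h2
  obtain ⟨C, hC0, hC⟩ := DD_gauss r
  obtain ⟨C1, hC1, h1⟩ := GWin.amp_sum_le h hA
  have hV := GWin.Vr_tendsto h hSR (ha.smooth.of_le (by exact_mod_cast le_top)) hR haR hA
  rw [← hG] at h h1 hV
  have hGm : Tendsto (fun L => gaussMom (GWin.Vr G a R L) r) atTop
      (𝓝 (gaussMom (GWin.vg a) r)) := ((GWin.gaussMom_cont r).tendsto _).comp hV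
  have hE : Tendsto (fun L => C * (1 + √(GWin.Vr G a R L)) ^ r * (C1 / L)) atTop (𝓝 0) := by
    have h3 : Tendsto (fun L : ℝ => C1 / L) atTop (𝓝 0) := tendsto_const_nhds.div_atTop tendsto_id
    have h5 : Tendsto (fun L => √(GWin.Vr G a R L)) atTop (𝓝 (√(GWin.vg a))) :=
      (Real.continuous_sqrt.tendsto _).comp hV
    have h4 := (((h5.const_add 1).pow r).const_mul C).mul h3
    simpa using h4
  have hev : ∀ᶠ L in atTop, C * (1 + √(GWin.Vr G a R L)) ^ r * (C1 / L) < ε / 2 ∧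
      |gaussMom (GWin.Vr G a R L) r - gaussMom (GWin.vg a) r| < ε / 2 :=
    (hE.eventually (gt_mem_nhds (half_pos hε))).and
      ((Metric.tendsto_nhds.1 hGm (ε / 2) (half_pos hε)).mono fun L hL => by
        rwa [Real.dist_eq] at hL)
  obtain ⟨Λ, hΛ⟩ := eventually_atTop.1 hev
  refine ⟨max Λ (max 1 C1), fun L hL Q hQ => ?_⟩
  have hL1 : 1 ≤ L := ((le_max_left 1 C1).trans (le_max_right _ _)).trans hL
  have hLC : C1 ≤ L := ((le_max_right 1 C1).trans (le_max_right _ _)).trans hL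
  have hL0 : 0 < L := by linarith
  obtain ⟨he1, he2⟩ := hΛ L ((le_max_left _ _).trans hL)
  have hmem : ∀ q : Cg Γ, q ∈ Cs μ (R * L) ↔ ln μ q ≤ R * L := fun q => Cs_mem hX hO hm
  have hz : ∀ q : Cg Γ, R * L < ln μ q → mt μ (GWin.sc a L) q = 0 := by
    intro q hq
    unfold mt GWin.sc
    rw [haR (ln μ q / L) ((le_div_iff₀ hL0).2 hq.le), mul_zero, mul_zero]
  have hsub : Cs (Γ := Γ) μ (R * L) ⊆ Q := fun q hq => hQ q ((hmem q).1 hq)
  rw [DD_supp hsub (fun q _ hq => hz q (not_le.1 fun h2 => hq ((hmem q).2 h2))) r]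
  have hnm : ∀ (p : GH.PG Γ) (n : ℕ) (o : Bool), ‖mt μ (GWin.sc a L) (p, n, o)‖ =
      1 / 2 * ‖GWin.amp (GH.geo (BGM.tl μ) (GD.trg μ)) a L p n‖ := fun p n o =>
    GL3_norm hX hO hm a L p n o
  subst hG
  have hz' : ∀ (p : GH.PG Γ) (n : ℕ), R * L < ((n : ℝ) + 1) * BGM.tl μ (GH.rep p) →
      ‖GWin.amp (GH.geo (BGM.tl μ) (GD.trg μ)) a L p n‖ = 0 := by
    intro p n hn
    have h2 := hnm p n true
    rw [hz (p, n, true) hn, norm_zero] at h2
    linarith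
  have hvar : ∑ q ∈ Cs (Γ := Γ) μ (R * L), ‖mt μ (GWin.sc a L) q‖ ^ 2 =
      GWin.Vr (GH.geo (BGM.tl μ) (GD.trg μ) (Γ := Γ)) a R L := by
    have h2 := GL3_sum h (Q := Cs μ (R * L)) hmem
      (fun p n => 1 / 4 * ‖GWin.amp (GH.geo (BGM.tl μ) (GD.trg μ)) a L p n‖ ^ 2)
      (fun p n hn => by
        show 1 / 4 * ‖GWin.amp (GH.geo (BGM.tl μ) (GD.trg μ)) a L p n‖ ^ 2 = 0
        rw [hz' p n hn]
        norm_num)
    have h3 : ∑ q ∈ Cs (Γ := Γ) μ (R * L), ‖mt μ (GWin.sc a L) q‖ ^ 2 = ∑ q ∈ Cs (Γ := Γ) μ (R * L),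
        1 / 4 * ‖GWin.amp (GH.geo (BGM.tl μ) (GD.trg μ)) a L q.1 q.2.1‖ ^ 2 := by
      refine Finset.sum_congr rfl ?_
      rintro ⟨p, n, o⟩ -
      rw [hnm]
      ring
    rw [h3]
    refine h2.trans ?_
    unfold GWin.Vr
    rw [Finset.mul_sum]
    refine Finset.sum_congr rfl fun p _ => ?_
    rw [Finset.mul_sum]
    refine Finset.sum_congr rfl fun n _ => ?_
    ring
  have hmain := hC (GH.PG Γ) (Cs μ (R * L)) (mt μ (GWin.sc a L)) (C1 / L)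
    (fun p n => by rw [hmem, hmem, ln_or μ p n false])
    (fun p n => by
      rw [GL3_mt hX hO hm, GL3_mt hX hO hm])
    (by positivity) (by rwa [div_le_one hL0])
    (by
      intro p
      refine le_trans (Finset.sum_le_sum_of_subset_of_nonneg
        (t := {p} ×ˢ (Finset.range (GWin.KK (GH.geo (BGM.tl μ) (GD.trg μ) (Γ := Γ)) (R * L)) ×ˢ
          (Finset.univ : Finset Bool))) ?_ fun _ _ _ => norm_nonneg _) ?_
      · intro q hq
        rw [Finset.mem_filter] at hq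
        rw [Finset.mem_product, Finset.mem_product, Finset.mem_singleton]
        exact ⟨hq.2, (GL3_sub h ((hmem q).1 hq.1)).2, Finset.mem_univ _⟩
      · rw [Finset.sum_product, Finset.sum_singleton, Finset.sum_product]
        refine le_trans (le_of_eq ?_) (h1 L p
          (GWin.KK (GH.geo (BGM.tl μ) (GD.trg μ) (Γ := Γ)) (R * L)) hL0)
        refine Finset.sum_congr rfl fun n _ => ?_
        simp only [hnm]
        rw [Finset.sum_const, Finset.card_univ, Fintype.card_bool, nsmul_eq_mul]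
        ring)
  rw [hvar] at hmain
  have h6 : DD (Cs (Γ := Γ) μ (R * L)) (mt μ (GWin.sc a L)) r - (gaussMom (GWin.vg a) r : ℂ) =
      (DD (Cs (Γ := Γ) μ (R * L)) (mt μ (GWin.sc a L)) r -
        (gaussMom (GWin.Vr (GH.geo (BGM.tl μ) (GD.trg μ) (Γ := Γ)) a R L) r : ℂ)) +
      ((gaussMom (GWin.Vr (GH.geo (BGM.tl μ) (GD.trg μ) (Γ := Γ)) a R L) r -
        gaussMom (GWin.vg a) r : ℝ) : ℂ) := by
    push_cast
    ring
  rw [h6]
  refine (norm_add_le _ _).trans ?_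
  rw [Complex.norm_real, Real.norm_eq_abs]
  linarith

end B35
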