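import Pool.Agent.LibB35.GL1
import Pool.Agent.LibB35.GL3
import Pool.Agent.LibB35.GB4

/-! Row GL4: the mean over a block, for one `ξ`. SHORT, 30 min. Plan. `in_block` gives `κ`, `ξ ∈ P.B κ k` for large `k`; `block` with `(r, 0)`
(`P.M .. 0 .. = 1` because of `block_neg`; `DD_zero`); `DD_close`; `DD_lim` for `m'` from `X_hm` and `Q = Cs X0 (K' k)`: if `ln (P.X ξ) q ≤ R L` then
`ln X0 q ≤ 2 R K k ≤ K' k` (`ln_cmp` with `η = ξ`, `mix n ξ ξ = ξ`). -/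

open MeasureTheory Set Filter Topology Mes
open scoped ContDiff unitInterval

namespace B35

open BGS BR

variable {Γ : Type} [Group Γ] [MulAction Γ Pl] {D : Set Pl} {P : Dt} {κ : ℝ} {ν : Measure I}
  {ρ : ℝ → ℝ}

private theorem GL4_mix (n : ℕ) (ξ : Dir → I) : mix n ξ ξ = ξ := by
  funext d
  unfold mix
  split_ifs <;> rfl

private theorem GL4_exp {c s : ℝ} (hc : 0 < c) (hs : 0 < s) {ε : ℝ} (hε : 0 < ε) :
    ∃ k0 : ℕ, ∀ k ≥ k0, Real.exp (-c * (k : ℝ) ^ s) ≤ ε := by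
  have h1 : Tendsto (fun k : ℕ => (k : ℝ) ^ s) atTop atTop :=
    (tendsto_rpow_atTop hs).comp tendsto_natCast_atTop_atTop
  have h2 : Tendsto (fun k : ℕ => -c * (k : ℝ) ^ s) atTop atBot :=
    h1.const_mul_atTop_of_neg (by linarith)
  have h3 : Tendsto (fun k : ℕ => Real.exp (-c * (k : ℝ) ^ s)) atTop (𝓝 0) :=
    Real.tendsto_exp_atBot.comp h2
  obtain ⟨k0, hk0⟩ := eventually_atTop.1 (h3.eventually (gt_mem_nhds hε))
  exact ⟨k0, fun k hk => (hk0 k hk).le⟩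

private theorem GL4_supp {a : ℝ → ℂ} (ha : FG33.IsAmp a) :
    ∃ R : ℝ, 1 ≤ R ∧ ∀ s, R < |s| → a s = 0 := by
  obtain ⟨R, hR⟩ := ha.supp.isCompact.isBounded.subset_closedBall 0
  refine ⟨max R 1, le_max_right _ _, fun s hs => ?_⟩
  by_contra h
  have h1 : s ∈ tsupport a := subset_tsupport a h
  have h2 := hR h1
  rw [Metric.mem_closedBall, dist_zero_right, Real.norm_eq_abs] at h2
  have h3 := le_max_left R 1
  linarith

private theorem GL4_one {a : ℝ → ℂ} {u v : ℝ} (huv : u < v) (k N : ℕ) (L : ℝ)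
    {ξ : Dir → I} (h : ∀ z, curv (P.X Γ D ξ) z < 0) : P.M Γ D N a 0 u v k L ξ = 1 := by
  unfold Dt.M
  rw [if_pos h]
  simp only [pow_zero]
  rw [intervalIntegral.integral_const, smul_eq_mul, mul_one]
  have h1 : (0 : ℝ) < 2 ^ k := by positivity
  have h2 : 0 < v - u := sub_pos.2 huv
  field_simp

theorem mean_block (hP : OkD Γ D P) (hν : Den ν ρ) {ξ : Dir → I}
    (hξ : ∀ z, curv (P.X Γ D ξ) z < 0) {a : ℝ → ℂ} (ha : FG33.IsAmp a) {u v : ℝ} (hu : 0 < u)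
    (huv : u < v) (K : ℝ) (N r : ℕ) {ε : ℝ} (hε : 0 < ε) :
    ∃ (Λ : ℝ) (k0 : ℕ), ∀ k ≥ k0, ∀ L : ℝ, Λ ≤ L → L ≤ K * k →
      |(∫ η, P.M Γ D N a r u v k L (mix (bk k) ξ η) ∂Pm ν) - gaussMom (GWin.vg a) r| ≤ ε := by
  have hX := hP.cx.hX
  have hO := hP.ori
  obtain ⟨κ, hκ, k1, hk1⟩ := in_block hP hξ
  obtain ⟨m', hm'⟩ := (X_hm hP hξ).2
  obtain ⟨R, hR, hR'⟩ := GL4_supp ha
  have hR0 : 0 ≤ R := by linarith
  obtain ⟨K0, hK0⟩ : ∃ K0 : ℝ, K0 = max K 1 := ⟨_, rfl⟩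
  have hK1 : 1 ≤ K0 := hK0 ▸ le_max_right _ _
  have hKK : K ≤ K0 := hK0 ▸ le_max_left _ _
  obtain ⟨c1, k2, hc1, hB⟩ := block hP hν hκ ha hR hR' hu huv hK1 (le_refl (4 * R * K0)) N r 0
  obtain ⟨c2, k3, hc2, hC⟩ := DD_close hP hκ ha K0 (4 * R * K0) r
  obtain ⟨Λ, hΛ⟩ := DD_lim hX hO m' ha hR0 hR' r (ε := ε / 3) (by positivity)
  obtain ⟨k4, hk4⟩ := GL4_exp hc1 (show (0 : ℝ) < 2 / 3 by norm_num) (show 0 < ε / 3 by positivity)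
  obtain ⟨k5, hk5⟩ := GL4_exp hc2 (show (0 : ℝ) < 5 / 6 by norm_num) (show 0 < ε / 3 by positivity)
  obtain ⟨k6, hk6⟩ := block_neg hP hκ
  obtain ⟨c3, k7, -, hk7⟩ := ln_cmp hP hκ K0
  refine ⟨max Λ 1, k1 + k2 + k3 + k4 + k5 + k6 + k7, fun k hk L hL hLK => ?_⟩
  have hL1 : 1 ≤ L := (le_max_right _ _).trans hL
  have hk0 : (0 : ℝ) ≤ k := Nat.cast_nonneg k
  have hLK0 : L ≤ K0 * k := hLK.trans (mul_le_mul_of_nonneg_right hKK hk0)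
  have hξB : ξ ∈ P.B Γ D κ k := hk1 k (by omega)
  have e1 := hB k (by omega) ξ hξB L hL1 hLK0
  have e2 := hC k (by omega) ξ hξB L hL1 hLK0
  have hX0 : HM Γ (P.X0 Γ D k ξ) := (X_hm hP (ξ := zer (bk k) ξ) fun z => by
    have h1 : curv (P.X0 Γ D k ξ) z ≤ -κ ^ 2 := hξB z
    have h2 : 0 < κ ^ 2 := by positivity
    have h3 : curv (P.X Γ D (zer (bk k) ξ)) z = curv (P.X0 Γ D k ξ) z := rfl
    rw [h3]
    linarith).1
  have e3 := hΛ L ((le_max_left _ _).trans hL) (Cs (Γ := Γ) (P.X0 Γ D k ξ) (4 * R * K0 * k))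
    (fun q hq => by
      rw [Cs_mem hX hO hX0]
      have h1 := (hk7 k (by omega) ξ hξB ξ q).1
      rw [GL4_mix] at h1
      rw [hm'] at hq
      have h2 : R * L ≤ R * (K0 * k) := mul_le_mul_of_nonneg_left hLK0 hR0
      have h3 : 0 ≤ R * (K0 * k) := by positivity
      linarith)
  rw [hm'] at e3
  have e4 : (∫ η, P.M Γ D N a r u v k L (mix (bk k) ξ η) *
      P.M Γ D N a 0 u v k L (mix (bk k) ξ η) ∂Pm ν) =
      ∫ η, P.M Γ D N a r u v k L (mix (bk k) ξ η) ∂Pm ν := by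
    refine integral_congr_ae (Filter.Eventually.of_forall fun η => ?_)
    show P.M Γ D N a r u v k L (mix (bk k) ξ η) * P.M Γ D N a 0 u v k L (mix (bk k) ξ η) = _
    rw [GL4_one huv k N L fun z => ?_, mul_one]
    have h1 := hk6 k (by omega) ξ hξB η z
    have h2 : 0 < (κ / 2) ^ 2 := by positivity
    linarith
  rw [e4, DD_zero, mul_one] at e1
  have e5 := hk4 k (by omega)
  have e6 := hk5 k (by omega)
  have e7 : (((∫ η, P.M Γ D N a r u v k L (mix (bk k) ξ η) ∂Pm ν) -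
      gaussMom (GWin.vg a) r : ℝ) : ℂ) =
      (((∫ η, P.M Γ D N a r u v k L (mix (bk k) ξ η) ∂Pm ν : ℝ) : ℂ) -
        DD (Cs (Γ := Γ) (P.X0 Γ D k ξ) (4 * R * K0 * k)) (mt (P.X0 Γ D k ξ) (GWin.sc a L)) r) +
      (DD (Cs (Γ := Γ) (P.X0 Γ D k ξ) (4 * R * K0 * k)) (mt (P.X0 Γ D k ξ) (GWin.sc a L)) r -
        DD (Cs (Γ := Γ) (P.X0 Γ D k ξ) (4 * R * K0 * k)) (mt (P.X Γ D ξ) (GWin.sc a L)) r) +
      (DD (Cs (Γ := Γ) (P.X0 Γ D k ξ) (4 * R * K0 * k)) (mt (P.X Γ D ξ) (GWin.sc a L)) r -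
        (gaussMom (GWin.vg a) r : ℂ)) := by
    push_cast
    ring
  have e8 := (norm_add_le (((∫ η, P.M Γ D N a r u v k L (mix (bk k) ξ η) ∂Pm ν : ℝ) : ℂ) -
        DD (Cs (Γ := Γ) (P.X0 Γ D k ξ) (4 * R * K0 * k)) (mt (P.X0 Γ D k ξ) (GWin.sc a L)) r +
      (DD (Cs (Γ := Γ) (P.X0 Γ D k ξ) (4 * R * K0 * k)) (mt (P.X0 Γ D k ξ) (GWin.sc a L)) r -
        DD (Cs (Γ := Γ) (P.X0 Γ D k ξ) (4 * R * K0 * k)) (mt (P.X Γ D ξ) (GWin.sc a L)) r))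
      (DD (Cs (Γ := Γ) (P.X0 Γ D k ξ) (4 * R * K0 * k)) (mt (P.X Γ D ξ) (GWin.sc a L)) r -
        (gaussMom (GWin.vg a) r : ℂ))).trans (add_le_add (norm_add_le _ _) le_rfl)
  rw [← e7, Complex.norm_real, Real.norm_eq_abs] at e8
  linarith

end B35
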