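import Pool.Agent.LibB35.Defs
import Pool.Agent.LibBR73.AN10
import Pool.Agent.LibTR29.T6
import Pool.Agent.LibGH18.Main

/-! Rows Q1 (dictionary between `Cg Γ` and the classes). SHORT/MEDIUM. `GD.grpData` (with `curv_bounds`) gives the
`GH.GrpData` of `tl μ`, `trg μ`.
Q1a `cls_q`: `gpr q` is primitive (`GH.rep_prim`; the inverse as in `GH.ellp_inv`), so `≠ 1` (`GH.prim_ne`); `GD.axis_exists` for
`gpr q`, so the `if` in `ax` is true; `tl` of the inverse: `.inv`; `GD.axis_pow` with `k = n + 1`, `GD.trg_eq`; `cent`: `GH.root_prim`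
(`Subgroup.mem_zpowers_iff`), `gel q ≠ 1` by `GH.one_of_pow`.
Q1b `cls_uni`: existence `GH.main_surj` (orientation `true`: `rep p ^ n`, `false`: its inverse `= (rep p)⁻¹ ^ n`), uniqueness
`GH.main_inj` with exponents `± n` (as in `GH.dict`).
Q1c `sum_cls`: `Finset.sum_comm`/`sum_fiberwise` with Q1b. Q1d `ln_le`: `displ_ge` (LibBR73/AN9) with Q1a (`tl`/`ln`).
Q1e `Sg_eq`: `IKN = 0` outside `near Γ D m ρ` (`TR.Kx_int_zero`; better: outside `S` by the same proof, `Kx_zero`), then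
`finsum_mem_eq_sum_of_inter_support_eq` or as in `AN11`. Q1f: `Sh_fin`. -/

open MeasureTheory Set Filter Topology
open scoped ContDiff unitInterval

namespace B35

open BGS BR

variable {Γ : Type} [Group Γ] [MulAction Γ Pl] {D : Set Pl} {μ : Pl → Co}

theorem GQ1a_gd (hX : Surface Γ D) (hO : Ori Γ) (hm : HM Γ μ) :
    ∃ κ, GH.GrpData (BGM.tl μ) (GD.trg μ) κ (Γ := Γ) := by
  obtain ⟨a, b, ha, -, hk⟩ := curv_bounds hX hm
  exact ⟨a, GD.grpData hX hO hm ha fun z => (hk z).2⟩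

omit [MulAction Γ Pl] in
theorem GQ1a_prim_inv {g : Γ} (hp : BGM.Prim g) : BGM.Prim g⁻¹ := by
  intro x m hx
  have h1 := hp x (-m) (by rw [zpow_neg, hx, inv_inv])
  omega

theorem GQ1a_gpr (q : Cg Γ) : BGM.Prim (gpr q) := by
  unfold gpr
  split_ifs
  · exact GH.rep_prim _
  · exact GQ1a_prim_inv (GH.rep_prim _)

/-- The exponent of the representative. -/
def GQ1a_e (q : Cg Γ) : ℤ := if q.2.2 then (q.2.1 : ℤ) + 1 else -((q.2.1 : ℤ) + 1)

omit [MulAction Γ Pl] in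
theorem GQ1a_gel (q : Cg Γ) : gel q = GH.rep q.1 ^ GQ1a_e q := by
  have h0 : ((q.2.1 + 1 : ℕ) : ℤ) = (q.2.1 : ℤ) + 1 := by push_cast; ring
  unfold gel gpr GQ1a_e
  split_ifs
  · rw [← h0, zpow_natCast]
  · rw [← h0, zpow_neg, zpow_natCast, inv_pow]

omit [MulAction Γ Pl] in
theorem GQ1a_e_ne (q : Cg Γ) : GQ1a_e q ≠ 0 := by
  unfold GQ1a_e
  split_ifs <;> omega

omit [MulAction Γ Pl] in
theorem GQ1a_ext {q q' : Cg Γ} (h1 : q.1 = q'.1) (h2 : GQ1a_e q = GQ1a_e q') : q = q' := by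
  obtain ⟨p, n, o⟩ := q
  obtain ⟨p', n', o'⟩ := q'
  simp only at h1
  subst h1
  unfold GQ1a_e at h2
  cases o <;> cases o' <;> simp only [Bool.false_eq_true, if_true, if_false] at h2
  · have h3 : n = n' := by omega
    rw [h3]
  · omega
  · omega
  · have h3 : n = n' := by omega
    rw [h3]

/-- Row Q1a. -/
theorem cls_q (hX : Surface Γ D) (hO : Ori Γ) (hm : HM Γ μ) (q : Cg Γ) :
    Cls μ (gel q) (gpr q) (ax μ (gpr q)).1 (ax μ (gpr q)).2 (ln μ q) (lp μ q.1) ∧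
      trM μ (ax μ (gpr q)).1 (ax μ (gpr q)).2 (ln μ q) = GD.trg μ (gel q) ∧
      0 < lp μ q.1 ∧ gel q ≠ 1 ∧ BGM.tl μ (gel q) = ln μ q ∧ 0 < GD.trg μ (gel q) - 2 := by
  obtain ⟨κ, h⟩ := GQ1a_gd hX hO hm
  have hp := GQ1a_gpr q
  have hne : gpr q ≠ 1 := GH.prim_ne hp
  have hex : ∃ x : Pl × Pl, Axis μ (gpr q) x.1 x.2 (BGM.tl μ (gpr q)) := by
    obtain ⟨x0, v0, hA⟩ := GD.axis_exists hX hO hm hne
    exact ⟨(x0, v0), hA⟩
  have hA : Axis μ (gpr q) (ax μ (gpr q)).1 (ax μ (gpr q)).2 (BGM.tl μ (gpr q)) := by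
    have h1 : ax μ (gpr q) = hex.choose := by
      unfold ax
      rw [dif_pos hex]
    rw [h1]
    exact hex.choose_spec
  have hl : BGM.tl μ (gpr q) = lp μ q.1 := by
    unfold gpr lp
    split_ifs
    · rfl
    · exact (h.inv _).1
  rw [hl] at hA
  have hc : ((q.2.1 + 1 : ℕ) : ℝ) * lp μ q.1 = ln μ q := by
    unfold ln
    push_cast
    ring
  have hP : Axis μ (gel q) (ax μ (gpr q)).1 (ax μ (gpr q)).2 (ln μ q) := by
    rw [← hc]
    exact GD.axis_pow hX hO hm hA (Nat.succ_le_succ (Nat.zero_le _))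
  have hgne : gel q ≠ 1 := fun h1 => hne (GH.one_of_pow h (Nat.succ_pos _) h1)
  have htl : BGM.tl μ (gel q) = ln μ q := by
    unfold gel
    rw [h.pow, hl, hc]
  refine ⟨⟨hP, hA, fun γ => ?_⟩, (GD.trg_eq hX hO hm hP).symm, hA.pos, hgne, htl, ?_⟩
  · rw [Subgroup.mem_zpowers_iff, eq_comm]
    have h2 := GH.root_prim h hp hgne (m := ((q.2.1 + 1 : ℕ) : ℤ)) (zpow_natCast _ _) γ
    rw [h2]
    exact ⟨fun ⟨j, hj⟩ => ⟨j, hj.symm⟩, fun ⟨j, hj⟩ => ⟨j, hj.symm⟩⟩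
  · have h3 := h.lb (gel q) hgne
    have h4 := h.pos (gel q) hgne
    have h5 : 0 < Real.sinh (κ * BGM.tl μ (gel q) / 2) := by
      rw [Real.sinh_pos_iff]
      have := mul_pos h.kpos h4
      linarith
    have h6 : 0 < 4 * Real.sinh (κ * BGM.tl μ (gel q) / 2) ^ 2 := by positivity
    linarith

/-- Row Q1b. -/
theorem cls_uni (hX : Surface Γ D) (hO : Ori Γ) (hm : HM Γ μ) {γ : Γ} (hγ : γ ≠ 1) :
    ∃! q : Cg Γ, IsConj (gel q) γ := by
  obtain ⟨κ, h⟩ := GQ1a_gd hX hO hm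
  have huni : ∀ q q' : Cg Γ, IsConj (gel q) γ → IsConj (gel q') γ → q' = q := by
    intro q q' h1 h2
    have h3 : IsConj (gel q') (gel q) := h2.trans h1.symm
    rw [GQ1a_gel, GQ1a_gel] at h3
    obtain ⟨h4, h5⟩ := GH.main_inj h (GQ1a_e_ne q') h3
    exact GQ1a_ext h4 h5
  obtain ⟨p, n, hn, h1 | h1⟩ := GH.main_surj h hγ
  · have h2 : IsConj (gel (p, n - 1, true)) γ := by
      have h3 : gel ((p, n - 1, true) : Cg Γ) = GH.rep p ^ n := by
        unfold gel gpr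
        simp only [if_true]
        rw [Nat.sub_add_cancel hn]
      rw [h3]
      exact h1
    exact ⟨_, h2, fun q' h3 => huni _ _ h2 h3⟩
  · have h2 : IsConj (gel (p, n - 1, false)) γ := by
      have h3 : gel ((p, n - 1, false) : Cg Γ) = (GH.rep p ^ n)⁻¹ := by
        unfold gel gpr
        simp only [Bool.false_eq_true, if_false]
        rw [Nat.sub_add_cancel hn, inv_pow]
      rw [h3]
      exact h1
    exact ⟨_, h2, fun q' h3 => huni _ _ h2 h3⟩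

open Classical in
/-- Row Q1c. -/
theorem sum_cls (hX : Surface Γ D) (hO : Ori Γ) (hm : HM Γ μ) {S : Finset Γ} (h1 : (1 : Γ) ∉ S)
    {Q : Finset (Cg Γ)} (hQ : ∀ q : Cg Γ, (∃ γ ∈ S, IsConj (gel q) γ) → q ∈ Q) (f : Γ → ℝ) :
    ∑ γ ∈ S, f γ = ∑ q ∈ Q, ∑ γ ∈ S with IsConj (gel q) γ, f γ := by
  simp only [Finset.sum_filter]
  rw [Finset.sum_comm]
  refine Finset.sum_congr rfl fun γ hγ => ?_
  have hne : γ ≠ 1 := by
    rintro rfl
    exact h1 hγ
  obtain ⟨q, hq, huq⟩ := cls_uni hX hO hm hne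
  rw [Finset.sum_eq_single q, if_pos hq]
  · intro q' _ hq'
    exact if_neg fun h3 => hq' (huq q' h3)
  · intro h3
    exact absurd (hQ q ⟨γ, hγ, hq⟩) h3

/-- Row Q1d. -/
theorem ln_le (hX : Surface Γ D) (hO : Ori Γ) (hm : HM Γ μ) {q : Cg Γ} {γ : Γ}
    (h : IsConj (gel q) γ) (x : Pl) : ln μ q ≤ BR.ds μ x (γ • x) :=
  displ_ge hX hO hm (cls_q hX hO hm q).1.axis h x

end B35
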