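import Pool.Agent.LibBE66.P8

/-! Interface: part D (helper66): proved in LibBE66. -/

open MeasureTheory Set Filter Topology
open scoped ContDiff unitInterval

namespace B35

open BGS BR BE
open Pool.BGR (upI)

variable {Γ : Type} [Group Γ] [MulAction Γ Pl] {D : Set Pl} {P : Dt} {κ : ℝ} {ν : Measure I}
  {ρ : ℝ → ℝ}

/-- Part D: decorrelation (helper66). -/
theorem decor (hP : OkD Γ D P) (hν : Den ν ρ) (hκ : 0 < κ) {a : ℝ → ℂ} (ha : FG33.IsAmp a)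
    {J : Type} [Fintype J] {u v : ℝ} (hu : 0 < u) (huv : u < v) (K : ℝ) (N A : ℕ) :
    ∃ (C : ℝ) (k0 : ℕ), ∀ k ≥ k0, ∀ ξ ∈ P.B Γ D κ k, ∀ η : Dir → I, ∀ L : ℝ, 1 ≤ L → L ≤ K * k →
      ∀ (q : J → Cg Γ) (e : J → Bool) (τ : J → ℝ), (∀ j, ln (P.X0 Γ D k ξ) (q j) ≤ K * k) →
      (∀ j, u * 2 ^ k ≤ τ j ∧ τ j ≤ v * 2 ^ k) → ∀ c ∈ grid P.L (bk k + 1),
      ((bk k : ℝ) + 1) ^ (-(3 / 2) : ℝ) ≤ |∑ j, sgn (e j) * (τ j / 2 ^ k) * ((q j).2.1 + 1) *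
        vis (P.X0 Γ D k ξ) (bk k + 1) c (q j).1| →
      ‖∫ t : I, ∏ j, cj (e j) (zl (P.X0 Γ D k ξ)
        (P.X Γ D (upI (mix (bk k) ξ η) (bk k, c) t)) (dl k) N (GWin.sc a L) (τ j) (q j)) ∂ν‖ ≤
        C / (2 ^ k) ^ A :=
  BE66.decor hP hν hκ ha hu huv K N A

end B35
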