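import Pool.Agent.LibUC88.Z4

/-! Interface: part E (helper85, helper86). -/

open MeasureTheory Set Filter Topology
open scoped ContDiff unitInterval

namespace B35

open BGS BR BE
open Pool.BGR (upI)

variable {Γ : Type} [Group Γ] [MulAction Γ Pl] {D : Set Pl} {P : Dt} {κ : ℝ} {ν : Measure I}
  {ρ : ℝ → ℝ}

/-- Part E: the tuples that no cell detects (helper85, helper86). -/
theorem undet (hP : OkD Γ D P) (hκ : 0 < κ) {J : Type} [Fintype J] (K Λ : ℝ) :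
    ∃ (c C : ℝ) (k0 : ℕ), 0 < c ∧ ∀ k ≥ k0, ∀ ξ ∈ P.B Γ D κ k, ∀ e : J → Bool,
      ∃ Bd : Finset (J → Cg Γ), ∑ q ∈ Bd, ∏ j, wg (P.X0 Γ D k ξ) (q j) ≤
          Real.exp (-c * (k : ℝ) ^ (2 / 3 : ℝ)) ∧
        ∀ q : J → Cg Γ, q ∉ Bd → (∀ j, ln (P.X0 Γ D k ξ) (q j) ≤ K * k) →
          ∀ lam : J → ℝ, (∀ j, 0 < sgn (e j) * lam j ∧ Λ⁻¹ ≤ |lam j| ∧ |lam j| ≤ Λ) →
          (∀ c ∈ grid P.L (bk k + 1), |∑ j, lam j * ((q j).2.1 + 1) *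
            vis (P.X0 Γ D k ξ) (bk k + 1) c (q j).1| ≤ ((bk k : ℝ) + 1) ^ (-(3 / 2) : ℝ)) →
          open Classical in
          ∀ p : GH.PG Γ, |∑ j with (q j).1 = p, lam j * ((q j).2.1 + 1)| ≤
            C * ((bk k : ℝ) + 1) ^ (-(1 / 2) : ℝ) := by
  exact UC88.undet hP hκ K Λ

/-- Part E': the weights (helper85, helper86). -/
theorem wts (hP : OkD Γ D P) (hκ : 0 < κ) : ∃ (C : ℝ) (k0 : ℕ), 1 ≤ C ∧ ∀ k ≥ k0,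
    ∀ ξ ∈ P.B Γ D κ k, (∀ q : Cg Γ, 0 ≤ wg (P.X0 Γ D k ξ) q ∧ wg (P.X0 Γ D k ξ) q ≤ C) ∧
      (∀ p : GH.PG Γ, C⁻¹ ≤ lp (P.X0 Γ D k ξ) p) ∧
      ∀ t : ℝ, 1 ≤ t → {q : Cg Γ | ln (P.X0 Γ D k ξ) q ≤ t}.Finite ∧
        ((Cs (Γ := Γ) (P.X0 Γ D k ξ) t).card : ℝ) ≤ Real.exp (C * t) ∧
        ∑ q ∈ Cs (Γ := Γ) (P.X0 Γ D k ξ) t, wg (P.X0 Γ D k ξ) q ^ 2 ≤ C * t ^ C := by
  exact UC88.wts hP hκ

end B35
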