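import Pool.Agent.LibB35.MR

/-! Interface: part M (helper73): `meas_Sg`, `meas_zl`, `meas_neg` are proved in MR. -/
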