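import Pool.Agent.LibB35.IFC
import Pool.Agent.LibB35.IFD
import Pool.Agent.LibB35.IFE
import Pool.Agent.LibB35.IFM

/-! The interface. -/
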