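import Pool.Agent.LibB35.FA3
import Pool.Agent.LibB35.FA5
import Pool.Agent.LibB35.FA4
import Pool.Agent.LibB35.IF
import Pool.Agent.LibB35.GQ1b
import Pool.Agent.LibB35.FA1
import Pool.Agent.LibBE88.A1
import Pool.Agent.LibBGM20.D1

/-! Rows Q2 (the facts on the blocks, from C1, C2, C3 and the families). MEDIUM, 50 min each. Notation in a block `k`,
`T = 2 ^ k`: `μ0 = P.X0 Γ D k ξ`, `μ = P.X Γ D (mix (bk k) ξ η)`, `p = √(P.c (bk k)) ≤ exp (-(1/2) k^(5/6))` (`c_le`),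
`δ = dl k = exp (-k^(3/4))`, `CF_path` (index `(k, ξ, η)`), `path_zero`, `path_one`, `block_neg`, `X_hm`, `cls_q`, `amp_sc`.
For every `B`: `k^B exp (-c k^(5/6)) → 0`, `p ≤ δ²/(poly k)`, `(T δ²)^(-A) T² exp (C0 K k) ≤ T^(-A')` for `A` large:
`T^(-A) = exp (-A k log 2)`, `δ^(-2A) = exp (2 A k^(3/4))`.
Q2a `ln_cmp`: C3 (first part; `l ≤ K k`), and for `l` large compared with `l1` the comparison `ln μ0 q ≤ 2 ln μ q` of `BGM.D1_tl`
(exponents differ by at most `C √c`); Q2b `fact1`: `Sg_eq`, `sum_cls`, C1 for every `q`; the number of `q` is `≤ exp (C K' k)` (`wts`).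
Q2c `fact2`: C2. Q2d `fact3`: C3, `amp_sc` (Lipschitz), `wts`. -/

open MeasureTheory Set Filter Topology
open scoped ContDiff unitInterval

namespace B35

open BGS BR BE

variable {Γ : Type} [Group Γ] [MulAction Γ Pl] {D : Set Pl} {P : Dt} {κ : ℝ}

private theorem Q2a_ev (A B s : ℝ) {b : ℝ} (hA : 0 ≤ A) (hB : 0 ≤ B) (hs : 0 ≤ s)
    (hb : 0 < b) : ∃ k0 : ℕ, ∀ k ≥ k0,
      A * (1 + B * (k : ℝ)) ^ s * Real.exp (-b * (k : ℝ) ^ (5 / 6 : ℝ)) ≤ 1 := by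
  have h1 : Tendsto (fun k : ℕ => (k : ℝ) ^ (5 / 6 : ℝ)) atTop atTop :=
    (tendsto_rpow_atTop (by norm_num)).comp tendsto_natCast_atTop_atTop
  have h2 := (tendsto_rpow_mul_exp_neg_mul_atTop_nhds_zero (6 / 5 * s) b hb).comp h1
  have h3 := h2.const_mul (A * (1 + B) ^ s)
  rw [mul_zero] at h3
  obtain ⟨k1, hk1⟩ := Filter.eventually_atTop.1 (h3.eventually (gt_mem_nhds one_pos))
  refine ⟨max k1 1, fun k hk => ?_⟩
  have h4 := hk1 k ((le_max_left _ _).trans hk)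
  have hk' : (1 : ℝ) ≤ k := by exact_mod_cast (le_max_right k1 1).trans hk
  have hk0 : (0 : ℝ) ≤ k := by linarith
  simp only [Function.comp] at h4
  have h5 : ((k : ℝ) ^ (5 / 6 : ℝ)) ^ (6 / 5 * s) = (k : ℝ) ^ s := by
    rw [← Real.rpow_mul hk0]
    congr 1
    ring
  rw [h5] at h4
  refine le_trans ?_ h4.le
  have h6 : (1 + B * (k : ℝ)) ^ s ≤ (1 + B) ^ s * (k : ℝ) ^ s := by
    rw [← Real.mul_rpow (by positivity) hk0]
    exact Real.rpow_le_rpow (by positivity) (by nlinarith) hs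
  calc A * (1 + B * (k : ℝ)) ^ s * Real.exp (-b * (k : ℝ) ^ (5 / 6 : ℝ))
      ≤ A * ((1 + B) ^ s * (k : ℝ) ^ s) * Real.exp (-b * (k : ℝ) ^ (5 / 6 : ℝ)) := by
        refine mul_le_mul_of_nonneg_right ?_ (Real.exp_pos _).le
        exact mul_le_mul_of_nonneg_left h6 hA
    _ = A * (1 + B) ^ s * ((k : ℝ) ^ s * Real.exp (-b * (k : ℝ) ^ (5 / 6 : ℝ))) := by ring

private theorem Q2a_lip {ι : Type} {m : Pl → Co} {a b : ℝ} {s : ι → ℝ × Pl → ℝ}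
    (h : CF Γ D m a b s) : ∃ C : ℝ, 0 ≤ C ∧ ∀ (i : ι) (p : ℝ), |p| ≤ 1 → ∀ z : Pl,
      |s i (p, z) - s i (0, z)| ≤ C * |p| := by
  obtain ⟨C, hC⟩ := h.bd 1
  refine ⟨|C|, abs_nonneg _, fun i p hp z => ?_⟩
  obtain ⟨γ, hγ, -⟩ := h.hX.orbit z
  rw [← h.inv i p γ z, ← h.inv i 0 γ z]
  generalize γ • z = w at hγ
  have hw := subset_closure hγ
  have hd : ∀ t ∈ Metric.closedBall (0 : ℝ) 1, HasDerivWithinAt (fun t => s i (t, w))
      (fderiv ℝ (s i) (t, w) (1, 0)) (Metric.closedBall 0 1) t := by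
    intro t _
    have h1 : HasFDerivAt (s i) (fderiv ℝ (s i) (t, w)) (t, w) :=
      ((h.smooth i).differentiable (by simp) _).hasFDerivAt
    have h2 : HasDerivAt (fun t : ℝ => (t, w)) ((1 : ℝ), (0 : Pl)) t :=
      (hasDerivAt_id t).prodMk (hasDerivAt_const t w)
    exact (h1.comp_hasDerivAt t h2).hasDerivWithinAt
  have hb : ∀ t ∈ Metric.closedBall (0 : ℝ) 1, ‖fderiv ℝ (s i) (t, w) (1, 0)‖ ≤ |C| := by
    intro t ht
    have ht' : ‖t‖ ≤ 1 := by simpa using ht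
    have h1 := hC i t ht' w hw
    rw [norm_iteratedFDeriv_one] at h1
    calc ‖fderiv ℝ (s i) (t, w) (1, 0)‖
        ≤ ‖fderiv ℝ (s i) (t, w)‖ * ‖((1 : ℝ), (0 : Pl))‖ := ContinuousLinearMap.le_opNorm _ _
      _ = ‖fderiv ℝ (s i) (t, w)‖ := by simp [Prod.norm_def]
      _ ≤ |C| := h1.trans (le_abs_self C)
  have h3 := (convex_closedBall (0 : ℝ) 1).norm_image_sub_le_of_norm_hasDerivWithin_le hd hb
    (x := 0) (y := p) (by simp) (by simpa using hp)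
  simpa [Real.norm_eq_abs] using h3

private theorem Q2a_two {x : ℝ} (hx : x ≤ 1) : Real.exp (x / 2) ≤ 2 := by
  have h1 : Real.exp (1 / 2) ^ 2 ≤ 4 := by
    rw [← Real.exp_nat_mul]
    have := Real.exp_one_lt_d9
    norm_num
    linarith
  have h2 : Real.exp (1 / 2) ≤ 2 := by
    nlinarith [Real.exp_pos (1 / 2 : ℝ)]
  exact (Real.exp_le_exp.2 (by linarith)).trans h2

private theorem Q2a_ln {m : Pl → Co} (hm : HM Γ m) {f f' : Pl → ℝ} (hf : ContDiff ℝ ∞ f)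
    (hf' : ContDiff ℝ ∞ f') (h : ∀ z, f z ≤ f' z + 1) (q : Cg Γ)
    (h0 : 0 < lp (BGM.cf f' m) q.1) : ln (BGM.cf f m) q ≤ 2 * ln (BGM.cf f' m) q := by
  have h1 := BGM.D1_tl ⟨hm.smooth, hm.pos⟩ hf hf' h (GH.rep q.1)
  have h2 : lp (BGM.cf f m) q.1 ≤ 2 * lp (BGM.cf f' m) q.1 :=
    h1.trans (mul_le_mul_of_nonneg_right (Q2a_two le_rfl) h0.le)
  unfold ln
  have h3 : (0 : ℝ) ≤ (q.2.1 : ℝ) + 1 := by positivity
  nlinarith

/-- Row Q2a. -/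
theorem ln_cmp (hP : OkD Γ D P) (hκ : 0 < κ) (K : ℝ) : ∃ (c : ℝ) (k0 : ℕ), 0 < c ∧ ∀ k ≥ k0,
    ∀ ξ ∈ P.B Γ D κ k, ∀ (η : Dir → I) (q : Cg Γ),
      ln (P.X0 Γ D k ξ) q ≤ 2 * ln (P.X Γ D (mix (bk k) ξ η)) q ∧
      ln (P.X Γ D (mix (bk k) ξ η)) q ≤ 2 * ln (P.X0 Γ D k ξ) q ∧
      (ln (P.X0 Γ D k ξ) q ≤ K * k →
        |ln (P.X Γ D (mix (bk k) ξ η)) q - ln (P.X0 Γ D k ξ) q| ≤
          Real.exp (-c * (k : ℝ) ^ (5 / 6 : ℝ)) ∧
        |wg (P.X Γ D (mix (bk k) ξ η)) q - wg (P.X0 Γ D k ξ) q| ≤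
          Real.exp (-c * (k : ℝ) ^ (5 / 6 : ℝ)) * wg (P.X0 Γ D k ξ) q) := by
  obtain ⟨k1, b, h⟩ := CF_path hP hκ
  obtain ⟨C, hC1, hC⟩ := C3 h
  obtain ⟨C', hC0', hlip⟩ := Q2a_lip h
  obtain ⟨k2, hk2⟩ := c_le hP
  obtain ⟨k3, hk3⟩ := Q2a_ev C |K| C (b := 1 / 200) (by linarith) (abs_nonneg _) (by linarith)
    (by norm_num)
  obtain ⟨k4, hk4⟩ := Q2a_ev C' 0 0 (b := 1 / 2) hC0' le_rfl le_rfl (by norm_num)
  refine ⟨1 / 200, max (max k1 k2) (max k3 k4), by norm_num, fun k hk ξ hξ η q => ?_⟩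
  have hkk1 : k1 ≤ k := ((le_max_left _ _).trans (le_max_left _ _)).trans hk
  have hkk2 : k2 ≤ k := ((le_max_right _ _).trans (le_max_left _ _)).trans hk
  have hkk3 : k3 ≤ k := ((le_max_left _ _).trans (le_max_right _ _)).trans hk
  have hkk4 : k4 ≤ k := ((le_max_right _ _).trans (le_max_right _ _)).trans hk
  have f3 := hk3 k hkk3
  have f4 := hk4 k hkk4
  have f2 := (hk2 k hkk2).1
  have hk0 : (0 : ℝ) ≤ k := Nat.cast_nonneg _
  obtain ⟨x, hx⟩ : ∃ x : ℝ, x = (k : ℝ) ^ (5 / 6 : ℝ) := ⟨_, rfl⟩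
  rw [← hx] at f2 f3 f4 ⊢
  have hx0 : 0 ≤ x := by
    rw [hx]
    positivity
  obtain ⟨p, hp⟩ : ∃ p : ℝ, p = √(P.c (bk k)) := ⟨_, rfl⟩
  have hc0 : 0 < P.c (bk k) := by
    obtain ⟨s, hs, -, hs'⟩ := hP.c
    rw [hs']
    unfold cn
    positivity
  have hp0 : 0 < p := by
    rw [hp]
    exact Real.sqrt_pos.2 hc0
  have hp1 : p ≤ Real.exp (-(1 / 2) * x) := by
    rw [hp]
    refine Real.sqrt_le_iff.2 ⟨(Real.exp_pos _).le, ?_⟩
    rw [← Real.exp_nat_mul]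
    refine f2.trans (le_of_eq ?_)
    congr 1
    push_cast
    ring
  have hp2 : p ^ (1 / 50 : ℝ) ≤ Real.exp (-(1 / 100) * x) := by
    refine (Real.rpow_le_rpow hp0.le hp1 (by norm_num)).trans (le_of_eq ?_)
    rw [← Real.exp_mul]
    congr 1
    ring
  have hpa : |p| = p := abs_of_pos hp0
  have hple : |p| ≤ 1 := by
    rw [hpa]
    exact hp1.trans (Real.exp_le_one_iff.2 (by linarith))
  let i : P.Bi Γ D κ k1 := ⟨(k, ξ, η), hkk1, hξ⟩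
  have e0 : mm P.m (P.sP Γ D (k, ξ, η)) 0 = P.X0 Γ D k ξ := path_zero hP (k, ξ, η)
  have e1 : mm P.m (P.sP Γ D (k, ξ, η)) p = P.X Γ D (mix (bk k) ξ η) := by
    rw [hp]
    exact path_one hP (k, ξ, η)
  rw [← e0, ← e1]
  have hm0 : HM Γ (mm P.m (P.sP Γ D (k, ξ, η)) 0) := hm_mm h i 0
  have hm1 : HM Γ (mm P.m (P.sP Γ D (k, ξ, η)) p) := hm_mm h i p
  have hsm : ContDiff ℝ ∞ (P.sP Γ D (k, ξ, η)) := h.smooth i
  obtain ⟨c0, t0, p0, -, -, g0⟩ := cls_q h.hX h.hO hm0 q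
  obtain ⟨c1, t1, p1, -, -, g1⟩ := cls_q h.hX h.hO hm1 q
  obtain ⟨r1, r2⟩ := hC i p hple (gel q) (gpr q) _ _ _ _ _ _ _ _ c0 c1
  have hl : ∀ z, |P.sP Γ D (k, ξ, η) (p, z) - P.sP Γ D (k, ξ, η) (0, z)| ≤ 1 := by
    intro z
    refine (hlip i p hple z).trans (le_trans ?_ f4)
    rw [hpa, zero_mul, add_zero, Real.rpow_zero, mul_one]
    exact mul_le_mul_of_nonneg_left hp1 hC0'
  have hsl : ∀ t : ℝ, ContDiff ℝ ∞ (fun z : Pl => P.sP Γ D (k, ξ, η) (t, z)) := fun t =>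
    hsm.comp (contDiff_const.prodMk contDiff_id)
  refine ⟨?_, ?_, fun hK => ?_⟩
  · exact Q2a_ln hP.hm (hsl 0) (hsl p) (fun z => by linarith [(abs_le.1 (hl z)).1]) q p1
  · exact Q2a_ln hP.hm (hsl p) (hsl 0) (fun z => by linarith [(abs_le.1 (hl z)).2]) q p0
  · have hC0 : 0 ≤ C := by linarith
    have hln0 : 0 ≤ ln (mm P.m (P.sP Γ D (k, ξ, η)) 0) q := by
      unfold ln
      positivity
    have hpow : (1 + ln (mm P.m (P.sP Γ D (k, ξ, η)) 0) q) ^ C ≤ (1 + |K| * k) ^ C := by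
      refine Real.rpow_le_rpow (by linarith) ?_ hC0
      have h1 : K * k ≤ |K| * k := mul_le_mul_of_nonneg_right (le_abs_self K) hk0
      linarith
    have hA : 0 ≤ C * (1 + |K| * k) ^ C := by positivity
    have key : ∀ y : ℝ, 0 ≤ y → y ≤ Real.exp (-(1 / 100) * x) →
        C * (1 + ln (mm P.m (P.sP Γ D (k, ξ, η)) 0) q) ^ C * y ≤
          Real.exp (-(1 / 200) * x) := by
      intro y hy hy'
      calc C * (1 + ln (mm P.m (P.sP Γ D (k, ξ, η)) 0) q) ^ C * y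
          ≤ C * (1 + |K| * k) ^ C * Real.exp (-(1 / 100) * x) := by
            refine mul_le_mul ?_ hy' hy hA
            exact mul_le_mul_of_nonneg_left hpow hC0
        _ = (C * (1 + |K| * k) ^ C * Real.exp (-(1 / 200) * x)) * Real.exp (-(1 / 200) * x) := by
            rw [mul_assoc (C * (1 + |K| * k) ^ C), ← Real.exp_add]
            congr 2
            ring
        _ ≤ 1 * Real.exp (-(1 / 200) * x) :=
            mul_le_mul_of_nonneg_right f3 (Real.exp_pos _).le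
        _ = Real.exp (-(1 / 200) * x) := one_mul _
    have k1' := key |p| (abs_nonneg _) (by
      rw [hpa]
      exact hp1.trans (Real.exp_le_exp.2 (by nlinarith)))
    have k2' := key (|p| ^ (1 / 50 : ℝ)) (by positivity) (by
      rw [hpa]
      exact hp2)
    refine ⟨r1.trans k1', ?_⟩
    have hle1 : Real.exp (-(1 / 200) * x) ≤ 1 := Real.exp_le_one_iff.2 (by nlinarith)
    have r3 := r2 (k2'.trans hle1)
    have w0 : lp (mm P.m (P.sP Γ D (k, ξ, η)) 0) q.1 /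
        √(trM (mm P.m (P.sP Γ D (k, ξ, η)) 0) (ax (mm P.m (P.sP Γ D (k, ξ, η)) 0) (gpr q)).1
          (ax (mm P.m (P.sP Γ D (k, ξ, η)) 0) (gpr q)).2
          (ln (mm P.m (P.sP Γ D (k, ξ, η)) 0) q) - 2) = wg (mm P.m (P.sP Γ D (k, ξ, η)) 0) q := by
      rw [t0]
      rfl
    have w1 : lp (mm P.m (P.sP Γ D (k, ξ, η)) p) q.1 /
        √(trM (mm P.m (P.sP Γ D (k, ξ, η)) p) (ax (mm P.m (P.sP Γ D (k, ξ, η)) p) (gpr q)).1
          (ax (mm P.m (P.sP Γ D (k, ξ, η)) p) (gpr q)).2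
          (ln (mm P.m (P.sP Γ D (k, ξ, η)) p) q) - 2) = wg (mm P.m (P.sP Γ D (k, ξ, η)) p) q := by
      rw [t1]
      rfl
    rw [← w0, ← w1]
    refine r3.trans ?_
    refine mul_le_mul_of_nonneg_right k2' ?_
    positivity

end B35
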