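import Pool.Agent.LibB35.GQ2a

/-! Rows Q2 (the facts on the blocks, from C1, C2, C3 and the families). MEDIUM, 50 min each. Notation in a block `k`,
`T = 2 ^ k`: `μ0 = P.X0 Γ D k ξ`, `μ = P.X Γ D (mix (bk k) ξ η)`, `p = √(P.c (bk k)) ≤ exp (-(1/2) k^(5/6))` (`c_le`),
`δ = dl k = exp (-k^(3/4))`, `CF_path` (index `(k, ξ, η)`), `path_zero`, `path_one`, `block_neg`, `X_hm`, `cls_q`, `amp_sc`.
For every `B`: `k^B exp (-c k^(5/6)) → 0`, `p ≤ δ²/(poly k)`, `(T δ²)^(-A) T² exp (C0 K k) ≤ T^(-A')` for `A` large: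
`T^(-A) = exp (-A k log 2)`, `δ^(-2A) = exp (2 A k^(3/4))`.
Q2a `ln_cmp`: C3 (first part; `l ≤ K k`), and for `l` large compared with `l1` the comparison `ln μ0 q ≤ 2 ln μ q` of `BGM.D1_tl`
(exponents differ by at most `C √c`); Q2b `fact1`: `Sg_eq`, `sum_cls`, C1 for every `q`; the number of `q` is `≤ exp (C K' k)` (`wts`).
Q2c `fact2`: C2. Q2d `fact3`: C3, `amp_sc` (Lipschitz), `wts`. -/

open MeasureTheory Set Filter Topology
open scoped ContDiff unitInterval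

namespace B35

open BGS BR BE

variable {Γ : Type} [Group Γ] [MulAction Γ Pl] {D : Set Pl} {P : Dt} {κ : ℝ}

theorem GQ2b_ev (B C : ℝ) (hB : 0 ≤ B) (hC : 1 ≤ C) :
    ∀ᶠ x : ℝ in atTop, C * (1 + B * x) ^ C ≤ Real.exp (x ^ (3 / 4 : ℝ)) := by
  have hC0 : 0 < C := by linarith
  have hD : 0 < C * (1 + B) ^ C := by positivity
  have h1 := (isLittleO_rpow_exp_pos_mul_atTop (4 * C / 3) one_pos).comp_tendsto
    (tendsto_rpow_atTop (by norm_num : (0 : ℝ) < 3 / 4))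
  have h2 := h1.bound (c := 1 / (C * (1 + B) ^ C)) (by positivity)
  filter_upwards [h2, eventually_ge_atTop (1 : ℝ)] with x hx hx1
  have hx0 : 0 < x := by linarith
  simp only [Function.comp_apply] at hx
  rw [Real.norm_of_nonneg (by positivity), Real.norm_of_nonneg (Real.exp_pos _).le,
    ← Real.rpow_mul hx0.le, one_mul] at hx
  have e : (3 / 4 : ℝ) * (4 * C / 3) = C := by ring
  rw [e, div_mul_eq_mul_div, one_mul, le_div_iff₀ hD] at hx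
  have h3 : 1 + B * x ≤ (1 + B) * x := by nlinarith
  have h4 : (1 + B * x) ^ C ≤ ((1 + B) * x) ^ C :=
    Real.rpow_le_rpow (by positivity) h3 hC0.le
  rw [Real.mul_rpow (by positivity) hx0.le] at h4
  calc C * (1 + B * x) ^ C ≤ C * ((1 + B) ^ C * x ^ C) := mul_le_mul_of_nonneg_left h4 hC0.le
    _ = x ^ C * (C * (1 + B) ^ C) := by ring
    _ ≤ Real.exp (x ^ (3 / 4 : ℝ)) := hx

theorem GQ2b_num (B C u : ℝ) (hB : 0 ≤ B) (hC : 1 ≤ C) (hu : 0 < u) :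
    ∃ k0 : ℕ, ∀ k : ℕ, k0 ≤ k → 1 ≤ (k : ℝ) ∧
      C * (1 + B * k) ^ C ≤ Real.exp ((k : ℝ) ^ (3 / 4 : ℝ)) ∧
      8 * (k : ℝ) ^ (3 / 4 : ℝ) ≤ (k : ℝ) ^ (5 / 6 : ℝ) ∧
      C * (k : ℝ) ^ (3 / 4 : ℝ) ≤ k ∧ (k : ℝ) ^ (3 / 4 : ℝ) ≤ k ∧
      1 ≤ u * 2 ^ k := by
  have h1 : ∀ᶠ k : ℕ in atTop, C * (1 + B * (k : ℝ)) ^ C ≤ Real.exp ((k : ℝ) ^ (3 / 4 : ℝ)) :=
    tendsto_natCast_atTop_atTop.eventually (GQ2b_ev B C hB hC)
  have h2 : ∀ᶠ k : ℕ in atTop, (8 : ℝ) ≤ (k : ℝ) ^ (1 / 12 : ℝ) :=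
    ((tendsto_rpow_atTop (by norm_num : (0 : ℝ) < 1 / 12)).comp
      tendsto_natCast_atTop_atTop).eventually_ge_atTop 8
  have h3 : ∀ᶠ k : ℕ in atTop, C ≤ (k : ℝ) ^ (1 / 4 : ℝ) :=
    ((tendsto_rpow_atTop (by norm_num : (0 : ℝ) < 1 / 4)).comp
      tendsto_natCast_atTop_atTop).eventually_ge_atTop _
  have h4 : ∀ᶠ k : ℕ in atTop, (1 / u : ℝ) ≤ (2 : ℝ) ^ k :=
    (tendsto_pow_atTop_atTop_of_one_lt (by norm_num : (1 : ℝ) < 2)).eventually_ge_atTop _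
  have h5 : ∀ᶠ k : ℕ in atTop, (1 : ℝ) ≤ (k : ℝ) :=
    tendsto_natCast_atTop_atTop.eventually_ge_atTop 1
  obtain ⟨k0, hk0⟩ := eventually_atTop.1 (h1.and (h2.and (h3.and (h4.and h5))))
  refine ⟨k0, fun k hk => ?_⟩
  obtain ⟨g1, g2, g3, g4, g5⟩ := hk0 k hk
  have hk0' : (0 : ℝ) < k := by linarith
  have e1 : (k : ℝ) ^ (5 / 6 : ℝ) = (k : ℝ) ^ (3 / 4 : ℝ) * (k : ℝ) ^ (1 / 12 : ℝ) := by
    rw [← Real.rpow_add hk0']
    norm_num
  have e2 : (k : ℝ) = (k : ℝ) ^ (3 / 4 : ℝ) * (k : ℝ) ^ (1 / 4 : ℝ) := by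
    rw [← Real.rpow_add hk0']
    norm_num
  have hp : 0 ≤ (k : ℝ) ^ (3 / 4 : ℝ) := Real.rpow_nonneg hk0'.le _
  refine ⟨g5, g1, ?_, ?_, ?_, ?_⟩
  · rw [e1, mul_comm]
    exact mul_le_mul_of_nonneg_left g2 hp
  · calc C * (k : ℝ) ^ (3 / 4 : ℝ) = (k : ℝ) ^ (3 / 4 : ℝ) * C := mul_comm _ _
      _ ≤ (k : ℝ) ^ (3 / 4 : ℝ) * (k : ℝ) ^ (1 / 4 : ℝ) := mul_le_mul_of_nonneg_left g3 hp
      _ = k := e2.symm
  · calc (k : ℝ) ^ (3 / 4 : ℝ) ≤ (k : ℝ) ^ (1 : ℝ) :=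
          Real.rpow_le_rpow_of_exponent_le g5 (by norm_num)
      _ = k := Real.rpow_one _
  · rw [div_le_iff₀ hu] at g4
    linarith

/-- Row Q2b. -/
theorem fact1 (hP : OkD Γ D P) (hκ : 0 < κ) {a : ℝ → ℂ} (ha : FG33.IsAmp a) {R : ℝ} (hR : 1 ≤ R)
    (hR' : ∀ s, R < |s| → a s = 0) {u v : ℝ} (hu : 0 < u) (huv : u < v) {K : ℝ} (hK : 1 ≤ K)
    {K' : ℝ} (hK' : 4 * R * K ≤ K') (N A : ℕ) :
    ∃ (C : ℝ) (k0 : ℕ), ∀ k ≥ k0, ∀ ξ ∈ P.B Γ D κ k, ∀ η : Dir → I, ∀ L : ℝ, 1 ≤ L → L ≤ K * k →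
      ∀ τ : ℝ, u * 2 ^ k ≤ τ → τ ≤ v * 2 ^ k →
      |Sg (Γ := Γ) D (P.X Γ D (mix (bk k) ξ η)) N (GWin.sc a L) τ -
        ∑ q ∈ Cs (Γ := Γ) (P.X0 Γ D k ξ) (K' * k), (zl (P.X0 Γ D k ξ) (P.X Γ D (mix (bk k) ξ η)) (dl k) N
          (GWin.sc a L) τ q).re| ≤ C / (2 ^ k) ^ A := by
  classical
  obtain ⟨k1, b, hCF⟩ := CF_path hP hκ
  have hX : Surface Γ D := hCF.hX
  have hO : Ori Γ := hCF.hO
  obtain ⟨C0, hC0, hC1⟩ := C1 hCF
  obtain ⟨C', k2, hC'1, hwts⟩ := wts hP hκ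
  obtain ⟨cc, k3, hcc, hln⟩ := ln_cmp hP hκ 1
  obtain ⟨k4, hcle⟩ := c_le hP
  obtain ⟨k5, hneg⟩ := block_neg hP hκ
  have hl : 0 < Real.log 2 := Real.log_pos (by norm_num)
  obtain ⟨A1, hA1⟩ := exists_nat_ge
    ((C' * K' + 2 + C0 * (R * K) + A * Real.log 2) / Real.log 2)
  rw [div_le_iff₀ (by positivity)] at hA1
  obtain ⟨n, Cn, hC1'⟩ := hC1 N A1
  set C : ℝ := (Cn : ℝ) + 1 with hCdef
  have hC : 1 ≤ C := by
    have : (0 : ℝ) ≤ Cn := Nat.cast_nonneg _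
    linarith
  obtain ⟨M, hM, hamp⟩ := amp_sc ha (by linarith : (0 : ℝ) ≤ R) hR' n
  have hRK : 0 ≤ R * K := by positivity
  obtain ⟨k6, hk6⟩ := GQ2b_num (R * K) C u hRK hC hu
  refine ⟨M / u ^ A1, max (max (max k1 k2) (max k3 k4)) (max k5 k6), ?_⟩
  intro k hk ξ hξ η L hL hLK τ hτ1 hτ2
  have hk1 : k1 ≤ k := le_trans (le_trans (le_max_left _ _) (le_max_left _ _))
    (le_trans (le_max_left _ _) hk)
  have hk2 : k2 ≤ k := le_trans (le_trans (le_max_right _ _) (le_max_left _ _))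
    (le_trans (le_max_left _ _) hk)
  have hk3 : k3 ≤ k := le_trans (le_trans (le_max_left _ _) (le_max_right _ _))
    (le_trans (le_max_left _ _) hk)
  have hk4 : k4 ≤ k := le_trans (le_trans (le_max_right _ _) (le_max_right _ _))
    (le_trans (le_max_left _ _) hk)
  have hk5 : k5 ≤ k := le_trans (le_max_left _ _) (le_trans (le_max_right _ _) hk)
  have hk6' : k6 ≤ k := le_trans (le_max_right _ _) (le_trans (le_max_right _ _) hk)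
  obtain ⟨g1, g2, g3, g4, g5, g6⟩ := hk6 k hk6'
  set x : ℝ := (k : ℝ) with hx
  have hx0 : 0 < x := by linarith
  set μ0 : Pl → Co := P.X0 Γ D k ξ with hμ0
  set μ : Pl → Co := P.X Γ D (mix (bk k) ξ η) with hμ
  have hn0 : ∀ z, curv μ0 z < 0 := fun z => lt_of_le_of_lt (hξ z) (by
    have : 0 < κ ^ 2 := by positivity
    linarith)
  have hn1 : ∀ z, curv μ z < 0 := fun z => lt_of_le_of_lt (hneg k hk5 ξ hξ η z) (by
    have : 0 < (κ / 2) ^ 2 := by positivity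
    linarith)
  have hm0 : HM Γ μ0 := (X_hm hP hn0).1
  obtain ⟨hm1', m', hm''⟩ := X_hm hP hn1
  have hm1 : HM Γ μ := hm1'
  have hm' : m'.1.1 = μ := hm''
  -- the parameters
  set ρ : ℝ := R * L with hρ
  have hρ1 : 1 ≤ ρ := by nlinarith
  have hρK : ρ ≤ R * K * x := by
    rw [hρ, mul_assoc]
    exact mul_le_mul_of_nonneg_left hLK (by linarith)
  obtain ⟨hamp1, -, -⟩ := hamp L hL
  obtain ⟨S, hS1, hS⟩ := S_fin hX hO hm1 (ρ := ρ) (by linarith)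
  have hS' : ∀ γ : Γ, γ ≠ 1 → (∃ z ∈ closure D, BR.ds μ z (γ • z) ≤ ρ) → γ ∈ S :=
    fun γ h1 h2 => (hS γ).2 ⟨h1, h2⟩
  have hSg : Sg (Γ := Γ) D μ N (GWin.sc a L) τ = ∑ γ ∈ S, IKN D μ N (osc (GWin.sc a L) τ) γ := by
    have h1 := Sg_eq hX hO m' N (b := GWin.sc a L) (ρ := ρ) (M := M) (by linarith) hamp1.amp τ
      (S := S) hS1 (by rw [hm']; exact hS')
    rw [hm'] at h1
    exact h1
  have hQ : ∀ q : Cg Γ, (∃ γ ∈ S, IsConj (gel q) γ) → q ∈ Cs (Γ := Γ) μ0 (K' * x) := by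
    rintro q ⟨γ, hγ, hconj⟩
    obtain ⟨-, z, -, hz⟩ := (hS γ).1 hγ
    rw [Cs_mem hX hO hm0]
    have h1 : ln μ q ≤ ρ := (ln_le hX hO hm1 hconj z).trans hz
    have h2 : ln μ0 q ≤ 2 * ln μ q := (hln k hk3 ξ hξ η q).1
    nlinarith
  have hsum := sum_cls hX hO hm1 hS1 hQ (fun γ => IKN D μ N (osc (GWin.sc a L) τ) γ)
  -- the path
  have hc0 : 0 < P.c (bk k) := lt_of_lt_of_le (Real.exp_pos _) (hcle k hk4).2
  set p : ℝ := √(P.c (bk k)) with hp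
  have hp0 : 0 ≤ p := Real.sqrt_nonneg _
  have hpe : p ≤ Real.exp (-(1 / 2) * x ^ (5 / 6 : ℝ)) := by
    rw [hp, Real.sqrt_le_left (Real.exp_pos _).le, ← Real.exp_nat_mul]
    refine (hcle k hk4).1.trans (le_of_eq ?_)
    congr 1
    push_cast
    ring
  have hx34 : 0 ≤ x ^ (3 / 4 : ℝ) := Real.rpow_nonneg hx0.le _
  have hp3 : p ≤ Real.exp (-3 * x ^ (3 / 4 : ℝ)) / Real.exp (x ^ (3 / 4 : ℝ)) := by
    rw [← Real.exp_sub]
    refine hpe.trans (Real.exp_le_exp.2 ?_)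
    linarith
  have hp1 : |p| ≤ 1 := by
    rw [abs_of_nonneg hp0]
    refine hpe.trans (Real.exp_le_one_iff.2 ?_)
    linarith
  let i : P.Bi Γ D κ k1 := ⟨(k, ξ, η), hk1, hξ⟩
  have hi0 : mm P.m (P.sP Γ D i.1) 0 = μ0 := path_zero hP (k, ξ, η)
  have hi1 : mm P.m (P.sP Γ D i.1) p = μ := path_one hP (k, ξ, η)
  set δ : ℝ := dl k with hδ
  have hδ0 : 0 < δ := Real.exp_pos _
  have hδe : δ = Real.exp (-x ^ (3 / 4 : ℝ)) := rfl
  have hδ1 : δ ≤ 1 := by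
    rw [hδe]
    exact Real.exp_le_one_iff.2 (by linarith)
  have hpoly : C * (1 + ρ) ^ C ≤ Real.exp (x ^ (3 / 4 : ℝ)) := by
    refine le_trans ?_ g2
    refine mul_le_mul_of_nonneg_left ?_ (by linarith)
    exact Real.rpow_le_rpow (by linarith) (by linarith) (by linarith)
  have hρ0 : 1 ≤ 1 + ρ := by linarith
  have hCn : (Cn : ℝ) * (1 + ρ) ^ Cn ≤ Real.exp (x ^ (3 / 4 : ℝ)) := by
    refine le_trans ?_ hpoly
    have h1 : (1 + ρ) ^ Cn ≤ (1 + ρ) ^ C := by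
      rw [← Real.rpow_natCast]
      exact Real.rpow_le_rpow_of_exponent_le hρ0 (by rw [hCdef]; linarith)
    exact mul_le_mul (by rw [hCdef]; linarith) h1 (by positivity) (by linarith)
  have hpδ : Cn * (1 + ρ) ^ Cn * |p| ≤ δ := by
    rw [abs_of_nonneg hp0, hδe]
    calc Cn * (1 + ρ) ^ Cn * p ≤ Real.exp (x ^ (3 / 4 : ℝ)) *
          (Real.exp (-3 * x ^ (3 / 4 : ℝ)) / Real.exp (x ^ (3 / 4 : ℝ))) :=
          mul_le_mul hCn hp3 hp0 (Real.exp_pos _).le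
      _ = Real.exp (-3 * x ^ (3 / 4 : ℝ)) := by
          have := (Real.exp_pos (x ^ (3 / 4 : ℝ))).ne'
          field_simp
      _ ≤ Real.exp (-x ^ (3 / 4 : ℝ)) := Real.exp_le_exp.2 (by linarith)
  have hτ0 : 1 ≤ τ := g6.trans hτ1
  have hM0 : 0 ≤ M := by linarith
  -- one class
  have hone : ∀ q : Cg Γ, |(∑ γ ∈ S with IsConj (gel q) γ, IKN D μ N (osc (GWin.sc a L) τ) γ) -
      (zl μ0 μ δ N (GWin.sc a L) τ q).re| ≤
      Cn * ((1 + ρ) / δ) ^ Cn * Real.exp (C0 * ρ) * M / τ ^ A1 := by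
    intro q
    obtain ⟨hcls, -⟩ := cls_q hX hO hm0 q
    have h1 := hC1' i p hp1 (gel q) (gpr q) (ax μ0 (gpr q)).1 (ax μ0 (gpr q)).2 (ln μ0 q)
      (lp μ0 q.1) (by rw [hi0]; exact hcls) (GWin.sc a L) ρ M τ δ (by linarith) hamp1 hτ0 hδ0 hδ1 hpδ S
      (by rw [hi1]; exact hS')
    rw [hi0, hi1] at h1
    exact h1
  -- the size of one term
  have hv : 0 < v := hu.trans huv
  have h2k : (0 : ℝ) < 2 ^ k := by positivity
  have h2e : (2 : ℝ) ^ k = Real.exp (x * Real.log 2) := by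
    rw [hx, ← Real.rpow_natCast 2 k, Real.rpow_def_of_pos (by norm_num)]
    congr 1
    ring
  have hden : u ^ A1 * Real.exp (A1 * (x * Real.log 2)) ≤ τ ^ A1 := by
    rw [Real.exp_nat_mul, ← mul_pow, ← h2e]
    exact pow_le_pow_left₀ (by positivity) hτ1 A1
  have hden0 : 0 < u ^ A1 * Real.exp (A1 * (x * Real.log 2)) := by positivity
  have hnum : Cn * ((1 + ρ) / δ) ^ Cn * Real.exp (C0 * ρ) * M ≤
      Real.exp x * Real.exp x * Real.exp (C0 * (R * K) * x) * M := by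
    have h2 : Real.exp (C0 * ρ) ≤ Real.exp (C0 * (R * K) * x) := by
      rw [Real.exp_le_exp, mul_assoc]
      exact mul_le_mul_of_nonneg_left hρK hC0
    have h3 : Cn * ((1 + ρ) / δ) ^ Cn ≤ Real.exp x * Real.exp x := by
      rw [div_pow, ← mul_div_assoc]
      have h4 : (Cn : ℝ) * (1 + ρ) ^ Cn ≤ Real.exp x := hCn.trans (Real.exp_le_exp.2 g5)
      have h5 : 1 / δ ^ Cn ≤ Real.exp x := by
        rw [hδe, ← Real.exp_nat_mul, one_div, ← Real.exp_neg]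
        refine Real.exp_le_exp.2 ?_
        have h6 : (Cn : ℝ) * x ^ (3 / 4 : ℝ) ≤ C * x ^ (3 / 4 : ℝ) :=
          mul_le_mul_of_nonneg_right (by rw [hCdef]; linarith) hx34
        linarith
      calc (Cn : ℝ) * (1 + ρ) ^ Cn / δ ^ Cn = Cn * (1 + ρ) ^ Cn * (1 / δ ^ Cn) := by ring
        _ ≤ Real.exp x * Real.exp x := mul_le_mul h4 h5 (by positivity) (Real.exp_pos _).le
    refine mul_le_mul_of_nonneg_right ?_ hM0
    exact mul_le_mul h3 h2 (Real.exp_pos _).le (by positivity)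
  have hterm : Cn * ((1 + ρ) / δ) ^ Cn * Real.exp (C0 * ρ) * M / τ ^ A1 ≤
      M / u ^ A1 * Real.exp ((2 + C0 * (R * K) - A1 * Real.log 2) * x) := by
    have h0 : 0 ≤ Cn * ((1 + ρ) / δ) ^ Cn * Real.exp (C0 * ρ) * M := by
      have : 0 ≤ (1 + ρ) / δ := by positivity
      positivity
    refine (div_le_div₀ (h0.trans hnum) hnum hden0 hden).trans (le_of_eq ?_)
    have e1 : Real.exp ((2 + C0 * (R * K) - A1 * Real.log 2) * x) =
        Real.exp x * Real.exp x * Real.exp (C0 * (R * K) * x) /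
          Real.exp (A1 * (x * Real.log 2)) := by
      rw [← Real.exp_add, ← Real.exp_add, ← Real.exp_sub]
      congr 1
      ring
    rw [e1]
    have hu' : u ^ A1 ≠ 0 := by positivity
    have he' := (Real.exp_pos (A1 * (x * Real.log 2))).ne'
    field_simp
  -- the number of the classes
  have hK'1 : 1 ≤ K' * x := by
    have h1 : 1 ≤ K' := by nlinarith
    nlinarith
  have hcard : ((Cs (Γ := Γ) μ0 (K' * x)).card : ℝ) ≤ Real.exp (C' * (K' * x)) :=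
    ((hwts k hk2 ξ hξ).2.2 (K' * x) hK'1).2.1
  rw [hSg, hsum, ← Finset.sum_sub_distrib]
  refine (Finset.abs_sum_le_sum_abs _ _).trans ?_
  refine (Finset.sum_le_sum fun q _ => (hone q).trans hterm).trans ?_
  rw [Finset.sum_const, nsmul_eq_mul]
  have hpos : 0 ≤ M / u ^ A1 * Real.exp ((2 + C0 * (R * K) - A1 * Real.log 2) * x) := by
    positivity
  refine (mul_le_mul_of_nonneg_right hcard hpos).trans ?_
  have hfin : Real.exp (C' * (K' * x)) * Real.exp ((2 + C0 * (R * K) - A1 * Real.log 2) * x) ≤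
      Real.exp (-(A * (x * Real.log 2))) := by
    rw [← Real.exp_add]
    refine Real.exp_le_exp.2 ?_
    have h1 := mul_le_mul_of_nonneg_right hA1 hx0.le
    nlinarith
  have hTA : ((2 : ℝ) ^ k) ^ A = Real.exp (A * (x * Real.log 2)) := by
    rw [h2e, ← Real.exp_nat_mul]
  rw [hTA, div_eq_mul_inv (M / u ^ A1), ← Real.exp_neg]
  have hc' : 0 ≤ M / u ^ A1 := by positivity
  calc Real.exp (C' * (K' * x)) * (M / u ^ A1 * Real.exp ((2 + C0 * (R * K) -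
        A1 * Real.log 2) * x))
      = M / u ^ A1 * (Real.exp (C' * (K' * x)) * Real.exp ((2 + C0 * (R * K) -
        A1 * Real.log 2) * x)) := by ring
    _ ≤ M / u ^ A1 * Real.exp (-(A * (x * Real.log 2))) :=
        mul_le_mul_of_nonneg_left hfin hc'

end B35
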