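import Pool.Agent.LibB35.GR9a
import Pool.Agent.LibB35.GR1

/-! Row R10a: `EF_sum` (cites `expand`, `size_est`). MEDIUM, 50 min. (General plan of R10; here only the part `EF_sum`.)
`EF_sum` (linearity): `expand` pointwise; `tm` is a measurable bounded function of `(τ, τ', ω)` (`meas`, `cj` is
continuous; bound: `size_est`), so all iterated integrals are linear: `integral_finsetSum` for `μ`, then for `τ'` and `τ`
(interval integrals; measurability of the inner integrals: `MeasureTheory.StronglyMeasurable.integral_prod_right`, and bounded on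
the interval; only the values for `τ, τ'` in the windows matter: `intervalIntegral.integral_congr`).
`EF_deg`: average of `deg_est` (the averages of a constant are the constant, `(v - u) T > 0`).
`EF_nondeg`: `norm_integral_le` with the bound of `nondeg_est` and `meas_U` (with `θ`), `wF ≥ 0`.
`comb`: split the sum over `Tu` into degenerate (`DD_mul`) and nondegenerate tuples. `card (Tu) ≤ (2 card Q)^(r+r')`. Degenerate
tuples are `Pair` (`pair_sum_type`), so `∑ wF ≤ C V^C` (`pair_sum`). For the tuples with `F.fst ∈ Bd (F.snd)`: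
`∑_F wF F ≤ ∑_e ∑_{q ∈ Bd e} ∏ w (q i)` (the map `F ↦ (F.snd, F.fst)` is injective, terms nonnegative). -/

open MeasureTheory Set Filter Topology

namespace B35

variable {P0 Ω : Type} [MeasurableSpace Ω]
variable {μ : Measure Ω} {u v T : ℝ} {r r' : ℕ} {Q : Finset (Ag P0)} {w : Ag P0 → ℝ}
  {V ε ε' εD θ : ℝ} {Z : ℝ → Ω → Ag P0 → ℂ} {Mw : Ω → Ag P0 → ℂ} {l : Ω → P0 → ℝ}
  {m0 : Ag P0 → ℂ} {Bd : (Fin r ⊕ Fin r' → Bool) → Finset (Fin r ⊕ Fin r' → Ag P0)}

private theorem GR10a_cj (e : Bool) : Measurable (cj e) := by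
  cases e
  · have h : cj false = fun z => (starRingEnd ℂ) z := by
      funext z
      simp [cj]
    rw [h]
    exact Complex.continuous_conj.measurable
  · have h : cj true = id := by
      funext z
      simp [cj]
    rw [h]
    exact measurable_id

private theorem GR10a_meas (hm : ∀ q, Measurable fun x : ℝ × Ω => Z x.1 x.2 q)
    (F : Fin r ⊕ Fin r' → Ag P0 × Bool) : Measurable fun x : (ℝ × ℝ) × Ω =>
      tm (fun i => Z (Sum.elim (fun _ => x.1.1) (fun _ => x.1.2) i) x.2) F := by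
  unfold tm
  refine Finset.measurable_prod _ fun i _ => ?_
  refine Measurable.const_mul ?_ _
  refine (GR10a_cj _).comp ?_
  have h1 : Measurable fun x : (ℝ × ℝ) × Ω =>
      ((Sum.elim (fun _ => x.1.1) (fun _ => x.1.2) i : ℝ), x.2) := by
    cases i with
    | inl j => exact (measurable_fst.comp measurable_fst).prodMk measurable_snd
    | inr j => exact (measurable_snd.comp measurable_fst).prodMk measurable_snd
  exact (hm _).comp h1

private theorem GR10a_lin [IsProbabilityMeasure μ] {ι : Type} (S : Finset ι)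
    (f : ι → ℝ → ℝ → Ω → ℂ) (hf : ∀ i ∈ S, Measurable fun x : (ℝ × ℝ) × Ω => f i x.1.1 x.1.2 x.2)
    {a b : ℝ} (hab : a ≤ b) (B : ι → ℝ)
    (hB : ∀ i ∈ S, ∀ τ τ', a ≤ τ → τ ≤ b → a ≤ τ' → τ' ≤ b → ∀ ω, ‖f i τ τ' ω‖ ≤ B i)
    (c : ℂ) (g : ℝ → ℝ → Ω → ℂ)
    (hg : ∀ τ τ', a ≤ τ → τ ≤ b → a ≤ τ' → τ' ≤ b → ∀ ω, g τ τ' ω = ∑ i ∈ S, f i τ τ' ω) :
    c * ∫ τ in a..b, c * ∫ τ' in a..b, ∫ ω, g τ τ' ω ∂μ =
      ∑ i ∈ S, c * ∫ τ in a..b, c * ∫ τ' in a..b, ∫ ω, f i τ τ' ω ∂μ := by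
  have m1 : ∀ i ∈ S, StronglyMeasurable fun y : ℝ × ℝ => ∫ ω, f i y.1 y.2 ω ∂μ := fun i hi =>
    (hf i hi).stronglyMeasurable.integral_prod_right'
  have m2 : ∀ i ∈ S, StronglyMeasurable fun τ : ℝ => ∫ τ' in a..b, ∫ ω, f i τ τ' ω ∂μ := by
    intro i hi
    simp only [intervalIntegral.integral_of_le hab]
    exact (m1 i hi).integral_prod_right' (ν := volume.restrict (Ioc a b))
  have b1 : ∀ i ∈ S, ∀ τ τ', a ≤ τ → τ ≤ b → a ≤ τ' → τ' ≤ b →
      ‖∫ ω, f i τ τ' ω ∂μ‖ ≤ B i := by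
    intro i hi τ τ' h1 h2 h3 h4
    have h5 := norm_integral_le_of_norm_le_const (μ := μ) (f := fun ω => f i τ τ' ω) (C := B i)
      (Filter.Eventually.of_forall fun ω => hB i hi τ τ' h1 h2 h3 h4 ω)
    simpa using h5
  have hI : uIoc a b = Ioc a b := uIoc_of_le hab
  have b2 : ∀ i ∈ S, ∀ τ, a ≤ τ → τ ≤ b → ‖∫ τ' in a..b, ∫ ω, f i τ τ' ω ∂μ‖ ≤ B i * |b - a| := by
    intro i hi τ h1 h2
    refine intervalIntegral.norm_integral_le_of_norm_le_const fun τ' hτ' => ?_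
    rw [hI] at hτ'
    exact b1 i hi τ τ' h1 h2 hτ'.1.le hτ'.2
  have hint : ∀ (p : ℝ → ℂ) (M : ℝ), StronglyMeasurable p → (∀ x, a ≤ x → x ≤ b → ‖p x‖ ≤ M) →
      IntervalIntegrable p volume a b := by
    intro p M hp hM
    rw [intervalIntegrable_iff_integrableOn_Ioc_of_le hab]
    refine Measure.integrableOn_of_bounded (M := M) ?_ hp.aestronglyMeasurable ?_
    · rw [Real.volume_Ioc]
      exact ENNReal.ofReal_ne_top
    · refine (ae_restrict_mem measurableSet_Ioc).mono fun x hx => ?_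
      exact hM x hx.1.le hx.2
  have hu : ∀ x, x ∈ uIcc a b → a ≤ x ∧ x ≤ b := fun x hx => by
    rw [uIcc_of_le hab] at hx
    exact hx
  have s1 : ∀ τ τ', a ≤ τ → τ ≤ b → a ≤ τ' → τ' ≤ b →
      ∫ ω, g τ τ' ω ∂μ = ∑ i ∈ S, ∫ ω, f i τ τ' ω ∂μ := by
    intro τ τ' h1 h2 h3 h4
    rw [← integral_finsetSum]
    · exact integral_congr_ae (Filter.Eventually.of_forall fun ω => hg τ τ' h1 h2 h3 h4 ω)
    · intro i hi
      have h5 : Measurable fun ω => f i τ τ' ω :=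
        (hf i hi).comp (measurable_prodMk_left (x := ((τ, τ') : ℝ × ℝ)))
      exact Integrable.of_bound h5.aestronglyMeasurable (B i)
        (Filter.Eventually.of_forall fun ω => hB i hi τ τ' h1 h2 h3 h4 ω)
  have s2 : ∀ τ, a ≤ τ → τ ≤ b → ∫ τ' in a..b, ∫ ω, g τ τ' ω ∂μ =
      ∑ i ∈ S, ∫ τ' in a..b, ∫ ω, f i τ τ' ω ∂μ := by
    intro τ h1 h2
    rw [← intervalIntegral.integral_finsetSum]
    · refine intervalIntegral.integral_congr fun τ' hτ' => ?_
      exact s1 τ τ' h1 h2 (hu τ' hτ').1 (hu τ' hτ').2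
    · intro i hi
      refine hint _ (B i) ?_ fun τ' h3 h4 => b1 i hi τ τ' h1 h2 h3 h4
      exact (m1 i hi).comp_measurable (measurable_prodMk_left (x := τ))
  have s3 : ∫ τ in a..b, c * ∫ τ' in a..b, ∫ ω, g τ τ' ω ∂μ =
      ∑ i ∈ S, ∫ τ in a..b, c * ∫ τ' in a..b, ∫ ω, f i τ τ' ω ∂μ := by
    rw [← intervalIntegral.integral_finsetSum]
    · refine intervalIntegral.integral_congr fun τ hτ => ?_
      show c * _ = ∑ i ∈ S, c * _
      rw [s2 τ (hu τ hτ).1 (hu τ hτ).2, Finset.mul_sum]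
    · intro i hi
      refine hint _ (‖c‖ * (B i * |b - a|)) ((m2 i hi).const_mul c) fun τ h1 h2 => ?_
      rw [norm_mul]
      exact mul_le_mul_of_nonneg_left (b2 i hi τ h1 h2) (norm_nonneg c)
  rw [s3, Finset.mul_sum]

theorem EF_sum (h : HB μ u v T r r' Q w V ε ε' εD θ Z Mw l m0 Bd) :
    (((1 / ((v - u) * T)) * ∫ τ in (u * T)..(v * T), (1 / ((v - u) * T)) *
      ∫ τ' in (u * T)..(v * T), ∫ ω, (∑ q ∈ Q, (Z τ ω q).re) ^ r *
        (∑ q ∈ Q, (Z τ' ω q).re) ^ r' ∂μ : ℝ) : ℂ) =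
      ∑ F ∈ Tu (Fin r ⊕ Fin r') Q, EF μ u v T Z F := by
  have := h.prob
  have hT : 0 < T := lt_of_lt_of_le one_pos h.T_pos
  have hab : u * T ≤ v * T := mul_le_mul_of_nonneg_right h.uv.le hT.le
  obtain ⟨C, -, hC⟩ := size_est r r'
  have hB := hC P0 Ω _ μ u v T Q w V ε ε' εD θ Z Mw l m0 Bd h
  have key := GR10a_lin (μ := μ) (Tu (Fin r ⊕ Fin r') Q)
    (fun F τ τ' ω => tm (fun i => Z (Sum.elim (fun _ => τ) (fun _ => τ') i) ω) F)
    (fun F _ => GR10a_meas h.meas F) hab (fun F => C * V ^ C * (wF w F + ε'))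
    (fun F hF τ τ' h1 h2 h3 h4 ω => hB F hF τ τ' h1 h2 h3 h4 ω) ((1 / ((v - u) * T) : ℝ) : ℂ)
    (fun τ τ' ω => (((∑ q ∈ Q, (Z τ ω q).re) ^ r * (∑ q ∈ Q, (Z τ' ω q).re) ^ r' : ℝ) : ℂ))
    (fun τ τ' _ _ _ _ ω => by
      beta_reduce
      rw [expand Q (Z τ ω) (Z τ' ω) r r']
      refine Finset.sum_congr rfl fun F _ => ?_
      congr 1
      funext i
      cases i <;> rfl)
  have e1 : (((1 / ((v - u) * T)) * ∫ τ in (u * T)..(v * T), (1 / ((v - u) * T)) *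
      ∫ τ' in (u * T)..(v * T), ∫ ω, (∑ q ∈ Q, (Z τ ω q).re) ^ r *
        (∑ q ∈ Q, (Z τ' ω q).re) ^ r' ∂μ : ℝ) : ℂ) =
      ((1 / ((v - u) * T) : ℝ) : ℂ) * ∫ τ in (u * T)..(v * T), ((1 / ((v - u) * T) : ℝ) : ℂ) *
        ∫ τ' in (u * T)..(v * T), ∫ ω, (((∑ q ∈ Q, (Z τ ω q).re) ^ r *
          (∑ q ∈ Q, (Z τ' ω q).re) ^ r' : ℝ) : ℂ) ∂μ := by
    rw [Complex.ofReal_mul, ← intervalIntegral.integral_ofReal]
    congr 1
    refine intervalIntegral.integral_congr fun τ _ => ?_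
    beta_reduce
    rw [Complex.ofReal_mul, ← intervalIntegral.integral_ofReal]
    congr 1
    refine intervalIntegral.integral_congr fun τ' _ => ?_
    beta_reduce
    exact integral_ofReal.symm
  rw [e1, key]
  rfl

end B35
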