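import Pool.Agent.LibB35.GR4

/-! Rows R9a, R9b (cite R4): one tuple. MEDIUM, 45 min. (The plan of R9c is for the file GR9c.) The probability space `Ω`
carries the random metrics; `Z τ ω q` is the contribution of the closed geodesic `q`.
R9a `deg_est`: `tm` of the `Z` is `∏ (1/2) cj (Z ..)`; with `phase` (product of the conjugate phases is one) it is
`∏ (1/2) a i`, `a i = cj e (Z τ_i ω q_i * exp (+ i τ_i (n_i + 1) l))`, `‖a i - cj e (m0 q_i)‖ ≤ 2 ε w + ε'` (from `app` and `par`: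
the factor `exp` has norm one), `‖m0 q‖ ≤ V w q`; `prod_close`, `prod_num`; `(1/2)^n ≤ 1`.
R9b `size`: `‖Z τ ω q‖ ≤ V w + 2 ε w + ε'`, `prod_num`.
R9c `nondeg`: fixed `(τ, τ')`, `F ∈ Tu`, not degenerate: by `und` one of three cases. (1) `≤ ε_D`. (2) `F ∈ Bd`: size. (3) all
the sums are `≤ θ`: if `F` is not `Pair`, then an index `i` is alone and `|sgn (τ_i / T) (n_i + 1)| ≥ u > θ`, contradiction;
so `F` is `Pair`; and there is `p` with `(A, B) ≠ 0`, `A = ∑_{inl, p} sgn (n+1)`, `B` the same for `inr`, integers, and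
`|τ/T A + τ'/T B| ≤ θ`. So `‖∫ tm‖ ≤ ε_D + (1_{Bd} + 1_{Pair} 1_{(τ,τ') ∈ U_F}) C V^C (wF + ε')`. -/

open MeasureTheory Set Filter Topology

namespace B35

theorem GR9a_mem {P0 I : Type} [Fintype I] {Q : Finset (Ag P0)} {F : I → Ag P0 × Bool}
    (hF : F ∈ Tu I Q) (i : I) : (F i).1 ∈ Q := by
  classical
  unfold Tu at hF
  rw [Fintype.mem_piFinset] at hF
  exact (Finset.mem_product.1 (hF i)).1

theorem GR9a_cj_one (e : Bool) : cj e 1 = 1 := by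
  cases e <;> simp [cj]

/-- Row R9a. -/
theorem deg_est (r r' : ℕ) : ∃ C : ℝ, 1 ≤ C ∧ ∀ (P0 Ω : Type) (_ : MeasurableSpace Ω)
    (μ : Measure Ω) (u v T : ℝ) (Q : Finset (Ag P0)) (w : Ag P0 → ℝ) (V ε ε' εD θ : ℝ)
    (Z : ℝ → Ω → Ag P0 → ℂ) (Mw : Ω → Ag P0 → ℂ) (l : Ω → P0 → ℝ) (m0 : Ag P0 → ℂ)
    (Bd : (Fin r ⊕ Fin r' → Bool) → Finset (Fin r ⊕ Fin r' → Ag P0)),
    HB μ u v T r r' Q w V ε ε' εD θ Z Mw l m0 Bd → ∀ F ∈ Tu (Fin r ⊕ Fin r') Q,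
    Deg (F ∘ Sum.inl) → Deg (F ∘ Sum.inr) → ∀ τ τ' : ℝ, u * T ≤ τ → τ ≤ v * T → u * T ≤ τ' →
    τ' ≤ v * T → ∀ ω,
    ‖tm (fun i => Z (Sum.elim (fun _ => τ) (fun _ => τ') i) ω) F - tm (fun _ => m0) F‖ ≤
      C * V ^ C * (ε * wF w F + ε') := by
  obtain ⟨C, hC, hC'⟩ := prod_num (Fin r ⊕ Fin r')
  refine ⟨C, hC, ?_⟩
  intro P0 Ω _ μ u v T Q w V ε ε' εD θ Z Mw l m0 Bd h F hF hd hd' τ τ' h1 h2 h3 h4 ω
  set t : Fin r ⊕ Fin r' → ℝ := Sum.elim (fun _ => τ) (fun _ => τ') with ht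
  have ht1 : ∀ i, u * T ≤ t i ∧ t i ≤ v * T := by
    rintro (i | i)
    · exact ⟨h1, h2⟩
    · exact ⟨h3, h4⟩
  set Em : Fin r ⊕ Fin r' → ℂ := fun i => Complex.exp (-(Complex.I * (t i : ℝ) *
    ((((F i).1.2.1 + 1) * l ω (F i).1.1 : ℝ) : ℂ))) with hEm
  set Ep : Fin r ⊕ Fin r' → ℂ := fun i => Complex.exp (-(Complex.I * (t i : ℝ) *
    ((((F i).1.2.1 + 1) * (-(l ω (F i).1.1)) : ℝ) : ℂ))) with hEp
  have hph : ∏ i, cj (F i).2 (Ep i) = 1 := phase hd hd' (fun p => -(l ω p)) τ τ'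
  have hEE : ∀ i, Em i * Ep i = 1 := by
    intro i
    rw [hEm, hEp]
    dsimp only
    rw [← Complex.exp_add, ← Complex.exp_zero]
    congr 1
    push_cast
    ring
  have hEn : ∀ i, ‖Ep i‖ = 1 := by
    intro i
    rw [hEp]
    dsimp only
    have e : -(Complex.I * (t i : ℝ) * ((((F i).1.2.1 + 1) * (-(l ω (F i).1.1)) : ℝ) : ℂ)) =
        ((t i * (((F i).1.2.1 + 1) * l ω (F i).1.1) : ℝ) : ℂ) * Complex.I := by
      push_cast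
      ring
    rw [e, Complex.norm_exp_ofReal_mul_I]
  have hprod : ∏ i, cj (F i).2 (Z (t i) ω (F i).1 * Ep i) = ∏ i, cj (F i).2 (Z (t i) ω (F i).1) := by
    have e : ∀ i, cj (F i).2 (Z (t i) ω (F i).1 * Ep i) =
        cj (F i).2 (Z (t i) ω (F i).1) * cj (F i).2 (Ep i) := fun i => cj_mul _ _ _
    simp_rw [e]
    rw [Finset.prod_mul_distrib, hph, mul_one]
  have key := prod_close Finset.univ (fun i => cj (F i).2 (Z (t i) ω (F i).1 * Ep i))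
    (fun i => cj (F i).2 (m0 (F i).1)) (fun i => V * w (F i).1)
    (fun i => 2 * ε * w (F i).1 + ε') (fun i _ => by
      rw [cj_norm]
      exact h.m0 _ (GR9a_mem hF i)) (fun i _ => by
      rw [← cj_sub, cj_norm]
      have a1 := h.app (t i) (ht1 i).1 (ht1 i).2 ω (F i).1 (GR9a_mem hF i)
      have a2 := h.par ω (F i).1 (GR9a_mem hF i)
      have e : Z (t i) ω (F i).1 * Ep i - m0 (F i).1 =
          (Z (t i) ω (F i).1 - Mw ω (F i).1 * Em i) * Ep i + (Mw ω (F i).1 - m0 (F i).1) := by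
        have := hEE i
        linear_combination (Mw ω (F i).1) * this
      rw [e]
      refine (norm_add_le _ _).trans ?_
      rw [norm_mul, hEn, mul_one]
      have a3 : ‖Z (t i) ω (F i).1 - Mw ω (F i).1 * Em i‖ ≤ ε * w (F i).1 + ε' := a1
      linarith)
  rw [hprod] at key
  have hfin := (hC' V ε ε' (fun i => w (F i).1) h.wt.one h.ε0.1 h.ε0.2 h.ε1.1 h.ε1.2
    (fun i => ⟨h.wt.nonneg _, h.wt.le _⟩)).1
  have hkey := key.trans hfin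
  have e1 : tm (fun i => Z (t i) ω) F - tm (fun _ => m0) F =
      (∏ _i : Fin r ⊕ Fin r', (1 / 2 : ℂ)) * (∏ i, cj (F i).2 (Z (t i) ω (F i).1) -
        ∏ i, cj (F i).2 (m0 (F i).1)) := by
    unfold tm
    rw [Finset.prod_mul_distrib, Finset.prod_mul_distrib, mul_sub]
  rw [e1, norm_mul]
  have e2 : ‖∏ _i : Fin r ⊕ Fin r', (1 / 2 : ℂ)‖ ≤ 1 := by
    rw [Finset.prod_const, norm_pow]
    exact pow_le_one₀ (norm_nonneg _) (by norm_num)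
  calc _ ≤ 1 * ‖∏ i, cj (F i).2 (Z (t i) ω (F i).1) - ∏ i, cj (F i).2 (m0 (F i).1)‖ := by
        gcongr
    _ = ‖∏ i, cj (F i).2 (Z (t i) ω (F i).1) - ∏ i, cj (F i).2 (m0 (F i).1)‖ := one_mul _
    _ ≤ _ := hkey

/-- Row R9b. -/
theorem size_est (r r' : ℕ) : ∃ C : ℝ, 1 ≤ C ∧ ∀ (P0 Ω : Type) (_ : MeasurableSpace Ω)
    (μ : Measure Ω) (u v T : ℝ) (Q : Finset (Ag P0)) (w : Ag P0 → ℝ) (V ε ε' εD θ : ℝ)
    (Z : ℝ → Ω → Ag P0 → ℂ) (Mw : Ω → Ag P0 → ℂ) (l : Ω → P0 → ℝ) (m0 : Ag P0 → ℂ)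
    (Bd : (Fin r ⊕ Fin r' → Bool) → Finset (Fin r ⊕ Fin r' → Ag P0)),
    HB μ u v T r r' Q w V ε ε' εD θ Z Mw l m0 Bd → ∀ F ∈ Tu (Fin r ⊕ Fin r') Q,
    ∀ τ τ' : ℝ, u * T ≤ τ → τ ≤ v * T → u * T ≤ τ' → τ' ≤ v * T → ∀ ω,
    ‖tm (fun i => Z (Sum.elim (fun _ => τ) (fun _ => τ') i) ω) F‖ ≤ C * V ^ C * (wF w F + ε') := by
  obtain ⟨C, hC, hC'⟩ := prod_num (Fin r ⊕ Fin r')
  refine ⟨C, hC, ?_⟩
  intro P0 Ω _ μ u v T Q w V ε ε' εD θ Z Mw l m0 Bd h F hF τ τ' h1 h2 h3 h4 ω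
  set t : Fin r ⊕ Fin r' → ℝ := Sum.elim (fun _ => τ) (fun _ => τ') with ht
  have ht1 : ∀ i, u * T ≤ t i ∧ t i ≤ v * T := by
    rintro (i | i)
    · exact ⟨h1, h2⟩
    · exact ⟨h3, h4⟩
  have hfin := (hC' V ε ε' (fun i => w (F i).1) h.wt.one h.ε0.1 h.ε0.2 h.ε1.1 h.ε1.2
    (fun i => ⟨h.wt.nonneg _, h.wt.le _⟩)).2
  refine le_trans ?_ hfin
  unfold tm
  rw [norm_prod]
  refine Finset.prod_le_prod (fun i _ => norm_nonneg _) fun i _ => ?_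
  rw [norm_mul, cj_norm]
  have a1 := h.app (t i) (ht1 i).1 (ht1 i).2 ω (F i).1 (GR9a_mem hF i)
  have a2 := h.par ω (F i).1 (GR9a_mem hF i)
  have a3 := h.m0 _ (GR9a_mem hF i)
  set E := Complex.exp (-(Complex.I * (t i) * ((((F i).1.2.1 + 1) * l ω (F i).1.1 : ℝ) : ℂ))) with hE
  have hEn : ‖E‖ = 1 := by
    rw [hE]
    have e : -(Complex.I * (t i) * ((((F i).1.2.1 + 1) * l ω (F i).1.1 : ℝ) : ℂ)) =
        ((-(t i * (((F i).1.2.1 + 1) * l ω (F i).1.1)) : ℝ) : ℂ) * Complex.I := by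
      push_cast
      ring
    rw [e, Complex.norm_exp_ofReal_mul_I]
  have e : Z (t i) ω (F i).1 = (Z (t i) ω (F i).1 - Mw ω (F i).1 * E) +
      ((Mw ω (F i).1 - m0 (F i).1) + m0 (F i).1) * E := by ring
  have hZ : ‖Z (t i) ω (F i).1‖ ≤ V * w (F i).1 + (2 * ε * w (F i).1 + ε') := by
    rw [e]
    refine (norm_add_le _ _).trans ?_
    rw [norm_mul, hEn, mul_one]
    have a4 := norm_add_le (Mw ω (F i).1 - m0 (F i).1) (m0 (F i).1)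
    linarith
  calc ‖(1 / 2 : ℂ)‖ * ‖Z (t i) ω (F i).1‖ ≤ 1 * ‖Z (t i) ω (F i).1‖ := by
        gcongr
        norm_num
    _ = ‖Z (t i) ω (F i).1‖ := one_mul _
    _ ≤ _ := hZ

end B35
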