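import Pool.Agent.LibB35.GR9a
import Pool.Agent.LibB35.GR1

/-! Row R9c (cites R9b `size_est`): one nondegenerate tuple. MEDIUM, 45 min. The probability space `Ω`
carries the random metrics; `Z τ ω q` is the contribution of the closed geodesic `q`.
R9a `deg_est`: `tm` of the `Z` is `∏ (1/2) cj (Z ..)`; with `phase` (product of the conjugate phases is one) it is
`∏ (1/2) a i`, `a i = cj e (Z τ_i ω q_i * exp (+ i τ_i (n_i + 1) l))`, `‖a i - cj e (m0 q_i)‖ ≤ 2 ε w + ε'` (from `app` and `par`: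
the factor `exp` has norm one), `‖m0 q‖ ≤ V w q`; `prod_close`, `prod_num`; `(1/2)^n ≤ 1`.
R9b `size`: `‖Z τ ω q‖ ≤ V w + 2 ε w + ε'`, `prod_num`.
R9c `nondeg`: fixed `(τ, τ')`, `F ∈ Tu`, not degenerate: by `und` one of three cases. (1) `≤ ε_D`. (2) `F ∈ Bd`: size. (3) all
the sums are `≤ θ`: if `F` is not `Pair`, then an index `i` is alone and `|sgn (τ_i / T) (n_i + 1)| ≥ u > θ`, contradiction;
so `F` is `Pair`; and there is `p` with `(A, B) ≠ 0`, `A = ∑_{inl, p} sgn (n+1)`, `B` the same for `inr`, integers, and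
`|τ/T A + τ'/T B| ≤ θ`. So `‖∫ tm‖ ≤ ε_D + (1_{Bd} + 1_{Pair} 1_{(τ,τ') ∈ U_F}) C V^C (wF + ε')`. -/

open MeasureTheory Set Filter Topology

namespace B35

theorem GR9c_int {Ω : Type} {mΩ : MeasurableSpace Ω} {μ : Measure Ω}
    (hp : IsProbabilityMeasure μ) (f : Ω → ℂ) {S : ℝ} (hf : ∀ ω, ‖f ω‖ ≤ S) :
    ‖∫ ω, f ω ∂μ‖ ≤ S := by
  have h1 := norm_integral_le_of_norm_le_const (μ := μ) (C := S) (Eventually.of_forall hf)
  simpa using h1

open Classical in
theorem GR9c_A {P0 : Type} {r : ℕ} (F : Fin r → Ag P0 × Bool) (p : P0) : ∃ A : ℤ,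
    (A : ℝ) = ∑ i with (F i).1.1 = p, sgn (F i).2 * ((F i).1.2.1 + 1) := by
  refine ⟨∑ i with (F i).1.1 = p, (if (F i).2 then 1 else -1) * ((F i).1.2.1 + 1 : ℤ), ?_⟩
  push_cast
  refine Finset.sum_congr rfl fun i _ => ?_
  unfold sgn
  split_ifs <;> simp

open Classical in
/-- Row R9c. -/
theorem nondeg_est (r r' : ℕ) : ∃ C : ℝ, 1 ≤ C ∧ ∀ (P0 Ω : Type) (_ : MeasurableSpace Ω)
    (μ : Measure Ω) (u v T : ℝ) (Q : Finset (Ag P0)) (w : Ag P0 → ℝ) (V ε ε' εD θ : ℝ)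
    (Z : ℝ → Ω → Ag P0 → ℂ) (Mw : Ω → Ag P0 → ℂ) (l : Ω → P0 → ℝ) (m0 : Ag P0 → ℂ)
    (Bd : (Fin r ⊕ Fin r' → Bool) → Finset (Fin r ⊕ Fin r' → Ag P0)),
    HB μ u v T r r' Q w V ε ε' εD θ Z Mw l m0 Bd → ∀ F ∈ Tu (Fin r ⊕ Fin r') Q,
    ¬(Deg (F ∘ Sum.inl) ∧ Deg (F ∘ Sum.inr)) → ∃ A B : ℤ, ¬(A = 0 ∧ B = 0) ∧
    ∀ τ τ' : ℝ, u * T ≤ τ → τ ≤ v * T → u * T ≤ τ' → τ' ≤ v * T →
    ‖∫ ω, tm (fun i => Z (Sum.elim (fun _ => τ) (fun _ => τ') i) ω) F ∂μ‖ ≤
      εD + (if (fun i => (F i).1) ∈ Bd (fun i => (F i).2) then C * V ^ C * (wF w F + ε') else 0) +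
        (if Pair F then C * V ^ C * (wF w F + ε') else 0) *
          (if |τ / T * A + τ' / T * B| ≤ θ then 1 else 0) := by
  obtain ⟨C, hC, hC'⟩ := size_est r r'
  refine ⟨C, hC, ?_⟩
  intro P0 Ω _ μ u v T Q w V ε ε' εD θ Z Mw l m0 Bd h F hF hnd
  have hS := hC' P0 Ω _ μ u v T Q w V ε ε' εD θ Z Mw l m0 Bd h F hF
  have hwF : 0 ≤ wF w F := Finset.prod_nonneg fun i _ => h.wt.nonneg _
  have hV := h.wt.one
  have hS0 : 0 ≤ C * V ^ C * (wF w F + ε') := by
    have := h.ε1.1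
    have hV0 : 0 ≤ V := by linarith
    positivity
  have hεD := h.εD0
  have hT : 0 < T := lt_of_lt_of_le one_pos h.T_pos
  -- the class
  obtain ⟨p, hp⟩ : ∃ p : P0, ¬ (∑ i with (F (Sum.inl i)).1.1 = p,
      sgn (F (Sum.inl i)).2 * ((F (Sum.inl i)).1.2.1 + 1) = 0 ∧
      ∑ i with (F (Sum.inr i)).1.1 = p,
      sgn (F (Sum.inr i)).2 * ((F (Sum.inr i)).1.2.1 + 1) = 0) := by
    by_contra hcon
    push Not at hcon
    exact hnd ⟨fun p => (hcon p).1, fun p => (hcon p).2⟩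
  obtain ⟨A, hA⟩ := GR9c_A (fun i => F (Sum.inl i)) p
  obtain ⟨B, hB⟩ := GR9c_A (fun i => F (Sum.inr i)) p
  refine ⟨A, B, ?_, ?_⟩
  · rintro ⟨rfl, rfl⟩
    apply hp
    rw [Int.cast_zero] at hA hB
    exact ⟨hA.symm, hB.symm⟩
  intro τ τ' h1 h2 h3 h4
  have hint : ‖∫ ω, tm (fun i => Z (Sum.elim (fun _ => τ) (fun _ => τ') i) ω) F ∂μ‖ ≤
      C * V ^ C * (wF w F + ε') :=
    GR9c_int h.prob _ (hS τ τ' h1 h2 h3 h4)
  have n1 : (0 : ℝ) ≤ (if (fun i => (F i).1) ∈ Bd (fun i => (F i).2) then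
      C * V ^ C * (wF w F + ε') else 0) := by split_ifs <;> [exact hS0; exact le_rfl]
  have n2 : (0 : ℝ) ≤ (if Pair F then C * V ^ C * (wF w F + ε') else 0) := by
    split_ifs <;> [exact hS0; exact le_rfl]
  have n3 : (0 : ℝ) ≤ (if |τ / T * A + τ' / T * B| ≤ θ then (1 : ℝ) else 0) := by
    split_ifs <;> norm_num
  have n4 := mul_nonneg n2 n3
  rcases h.und F hF τ τ' h1 h2 h3 h4 with c | c | c
  · linarith
  · rw [if_pos c]
    linarith
  · -- pair
    have ht0 : ∀ i : Fin r ⊕ Fin r', u ≤ (Sum.elim (fun _ => τ) (fun _ => τ') i : ℝ) / T := by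
      rintro (i | i)
      · rw [le_div_iff₀ hT]
        exact h1
      · rw [le_div_iff₀ hT]
        exact h3
    have hPair : Pair F := by
      by_contra hcon
      unfold Pair at hcon
      push Not at hcon
      obtain ⟨i, hi⟩ := hcon
      have c1 := c (F i).1.1
      have e1 : (Finset.univ.filter fun j => (F j).1.1 = (F i).1.1) = {i} := by
        ext j
        rw [Finset.mem_filter, Finset.mem_singleton]
        constructor
        · rintro ⟨-, hj⟩
          by_contra hji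
          exact hi j hji hj
        · rintro rfl
          exact ⟨Finset.mem_univ _, rfl⟩
      rw [e1, Finset.sum_singleton, abs_mul, abs_mul] at c1
      have e2 : |sgn (F i).2| = 1 := by
        unfold sgn
        split_ifs <;> simp
      have e3 := ht0 i
      have hu := h.u_pos
      have e4 : (1 : ℝ) ≤ |(((F i).1.2.1 : ℝ) + 1)| := by
        rw [abs_of_nonneg (by positivity)]
        have : (0 : ℝ) ≤ ((F i).1.2.1 : ℝ) := Nat.cast_nonneg _
        linarith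
      rw [e2, one_mul, abs_of_nonneg (by linarith :
        0 ≤ (Sum.elim (fun _ => τ) (fun _ => τ') i : ℝ) / T)] at c1
      have hθ := h.θ0.2
      nlinarith
    have hind : |τ / T * A + τ' / T * B| ≤ θ := by
      have c1 := c p
      rw [Finset.sum_filter, Fintype.sum_sum_type] at c1
      rw [hA, hB, Finset.mul_sum, Finset.mul_sum, Finset.sum_filter, Finset.sum_filter]
      convert c1 using 3
      · refine Finset.sum_congr rfl fun i _ => ?_
        split_ifs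
        · simp only [Sum.elim_inl]
          ring
        · rfl
      · refine Finset.sum_congr rfl fun i _ => ?_
        split_ifs
        · simp only [Sum.elim_inr]
          ring
        · rfl
    rw [if_pos hPair, if_pos hind]
    linarith

end B35
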