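import Pool.Agent.LibB35.Fam
import Pool.Agent.LibBE99.N4
import Pool.Agent.LibBE99.Q7
import Pool.Agent.LibBE99.W5

/-! Part C (helper99, LibBE99), in the definitions of `LibB35/Defs`. -/

open MeasureTheory Set Filter Topology
open scoped ContDiff unitInterval

namespace B35

open BGS BR BE
open Pool.BGR (upI)

section C

variable {Γ : Type} [Group Γ] [MulAction Γ Pl] {D : Set Pl} {ι : Type} {m : Pl → Co} {a b : ℝ}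
  {s : ι → ℝ × Pl → ℝ}

theorem IKN_eq (m' : Pl → Co) (N : ℕ) (q : ℝ → ℝ) (γ : Γ) :
    B35.IKN D m' N q γ = BE.IKN D m' N q γ := rfl

theorem ZL_eq (m0 m1 : Pl → Co) (δ : ℝ) (N : ℕ) (β : ℝ → ℂ) (τ : ℝ) (g : Γ) (x0 v0 : Pl)
    (l0 : ℝ) : B35.ZL m0 m1 δ N β τ g x0 v0 l0 = BE.ZL m0 m1 δ N β τ g x0 v0 l0 := rfl

/-- Part C1: localisation at the axis of the base metric. -/
theorem C1 (h : CF Γ D m a b s) : ∃ C0 : ℝ, 0 ≤ C0 ∧ ∀ N A : ℕ, ∃ n C : ℕ,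
    ∀ (i : ι) (p : ℝ), |p| ≤ 1 → ∀ (g g0 : Γ) (x0 v0 : Pl) (l l0 : ℝ),
      Cls (mm m (s i) 0) g g0 x0 v0 l l0 → ∀ (β : ℝ → ℂ) (ρ M τ δ : ℝ), 0 ≤ ρ →
      BE73.AmpN n β ρ M → 1 ≤ τ → 0 < δ → δ ≤ 1 → C * (1 + ρ) ^ C * |p| ≤ δ →
      ∀ S : Finset Γ, (∀ γ : Γ, γ ≠ 1 →
        (∃ x ∈ closure D, BR.ds (mm m (s i) p) x (γ • x) ≤ ρ) → γ ∈ S) →
      open Classical in
      |(∑ γ ∈ S with IsConj g γ, IKN D (mm m (s i) p) N (osc β τ) γ) -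
        (ZL (mm m (s i) 0) (mm m (s i) p) δ N β τ g x0 v0 l0).re| ≤
        C * ((1 + ρ) / δ) ^ C * Real.exp (C0 * ρ) * M / τ ^ A := by
  obtain ⟨C0, h0, H⟩ := BE.loc_IKN h
  refine ⟨C0, h0, fun N A => ?_⟩
  obtain ⟨n, C, H'⟩ := H N A
  refine ⟨n, C, fun i p hp g g0 x0 v0 l l0 hc β ρ M τ δ hρ hβ hτ hδ hδ1 hcond S hS => ?_⟩
  have h1 := H' i 0 p (by simp) (by simpa using hp) g g0 x0 v0 l l0 hc β ρ M τ δ hρ hβ hτ hδ hδ1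
    (by rw [sub_zero, Real.norm_eq_abs]; exact hcond) S hS
  simp only [IKN_eq, ZL_eq]
  convert h1 using 6

/-- Part C2: the leading term. -/
theorem C2 (h : CF Γ D m a b s) : ∃ C0 : ℝ, 0 ≤ C0 ∧ ∀ (N A : ℕ) (K : ℝ), ∃ n C : ℕ,
    ∀ (i : ι) (p : ℝ), |p| ≤ 1 → ∀ (g g0 : Γ) (x0 v0 x1 v1 : Pl) (l l0 l1 l01 : ℝ),
      Cls (mm m (s i) 0) g g0 x0 v0 l l0 → Cls (mm m (s i) p) g g0 x1 v1 l1 l01 →
      ∀ (β : ℝ → ℂ) (ρ M τ δ : ℝ), 0 ≤ ρ → BE73.AmpN n β ρ M → 1 ≤ τ → ρ ≤ K * Real.log τ →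
      0 < δ → δ ≤ 1 → C * (1 + ρ) ^ C * |p| ≤ δ →
      ‖ZL (mm m (s i) 0) (mm m (s i) p) δ N β τ g x0 v0 l0 -
        ((l01 / √(trM (mm m (s i) p) x1 v1 l1 - 2) : ℝ) : ℂ) * (β l1 *
          Complex.exp (-(Complex.I * τ * l1)))‖ ≤
        C * (1 + ρ) ^ C * (M / √τ) * (l01 / √(trM (mm m (s i) p) x1 v1 l1 - 2)) +
          C * ((1 + ρ) / δ) ^ C * Real.exp (C0 * ρ) * M / τ ^ A := by
  obtain ⟨C0, h0, H⟩ := BE.lead_ZL h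
  refine ⟨C0, h0, fun N A K => ?_⟩
  obtain ⟨n, C, H'⟩ := H N A K
  refine ⟨n, C, fun i p hp g g0 x0 v0 x1 v1 l l0 l1 l01 hc hc1 β ρ M τ δ hρ hβ hτ hρK hδ hδ1
    hcond => ?_⟩
  have h1 := H' i 0 p (by simp) (by simpa using hp) g g0 g0 x0 v0 x1 v1 l l0 l1 l01 hc hc1 β ρ M τ δ
    hρ hβ hτ hρK hδ hδ1 (by rw [sub_zero, Real.norm_eq_abs]; exact hcond)
  rw [ZL_eq]
  have e : ((l01 / √(trM (mm m (s i) p) x1 v1 l1 - 2) : ℝ) : ℂ) * (β l1 *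
      Complex.exp (-(Complex.I * τ * l1))) = l01 * (β l1 * Complex.exp (-(Complex.I * τ * l1)) /
          ((√(trM (mm m (s i) p) x1 v1 l1 - 2) : ℝ) : ℂ)) := by
    push_cast
    ring
  rw [e]
  exact h1

/-- Part C3: comparison of the lengths and the weights. -/
theorem C3 (h : CF Γ D m a b s) : ∃ C : ℝ, 1 ≤ C ∧ ∀ (i : ι) (p : ℝ), |p| ≤ 1 →
    ∀ (g g0 : Γ) (x0 v0 x1 v1 : Pl) (l l0 l1 l01 : ℝ),
      Cls (mm m (s i) 0) g g0 x0 v0 l l0 → Cls (mm m (s i) p) g g0 x1 v1 l1 l01 →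
      |l1 - l| ≤ C * (1 + l) ^ C * |p| ∧
      (C * (1 + l) ^ C * |p| ^ (1 / 50 : ℝ) ≤ 1 →
      |l01 / √(trM (mm m (s i) p) x1 v1 l1 - 2) - l0 / √(trM (mm m (s i) 0) x0 v0 l - 2)| ≤
        C * (1 + l) ^ C * |p| ^ (1 / 50 : ℝ) * (l0 / √(trM (mm m (s i) 0) x0 v0 l - 2))) := by
  obtain ⟨n, H⟩ := BE.wt_close h
  have hn : (0 : ℝ) ≤ n := Nat.cast_nonneg n
  refine ⟨(n : ℝ) + 1, by linarith, fun i p hp g g0 x0 v0 x1 v1 l l0 l1 l01 hc hc1 => ?_⟩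
  obtain ⟨h1, h2⟩ := H i 0 p (by simp) (by simpa using hp) g g0 x0 v0 x1 v1 l l0 l1 l01 hc hc1
  rw [sub_zero, Real.norm_eq_abs] at h1 h2
  have hl : 0 < l := hc.axis.pos
  have hl0 : 0 < l0 := hc.axis0.pos
  have hl1 : (1 : ℝ) ≤ 1 + l := by linarith
  have hp0 : 0 ≤ |p| := abs_nonneg p
  have e1 : (n : ℝ) * (1 + l) ^ n ≤ ((n : ℝ) + 1) * (1 + l) ^ ((n : ℝ) + 1) := by
    refine mul_le_mul (by linarith) ?_ (by positivity) (by linarith)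
    rw [← Real.rpow_natCast]
    exact Real.rpow_le_rpow_of_exponent_le hl1 (by linarith)
  have e2 : |p| ≤ |p| ^ (1 / 50 : ℝ) := by
    rcases hp0.eq_or_lt with h0 | h0
    · rw [← h0, Real.zero_rpow (by norm_num)]
    · calc |p| = |p| ^ (1 : ℝ) := (Real.rpow_one _).symm
        _ ≤ |p| ^ (1 / 50 : ℝ) := Real.rpow_le_rpow_of_exponent_ge h0 hp (by norm_num)
  have e3 : 0 ≤ (n : ℝ) * (1 + l) ^ n := by positivity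
  have e4 : (n : ℝ) * (1 + l) ^ n * |p| ≤
      ((n : ℝ) + 1) * (1 + l) ^ ((n : ℝ) + 1) * |p| ^ (1 / 50 : ℝ) :=
    mul_le_mul e1 e2 hp0 (by positivity)
  refine ⟨h1.trans (mul_le_mul_of_nonneg_right e1 hp0), fun h3 => ?_⟩
  refine (h2 (e4.trans h3)).trans ?_
  exact mul_le_mul_of_nonneg_right e4 (div_nonneg hl0.le (Real.sqrt_nonneg _))

end C

end B35
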