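import Pool.Agent.LibB35.Fam
import Pool.Agent.LibBM73.M8

/-! Part M: measurability (helper73). -/

open MeasureTheory Set Filter Topology
open scoped ContDiff unitInterval

namespace B35

open BGS BR
open Pool.BGR (upI)

/-- The symbols of the Abel transforms. -/
theorem meas_al {b : ℝ → ℂ} (hb : ContDiff ℝ ∞ b) (j : ℕ) :
    Measurable fun p : ℝ × ℝ => al j b p.1 p.2 := by
  have hb0 : Measurable b := hb.continuous.measurable
  have hb1 : Measurable (deriv b) := (hb.continuous_deriv (by simp)).measurable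
  have h1 : Measurable fun q : (ℝ × ℝ) × ℝ =>
      (-(Complex.I * q.1.1) * b (q.1.2 + q.2) + deriv b (q.1.2 + q.2)) *
      (((q.2 * (2 * q.1.2 + q.2)) ^ ((j : ℝ) - 1 / 2) : ℝ) : ℂ) *
        Complex.exp (-(Complex.I * q.1.1 * q.2)) := by
    have e1 : Measurable fun q : (ℝ × ℝ) × ℝ => ((q.1.1 : ℝ) : ℂ) :=
      Complex.measurable_ofReal.comp (measurable_fst.comp measurable_fst)
    have e2 : Measurable fun q : (ℝ × ℝ) × ℝ => ((q.2 : ℝ) : ℂ) :=
      Complex.measurable_ofReal.comp measurable_snd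
    have e3 : Measurable fun q : (ℝ × ℝ) × ℝ => q.1.2 + q.2 := by fun_prop
    have e4 : Measurable fun q : (ℝ × ℝ) × ℝ =>
        (((q.2 * (2 * q.1.2 + q.2)) ^ ((j : ℝ) - 1 / 2) : ℝ) : ℂ) := by
      refine Complex.measurable_ofReal.comp ?_
      have e5 : Measurable fun q : (ℝ × ℝ) × ℝ => q.2 * (2 * q.1.2 + q.2) := by fun_prop
      exact e5.pow_const _
    exact ((((e1.const_mul _).neg.mul (hb0.comp e3)).add (hb1.comp e3)).mul e4).mul
      (Complex.measurable_exp.comp ((e1.const_mul _).mul e2).neg)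
  have h2 := StronglyMeasurable.integral_prod_right'
    (ν := volume.restrict (Ioi (0 : ℝ))) h1.stronglyMeasurable
  exact h2.measurable.const_mul _

variable {Ω : Type} [MeasurableSpace Ω] {Γ : Type} [Group Γ] [MulAction Γ Pl] {D : Set Pl}
  {M : Ω → Pl → Co}

theorem meas_KC (hX : Surface Γ D) (h : BM73.MF Γ M) (N : ℕ) {b : ℝ → ℂ} (hb : ContDiff ℝ ∞ b)
    {C : Type} [MeasurableSpace C] {w : C → Ω} {x y : C → Pl} {t : C → ℝ} (hw : Measurable w)
    (hx : Measurable x) (hy : Measurable y) (ht : Measurable t) :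
    Measurable fun c => KC (M (w c)) N b (t c) (x c) (y c) := by
  unfold KC
  refine Finset.measurable_sum _ fun j _ => ?_
  have h0 : Measurable fun c => ((w c, x c, y c) : Ω × Pl × Pl) := hw.prodMk (hx.prodMk hy)
  have hV := (BM73.meas_Vx hX h).comp h0
  have h1 : Measurable fun c => (((w c, x c), Vx (M (w c)) (x c) (y c)) : (Ω × Pl) × Pl) :=
    (hw.prodMk hx).prodMk hV
  have hd := h.dist.comp h0
  have h2 : Measurable fun c => ((t c, BR.ds (M (w c)) (x c) (y c)) : ℝ × ℝ) := ht.prodMk hd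
  have h3 := Complex.measurable_ofReal.comp ((BM73.meas_UU hX h j).comp h1)
  have h4 := (meas_al hb j).comp h2
  have h5 := h3.mul h4
  exact h5

theorem meas_KE (hX : Surface Γ D) (h : BM73.MF Γ M) (N : ℕ) {b : ℝ → ℂ} (hb : ContDiff ℝ ∞ b)
    (g : Γ) {C : Type} [MeasurableSpace C] {w : C → Ω} {x : C → Pl} {t : C → ℝ}
    (hw : Measurable w) (hx : Measurable x) (ht : Measurable t) :
    Measurable fun c => KE (M (w c)) N b (t c) g (x c) := by
  have hy : Measurable fun c => g • x c := (hX.smooth g).continuous.measurable.comp hx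
  have h0 : Measurable fun c => ((w c, x c, g • x c) : Ω × Pl × Pl) := hw.prodMk (hx.prodMk hy)
  have hd := Complex.measurable_ofReal.comp (h.dist.comp h0)
  have ht' := Complex.measurable_ofReal.comp ht
  have h1 := meas_KC hX h N hb hw hx hy ht
  have h2 := Complex.measurable_exp.comp ((ht'.const_mul Complex.I).mul hd).neg
  have h3 := h2.mul h1
  exact h3

theorem meas_ZL (hX : Surface Γ D) (h : BM73.MF Γ M) {m0 : Pl → Co} (h0 : HM Γ m0) (δ : ℝ)
    (N : ℕ) {b : ℝ → ℂ} (hb : ContDiff ℝ ∞ b) (g : Γ) (x0 v0 : Pl) (l0 : ℝ) :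
    Measurable fun e : Ω × ℝ => ZL m0 (M e.1) δ N b e.2 g x0 v0 l0 := by
  have hF := Fm_smooth hX h0 x0 v0
  have hFc : Measurable (Fm m0 x0 v0) := hF.continuous.measurable
  have hdet : Measurable fun p : Pl => |(fderiv ℝ (Fm m0 x0 v0) p).det| := by
    have h1 : Continuous (fderiv ℝ (Fm m0 x0 v0)) := hF.continuous_fderiv (by simp)
    exact (ContinuousLinearMap.continuous_det.comp h1).abs.measurable
  have hcut : Measurable fun y : ℝ => ((cut (y / δ) : ℝ) : ℂ) :=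
    Complex.measurable_ofReal.comp (cut.continuous.measurable.comp (measurable_id.div_const δ))
  have hJ : Measurable fun q : ((Ω × ℝ) × ℝ) × ℝ => ((cut (q.2 / δ) : ℝ) : ℂ) *
      KE (M q.1.1.1) N b q.1.1.2 g (Fm m0 x0 v0 (q.1.2, q.2)) *
      ((√(dt (M q.1.1.1 (Fm m0 x0 v0 (q.1.2, q.2)))) *
        |(fderiv ℝ (Fm m0 x0 v0) (q.1.2, q.2)).det| : ℝ) : ℂ) := by
    have e1 : Measurable fun q : ((Ω × ℝ) × ℝ) × ℝ => q.1.1.1 := by fun_prop
    have e2 : Measurable fun q : ((Ω × ℝ) × ℝ) × ℝ => q.1.1.2 := by fun_prop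
    have e3 : Measurable fun q : ((Ω × ℝ) × ℝ) × ℝ => ((q.1.2, q.2) : Pl) := by fun_prop
    have e4 := hFc.comp e3
    have e5 : Measurable fun q : ((Ω × ℝ) × ℝ) × ℝ =>
        ((q.1.1.1, Fm m0 x0 v0 (q.1.2, q.2)) : Ω × Pl) := e1.prodMk e4
    exact ((hcut.comp measurable_snd).mul (meas_KE hX h N hb g e1 e4 e2)).mul
      (Complex.measurable_ofReal.comp (((BM73.meas_rho h).comp e5).mul (hdet.comp e3)))
  have h2 : StronglyMeasurable fun p : (Ω × ℝ) × ℝ => ∫ y : ℝ, ((cut (y / δ) : ℝ) : ℂ) *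
      KE (M p.1.1) N b p.1.2 g (Fm m0 x0 v0 (p.2, y)) *
      ((√(dt (M p.1.1 (Fm m0 x0 v0 (p.2, y)))) *
        |(fderiv ℝ (Fm m0 x0 v0) (p.2, y)).det| : ℝ) : ℂ) :=
    StronglyMeasurable.integral_prod_right' (ν := volume)
      (f := fun q : ((Ω × ℝ) × ℝ) × ℝ => ((cut (q.2 / δ) : ℝ) : ℂ) *
      KE (M q.1.1.1) N b q.1.1.2 g (Fm m0 x0 v0 (q.1.2, q.2)) *
      ((√(dt (M q.1.1.1 (Fm m0 x0 v0 (q.1.2, q.2)))) *
        |(fderiv ℝ (Fm m0 x0 v0) (q.1.2, q.2)).det| : ℝ) : ℂ)) hJ.stronglyMeasurable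
  have h3 := StronglyMeasurable.integral_prod_right' (ν := volume.restrict (Ioc 0 l0)) h2
  have h4 := StronglyMeasurable.integral_prod_right' (ν := volume.restrict (Ioc l0 0)) h2
  have h5 := (h3.sub h4).measurable
  exact h5

/-- The random family of area one. -/
theorem cf_X {P : Dt} (hP : OkD Γ D P) : BM73.CF Γ P.m (P.h Γ D) := by
  have h1 := BM73.CF_ex hP.cx
  have h2 := h1.norm hP.cx.hX (BM73.area_pos hP.cx.hX hP.cx.rp)
  have e : P.h Γ D = fun ξ z => BGM.ex Γ P.ψ P.L P.c ξ z -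
      Real.log (∫ w in D, √(dt (BGM.cf (BGM.ex Γ P.ψ P.L P.c ξ) P.m w))) := by
    funext ξ z
    unfold Dt.h nx
    simp only [BM73.dt_cf]
  rw [e]
  exact h2

theorem mf_X {P : Dt} (hP : OkD Γ D P) :
    BM73.MF Γ (fun w : {ξ : Dir → I // ∀ z, curv (P.X Γ D ξ) z < 0} => P.X Γ D w.1) :=
  (cf_X hP).mf hP.cx.hX

variable {P : Dt}

/-- Part M: measurability (helper73). -/
theorem meas_Sg (hP : OkD Γ D P) (N : ℕ) {b : ℝ → ℂ} {ρ M : ℝ} (hb : Amp b ρ M) :
    Measurable fun q : {ξ : Dir → I // ∀ z, curv (P.X Γ D ξ) z < 0} × ℝ =>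
      Sg (Γ := Γ) D (P.X Γ D q.1.1) N b q.2 :=
  BM73.meas_geo hP.cx.hX hP.ori (mf_X hP) N hb {γ : Γ | γ ≠ 1}

theorem meas_zl (hP : OkD Γ D P) {m0 : Pl → Co} (h0 : HM Γ m0) (δ : ℝ) (N : ℕ) {b : ℝ → ℂ}
    {ρ M : ℝ} (hb : Amp b ρ M) (q : Cg Γ) :
    Measurable fun e : {ξ : Dir → I // ∀ z, curv (P.X Γ D ξ) z < 0} × ℝ =>
      zl m0 (P.X Γ D e.1.1) δ N b e.2 q :=
  meas_ZL hP.cx.hX (mf_X hP) h0 δ N hb.smooth (gel q) (ax m0 (gpr q)).1 (ax m0 (gpr q)).2
    (lp m0 q.1)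

theorem meas_neg (hP : OkD Γ D P) : MeasurableSet {ξ : Dir → I | ∀ z, curv (P.X Γ D ξ) z < 0} ∧
    ∀ (κ : ℝ) (k : ℕ), MeasurableSet (P.B Γ D κ k) := by
  refine ⟨(cf_X hP).meas_neg hP.cx.hX, fun κ k => ?_⟩
  have h1 : Measurable fun ξ : Dir → I => zer (bk k) ξ := by
    rw [measurable_pi_iff]
    intro d
    unfold zer
    by_cases hd : d.1 = bk k
    · simp only [if_pos hd]
      exact measurable_const
    · simp only [if_neg hd]
      exact measurable_pi_apply d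
  exact h1 ((cf_X hP).meas_low (-κ ^ 2))

end B35
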